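import Mathlib

open Complex Filter Topology Set Metric

namespace Pool.Agent.H66.CI

/-- The Blaschke factor of the disc vanishing at `a`. -/
noncomputable def factor (a z : ℂ) : ℂ :=
  if a = 0 then z else ((‖a‖ : ℂ) / a) * ((a - z) / (1 - (starRingEnd ℂ) a * z))

/-- `b` is a (finite or infinite) Blaschke product on the unit disc, a unimodular
constant factor allowed. -/
def IsBlaschke (b : ℂ → ℂ) : Prop :=
  ∃ (ι : Type) (a : ι → ℂ) (c : ℂ), (∀ i, ‖a i‖ < 1) ∧ Summable (fun i => 1 - ‖a i‖) ∧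
    ‖c‖ = 1 ∧ ∀ z : ℂ, ‖z‖ < 1 → b z = c * ∏' i, factor (a i) z

lemma den_lb (a z : ℂ) :
    1 - ‖a‖ * ‖z‖ ≤ ‖1 - (starRingEnd ℂ) a * z‖ := by
  have h := norm_sub_norm_le (1 : ℂ) ((starRingEnd ℂ) a * z)
  rw [norm_mul, RCLike.norm_conj, norm_one] at h
  exact h

lemma den_pos {a z : ℂ} (ha : ‖a‖ < 1) (hz : ‖z‖ < 1) :
    0 < ‖1 - (starRingEnd ℂ) a * z‖ := by
  have h := den_lb a z
  have : ‖a‖ * ‖z‖ < 1 := by nlinarith [norm_nonneg a, norm_nonneg z]
  linarith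

lemma den_ne {a z : ℂ} (ha : ‖a‖ < 1) (hz : ‖z‖ < 1) :
    1 - (starRingEnd ℂ) a * z ≠ 0 := norm_pos_iff.1 (den_pos ha hz)

lemma sq_ident (a z : ℂ) :
    ‖1 - (starRingEnd ℂ) a * z‖ ^ 2 - ‖a - z‖ ^ 2 = (1 - ‖a‖ ^ 2) * (1 - ‖z‖ ^ 2) := by
  rw [Complex.sq_norm, Complex.sq_norm, Complex.sq_norm, Complex.sq_norm]
  simp only [Complex.normSq_apply, Complex.sub_re, Complex.sub_im, Complex.one_re, Complex.one_im,
    Complex.mul_re, Complex.mul_im, Complex.conj_re, Complex.conj_im]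
  ring

lemma one_sub_norm_factor_le {a z : ℂ} (ha : ‖a‖ < 1) (hz : ‖z‖ < 1) :
    1 - ‖factor a z‖ ≤ 4 / (1 - ‖a‖) * (1 - ‖z‖) ∧ ‖factor a z‖ ≤ 1 := by
  have h0 : 0 ≤ ‖a‖ := norm_nonneg a
  have h1 : 0 ≤ ‖z‖ := norm_nonneg z
  unfold factor
  split_ifs with h
  · subst h
    refine ⟨?_, hz.le⟩
    simp only [norm_zero, sub_zero, div_one]
    linarith
  · have ha' : ‖a‖ ≠ 0 := norm_ne_zero_iff.2 h
    have hna : 0 < ‖a‖ := norm_pos_iff.2 h
    rw [norm_mul, norm_div, norm_div, Complex.norm_real, norm_norm, div_self ha', one_mul]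
    set A := ‖a - z‖ with hA
    set D := ‖1 - (starRingEnd ℂ) a * z‖ with hD
    have hDpos : 0 < D := den_pos ha hz
    have hDlb : 1 - ‖a‖ ≤ D := by
      have := den_lb a z
      nlinarith
    have hid : D ^ 2 - A ^ 2 = (1 - ‖a‖ ^ 2) * (1 - ‖z‖ ^ 2) := sq_ident a z
    have hA0 : 0 ≤ A := norm_nonneg _
    have hAD : A ≤ D := by
      have : 0 ≤ (1 - ‖a‖ ^ 2) * (1 - ‖z‖ ^ 2) := by
        apply mul_nonneg <;> nlinarith
      have h2 : A ^ 2 ≤ D ^ 2 := by linarith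
      exact (pow_le_pow_iff_left₀ hA0 hDpos.le two_ne_zero).1 h2
    refine ⟨?_, (div_le_one hDpos).2 hAD⟩
    have e1 : 1 - A / D ≤ 1 - (A / D) ^ 2 := by
      have hq : A / D ≤ 1 := (div_le_one hDpos).2 hAD
      have hq0 : 0 ≤ A / D := by positivity
      nlinarith
    have e2 : 1 - (A / D) ^ 2 = (D ^ 2 - A ^ 2) / D ^ 2 := by
      field_simp
    have e3 : (D ^ 2 - A ^ 2) / D ^ 2 ≤ (4 * (1 - ‖a‖) * (1 - ‖z‖)) / (1 - ‖a‖) ^ 2 := by
      rw [hid]
      have hn : (1 - ‖a‖ ^ 2) * (1 - ‖z‖ ^ 2) ≤ 4 * (1 - ‖a‖) * (1 - ‖z‖) := by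
        have q1 : (1 - ‖a‖ ^ 2) * (1 - ‖z‖ ^ 2) = ((1 + ‖a‖) * (1 + ‖z‖)) * ((1 - ‖a‖) * (1 - ‖z‖)) := by ring
        have q2 : (1 + ‖a‖) * (1 + ‖z‖) ≤ 4 := by nlinarith
        have q3 : 0 ≤ (1 - ‖a‖) * (1 - ‖z‖) := by
          apply mul_nonneg <;> linarith
        rw [q1]
        nlinarith [mul_le_mul_of_nonneg_right q2 q3]
      apply div_le_div₀ _ hn _ _
      · have : 0 ≤ (1 - ‖a‖) * (1 - ‖z‖) := by
          apply mul_nonneg <;> linarith
        nlinarith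
      · have : 0 < 1 - ‖a‖ := by linarith
        positivity
      · have : 0 ≤ 1 - ‖a‖ := by linarith
        exact pow_le_pow_left₀ this hDlb 2
    have e4 : (4 * (1 - ‖a‖) * (1 - ‖z‖)) / (1 - ‖a‖) ^ 2 = 4 / (1 - ‖a‖) * (1 - ‖z‖) := by
      have : 1 - ‖a‖ ≠ 0 := by linarith
      field_simp
    linarith

lemma norm_factor_sub_one_le {a z : ℂ} (ha : ‖a‖ < 1) (hz : ‖z‖ < 1) :
    ‖factor a z - 1‖ ≤ 2 / (1 - ‖z‖) * (1 - ‖a‖) := by
  have h0 : 0 ≤ ‖a‖ := norm_nonneg a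
  have h1 : 0 ≤ ‖z‖ := norm_nonneg z
  have hz' : 0 < 1 - ‖z‖ := by linarith
  unfold factor
  split_ifs with h
  · subst h
    have : ‖z - 1‖ ≤ 2 := by
      have := norm_sub_le z 1
      rw [norm_one] at this
      linarith
    have h2 : (2 : ℝ) ≤ 2 / (1 - ‖z‖) := by
      rw [le_div_iff₀ hz']
      nlinarith
    simp only [norm_zero, sub_zero, mul_one]
    linarith
  · have hna : 0 < ‖a‖ := norm_pos_iff.2 h
    have hd := den_ne ha hz
    have hw : (starRingEnd ℂ) a * a = (‖a‖ : ℂ) ^ 2 := Complex.conj_mul' a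
    have key : ((‖a‖ : ℂ) / a) * ((a - z) / (1 - (starRingEnd ℂ) a * z)) - 1 =
        -((1 - (‖a‖ : ℂ)) * (a + (‖a‖ : ℂ) * z) / (a * (1 - (starRingEnd ℂ) a * z))) := by
      rw [div_mul_div_comm, div_sub_one (mul_ne_zero h hd), ← neg_div]
      congr 1
      linear_combination z * hw
    rw [key, norm_neg, norm_div, norm_mul, norm_mul]
    have n1 : ‖(1 - (‖a‖ : ℂ))‖ = 1 - ‖a‖ := by
      rw [show (1 - (‖a‖ : ℂ)) = ((1 - ‖a‖ : ℝ) : ℂ) by push_cast; ring, Complex.norm_real,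
        Real.norm_of_nonneg (by linarith)]
    have n2 : ‖a + (‖a‖ : ℂ) * z‖ ≤ 2 * ‖a‖ := by
      have := norm_add_le a ((‖a‖ : ℂ) * z)
      rw [norm_mul, Complex.norm_real, norm_norm] at this
      nlinarith
    have n3 : 1 - ‖z‖ ≤ ‖1 - (starRingEnd ℂ) a * z‖ := by
      have := den_lb a z
      nlinarith
    rw [n1]
    calc (1 - ‖a‖) * ‖a + (‖a‖ : ℂ) * z‖ / (‖a‖ * ‖1 - (starRingEnd ℂ) a * z‖)
        ≤ (1 - ‖a‖) * (2 * ‖a‖) / (‖a‖ * (1 - ‖z‖)) := by
          apply div_le_div₀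
          · have : 0 ≤ 1 - ‖a‖ := by linarith
            positivity
          · exact mul_le_mul_of_nonneg_left n2 (by linarith)
          · positivity
          · exact mul_le_mul_of_nonneg_left n3 h0
      _ = 2 / (1 - ‖z‖) * (1 - ‖a‖) := by
          field_simp

lemma factor_diff {a : ℂ} (ha : ‖a‖ < 1) : DifferentiableOn ℂ (factor a) (ball 0 1) := by
  intro z hz
  have hz' : ‖z‖ < 1 := by simpa using hz
  apply DifferentiableAt.differentiableWithinAt
  by_cases h : a = 0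
  · have : factor a = fun z => z := by
      funext z; simp [factor, h]
    rw [this]; exact differentiableAt_id
  · have : factor a = fun z => ((‖a‖ : ℂ) / a) * ((a - z) / (1 - (starRingEnd ℂ) a * z)) := by
      funext z; simp [factor, h]
    rw [this]
    apply DifferentiableAt.const_mul
    apply DifferentiableAt.div
    · exact (differentiableAt_const _).sub differentiableAt_id
    · exact (differentiableAt_const _).sub (differentiableAt_id.const_mul _)
    · exact den_ne ha hz'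

variable {ι : Type}

open Classical in
noncomputable def u (a : ι → ℂ) (s : Finset ι) (i : ι) (z : ℂ) : ℂ :=
  if i ∈ s then 0 else factor (a i) z - 1

noncomputable def T (a : ι → ℂ) (s : Finset ι) (z : ℂ) : ℂ := ∏' i, (1 + u a s i z)

open Classical in
noncomputable def cs (a : ι → ℂ) (s : Finset ι) (i : ι) : ℝ := if i ∈ s then 0 else 1 - ‖a i‖

lemma u_norm_le (a : ι → ℂ) (ha : ∀ i, ‖a i‖ < 1) (s : Finset ι) (i : ι) {z : ℂ} (hz : ‖z‖ < 1) :
    ‖u a s i z‖ ≤ 2 / (1 - ‖z‖) * cs a s i := by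
  unfold u cs
  split_ifs with h
  · simp
  · exact norm_factor_sub_one_le (ha i) hz

lemma cs_le (a : ι → ℂ) (ha : ∀ i, ‖a i‖ < 1) (s : Finset ι) (i : ι) : cs a s i ≤ 1 - ‖a i‖ := by
  unfold cs
  split_ifs with h
  · have := ha i; linarith
  · exact le_rfl

lemma cs_nonneg (a : ι → ℂ) (ha : ∀ i, ‖a i‖ < 1) (s : Finset ι) (i : ι) : 0 ≤ cs a s i := by
  unfold cs
  split_ifs with h
  · exact le_rfl
  · have := ha i; linarith

lemma cs_summable (a : ι → ℂ) (ha : ∀ i, ‖a i‖ < 1) (hs : Summable fun i => 1 - ‖a i‖)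
    (s : Finset ι) : Summable (cs a s) :=
  Summable.of_nonneg_of_le (cs_nonneg a ha s) (cs_le a ha s) hs

lemma u_summable (a : ι → ℂ) (ha : ∀ i, ‖a i‖ < 1) (hs : Summable fun i => 1 - ‖a i‖)
    (s : Finset ι) {z : ℂ} (hz : ‖z‖ < 1) : Summable fun i => ‖u a s i z‖ :=
  Summable.of_nonneg_of_le (fun _ => norm_nonneg _) (fun i => u_norm_le a ha s i hz)
    ((cs_summable a ha hs s).mul_left _)

lemma T_hasProd (a : ι → ℂ) (ha : ∀ i, ‖a i‖ < 1) (hs : Summable fun i => 1 - ‖a i‖)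
    (s : Finset ι) {z : ℂ} (hz : ‖z‖ < 1) : HasProd (fun i => 1 + u a s i z) (T a s z) :=
  (multipliable_one_add_of_summable (u_summable a ha hs s hz)).hasProd

lemma one_add_u_norm_le (a : ι → ℂ) (ha : ∀ i, ‖a i‖ < 1) (s : Finset ι) (i : ι) {z : ℂ}
    (hz : ‖z‖ < 1) : ‖1 + u a s i z‖ ≤ 1 := by
  unfold u
  split_ifs with h
  · simp
  · simpa using (one_sub_norm_factor_le (ha i) hz).2

lemma T_norm_le (a : ι → ℂ) (ha : ∀ i, ‖a i‖ < 1) (hs : Summable fun i => 1 - ‖a i‖)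
    (s : Finset ι) {z : ℂ} (hz : ‖z‖ < 1) : ‖T a s z‖ ≤ 1 := by
  have h := (T_hasProd a ha hs s hz).norm
  refine le_of_tendsto h (Eventually.of_forall fun t => ?_)
  exact Finset.prod_le_one (fun i _ => norm_nonneg _) (fun i _ => one_add_u_norm_le a ha s i hz)

lemma u_diff (a : ι → ℂ) (ha : ∀ i, ‖a i‖ < 1) (s : Finset ι) (i : ι) :
    DifferentiableOn ℂ (u a s i) (ball 0 1) := by
  by_cases h : i ∈ s
  · have : u a s i = fun _ => 0 := by funext z; simp [u, h]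
    rw [this]; exact differentiableOn_const _
  · have : u a s i = fun z => factor (a i) z - 1 := by funext z; simp [u, h]
    rw [this]; exact (factor_diff (ha i)).sub (differentiableOn_const _)

lemma T_diff (a : ι → ℂ) (ha : ∀ i, ‖a i‖ < 1) (hs : Summable fun i => 1 - ‖a i‖)
    (s : Finset ι) : DifferentiableOn ℂ (T a s) (ball 0 1) := by
  intro z hz
  have hz' : ‖z‖ < 1 := by simpa using hz
  obtain ⟨ρ, hρ1, hρ2⟩ := exists_between hz'
  have hsub : ball (0 : ℂ) ρ ⊆ ball 0 1 := ball_subset_ball hρ2.le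
  have hlu := Summable.hasProdLocallyUniformlyOn_one_add (K := ball (0 : ℂ) ρ)
    (f := u a s) (u := fun i => 2 / (1 - ρ) * cs a s i) isOpen_ball
    ((cs_summable a ha hs s).mul_left _)
    (Eventually.of_forall fun i x hx => by
      have hx' : ‖x‖ < ρ := by simpa using hx
      refine (u_norm_le a ha s i (hx'.trans hρ2)).trans ?_
      apply mul_le_mul_of_nonneg_right _ (cs_nonneg a ha s i)
      apply div_le_div_of_nonneg_left (by norm_num) (by linarith) (by linarith))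
    (fun i => ((u_diff a ha s i).mono hsub).continuousOn)
  have hd : DifferentiableOn ℂ (T a s) (ball 0 ρ) := by
    have h1 := hasProdLocallyUniformlyOn_iff_tendstoLocallyUniformlyOn.1 hlu
    refine TendstoLocallyUniformlyOn.differentiableOn h1 (Eventually.of_forall fun t => ?_) isOpen_ball
    apply DifferentiableOn.fun_finsetProd
    intro i _
    exact (differentiableOn_const _).add ((u_diff a ha s i).mono hsub)
  exact (hd.differentiableAt (isOpen_ball.mem_nhds (by simpa using hρ1))).differentiableWithinAt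

open Classical in
lemma T_insert (a : ι → ℂ) (ha : ∀ i, ‖a i‖ < 1) (hs : Summable fun i => 1 - ‖a i‖)
    (s : Finset ι) (j : ι) (hj : j ∉ s) {z : ℂ} (hz : ‖z‖ < 1) :
    T a s z = factor (a j) z * T a (insert j s) z := by
  have h1 := T_hasProd a ha hs (insert j s) hz
  have h2 : HasProd (fun i => if i = j then factor (a j) z else 1) (factor (a j) z) :=
    hasProd_ite_eq j _
  have h3 := h2.mul h1
  have h4 : (fun i => (if i = j then factor (a j) z else 1) * (1 + u a (insert j s) i z)) =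
      fun i => 1 + u a s i z := by
    funext i
    by_cases hi : i = j
    · subst hi
      simp [u, hj]
    · by_cases hi2 : i ∈ s
      · simp [u, hi, hi2]
      · simp [u, hi, hi2]
  rw [h4] at h3
  exact (T_hasProd a ha hs s hz).unique h3

lemma cs_tendsto (a : ι → ℂ) (hs : Summable fun i => 1 - ‖a i‖) :
    Tendsto (fun s : Finset ι => ∑' i, cs a s i) atTop (𝓝 0) := by
  classical
  have h : ∀ s : Finset ι, HasSum (cs a s) ((∑' i, (1 - ‖a i‖)) - ∑ i ∈ s, (1 - ‖a i‖)) := by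
    intro s
    have h2 : HasSum (fun i => if i ∈ s then (1 - ‖a i‖) else 0) (∑ i ∈ s, (1 - ‖a i‖)) := by
      have h5 : HasSum (fun i => if i ∈ s then (1 - ‖a i‖) else 0)
          (∑ i ∈ s, if i ∈ s then (1 - ‖a i‖) else 0) :=
        hasSum_sum_of_ne_finset_zero (fun b hb => by simp [hb])
      convert! h5 using 1
      exact Finset.sum_congr rfl fun i hi => by simp [hi]
    have h3 := hs.hasSum.sub h2
    convert! h3 using 1
    funext i
    unfold cs
    split_ifs <;> simp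
  have h2 : (fun s : Finset ι => ∑' i, cs a s i) = fun s =>
      ((∑' i, (1 - ‖a i‖)) - ∑ i ∈ s, (1 - ‖a i‖)) := by
    funext s; exact (h s).tsum_eq
  rw [h2]
  have h3 : Tendsto (fun s : Finset ι => ∑ i ∈ s, (1 - ‖a i‖)) atTop (𝓝 (∑' i, (1 - ‖a i‖))) :=
    hs.hasSum
  simpa using (tendsto_const_nhds (x := ∑' i, (1 - ‖a i‖))).sub h3

lemma T_sub_one_le (a : ι → ℂ) (ha : ∀ i, ‖a i‖ < 1) (hs : Summable fun i => 1 - ‖a i‖)
    (s : Finset ι) {z : ℂ} (hz : ‖z‖ < 1) :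
    ‖T a s z - 1‖ ≤ Real.exp (2 / (1 - ‖z‖) * ∑' i, cs a s i) - 1 := by
  have h : Tendsto (fun t : Finset ι => ‖∏ i ∈ t, (1 + u a s i z) - 1‖) atTop
      (𝓝 ‖T a s z - 1‖) := ((T_hasProd a ha hs s hz).sub_const 1).norm
  refine le_of_tendsto h (Eventually.of_forall fun t => ?_)
  refine (Finset.norm_prod_one_add_sub_one_le t _).trans ?_
  have h2 : ∑ i ∈ t, ‖u a s i z‖ ≤ 2 / (1 - ‖z‖) * ∑' i, cs a s i := by
    rw [← tsum_mul_left]
    have h3 : ∑ i ∈ t, ‖u a s i z‖ ≤ ∑ i ∈ t, 2 / (1 - ‖z‖) * cs a s i :=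
      Finset.sum_le_sum fun i _ => u_norm_le a ha s i hz
    refine h3.trans (Summable.sum_le_tsum t (fun i _ => ?_) ((cs_summable a ha hs s).mul_left _))
    have : 0 < 1 - ‖z‖ := by linarith
    have := cs_nonneg a ha s i
    positivity
  have := Real.exp_le_exp.2 h2
  linarith

lemma T_tendsto (a : ι → ℂ) (ha : ∀ i, ‖a i‖ < 1) (hs : Summable fun i => 1 - ‖a i‖)
    {z : ℂ} (hz : ‖z‖ < 1) : Tendsto (fun s : Finset ι => T a s z) atTop (𝓝 1) := by
  rw [tendsto_iff_norm_sub_tendsto_zero]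
  refine squeeze_zero (fun _ => norm_nonneg _) (fun s => T_sub_one_le a ha hs s hz) ?_
  have h1 : Tendsto (fun s : Finset ι => 2 / (1 - ‖z‖) * ∑' i, cs a s i) atTop (𝓝 (2 / (1 - ‖z‖) * 0)) :=
    (cs_tendsto a hs).const_mul _
  have h2 := (Real.continuous_exp.tendsto _).comp h1
  have h3 := h2.sub_const 1
  simpa using h3

end Pool.Agent.H66.CI
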