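import Mathlib
import Pool.Agent.H66.CI1

open Complex Filter Topology Set Metric Real

namespace Pool.Agent.H66.CI

lemma mem_ball_one {z : ℂ} : z ∈ ball (0 : ℂ) 1 ↔ ‖z‖ < 1 := by simp

lemma sphere_sub {r : ℝ} (hr1 : r < 1) : sphere (0 : ℂ) |r| ⊆ ball 0 1 ∨ r < 0 := by
  by_cases h : r < 0
  · exact Or.inr h
  · left
    intro z hz
    rw [abs_of_nonneg (not_lt.1 h)] at hz
    have : ‖z‖ = r := by simpa using hz
    rw [mem_ball_one, this]; exact hr1

lemma cint {E : Type*} [NormedAddCommGroup E] [NormedSpace ℝ E] {f : ℂ → E} {r : ℝ} (hr0 : 0 < r)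
    (hr1 : r < 1) (hf : ContinuousOn f (ball 0 1)) : CircleIntegrable f 0 r := by
  apply ContinuousOn.circleIntegrable hr0.le
  apply hf.mono
  intro z hz
  have : ‖z‖ = r := by simpa using hz
  rw [mem_ball_one, this]; exact hr1

lemma mvp {f : ℂ → ℂ} {r : ℝ} (hr0 : 0 < r) (hr1 : r < 1) (hf : DifferentiableOn ℂ f (ball 0 1)) :
    circleAverage f 0 r = f 0 := by
  apply DiffContOnCl.circleAverage
  apply DifferentiableOn.diffContOnCl
  apply hf.mono
  rw [abs_of_pos hr0, closure_ball _ hr0.ne']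
  exact closedBall_subset_ball hr1

lemma mvp2 {f : ℂ → ℂ} {r : ℝ} (hr0 : 0 < r) (hr1 : r < 1) (hf : DifferentiableOn ℂ f (ball 0 1))
    {w : ℂ} (hw : ‖w‖ < r) :
    circleAverage (fun z => ((z - 0) / (z - w)) • f z) 0 r = f w := by
  apply DiffContOnCl.circleAverage_smul_div
  · apply DifferentiableOn.diffContOnCl
    apply hf.mono
    rw [abs_of_pos hr0, closure_ball _ hr0.ne']
    exact closedBall_subset_ball hr1
  · rw [abs_of_pos hr0]; simpa using hw

lemma norm_avg_le {f : ℂ → ℂ} {r : ℝ} :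
    ‖circleAverage f 0 r‖ ≤ circleAverage (fun z => ‖f z‖) 0 r := by
  rw [circleAverage_def, circleAverage_def, norm_smul]
  rw [smul_eq_mul, Real.norm_of_nonneg (by positivity)]
  apply mul_le_mul_of_nonneg_left _ (by positivity)
  exact intervalIntegral.norm_integral_le_integral_norm (by positivity)

lemma avg_mono {f g : ℂ → ℝ} {r : ℝ} (hr0 : 0 < r) (hr1 : r < 1)
    (hf : ContinuousOn f (ball 0 1)) (hg : ContinuousOn g (ball 0 1))
    (h : ∀ z : ℂ, ‖z‖ = r → f z ≤ g z) : circleAverage f 0 r ≤ circleAverage g 0 r := by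
  apply circleAverage_mono (cint hr0 hr1 hf) (cint hr0 hr1 hg)
  intro z hz
  apply h
  simpa [abs_of_pos hr0] using hz

variable {ι : Type}

lemma one_sub_prod_le {κ : Type*} (s : Finset κ) (x : κ → ℝ) (h0 : ∀ i, 0 ≤ x i)
    (h1 : ∀ i, x i ≤ 1) :
    1 - ∏ i ∈ s, x i ≤ ∑ i ∈ s, (1 - x i) ∧ ∏ i ∈ s, x i ≤ 1 ∧ 0 ≤ ∏ i ∈ s, x i := by
  classical
  induction s using Finset.induction_on with
  | empty => simp
  | insert i s hi ih =>
    rw [Finset.prod_insert hi, Finset.sum_insert hi]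
    obtain ⟨i1, i2, i3⟩ := ih
    have := h0 i
    have := h1 i
    refine ⟨by nlinarith, by nlinarith, by positivity⟩

lemma T_empty_eq (a : ι → ℂ) (ha : ∀ i, ‖a i‖ < 1) (hs : Summable fun i => 1 - ‖a i‖)
    (s : Finset ι) {z : ℂ} (hz : ‖z‖ < 1) :
    T a ∅ z = (∏ i ∈ s, factor (a i) z) * T a s z := by
  classical
  induction s using Finset.induction_on with
  | empty => simp
  | insert i s hi ih =>
    rw [ih, T_insert a ha hs s i hi hz, Finset.prod_insert hi]
    ring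

lemma T_empty (a : ι → ℂ) (z : ℂ) : T a ∅ z = ∏' i, factor (a i) z := by
  unfold T
  congr 1
  funext i
  simp [u]

/-- mean value property of Blaschke products -/
lemma blaschke_mean (a : ι → ℂ) (ha : ∀ i, ‖a i‖ < 1) (hs : Summable fun i => 1 - ‖a i‖) :
    Tendsto (fun r : ℝ => circleAverage (fun z => 1 - ‖T a ∅ z‖) 0 r) (𝓝[<] 1) (𝓝 0) := by
  have hcont : ∀ s : Finset ι, ContinuousOn (fun z => 1 - ‖T a s z‖) (ball 0 1) := fun s =>
    continuousOn_const.sub (T_diff a ha hs s).continuousOn.norm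
  have hpos : ∀ᶠ r : ℝ in 𝓝[<] 1, 0 < r ∧ r < 1 := by
    have h1 : ∀ᶠ r : ℝ in 𝓝[<] 1, 0 < r :=
      nhdsWithin_le_nhds (lt_mem_nhds (by norm_num : (0 : ℝ) < 1))
    filter_upwards [h1, self_mem_nhdsWithin] with r h2 h3 using ⟨h2, h3⟩
  -- upper bound for each s
  have hub : ∀ s : Finset ι, ∀ r : ℝ, 0 < r → r < 1 →
      circleAverage (fun z => 1 - ‖T a ∅ z‖) 0 r ≤
        (∑ i ∈ s, 4 / (1 - ‖a i‖)) * (1 - r) + (1 - ‖T a s 0‖) := by
    intro s r hr0 hr1
    have e1 : circleAverage (fun z => 1 - ‖T a ∅ z‖) 0 r ≤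
        circleAverage (fun z => (∑ i ∈ s, 4 / (1 - ‖a i‖)) * (1 - r) + (1 - ‖T a s z‖)) 0 r := by
      apply avg_mono hr0 hr1 (hcont ∅) (continuousOn_const.add (hcont s))
      intro z hz
      have hz1 : ‖z‖ < 1 := by rw [hz]; exact hr1
      rw [T_empty_eq a ha hs s hz1, norm_mul, norm_prod]
      obtain ⟨p1, p2, p3⟩ := one_sub_prod_le s (fun i => ‖factor (a i) z‖) (fun i => norm_nonneg _)
        (fun i => (one_sub_norm_factor_le (ha i) hz1).2)
      have p4 : ∑ i ∈ s, (1 - ‖factor (a i) z‖) ≤ (∑ i ∈ s, 4 / (1 - ‖a i‖)) * (1 - r) := by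
        rw [Finset.sum_mul]
        apply Finset.sum_le_sum
        intro i _
        rw [← hz]
        exact (one_sub_norm_factor_le (ha i) hz1).1
      have p5 := T_norm_le a ha hs s hz1
      have p6 := norm_nonneg (T a s z)
      have p7 : 0 ≤ (1 - ∏ i ∈ s, ‖factor (a i) z‖) * (1 - ‖T a s z‖) :=
        mul_nonneg (by linarith) (by linarith)
      show _ ≤ (∑ i ∈ s, 4 / (1 - ‖a i‖)) * (1 - r) + (1 - ‖T a s z‖)
      nlinarith
    have e2 : circleAverage (fun z => (∑ i ∈ s, 4 / (1 - ‖a i‖)) * (1 - r) + (1 - ‖T a s z‖)) 0 r =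
        ((∑ i ∈ s, 4 / (1 - ‖a i‖)) * (1 - r) + 1) - circleAverage (fun z => ‖T a s z‖) 0 r := by
      have : (fun z => (∑ i ∈ s, 4 / (1 - ‖a i‖)) * (1 - r) + (1 - ‖T a s z‖)) =
          fun z => ((∑ i ∈ s, 4 / (1 - ‖a i‖)) * (1 - r) + 1) - ‖T a s z‖ := by
        funext z; ring
      rw [this, circleAverage_fun_sub (cint hr0 hr1 continuousOn_const)
        (cint hr0 hr1 (T_diff a ha hs s).continuousOn.norm), circleAverage_const]
    have e3 : ‖T a s 0‖ ≤ circleAverage (fun z => ‖T a s z‖) 0 r := by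
      rw [← mvp hr0 hr1 (T_diff a ha hs s)]
      exact norm_avg_le
    linarith
  have hlb : ∀ r : ℝ, 0 < r → r < 1 → 0 ≤ circleAverage (fun z => 1 - ‖T a ∅ z‖) 0 r := by
    intro r hr0 hr1
    apply circleAverage_nonneg_of_nonneg
    intro z hz
    have hz1 : ‖z‖ = r := by simpa [abs_of_pos hr0] using hz
    have := T_norm_le a ha hs ∅ (z := z) (by rw [hz1]; exact hr1)
    linarith
  rw [Metric.tendsto_nhds]
  intro ε hε
  have ht := (T_tendsto a ha hs (z := 0) (by simp)).norm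
  rw [norm_one] at ht
  obtain ⟨s, hs2⟩ := (ht.eventually (lt_mem_nhds (show 1 - ε / 2 < 1 by linarith))).exists
  have hlim : Tendsto (fun r : ℝ => (∑ i ∈ s, 4 / (1 - ‖a i‖)) * (1 - r)) (𝓝[<] 1)
      (𝓝 ((∑ i ∈ s, 4 / (1 - ‖a i‖)) * (1 - 1))) := by
    apply Tendsto.mono_left _ nhdsWithin_le_nhds
    apply Continuous.tendsto
    fun_prop
  rw [sub_self, mul_zero] at hlim
  filter_upwards [hpos, hlim.eventually (gt_mem_nhds (show 0 < ε / 2 by linarith))] with r hr hr3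
  have h1 := hub s r hr.1 hr.2
  have h2 := hlb r hr.1 hr.2
  rw [dist_zero_right, Real.norm_of_nonneg h2]
  linarith

/-- removing one Blaschke factor does not increase the sup norm -/
lemma div_one {a : ℂ} (ha : ‖a‖ < 1) {g : ℂ → ℂ} (hg : DifferentiableOn ℂ g (ball 0 1)) {M : ℝ}
    (hM : ∀ z : ℂ, ‖z‖ < 1 → ‖factor a z * g z‖ ≤ M) : ∀ z : ℂ, ‖z‖ < 1 → ‖g z‖ ≤ M := by
  intro z hz
  set C := 4 / (1 - ‖a‖) with hC
  have key : ∀ᶠ r : ℝ in 𝓝[<] 1, (1 - C * (1 - r)) * ‖g z‖ ≤ M := by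
    have h1 : ∀ᶠ r : ℝ in 𝓝[<] 1, ‖z‖ < r := nhdsWithin_le_nhds (lt_mem_nhds hz)
    have h2 : ∀ᶠ r : ℝ in 𝓝[<] 1, 0 < 1 - C * (1 - r) := by
      apply nhdsWithin_le_nhds
      have : Tendsto (fun r : ℝ => 1 - C * (1 - r)) (𝓝 1) (𝓝 (1 - C * (1 - 1))) := by
        apply Continuous.tendsto
        fun_prop
      rw [sub_self, mul_zero, sub_zero] at this
      exact this.eventually (lt_mem_nhds (by norm_num))
    filter_upwards [h1, h2, self_mem_nhdsWithin] with r hr1 hr2 hr3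
    have hr3' : r < 1 := hr3
    have hr0 : 0 < r := (norm_nonneg z).trans_lt hr1
    have hd : DiffContOnCl ℂ g (ball 0 r) := by
      apply DifferentiableOn.diffContOnCl
      apply hg.mono
      rw [closure_ball _ hr0.ne']
      exact closedBall_subset_ball hr3'
    have hb : ∀ w ∈ frontier (ball (0 : ℂ) r), ‖g w‖ ≤ M / (1 - C * (1 - r)) := by
      intro w hw
      rw [frontier_ball _ hr0.ne'] at hw
      have hw' : ‖w‖ = r := by simpa using hw
      have hw1 : ‖w‖ < 1 := by rw [hw']; exact hr3'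
      have h5 := hM w hw1
      rw [norm_mul] at h5
      have h6 := (one_sub_norm_factor_le ha hw1).1
      rw [hw'] at h6
      rw [le_div_iff₀ hr2]
      have h7 : 1 - C * (1 - r) ≤ ‖factor a w‖ := by linarith
      calc ‖g w‖ * (1 - C * (1 - r)) ≤ ‖g w‖ * ‖factor a w‖ :=
            mul_le_mul_of_nonneg_left h7 (norm_nonneg _)
        _ = ‖factor a w‖ * ‖g w‖ := mul_comm _ _
        _ ≤ M := h5
    have := Complex.norm_le_of_forall_mem_frontier_norm_le isBounded_ball hd hb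
      (subset_closure (by simpa using hr1 : z ∈ ball (0 : ℂ) r))
    rw [le_div_iff₀ hr2] at this
    linarith
  have hlim : Tendsto (fun r : ℝ => (1 - C * (1 - r)) * ‖g z‖) (𝓝[<] 1)
      (𝓝 ((1 - C * (1 - 1)) * ‖g z‖)) := by
    apply Tendsto.mono_left _ nhdsWithin_le_nhds
    apply Continuous.tendsto
    fun_prop
  have := le_of_tendsto hlim key
  simpa using this

lemma div_blaschke (a : ι → ℂ) (ha : ∀ i, ‖a i‖ < 1) (hs : Summable fun i => 1 - ‖a i‖)
    {g : ℂ → ℂ} (hg : DifferentiableOn ℂ g (ball 0 1)) {M : ℝ}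
    (hM : ∀ z : ℂ, ‖z‖ < 1 → ‖T a ∅ z * g z‖ ≤ M) : ∀ z : ℂ, ‖z‖ < 1 → ‖g z‖ ≤ M := by
  classical
  have key : ∀ s : Finset ι, ∀ z : ℂ, ‖z‖ < 1 → ‖T a s z * g z‖ ≤ M := by
    intro s
    induction s using Finset.induction_on with
    | empty => exact hM
    | insert i s hi ih =>
      refine div_one (ha i) ((T_diff a ha hs (insert i s)).mul hg) ?_
      intro z hz
      have := ih z hz
      rw [T_insert a ha hs s i hi hz, mul_assoc] at this
      exact this
  intro z hz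
  have h1 : Tendsto (fun s : Finset ι => ‖T a s z * g z‖) atTop (𝓝 ‖1 * g z‖) :=
    ((T_tendsto a ha hs hz).mul_const _).norm
  rw [one_mul] at h1
  exact le_of_tendsto h1 (Eventually.of_forall fun s => key s z hz)

end Pool.Agent.H66.CI
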