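import Mathlib
import Pool.Agent.H66.CI2

open Complex Filter Topology Set Metric Real

namespace Pool.Agent.H66.CI

lemma cint' {E : Type*} [NormedAddCommGroup E] [NormedSpace ℝ E] {f : ℂ → E} {r : ℝ} (hr0 : 0 < r)
    (hf : ContinuousOn f (sphere 0 r)) : CircleIntegrable f 0 r :=
  ContinuousOn.circleIntegrable hr0.le hf

lemma sphere_subset_ball {r : ℝ} (hr1 : r < 1) : sphere (0 : ℂ) r ⊆ ball 0 1 := by
  intro z hz
  have : ‖z‖ = r := by simpa using hz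
  rw [mem_ball_one, this]; exact hr1

lemma eventually_r {w : ℂ} (hw : ‖w‖ < 1) : ∀ᶠ r : ℝ in 𝓝[<] 1, 0 < r ∧ ‖w‖ < r ∧ r < 1 := by
  have h1 : ∀ᶠ r : ℝ in 𝓝[<] 1, ‖w‖ < r := nhdsWithin_le_nhds (lt_mem_nhds hw)
  filter_upwards [h1, self_mem_nhdsWithin] with r h2 h3
    using ⟨(norm_nonneg w).trans_lt h2, h2, h3⟩

lemma disc_key {B F b : ℂ → ℂ} {C : ℝ}
    (hB : ContinuousOn B (ball 0 1))
    (hmean : Tendsto (fun r : ℝ => circleAverage (fun z => 1 - ‖B z‖) 0 r) (𝓝[<] 1) (𝓝 0))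
    (hF : DifferentiableOn ℂ F (ball 0 1)) (hFb : ∀ z : ℂ, ‖z‖ < 1 → ‖F z‖ ≤ 2)
    (hb : DifferentiableOn ℂ b (ball 0 1)) (hb0 : ‖b 0‖ < 1)
    (hk : ∀ z : ℂ, ‖z‖ < 1 → ‖b z * F z - (starRingEnd ℂ) (F z)‖ ≤ C * (1 - ‖B z‖)) :
    ∀ z : ℂ, ‖z‖ < 1 → F z = 0 := by
  have hGd : DifferentiableOn ℂ (fun z => F z - F 0) (ball 0 1) :=
    hF.sub (differentiableOn_const _)
  have hGb : ∀ z : ℂ, ‖z‖ < 1 → ‖F z - F 0‖ ≤ 4 := by
    intro z hz
    have h1 := hFb z hz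
    have h2 := hFb 0 (by simp)
    exact (norm_sub_le _ _).trans (by linarith)
  have hconj : ContinuousOn (fun z => (starRingEnd ℂ) (F z)) (ball 0 1) :=
    Complex.continuous_conj.comp_continuousOn hF.continuousOn
  -- step A
  have hA : ∀ r : ℝ, 0 < r → r < 1 → circleAverage (fun z => ‖F z - F 0‖ ^ 2) 0 r ≤
      4 * C * circleAverage (fun z => 1 - ‖B z‖) 0 r := by
    intro r hr0 hr1
    have c1 : ContinuousOn (fun z => (F z - F 0) * ((starRingEnd ℂ) (F z) - b z * F z)) (ball 0 1) :=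
      hGd.continuousOn.mul (hconj.sub (hb.continuousOn.mul hF.continuousOn))
    have e1 : circleAverage (fun z => (F z - F 0) * (starRingEnd ℂ) (F z - F 0)) 0 r =
        circleAverage (fun z => (F z - F 0) * ((starRingEnd ℂ) (F z) - b z * F z)) 0 r := by
      have d1 : DifferentiableOn ℂ (fun z => (F z - F 0) * (b z * F z) -
          (starRingEnd ℂ) (F 0) * (F z - F 0)) (ball 0 1) :=
        (hGd.mul (hb.mul hF)).sub (hGd.const_mul _)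
      have : (fun z => (F z - F 0) * (starRingEnd ℂ) (F z - F 0)) = fun z =>
          (F z - F 0) * ((starRingEnd ℂ) (F z) - b z * F z) +
          ((F z - F 0) * (b z * F z) - (starRingEnd ℂ) (F 0) * (F z - F 0)) := by
        funext z
        rw [map_sub]; ring
      rw [this, circleAverage_fun_add (cint hr0 hr1 c1) (cint hr0 hr1 d1.continuousOn),
        mvp hr0 hr1 d1]
      simp
    have e2 : circleAverage (fun z => ‖F z - F 0‖ ^ 2) 0 r =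
        (circleAverage (fun z => (F z - F 0) * (starRingEnd ℂ) (F z - F 0)) 0 r).re := by
      have h := ContinuousLinearMap.circleAverage_comp_comm (c := 0) (R := r) Complex.reCLM
        (f := fun z => (F z - F 0) * (starRingEnd ℂ) (F z - F 0))
        (cint hr0 hr1 (hGd.continuousOn.mul
          (Complex.continuous_conj.comp_continuousOn hGd.continuousOn)))
      rw [Complex.reCLM_apply] at h
      rw [← h]
      congr 1
      funext z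
      simp only [Function.comp_apply, Complex.reCLM_apply]
      rw [Complex.mul_conj', ← Complex.ofReal_pow, Complex.ofReal_re]
    rw [e2, e1]
    refine (Complex.re_le_norm _).trans (norm_avg_le.trans ?_)
    rw [← smul_eq_mul, ← circleAverage_fun_smul]
    have c2 : ContinuousOn (fun z => (4 * C) • (1 - ‖B z‖)) (ball 0 1) := by
      have := hB.norm
      fun_prop
    apply avg_mono hr0 hr1 c1.norm c2
    intro z hz
    have hz1 : ‖z‖ < 1 := by rw [hz]; exact hr1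
    rw [norm_mul, smul_eq_mul]
    have h1 := hk z hz1
    rw [norm_sub_rev] at h1
    calc ‖F z - F 0‖ * ‖(starRingEnd ℂ) (F z) - b z * F z‖
        ≤ 4 * (C * (1 - ‖B z‖)) := mul_le_mul (hGb z hz1) h1 (norm_nonneg _) (by norm_num)
      _ = 4 * C * (1 - ‖B z‖) := by ring
  -- step B
  have hB2 : ∀ w : ℂ, ‖w‖ < 1 → F w - F 0 = 0 := by
    intro w hw
    have key : ∀ᶠ r : ℝ in 𝓝[<] 1, ‖F w - F 0‖ ^ 2 ≤
        r / (r - ‖w‖) * (4 * C * circleAverage (fun z => 1 - ‖B z‖) 0 r) := by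
      filter_upwards [eventually_r hw] with r hr
      obtain ⟨hr0, hrw, hr1⟩ := hr
      have h1 := mvp2 hr0 hr1 (hGd.pow 2) hrw
      have hsub := sphere_subset_ball hr1
      have hrw' : 0 < r - ‖w‖ := by linarith
      have h2 : ‖F w - F 0‖ ^ 2 ≤ r / (r - ‖w‖) * circleAverage (fun z => ‖F z - F 0‖ ^ 2) 0 r := by
        rw [← norm_pow]
        have h1' : circleAverage (fun z => ((z - 0) / (z - w)) • (F z - F 0) ^ 2) 0 r =
          (F w - F 0) ^ 2 := h1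
        rw [← h1']
        refine norm_avg_le.trans ?_
        rw [← smul_eq_mul, ← circleAverage_fun_smul]
        have c3 : ContinuousOn (fun z : ℂ => (z - 0) / (z - w)) (sphere 0 r) := by
          apply ContinuousOn.div (by fun_prop) (by fun_prop)
          intro z hz
          have hz' : ‖z‖ = r := by simpa using hz
          intro h0
          rw [sub_eq_zero] at h0
          rw [h0] at hz'
          linarith
        have c4 : ContinuousOn (fun z => (F z - F 0) ^ 2) (sphere 0 r) :=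
          ((hGd.pow 2).continuousOn).mono hsub
        have c5 : ContinuousOn (fun z => (r / (r - ‖w‖)) • ‖F z - F 0‖ ^ 2) (sphere 0 r) := by
          have := (hGd.continuousOn.mono hsub).norm
          fun_prop
        apply circleAverage_mono
        · apply cint' hr0
          apply ContinuousOn.norm
          exact c3.smul c4
        · exact cint' hr0 c5
        · intro z hz
          have hz' : ‖z‖ = r := by simpa [abs_of_pos hr0] using hz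
          rw [norm_smul, norm_div, norm_pow, smul_eq_mul, sub_zero, hz']
          apply mul_le_mul_of_nonneg_right _ (by positivity)
          apply div_le_div_of_nonneg_left hr0.le hrw'
          have := norm_sub_norm_le z w
          rw [hz'] at this
          exact this
      exact h2.trans (mul_le_mul_of_nonneg_left (hA r hr0 hr1) (by positivity))
    have hlim : Tendsto (fun r : ℝ => r / (r - ‖w‖) *
        (4 * C * circleAverage (fun z => 1 - ‖B z‖) 0 r)) (𝓝[<] 1)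
        (𝓝 (1 / (1 - ‖w‖) * (4 * C * 0))) := by
      apply Tendsto.mul _ (hmean.const_mul _)
      apply Tendsto.mono_left _ nhdsWithin_le_nhds
      apply Tendsto.div tendsto_id
      · exact tendsto_id.sub_const _
      · linarith
    have h3 := ge_of_tendsto hlim key
    rw [mul_zero, mul_zero] at h3
    have h4 : ‖F w - F 0‖ = 0 := by
      have := norm_nonneg (F w - F 0)
      nlinarith
    exact norm_eq_zero.1 h4
  have hFc : ∀ w : ℂ, ‖w‖ < 1 → F w = F 0 := fun w hw => sub_eq_zero.1 (hB2 w hw)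
  -- step C
  have hC : ‖b 0 * F 0 - (starRingEnd ℂ) (F 0)‖ ≤ 0 := by
    have key : ∀ᶠ r : ℝ in 𝓝[<] 1, ‖b 0 * F 0 - (starRingEnd ℂ) (F 0)‖ ≤
        C * circleAverage (fun z => 1 - ‖B z‖) 0 r := by
      filter_upwards [eventually_r (w := 0) (by simp)] with r hr
      obtain ⟨hr0, -, hr1⟩ := hr
      have d1 : DifferentiableOn ℂ (fun z => b z * F 0 - (starRingEnd ℂ) (F 0)) (ball 0 1) :=
        (hb.mul_const _).sub (differentiableOn_const _)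
      have h1 := mvp hr0 hr1 d1
      rw [← h1]
      refine norm_avg_le.trans ?_
      rw [← smul_eq_mul, ← circleAverage_fun_smul]
      have c6 : ContinuousOn (fun z => C • (1 - ‖B z‖)) (ball 0 1) := by
        have := hB.norm
        fun_prop
      apply avg_mono hr0 hr1 d1.continuousOn.norm c6
      intro z hz
      have hz1 : ‖z‖ < 1 := by rw [hz]; exact hr1
      have := hk z hz1
      rw [hFc z hz1] at this
      simpa using this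
    have := ge_of_tendsto (hmean.const_mul C) key
    simpa using this
  have h5 : b 0 * F 0 = (starRingEnd ℂ) (F 0) := by
    have := norm_le_zero_iff.1 hC
    exact sub_eq_zero.1 this
  have h6 : ‖b 0‖ * ‖F 0‖ = ‖F 0‖ := by
    rw [← norm_mul, h5, RCLike.norm_conj]
  have h7 : ‖F 0‖ = 0 := by
    have := norm_nonneg (F 0)
    nlinarith
  intro z hz
  rw [hFc z hz]
  exact norm_eq_zero.1 h7

lemma one_sub_sq_le {ξ s p q : ℂ} (hξ : ‖ξ‖ < 1) (hs : ‖s‖ ≤ 1)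
    (hq : ‖q‖ ≤ 1) (hp : ‖p‖ ≤ 1) (h1 : p * q * (1 - (starRingEnd ℂ) ξ * s) = ξ - s) :
    1 - ‖p‖ ^ 2 ≤ (1 + ‖ξ‖) / (1 - ‖ξ‖) * (1 - ‖s‖ ^ 2) := by
  have hid := sq_ident ξ s
  have hn : ‖p‖ * ‖q‖ * ‖1 - (starRingEnd ℂ) ξ * s‖ = ‖ξ - s‖ := by
    rw [← norm_mul, ← norm_mul, h1]
  set D := ‖1 - (starRingEnd ℂ) ξ * s‖ with hD
  have hDlb : 1 - ‖ξ‖ ≤ D := by
    have := den_lb ξ s
    have h0 := norm_nonneg ξ
    nlinarith
  have h0 := norm_nonneg ξ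
  have hp0 := norm_nonneg p
  have hq0 := norm_nonneg q
  have hD0 : 0 ≤ D := norm_nonneg _
  have e1 : ‖ξ - s‖ ^ 2 ≤ ‖p‖ ^ 2 * D ^ 2 := by
    rw [← hn, mul_pow, mul_pow]
    have : ‖q‖ ^ 2 ≤ 1 := by nlinarith
    have : ‖p‖ ^ 2 * ‖q‖ ^ 2 ≤ ‖p‖ ^ 2 := by
      have : 0 ≤ ‖p‖ ^ 2 := by positivity
      nlinarith
    exact mul_le_mul_of_nonneg_right this (by positivity)
  have e2 : (1 - ‖p‖ ^ 2) * D ^ 2 ≤ (1 - ‖ξ‖ ^ 2) * (1 - ‖s‖ ^ 2) := by nlinarith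
  have e3 : (1 - ‖ξ‖) ^ 2 ≤ D ^ 2 := pow_le_pow_left₀ (by linarith) hDlb 2
  have e4 : 0 ≤ 1 - ‖p‖ ^ 2 := by nlinarith
  have e5 : (1 - ‖p‖ ^ 2) * (1 - ‖ξ‖) ^ 2 ≤ (1 - ‖ξ‖ ^ 2) * (1 - ‖s‖ ^ 2) :=
    (mul_le_mul_of_nonneg_left e3 e4).trans e2
  have hpos : 0 < 1 - ‖ξ‖ := by linarith
  rw [div_mul_eq_mul_div, le_div_iff₀ hpos]
  have e6 : (1 - ‖ξ‖) * ((1 - ‖p‖ ^ 2) * (1 - ‖ξ‖)) ≤ (1 - ‖ξ‖) * ((1 + ‖ξ‖) * (1 - ‖s‖ ^ 2)) := by
    nlinarith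
  exact le_of_mul_le_mul_left e6 hpos

lemma pointwise {ξ s p p' q q' B h : ℂ} (hξ : ‖ξ‖ < 1) (hs : s ^ 2 = B) (hB : ‖B‖ ≤ 1)
    (hp : ‖p‖ ≤ 1) (hp' : ‖p'‖ ≤ 1) (hq : ‖q‖ ≤ 1) (hq' : ‖q'‖ ≤ 1)
    (h1 : p * q * (1 - (starRingEnd ℂ) ξ * s) = ξ - s)
    (h2 : p' * q' * (1 + (starRingEnd ℂ) ξ * s) = ξ + s)
    (hh : 2 * h * s = p - p') (hhb : ‖h‖ ≤ 1) :
    ‖(q * q') * (h * (1 - (starRingEnd ℂ) ξ ^ 2 * B)) -
      (starRingEnd ℂ) (h * (1 - (starRingEnd ℂ) ξ ^ 2 * B))‖ ≤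
      (4 * ((1 + ‖ξ‖) / (1 - ‖ξ‖)) + 8) * (1 - ‖B‖) := by
  set C0 := (1 + ‖ξ‖) / (1 - ‖ξ‖) with hC0
  have hξ0 := norm_nonneg ξ
  have hC0pos : 0 ≤ C0 := by
    apply div_nonneg <;> linarith
  have hsB : ‖s‖ ^ 2 = ‖B‖ := by rw [← norm_pow, hs]
  have hs1 : ‖s‖ ≤ 1 := by
    have : ‖s‖ ^ 2 ≤ 1 := by rw [hsB]; exact hB
    nlinarith [norm_nonneg s]
  have hB0 := norm_nonneg B
  have a1 : 1 - ‖p‖ ^ 2 ≤ C0 * (1 - ‖B‖) := by
    have := one_sub_sq_le hξ hs1 hq hp h1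
    rwa [hsB] at this
  have a2 : 1 - ‖p'‖ ^ 2 ≤ C0 * (1 - ‖B‖) := by
    have := one_sub_sq_le (s := -s) hξ (by rwa [norm_neg]) hq' hp' (by linear_combination h2)
    rwa [norm_neg, hsB] at this
  have a1' : 0 ≤ 1 - ‖p‖ ^ 2 := by nlinarith [norm_nonneg p]
  have a2' : 0 ≤ 1 - ‖p'‖ ^ 2 := by nlinarith [norm_nonneg p']
  -- E
  set E : ℂ := p * (1 - (‖p'‖ : ℂ) ^ 2) - p' * (1 - (‖p‖ : ℂ) ^ 2) with hE
  have hEn : ‖E‖ ≤ 2 * C0 * (1 - ‖B‖) := by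
    have n1 : ‖(1 - (‖p'‖ : ℂ) ^ 2)‖ = 1 - ‖p'‖ ^ 2 := by
      rw [show (1 - (‖p'‖ : ℂ) ^ 2) = ((1 - ‖p'‖ ^ 2 : ℝ) : ℂ) by push_cast; ring, Complex.norm_real,
        Real.norm_of_nonneg a2']
    have n2 : ‖(1 - (‖p‖ : ℂ) ^ 2)‖ = 1 - ‖p‖ ^ 2 := by
      rw [show (1 - (‖p‖ : ℂ) ^ 2) = ((1 - ‖p‖ ^ 2 : ℝ) : ℂ) by push_cast; ring, Complex.norm_real,
        Real.norm_of_nonneg a1']
    refine (norm_sub_le _ _).trans ?_
    rw [norm_mul, norm_mul, n1, n2]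
    have m1 : ‖p‖ * (1 - ‖p'‖ ^ 2) ≤ 1 - ‖p'‖ ^ 2 := by nlinarith
    have m2 : ‖p'‖ * (1 - ‖p‖ ^ 2) ≤ 1 - ‖p‖ ^ 2 := by nlinarith
    linarith
  have hEe : (p * p') * (starRingEnd ℂ) (2 * h * s) + 2 * h * s = E := by
    rw [hh, hE, map_sub, ← Complex.conj_mul', ← Complex.conj_mul']
    ring
  have hss : (starRingEnd ℂ) s * s = (‖B‖ : ℂ) := by
    rw [Complex.conj_mul', ← hsB]; push_cast; ring
  have hBB : (starRingEnd ℂ) B * B = (‖B‖ : ℂ) ^ 2 := Complex.conj_mul' B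
  -- iii
  have hiii : (p * p') * (starRingEnd ℂ) h * (‖B‖ : ℂ) + h * B = E * s / 2 := by
    rw [← hEe, ← hss, ← hs]
    simp only [map_mul, map_ofNat]
    ring
  have hprod : (p * p') * (q * q') * (1 - (starRingEnd ℂ) ξ ^ 2 * B) = ξ ^ 2 - B := by
    rw [← hs]
    linear_combination (p' * q' * (1 + (starRingEnd ℂ) ξ * s)) * h1 + (ξ - s) * h2
  set Q := 1 - (starRingEnd ℂ) ξ ^ 2 * B with hQ
  have hQc : (starRingEnd ℂ) Q = 1 - ξ ^ 2 * (starRingEnd ℂ) B := by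
    rw [hQ]; simp
  have hQn : ‖Q‖ ≤ 2 := by
    rw [hQ]
    refine (norm_sub_le _ _).trans ?_
    rw [norm_one, norm_mul, norm_pow, RCLike.norm_conj]
    have : ‖ξ‖ ^ 2 ≤ 1 := by nlinarith
    nlinarith
  have hv : (q * q') * (h * Q) * B - B * (starRingEnd ℂ) (h * Q) * (‖B‖ : ℂ) =
      (q * q') * Q * (E * s / 2) - ξ ^ 2 * (1 - (‖B‖ : ℂ) ^ 2) * (starRingEnd ℂ) h * (‖B‖ : ℂ) := by
    rw [← hiii, map_mul, hQc]
    linear_combination (-(starRingEnd ℂ) h * (‖B‖ : ℂ)) * hprod + (ξ ^ 2 * (starRingEnd ℂ) h * (‖B‖ : ℂ)) * hBB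
  have nB2 : ‖(1 - (‖B‖ : ℂ) ^ 2)‖ = 1 - ‖B‖ ^ 2 := by
    rw [show (1 - (‖B‖ : ℂ) ^ 2) = ((1 - ‖B‖ ^ 2 : ℝ) : ℂ) by push_cast; ring, Complex.norm_real,
      Real.norm_of_nonneg (by nlinarith)]
  have nB : ‖(‖B‖ : ℂ)‖ = ‖B‖ := by rw [Complex.norm_real, norm_norm]
  have hvi : ‖(q * q') * (h * Q) * B - B * (starRingEnd ℂ) (h * Q) * (‖B‖ : ℂ)‖ ≤
      (2 * C0 + 2) * (1 - ‖B‖) := by
    rw [hv]
    refine (norm_sub_le _ _).trans ?_
    have m1 : ‖(q * q') * Q * (E * s / 2)‖ ≤ 2 * C0 * (1 - ‖B‖) := by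
      rw [norm_mul, norm_mul, norm_mul, norm_div, norm_mul]
      have : ‖(2 : ℂ)‖ = 2 := by simp
      rw [this]
      have k1 : ‖q‖ * ‖q'‖ ≤ 1 := mul_le_one₀ hq (norm_nonneg _) hq'
      have k2 : ‖q‖ * ‖q'‖ * ‖Q‖ ≤ 2 := by
        calc ‖q‖ * ‖q'‖ * ‖Q‖ ≤ 1 * 2 := mul_le_mul k1 hQn (norm_nonneg _) (by norm_num)
          _ = 2 := by norm_num
      have k3 : ‖E‖ * ‖s‖ ≤ 2 * C0 * (1 - ‖B‖) := by
        have : ‖E‖ * ‖s‖ ≤ ‖E‖ := mul_le_of_le_one_right (norm_nonneg _) hs1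
        linarith
      have k4 : 0 ≤ ‖E‖ * ‖s‖ := by positivity
      have k5 : ‖q‖ * ‖q'‖ * ‖Q‖ * (‖E‖ * ‖s‖) ≤ 2 * (‖E‖ * ‖s‖) :=
        mul_le_mul_of_nonneg_right k2 k4
      have k6 : ‖q‖ * ‖q'‖ * ‖Q‖ * (‖E‖ * ‖s‖ / 2) = ‖q‖ * ‖q'‖ * ‖Q‖ * (‖E‖ * ‖s‖) / 2 := by ring
      rw [k6]
      linarith
    have m2 : ‖ξ ^ 2 * (1 - (‖B‖ : ℂ) ^ 2) * (starRingEnd ℂ) h * (‖B‖ : ℂ)‖ ≤ 2 * (1 - ‖B‖) := by
      rw [norm_mul, norm_mul, norm_mul, norm_pow, nB2, nB, RCLike.norm_conj]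
      have k1 : ‖ξ‖ ^ 2 ≤ 1 := by nlinarith
      have k2 : 0 ≤ 1 - ‖B‖ ^ 2 := by nlinarith
      have k3 : ‖ξ‖ ^ 2 * (1 - ‖B‖ ^ 2) ≤ 1 - ‖B‖ ^ 2 := mul_le_of_le_one_left k2 k1
      have k4 : ‖ξ‖ ^ 2 * (1 - ‖B‖ ^ 2) * ‖h‖ ≤ 1 - ‖B‖ ^ 2 :=
        (mul_le_of_le_one_right (by positivity) hhb).trans k3
      have k5 : ‖ξ‖ ^ 2 * (1 - ‖B‖ ^ 2) * ‖h‖ * ‖B‖ ≤ 1 - ‖B‖ ^ 2 :=
        (mul_le_of_le_one_right (by positivity) hB).trans k4
      nlinarith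
    linarith
  have hFn : ‖h * Q‖ ≤ 2 := by
    rw [norm_mul]
    have := mul_le_mul hhb hQn (norm_nonneg _) (by norm_num)
    linarith
  have hvii : ‖B‖ * ‖(q * q') * (h * Q) - (starRingEnd ℂ) (h * Q)‖ ≤ (2 * C0 + 4) * (1 - ‖B‖) := by
    rw [← norm_mul]
    have : B * ((q * q') * (h * Q) - (starRingEnd ℂ) (h * Q)) =
        ((q * q') * (h * Q) * B - B * (starRingEnd ℂ) (h * Q) * (‖B‖ : ℂ)) -
        B * (starRingEnd ℂ) (h * Q) * (1 - (‖B‖ : ℂ)) := by ring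
    rw [this]
    refine (norm_sub_le _ _).trans ?_
    have m3 : ‖B * (starRingEnd ℂ) (h * Q) * (1 - (‖B‖ : ℂ))‖ ≤ 2 * (1 - ‖B‖) := by
      rw [norm_mul, norm_mul, RCLike.norm_conj]
      have : ‖(1 - (‖B‖ : ℂ))‖ = 1 - ‖B‖ := by
        rw [show (1 - (‖B‖ : ℂ)) = ((1 - ‖B‖ : ℝ) : ℂ) by push_cast; ring, Complex.norm_real,
          Real.norm_of_nonneg (by linarith)]
      rw [this]
      have k1 : ‖B‖ * ‖h * Q‖ ≤ 1 * 2 := mul_le_mul hB hFn (norm_nonneg _) (by norm_num)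
      have k2 : ‖B‖ * ‖h * Q‖ * (1 - ‖B‖) ≤ 1 * 2 * (1 - ‖B‖) :=
        mul_le_mul_of_nonneg_right k1 (by linarith)
      linarith
    linarith
  have hfin : ‖(q * q') * (h * Q) - (starRingEnd ℂ) (h * Q)‖ ≤ 4 := by
    refine (norm_sub_le _ _).trans ?_
    rw [RCLike.norm_conj, norm_mul, norm_mul q q']
    have k1 : ‖q‖ * ‖q'‖ ≤ 1 := mul_le_one₀ hq (norm_nonneg _) hq'
    have k2 : ‖q‖ * ‖q'‖ * ‖h * Q‖ ≤ 1 * 2 := mul_le_mul k1 hFn (norm_nonneg _) (by norm_num)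
    linarith
  have hN := norm_nonneg ((q * q') * (h * Q) - (starRingEnd ℂ) (h * Q))
  generalize ‖(q * q') * (h * Q) - (starRingEnd ℂ) (h * Q)‖ = N at *
  by_cases hc : 1 / 2 ≤ ‖B‖
  · have h9 : 1 / 2 * N ≤ ‖B‖ * N := mul_le_mul_of_nonneg_right hc hN
    linarith
  · push Not at hc
    have h9 : 0 ≤ C0 * (1 - ‖B‖) := mul_nonneg hC0pos (by linarith)
    linarith

end Pool.Agent.H66.CI
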