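import Mathlib
import Pool.Agent.H66.CI3

open Complex Filter Topology Set Metric Real

namespace Pool.Agent.H66.CI

lemma half {B : ℂ → ℂ} (hBl : IsBlaschke B) {ξ : ℂ} (hξ : ‖ξ‖ < 1)
    {g1 h1 g2 h2 : ℂ → ℂ} (dh1 : DifferentiableOn ℂ h1 (ball 0 1))
    (dg2 : DifferentiableOn ℂ g2 (ball 0 1)) (dh2 : DifferentiableOn ℂ h2 (ball 0 1))
    (hpt : ∀ z : ℂ, ‖z‖ < 1 → ∃ s : ℂ, s ^ 2 = B z ∧ ‖g1 z + h1 z * s‖ < 1 ∧
      ‖g1 z - h1 z * s‖ < 1 ∧ ‖g2 z + h2 z * s‖ < 1 ∧ ‖g2 z - h2 z * s‖ < 1 ∧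
      (g1 z + h1 z * s) * (g2 z + h2 z * s) * (1 - (starRingEnd ℂ) ξ * s) = ξ - s ∧
      (g1 z - h1 z * s) * (g2 z - h2 z * s) * (1 + (starRingEnd ℂ) ξ * s) = ξ + s) :
    DifferentiableOn ℂ B (ball 0 1) ∧ (∀ z : ℂ, ‖z‖ < 1 → ‖B z‖ ≤ 1) ∧
    (∀ z : ℂ, ‖z‖ < 1 → h1 z = 0) ∧ (∃ z : ℂ, ‖z‖ < 1 ∧ B z ≠ 0) := by
  obtain ⟨ι, a, c, ha, hs, hc, hB⟩ := hBl
  have hBT : ∀ z : ℂ, ‖z‖ < 1 → B z = c * T a ∅ z := fun z hz => by rw [hB z hz, T_empty]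
  have hBn : ∀ z : ℂ, ‖z‖ < 1 → ‖B z‖ = ‖T a ∅ z‖ := fun z hz => by
    rw [hBT z hz, norm_mul, hc, one_mul]
  have hB1 : ∀ z : ℂ, ‖z‖ < 1 → ‖B z‖ ≤ 1 := fun z hz => by
    rw [hBn z hz]; exact T_norm_le a ha hs ∅ hz
  have hBd : DifferentiableOn ℂ B (ball 0 1) := by
    refine ((T_diff a ha hs ∅).const_mul c).congr ?_
    intro z hz
    exact hBT z (mem_ball_one.1 hz)
  have hmean : Tendsto (fun r : ℝ => circleAverage (fun z => 1 - ‖B z‖) 0 r) (𝓝[<] 1) (𝓝 0) := by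
    refine (blaschke_mean a ha hs).congr' ?_
    filter_upwards [eventually_r (w := 0) (by simp)] with r hr
    obtain ⟨hr0, -, hr1⟩ := hr
    apply circleAverage_congr_sphere
    intro z hz
    have hz' : ‖z‖ = r := by simpa [abs_of_pos hr0] using hz
    show 1 - ‖T a ∅ z‖ = 1 - ‖B z‖
    rw [hBn z (by rw [hz']; exact hr1)]
  have hex : ∃ z : ℂ, ‖z‖ < 1 ∧ B z ≠ 0 := by
    by_contra hcon
    push Not at hcon
    have h1 : Tendsto (fun r : ℝ => circleAverage (fun z => 1 - ‖B z‖) 0 r) (𝓝[<] 1) (𝓝 1) := by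
      refine (tendsto_const_nhds (x := (1 : ℝ))).congr' ?_
      filter_upwards [eventually_r (w := 0) (by simp)] with r hr
      obtain ⟨hr0, -, hr1⟩ := hr
      refine (circleAverage_const (1 : ℝ) (0 : ℂ) r).symm.trans ?_
      apply circleAverage_congr_sphere
      intro z hz
      have hz' : ‖z‖ = r := by simpa [abs_of_pos hr0] using hz
      show (1 : ℝ) = 1 - ‖B z‖
      rw [hcon z (by rw [hz']; exact hr1)]
      simp
    exact one_ne_zero (tendsto_nhds_unique h1 hmean)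
  have hh1 : ∀ z : ℂ, ‖z‖ < 1 → ‖h1 z‖ ≤ 1 := by
    have hsq := div_blaschke a ha hs (g := fun z => h1 z ^ 2) (M := 1) (dh1.pow 2) (by
      intro z hz
      obtain ⟨s, hs2, p1, p2, -, -, -, -⟩ := hpt z hz
      have e : ‖T a ∅ z * h1 z ^ 2‖ = ‖h1 z * s‖ ^ 2 := by
        rw [norm_mul, ← hBn z hz, ← hs2, norm_pow, norm_pow, norm_mul]
        ring
      show ‖T a ∅ z * h1 z ^ 2‖ ≤ 1
      rw [e]
      have e2 : ‖h1 z * s‖ ≤ 1 := by
        have : h1 z * s = ((g1 z + h1 z * s) - (g1 z - h1 z * s)) / 2 := by ring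
        rw [this, norm_div]
        have h3 := norm_sub_le (g1 z + h1 z * s) (g1 z - h1 z * s)
        have h4 : ‖(2 : ℂ)‖ = 2 := by simp
        rw [h4]
        linarith
      have := norm_nonneg (h1 z * s)
      nlinarith)
    intro z hz
    have h3 := hsq z hz
    simp only [norm_pow] at h3
    have := norm_nonneg (h1 z)
    nlinarith
  have hQd : DifferentiableOn ℂ (fun z => 1 - (starRingEnd ℂ) ξ ^ 2 * B z) (ball 0 1) :=
    (differentiableOn_const _).sub (hBd.const_mul _)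
  have hξ0 := norm_nonneg ξ
  have hprod : ∀ z : ℂ, ‖z‖ < 1 → ‖(starRingEnd ℂ) ξ ^ 2 * B z‖ < 1 := by
    intro z hz
    rw [norm_mul, norm_pow, RCLike.norm_conj]
    have := hB1 z hz
    have h2 := norm_nonneg (B z)
    have h3 : ‖ξ‖ ^ 2 < 1 := by nlinarith
    nlinarith [sq_nonneg ‖ξ‖]
  have key := disc_key (B := B) (F := fun z => h1 z * (1 - (starRingEnd ℂ) ξ ^ 2 * B z))
    (b := fun z => g2 z ^ 2 - B z * h2 z ^ 2) (C := 4 * ((1 + ‖ξ‖) / (1 - ‖ξ‖)) + 8)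
    hBd.continuousOn hmean (dh1.mul hQd) (by
      intro z hz
      rw [norm_mul]
      have h3 := hh1 z hz
      have h4 : ‖1 - (starRingEnd ℂ) ξ ^ 2 * B z‖ ≤ 2 := by
        refine (norm_sub_le _ _).trans ?_
        rw [norm_one]
        have := hprod z hz
        linarith
      have := mul_le_mul h3 h4 (norm_nonneg _) (by norm_num)
      linarith) ((dg2.pow 2).sub (hBd.mul (dh2.pow 2))) (by
      obtain ⟨s, hs2, -, -, p3, p4, -, -⟩ := hpt 0 (by simp)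
      have : g2 0 ^ 2 - B 0 * h2 0 ^ 2 = (g2 0 + h2 0 * s) * (g2 0 - h2 0 * s) := by
        rw [← hs2]; ring
      simp only [this, norm_mul]
      exact mul_lt_one_of_nonneg_of_lt_one_left (norm_nonneg _) p3 p4.le) (by
      intro z hz
      obtain ⟨s, hs2, p1, p2, p3, p4, p5, p6⟩ := hpt z hz
      have : g2 z ^ 2 - B z * h2 z ^ 2 = (g2 z + h2 z * s) * (g2 z - h2 z * s) := by
        rw [← hs2]; ring
      simp only [this]
      exact pointwise hξ hs2 (hB1 z hz) p1.le p2.le p3.le p4.le p5 p6 (by ring) (hh1 z hz))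
  refine ⟨hBd, hB1, ?_, hex⟩
  intro z hz
  have h3 := key z hz
  simp only [mul_eq_zero] at h3
  rcases h3 with h3 | h3
  · exact h3
  · exfalso
    have h4 : (starRingEnd ℂ) ξ ^ 2 * B z = 1 := (sub_eq_zero.1 h3).symm
    have h5 := hprod z hz
    rw [h4, norm_one] at h5
    exact lt_irrefl _ h5

lemma core {B : ℂ → ℂ} (hBl : IsBlaschke B) {ξ : ℂ} (hξ : ‖ξ‖ < 1)
    {g1 h1 g2 h2 : ℂ → ℂ} (dg1 : DifferentiableOn ℂ g1 (ball 0 1))
    (dh1 : DifferentiableOn ℂ h1 (ball 0 1))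
    (dg2 : DifferentiableOn ℂ g2 (ball 0 1)) (dh2 : DifferentiableOn ℂ h2 (ball 0 1))
    (hpt : ∀ z : ℂ, ‖z‖ < 1 → ∃ s : ℂ, s ^ 2 = B z ∧ ‖g1 z + h1 z * s‖ < 1 ∧
      ‖g1 z - h1 z * s‖ < 1 ∧ ‖g2 z + h2 z * s‖ < 1 ∧ ‖g2 z - h2 z * s‖ < 1 ∧
      (g1 z + h1 z * s) * (g2 z + h2 z * s) * (1 - (starRingEnd ℂ) ξ * s) = ξ - s ∧
      (g1 z - h1 z * s) * (g2 z - h2 z * s) * (1 + (starRingEnd ℂ) ξ * s) = ξ + s) : False := by
  obtain ⟨-, hB1, k1, z, hz, hBz⟩ := half hBl hξ dh1 dg2 dh2 hpt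
  obtain ⟨-, -, k2, -⟩ := half hBl hξ dh2 dg1 dh1 (g1 := g2) (h1 := h2) (g2 := g1) (h2 := h1) (by
    intro z hz
    obtain ⟨s, hs2, p1, p2, p3, p4, p5, p6⟩ := hpt z hz
    exact ⟨s, hs2, p3, p4, p1, p2, by rw [← p5]; ring, by rw [← p6]; ring⟩)
  obtain ⟨s, hs2, p1, p2, p3, p4, p5, p6⟩ := hpt z hz
  rw [k1 z hz, k2 z hz] at *
  simp only [zero_mul, add_zero, sub_zero] at *
  have hs0 : s ≠ 0 := by
    intro h; apply hBz; rw [← hs2, h]; simp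
  have e1 : (g1 z * g2 z * (starRingEnd ℂ) ξ - 1) * (2 * s) = 0 := by
    linear_combination p6 - p5
  have e2 : g1 z * g2 z * (starRingEnd ℂ) ξ = 1 := by
    rcases mul_eq_zero.1 e1 with h | h
    · exact sub_eq_zero.1 h
    · exfalso; exact hs0 (by simpa using h)
  have e3 := congrArg norm e2
  rw [norm_mul, norm_mul, RCLike.norm_conj, norm_one] at e3
  have e4 : ‖g1 z‖ * ‖g2 z‖ ≤ 1 := mul_le_one₀ p1.le (norm_nonneg _) p3.le
  have := norm_nonneg ξ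
  have h5 : 0 ≤ ‖g1 z‖ * ‖g2 z‖ := by positivity
  nlinarith

end Pool.Agent.H66.CI
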