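import Mathlib
import Pool.Agent.H66.CI4

open Complex Filter Topology Set Metric
open scoped Manifold ContDiff

namespace Pool.Agent.H66.CI

set_option linter.unusedSectionVars false

variable {X : Type*} [TopologicalSpace X] [ChartedSpace ℂ X]

/-- holomorphic functions on a Riemann surface -/
def Hol (f : X → ℂ) : Prop := MDifferentiable 𝓘(ℂ, ℂ) 𝓘(ℂ, ℂ) f

/-- `φ : X → 𝔻` is a two-sheeted branched covering of the open unit disc (a proper holomorphic
map, onto the disc), and `σ` is its sheet interchange: the holomorphic involution of `X`, not the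
identity, with `φ ∘ σ = φ`, the fibre of `φ` through `x` being `{x, σ x}`. -/
structure TwoSheeted (φ : X → ℂ) (σ : X → X) : Prop where
  hol : Hol φ
  lt_one : ∀ x, ‖φ x‖ < 1
  proper : ∀ K : Set ℂ, IsCompact K → K ⊆ ball 0 1 → IsCompact (φ ⁻¹' K)
  surj : ∀ z : ℂ, ‖z‖ < 1 → ∃ x, φ x = z
  holσ : MDifferentiable 𝓘(ℂ, ℂ) 𝓘(ℂ, ℂ) σ
  invol : ∀ x, σ (σ x) = x
  ne_id : σ ≠ id
  comp : ∀ x, φ (σ x) = φ x
  fibre : ∀ x y, φ x = φ y → y = x ∨ y = σ x

/-- `x` is a critical point of `φ`: `dφ(x) = 0`. -/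
def Crit (φ : X → ℂ) (x : X) : Prop := mfderiv 𝓘(ℂ, ℂ) 𝓘(ℂ, ℂ) φ x = 0

variable [IsManifold 𝓘(ℂ, ℂ) ω X]

lemma chart_diff {f : X → ℂ} (hf : Hol f) (x : X) :
    DifferentiableOn ℂ (f ∘ (extChartAt 𝓘(ℂ, ℂ) x).symm) (extChartAt 𝓘(ℂ, ℂ) x).target := by
  rw [← mdifferentiableOn_iff_differentiableOn]
  have h1 : MDifferentiableOn 𝓘(ℂ, ℂ) 𝓘(ℂ, ℂ) (extChartAt 𝓘(ℂ, ℂ) x).symm
      (extChartAt 𝓘(ℂ, ℂ) x).target := mdifferentiableOn_extChartAt_symm
  intro y hy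
  exact (hf _).comp_mdifferentiableWithinAt y (h1 y hy)

lemma chart_analytic {f : X → ℂ} (hf : Hol f) (x : X) :
    AnalyticAt ℂ (f ∘ (extChartAt 𝓘(ℂ, ℂ) x).symm) (extChartAt 𝓘(ℂ, ℂ) x x) :=
  (chart_diff hf x).analyticAt ((isOpen_extChartAt_target x).mem_nhds (mem_extChartAt_target x))

lemma deriv_ne {φ : X → ℂ} (hφ : Hol φ) (x : X) (hx : ¬ Crit φ x) :
    deriv (φ ∘ (extChartAt 𝓘(ℂ, ℂ) x).symm) (extChartAt 𝓘(ℂ, ℂ) x x) ≠ 0 := by
  intro h
  apply hx
  unfold Crit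
  rw [(hφ x).mfderiv]
  have h1 : (writtenInExtChartAt 𝓘(ℂ, ℂ) 𝓘(ℂ, ℂ) x φ) = φ ∘ (extChartAt 𝓘(ℂ, ℂ) x).symm := by
    funext y
    show (extChartAt 𝓘(ℂ, ℂ) (φ x)) (φ ((extChartAt 𝓘(ℂ, ℂ) x).symm y)) = _
    rw [extChartAt_model_space_eq_id]
    rfl
  rw [h1]
  have h2 : range (𝓘(ℂ, ℂ) : ModelWithCorners ℂ ℂ ℂ) = univ := by simp
  rw [h2, fderivWithin_univ]
  have h3 : fderiv ℂ (φ ∘ (extChartAt 𝓘(ℂ, ℂ) x).symm) (extChartAt 𝓘(ℂ, ℂ) x x) =
      (0 : ℂ →L[ℂ] ℂ) := by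
    apply ContinuousLinearMap.ext_ring
    rw [fderiv_apply_one_eq_deriv, h]
    rfl
  exact h3

variable {φ : X → ℂ} {σ : X → X}

/-- descent of `σ`-invariant functions -/
lemma descend (hφ : TwoSheeted φ σ) {B : ℂ → ℂ} (hBd : DifferentiableOn ℂ B (ball 0 1))
    (hBz : ∀ z : ℂ, ‖z‖ < 1 → (B z = 0 ↔ ∃ x, Crit φ x ∧ φ x = z))
    (hBs : ∀ z : ℂ, ‖z‖ < 1 → B z = 0 → deriv B z ≠ 0)
    {f : X → ℂ} (hf : Hol f) (hs : ∀ x, f (σ x) = f x) :
    ∃ g : ℂ → ℂ, DifferentiableOn ℂ g (ball 0 1) ∧ ∀ x, f x = g (φ x) := by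
  classical
  set g : ℂ → ℂ := fun z => if h : ∃ x, φ x = z then f h.choose else 0 with hg
  have hgφ : ∀ x, g (φ x) = f x := by
    intro x
    have h : ∃ y, φ y = φ x := ⟨x, rfl⟩
    rw [hg]
    simp only [h, dif_pos]
    rcases hφ.fibre _ _ h.choose_spec with h2 | h2
    · rw [← h2]
    · rw [show f x = f (σ h.choose) by rw [← h2], hs]
  have hfc : Continuous f := hf.continuous
  have hφc : Continuous φ := hφ.hol.continuous
  have hgc : ∀ z : ℂ, ‖z‖ < 1 → ContinuousAt g z := by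
    intro z hz
    obtain ⟨r, hr1, hr2⟩ := exists_between hz
    rw [ContinuousAt, _root_.tendsto_nhds]
    intro U hU hzU
    have hK : IsCompact (φ ⁻¹' closedBall 0 r) :=
      hφ.proper _ (isCompact_closedBall 0 r) (closedBall_subset_ball hr2)
    have hA : IsCompact (φ ⁻¹' closedBall 0 r ∩ f ⁻¹' Uᶜ) :=
      hK.inter_right (hU.isClosed_compl.preimage hfc)
    have hA2 : IsClosed (φ '' (φ ⁻¹' closedBall 0 r ∩ f ⁻¹' Uᶜ)) := (hA.image hφc).isClosed
    have hz2 : z ∈ (φ '' (φ ⁻¹' closedBall 0 r ∩ f ⁻¹' Uᶜ))ᶜ := by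
      rintro ⟨x, ⟨-, hx2⟩, hx3⟩
      apply hx2
      rw [← hgφ x, hx3]
      exact hzU
    have hz3 : ball (0 : ℂ) r ∈ 𝓝 z := isOpen_ball.mem_nhds (by simpa using hr1)
    filter_upwards [hA2.isOpen_compl.mem_nhds hz2, hz3] with w hw1 hw2
    have hw3 : ‖w‖ < r := by simpa using hw2
    obtain ⟨x, rfl⟩ := hφ.surj w (hw3.trans hr2)
    show g (φ x) ∈ U
    rw [hgφ x]
    by_contra hcon
    exact hw1 ⟨x, ⟨by simpa using hw3.le, hcon⟩, rfl⟩
  have hgd : ∀ z : ℂ, ‖z‖ < 1 → B z ≠ 0 → DifferentiableAt ℂ g z := by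
    intro z hz hBz0
    obtain ⟨x, rfl⟩ := hφ.surj z hz
    have hx : ¬ Crit φ x := fun h => hBz0 ((hBz _ hz).2 ⟨x, h, rfl⟩)
    have h1 := chart_analytic hφ.hol x
    have h2 := deriv_ne hφ.hol x hx
    have h3 := (analyticAt_comp_iff_of_deriv_ne_zero (g := g) h1 h2).1 (by
      have : g ∘ (φ ∘ (extChartAt 𝓘(ℂ, ℂ) x).symm) = f ∘ (extChartAt 𝓘(ℂ, ℂ) x).symm := by
        funext y
        exact hgφ _
      rw [this]
      exact chart_analytic hf x)
    have h4 : (φ ∘ (extChartAt 𝓘(ℂ, ℂ) x).symm) (extChartAt 𝓘(ℂ, ℂ) x x) = φ x := by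
      simp
    rw [h4] at h3
    exact h3.differentiableAt
  refine ⟨g, ?_, fun x => (hgφ x).symm⟩
  intro z hz
  have hz' : ‖z‖ < 1 := mem_ball_one.1 hz
  apply DifferentiableAt.differentiableWithinAt
  by_cases h0 : B z = 0
  · have h1 : HasDerivAt B (deriv B z) z :=
      (hBd.differentiableAt (isOpen_ball.mem_nhds hz)).hasDerivAt
    have h2 : ∀ᶠ w in 𝓝[≠] z, B w ≠ 0 := h1.eventually_ne (hBs z hz' h0)
    have h3 : ∀ᶠ w in 𝓝[≠] z, w ∈ ball (0 : ℂ) 1 :=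
      nhdsWithin_le_nhds (isOpen_ball.mem_nhds hz)
    have h4 := Complex.analyticAt_of_differentiable_on_punctured_nhds_of_continuousAt
      (f := g) (c := z) (by
        filter_upwards [h2, h3] with w hw1 hw2
        exact hgd w (mem_ball_one.1 hw2) hw1) (hgc z hz')
    exact h4.differentiableAt
  · exact hgd z hz' h0

lemma hol_mul {f g : X → ℂ} (hf : Hol f) (hg : Hol g) : Hol (fun x => f x * g x) := by
  intro x
  exact (hf x).mul (hg x)

lemma hol_add {f g : X → ℂ} (hf : Hol f) (hg : Hol g) : Hol (fun x => f x + g x) := by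
  intro x
  exact (hf x).add (hg x)

lemma hol_sub {f g : X → ℂ} (hf : Hol f) (hg : Hol g) : Hol (fun x => f x - g x) := by
  intro x
  exact (hf x).sub (hg x)

lemma hol_const (c : ℂ) : Hol (fun _ : X => c) := mdifferentiable_const

lemma hol_comp_σ (hφ : TwoSheeted φ σ) {f : X → ℂ} (hf : Hol f) : Hol (fun x => f (σ x)) := by
  intro x
  exact (hf (σ x)).comp x (hφ.holσ x)

/-- descent of `σ`-anti-invariant functions -/
lemma descend_anti (hφ : TwoSheeted φ σ) {B : ℂ → ℂ} (hBd : DifferentiableOn ℂ B (ball 0 1))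
    (hBz : ∀ z : ℂ, ‖z‖ < 1 → (B z = 0 ↔ ∃ x, Crit φ x ∧ φ x = z))
    (hBs : ∀ z : ℂ, ‖z‖ < 1 → B z = 0 → deriv B z ≠ 0)
    {ϑ : X → ℂ} (hϑ : Hol ϑ) (hϑ2 : ∀ x, ϑ x ^ 2 = B (φ x)) (hϑσ : ∀ x, ϑ (σ x) = -ϑ x)
    {f : X → ℂ} (hf : Hol f) (hs : ∀ x, f (σ x) = -f x) :
    ∃ h : ℂ → ℂ, DifferentiableOn ℂ h (ball 0 1) ∧ ∀ x, f x = h (φ x) * ϑ x := by
  classical
  obtain ⟨K, hKd, hK⟩ := descend hφ hBd hBz hBs (hol_mul hf hϑ) (by
    intro x; simp only [hs, hϑσ]; ring)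
  obtain ⟨G, hGd, hG⟩ := descend hφ hBd hBz hBs (hol_mul hf hf) (by
    intro x; simp only [hs]; ring)
  have hK0 : ∀ z : ℂ, ‖z‖ < 1 → B z = 0 → K z = 0 := by
    intro z hz h0
    obtain ⟨x, rfl⟩ := hφ.surj z hz
    have : ϑ x = 0 := by
      have := hϑ2 x
      rw [h0] at this
      simpa using this
    rw [← hK x, this, mul_zero]
  have hKG : ∀ z : ℂ, ‖z‖ < 1 → K z * K z = G z * B z := by
    intro z hz
    obtain ⟨x, rfl⟩ := hφ.surj z hz
    rw [← hK x, ← hG x, ← hϑ2 x]; ring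
  have hat : ∀ {u : ℂ → ℂ}, DifferentiableOn ℂ u (ball 0 1) → ∀ z : ℂ, ‖z‖ < 1 →
      DifferentiableAt ℂ u z := fun hu z hz =>
    hu.differentiableAt (isOpen_ball.mem_nhds (mem_ball_one.2 hz))
  have hG0 : ∀ z : ℂ, ‖z‖ < 1 → B z = 0 → G z = 0 := by
    intro z hz h0
    have d1 := ((hat hKd z hz).hasDerivAt.mul (hat hKd z hz).hasDerivAt)
    have d2 := ((hat hGd z hz).hasDerivAt.mul (hat hBd z hz).hasDerivAt)
    have he : (K * K) =ᶠ[𝓝 z] (G * B) := by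
      filter_upwards [isOpen_ball.mem_nhds (mem_ball_one.2 hz)] with w hw
      exact hKG w (mem_ball_one.1 hw)
    have d3 := (d2.congr_of_eventuallyEq he).unique d1
    rw [hK0 z hz h0, h0] at d3
    simp only [mul_zero, zero_mul, add_zero, zero_add] at d3
    rcases mul_eq_zero.1 d3 with h | h
    · exact h
    · exact absurd h (hBs z hz h0)
  set h : ℂ → ℂ := fun z => if B z = 0 then deriv K z / deriv B z else K z / B z with hh
  refine ⟨h, ?_, ?_⟩
  · intro z hz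
    have hz' : ‖z‖ < 1 := mem_ball_one.1 hz
    apply DifferentiableAt.differentiableWithinAt
    by_cases h0 : B z = 0
    · have h1 : HasDerivAt B (deriv B z) z := (hat hBd z hz').hasDerivAt
      have h2 : ∀ᶠ w in 𝓝[≠] z, B w ≠ 0 := h1.eventually_ne (hBs z hz' h0)
      have hKs : DifferentiableAt ℂ (dslope K z) z :=
        ((Complex.differentiableOn_dslope (isOpen_ball.mem_nhds hz)).2 hKd).differentiableAt
          (isOpen_ball.mem_nhds hz)
      have hBsl : DifferentiableAt ℂ (dslope B z) z :=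
        ((Complex.differentiableOn_dslope (isOpen_ball.mem_nhds hz)).2 hBd).differentiableAt
          (isOpen_ball.mem_nhds hz)
      have hd : DifferentiableAt ℂ (fun w => dslope K z w / dslope B z w) z :=
        hKs.div hBsl (by rw [dslope_same]; exact hBs z hz' h0)
      refine hd.congr_of_eventuallyEq ?_
      rw [eventually_nhdsWithin_iff] at h2
      filter_upwards [h2] with w hw
      by_cases hwz : w = z
      · subst hwz
        simp only [hh, h0, if_true, dslope_same]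
      · have hBw := hw hwz
        simp only [hh, hBw, if_false]
        rw [dslope_of_ne _ hwz, dslope_of_ne _ hwz, slope_def_field, slope_def_field, h0,
          hK0 z hz' h0, sub_zero, sub_zero]
        have : w - z ≠ 0 := sub_ne_zero.2 hwz
        field_simp
    · have hBc : ContinuousAt B z := (hat hBd z hz').continuousAt
      have hne : ∀ᶠ w in 𝓝 z, B w ≠ 0 := hBc.eventually_ne h0
      have hd : DifferentiableAt ℂ (fun w => K w / B w) z := (hat hKd z hz').div (hat hBd z hz') h0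
      refine hd.congr_of_eventuallyEq ?_
      filter_upwards [hne] with w hw
      simp only [hh, hw, if_false]
  · intro x
    have hx := hφ.lt_one x
    by_cases h0 : ϑ x = 0
    · have hB0 : B (φ x) = 0 := by rw [← hϑ2 x, h0]; simp
      have := hG0 _ hx hB0
      rw [← hG x] at this
      rw [h0, mul_zero]
      exact mul_self_eq_zero.1 this
    · have hB0 : B (φ x) ≠ 0 := by rw [← hϑ2 x]; exact pow_ne_zero 2 h0
      simp only [hh, hB0, if_false]
      rw [← hK x, ← hϑ2 x]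
      field_simp

/-- the square root of `B ∘ φ` changes sign under the sheet interchange -/
lemma theta_anti (hφ : TwoSheeted φ σ) {B : ℂ → ℂ} (hBd : DifferentiableOn ℂ B (ball 0 1))
    (hBz : ∀ z : ℂ, ‖z‖ < 1 → (B z = 0 ↔ ∃ x, Crit φ x ∧ φ x = z))
    (hBs : ∀ z : ℂ, ‖z‖ < 1 → B z = 0 → deriv B z ≠ 0)
    (hex : ∃ x, Crit φ x)
    {ϑ : X → ℂ} (hϑ : Hol ϑ) (hϑ2 : ∀ x, ϑ x ^ 2 = B (φ x)) : ∀ x, ϑ (σ x) = -ϑ x := by
  obtain ⟨U, hUd, hU⟩ := descend hφ hBd hBz hBs (hol_mul hϑ (hol_comp_σ hφ hϑ)) (by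
    intro x; simp only [hφ.invol]; ring)
  have hU2 : ∀ z ∈ ball (0 : ℂ) 1, (U z - B z) * (U z + B z) = 0 := by
    intro z hz
    obtain ⟨x, rfl⟩ := hφ.surj z (mem_ball_one.1 hz)
    have h1 := hU x
    have h2 := hϑ2 x
    have h3 := hϑ2 (σ x)
    rw [hφ.comp] at h3
    have : (U (φ x) - B (φ x)) * (U (φ x) + B (φ x)) = U (φ x) ^ 2 - B (φ x) * B (φ x) := by ring
    rw [this, ← h1]
    nth_rewrite 1 [← h2]
    rw [← h3]
    ring
  have hpos := AnalyticOnNhd.eq_zero_or_eq_zero_of_mul_eq_zero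
    ((hUd.sub hBd).analyticOnNhd isOpen_ball) ((hUd.add hBd).analyticOnNhd isOpen_ball) hU2
    (convex_ball (0 : ℂ) 1).isPreconnected
  have hcase0 : ∀ x, B (φ x) = 0 → ϑ (σ x) = 0 ∧ ϑ x = 0 := by
    intro x h
    have h2 := hϑ2 x
    have h3 := hϑ2 (σ x)
    rw [hφ.comp, h] at h3
    rw [h] at h2
    exact ⟨by simpa using h3, by simpa using h2⟩
  rcases hpos with hpos | hpos
  · exfalso
    -- then `ϑ ∘ σ = ϑ`
    have hinv : ∀ x, ϑ (σ x) = ϑ x := by
      intro x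
      by_cases h0 : B (φ x) = 0
      · obtain ⟨a1, a2⟩ := hcase0 x h0
        rw [a1, a2]
      · have h1 := hpos (φ x) (mem_ball_one.2 (hφ.lt_one x))
        have h1' : U (φ x) = B (φ x) := sub_eq_zero.1 h1
        rw [← hU x, ← hϑ2 x] at h1'
        have hne : ϑ x ≠ 0 := by
          intro h; apply h0; rw [← hϑ2 x, h]; simp
        exact mul_left_cancel₀ hne (by rw [h1']; ring)
    obtain ⟨g, hgd, hg⟩ := descend hφ hBd hBz hBs hϑ hinv
    obtain ⟨x0, hx0⟩ := hex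
    have hz := hφ.lt_one x0
    have hB0 : B (φ x0) = 0 := (hBz _ hz).2 ⟨x0, hx0, rfl⟩
    have hg0 : g (φ x0) = 0 := by rw [← hg x0]; exact (hcase0 x0 hB0).2
    have hdg := (hgd.differentiableAt (isOpen_ball.mem_nhds (mem_ball_one.2 hz))).hasDerivAt
    have hdB := (hBd.differentiableAt (isOpen_ball.mem_nhds (mem_ball_one.2 hz))).hasDerivAt
    have d1 := hdg.mul hdg
    have he : (g * g) =ᶠ[𝓝 (φ x0)] B := by
      filter_upwards [isOpen_ball.mem_nhds (mem_ball_one.2 hz)] with w hw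
      obtain ⟨y, rfl⟩ := hφ.surj w (mem_ball_one.1 hw)
      show g (φ y) * g (φ y) = B (φ y)
      rw [← hg y, ← hϑ2 y]; ring
    have d3 := (hdB.congr_of_eventuallyEq he).unique d1
    rw [hg0] at d3
    simp only [mul_zero, zero_mul, add_zero] at d3
    exact hBs _ hz hB0 d3
  · intro x
    by_cases h0 : B (φ x) = 0
    · obtain ⟨a1, a2⟩ := hcase0 x h0
      rw [a1, a2]; simp
    · have h1 := hpos (φ x) (mem_ball_one.2 (hφ.lt_one x))
      have h1' : U (φ x) = -B (φ x) := eq_neg_of_add_eq_zero_left h1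
      rw [← hU x, ← hϑ2 x] at h1'
      have hne : ϑ x ≠ 0 := by
        intro h; apply h0; rw [← hϑ2 x, h]; simp
      exact mul_left_cancel₀ hne (by rw [h1']; ring)

end Pool.Agent.H66.CI
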