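import Mathlib

namespace Pool.Agent.H66.Evo

open MvPolynomial

section Alg

variable {ι : Type*} [Fintype ι] [LinearOrder ι]

noncomputable def lf (c : Matrix ι ι ℂ) (i : ι) : MvPolynomial ι ℂ := ∑ k, c i k • X k

noncomputable def ff (c : Matrix ι ι ℂ) (i : ι) : MvPolynomial ι ℂ := X i ^ 2 - lf c i

noncomputable def UU (c : Matrix ι ι ℂ) : Submodule ℂ (MvPolynomial ι ℂ) :=
  Submodule.span ℂ (Set.range fun p : {p : (ι →₀ ℕ) × ι // ∀ j < p.2, p.1 j < 2} =>
    monomial p.1.1 (1 : ℂ) * ff c p.1.2)

omit [LinearOrder ι] in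
theorem mono_mul_lf (c : Matrix ι ι ℂ) (m : ι →₀ ℕ) (i : ι) (q : MvPolynomial ι ℂ) :
    monomial m (1 : ℂ) * lf c i * q =
      ∑ k, c i k • (monomial (m + Finsupp.single k 1) (1 : ℂ) * q) := by
  rw [lf, Finset.mul_sum, Finset.sum_mul]
  refine Finset.sum_congr rfl fun k _ => ?_
  rw [mul_smul_comm, smul_mul_assoc, X, monomial_mul, mul_one]

theorem mem_UU (c : Matrix ι ι ℂ) : ∀ (d : ℕ) (i : ι) (m : ι →₀ ℕ), m.degree = d →
    monomial m (1 : ℂ) * ff c i ∈ UU c := by
  intro d
  induction d using Nat.strong_induction_on with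
  | _ d ihd =>
    intro i
    induction i using WellFoundedLT.induction with
    | _ i ihi =>
      intro m hm
      by_cases h : ∀ j < i, m j < 2
      · exact Submodule.subset_span ⟨⟨(m, i), h⟩, rfl⟩
      · push Not at h
        obtain ⟨j, hj, hmj⟩ := h
        obtain ⟨m', rfl⟩ : ∃ m' : ι →₀ ℕ, m = m' + Finsupp.single j 2 := by
          refine ⟨m - Finsupp.single j 2, ?_⟩
          rw [tsub_add_cancel_of_le]
          rw [Finsupp.single_le_iff]
          exact hmj
        have hdeg : m'.degree + 2 = d := by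
          rw [← hm, map_add, Finsupp.degree_single]
        have e1 : monomial (m' + Finsupp.single j 2) (1 : ℂ) = monomial m' 1 * X j ^ 2 := by
          rw [X_pow_eq_monomial, monomial_mul, mul_one]
        have e2 : monomial (m' + Finsupp.single i 2) (1 : ℂ) = monomial m' 1 * X i ^ 2 := by
          rw [X_pow_eq_monomial, monomial_mul, mul_one]
        have key : monomial (m' + Finsupp.single j 2) (1 : ℂ) * ff c i =
            monomial (m' + Finsupp.single i 2) (1 : ℂ) * ff c j
            - monomial m' (1 : ℂ) * lf c i * ff c j + monomial m' (1 : ℂ) * lf c j * ff c i := by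
          rw [e1, e2]
          simp only [ff]
          ring
        rw [key]
        refine Submodule.add_mem _ (Submodule.sub_mem _ ?_ ?_) ?_
        · apply ihi j hj
          rw [map_add, Finsupp.degree_single, hdeg]
        · rw [mono_mul_lf]
          refine Submodule.sum_mem _ fun k _ => Submodule.smul_mem _ _ ?_
          apply ihd (d - 1) (by omega)
          rw [map_add, Finsupp.degree_single]
          omega
        · rw [mono_mul_lf]
          refine Submodule.sum_mem _ fun k _ => Submodule.smul_mem _ _ ?_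
          apply ihd (d - 1) (by omega)
          rw [map_add, Finsupp.degree_single]
          omega

theorem ideal_le_UU (c : Matrix ι ι ℂ) {p : MvPolynomial ι ℂ}
    (hp : p ∈ Ideal.span (Set.range (ff c))) : p ∈ UU c := by
  have h : ∀ (g : MvPolynomial ι ℂ) (i : ι), g * ff c i ∈ UU c := by
    intro g i
    rw [g.as_sum, Finset.sum_mul]
    refine Submodule.sum_mem _ fun m _ => ?_
    have : monomial m (coeff m g) * ff c i = coeff m g • (monomial m (1 : ℂ) * ff c i) := by
      rw [← smul_mul_assoc, smul_monomial, smul_eq_mul, mul_one]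
    rw [this]
    exact Submodule.smul_mem _ _ (mem_UU c _ i m rfl)
  obtain ⟨g, rfl⟩ := (Ideal.mem_span_range_iff_exists_fun).1 hp
  exact Submodule.sum_mem _ fun i _ => h _ i

theorem coeff_mono_ff (c : Matrix ι ι ℂ) (m : ι →₀ ℕ) (i : ι) (M : ι →₀ ℕ)
    (hM : m.degree + 2 ≤ M.degree) :
    coeff M (monomial m (1 : ℂ) * ff c i) = if m + Finsupp.single i 2 = M then 1 else 0 := by
  have h1 : monomial m (1 : ℂ) * ff c i = monomial (m + Finsupp.single i 2) (1 : ℂ)
      - ∑ k, c i k • (monomial (m + Finsupp.single k 1) (1 : ℂ)) := by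
    have e2 : monomial (m + Finsupp.single i 2) (1 : ℂ) = monomial m 1 * X i ^ 2 := by
      rw [X_pow_eq_monomial, monomial_mul, mul_one]
    have := mono_mul_lf c m i 1
    simp only [mul_one] at this
    rw [← this, e2, ff]
    ring
  rw [h1, coeff_sub, coeff_monomial, coeff_sum]
  rw [Finset.sum_eq_zero, sub_zero]
  intro k _
  rw [coeff_smul, coeff_monomial, if_neg, smul_zero]
  rintro rfl
  rw [map_add, Finsupp.degree_single] at hM
  omega

theorem X_not_mem (c : Matrix ι ι ℂ) (j : ι) : (X j : MvPolynomial ι ℂ) ∉ UU c := by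
  intro h
  obtain ⟨a, ha⟩ := Finsupp.mem_span_range_iff_exists_finsupp.1 h
  have hne : a.support.Nonempty := by
    rw [Finsupp.support_nonempty_iff]
    rintro rfl
    rw [Finsupp.sum_zero_index] at ha
    exact X_ne_zero j ha.symm
  obtain ⟨p, hp, hmax⟩ := a.support.exists_max_image (fun p => p.1.1.degree) hne
  have hc := congrArg (coeff (p.1.1 + Finsupp.single p.1.2 2)) ha
  rw [Finsupp.sum, coeff_sum] at hc
  rw [Finset.sum_eq_single_of_mem p hp] at hc
  · rw [coeff_smul, coeff_mono_ff c _ _ _ (by rw [map_add, Finsupp.degree_single]), if_pos rfl,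
      smul_eq_mul, mul_one, coeff_X] at hc
    rw [if_neg] at hc
    · exact (Finsupp.mem_support_iff.1 hp) hc
    · intro h1
      have := congrArg Finsupp.degree h1
      rw [map_add, Finsupp.degree_single, Finsupp.degree_single] at this
      omega
  · intro q hq hqp
    rw [coeff_smul, coeff_mono_ff, if_neg, smul_zero]
    · intro h1
      apply hqp
      obtain ⟨⟨m, i⟩, hmi⟩ := q
      obtain ⟨⟨m', i'⟩, hmi'⟩ := p
      simp only at h1 hmi hmi' ⊢
      have hii : i = i' := by
        rcases lt_trichotomy i i' with hlt | heq | hlt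
        · exfalso
          have := DFunLike.congr_fun h1 i
          simp only [Finsupp.add_apply, Finsupp.single_eq_same] at this
          rw [Finsupp.single_eq_of_ne hlt.ne] at this
          have := hmi' i hlt
          omega
        · exact heq
        · exfalso
          have := DFunLike.congr_fun h1 i'
          simp only [Finsupp.add_apply, Finsupp.single_eq_same] at this
          rw [Finsupp.single_eq_of_ne hlt.ne] at this
          have := hmi i' hlt
          omega
      subst hii
      have : m = m' := add_right_cancel h1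
      subst this
      rfl
    · rw [map_add, Finsupp.degree_single]
      have := hmax q hq
      simpa using this

theorem exists_sol [Nonempty ι] (c : Matrix ι ι ℂ) (hc : IsUnit c.det) :
    ∃ x : ι → ℂ, x ≠ 0 ∧ ∀ i, x i ^ 2 = ∑ k, c i k * x k := by
  by_contra hcon
  push Not at hcon
  set I : Ideal (MvPolynomial ι ℂ) := Ideal.span (Set.range (ff c)) with hI
  set M : Ideal (MvPolynomial ι ℂ) := Ideal.span (Set.range X) with hM
  have hzero : ∀ x ∈ zeroLocus ℂ I, x = 0 := by
    intro x hx
    by_contra hx0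
    obtain ⟨i, hi⟩ := hcon x hx0
    apply hi
    have h1 : aeval x (ff c i) = 0 := hx _ (Ideal.subset_span ⟨i, rfl⟩)
    rw [ff, lf, map_sub, map_pow, aeval_X, map_sum, sub_eq_zero] at h1
    rw [h1]
    refine Finset.sum_congr rfl fun k _ => ?_
    rw [map_smul, aeval_X, smul_eq_mul]
  have hrad : M ≤ I.radical := by
    rw [← vanishingIdeal_zeroLocus_eq_radical (K := ℂ), hM, Ideal.span_le]
    rintro _ ⟨j, rfl⟩
    intro x hx
    rw [hzero x hx, aeval_X]
    rfl
  obtain ⟨N, hN⟩ := Ideal.exists_pow_le_of_le_radical_of_fg hrad (IsNoetherian.noetherian _)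
  have h2 : M ≤ M * M ⊔ I := by
    rw [hM, Ideal.span_le]
    rintro _ ⟨j, rfl⟩
    have h3 : (X j : MvPolynomial ι ℂ) = ∑ i, c⁻¹ j i • (X i * X i - ff c i) := by
      have h4 : ∀ i, (X i * X i - ff c i : MvPolynomial ι ℂ) = ∑ k, c i k • X k := by
        intro i
        rw [ff, lf]
        ring
      simp_rw [h4, Finset.smul_sum]
      rw [Finset.sum_comm]
      simp_rw [smul_smul, ← Finset.sum_smul]
      have h5 : ∀ k, ∑ i, c⁻¹ j i * c i k = if j = k then 1 else 0 := by
        intro k
        rw [← Matrix.mul_apply, Matrix.nonsing_inv_mul c hc, Matrix.one_apply]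
      simp_rw [h5]
      simp
    rw [h3]
    refine Ideal.sum_mem _ fun i _ => ?_
    rw [← algebraMap_smul (MvPolynomial ι ℂ), smul_eq_mul]
    apply Ideal.mul_mem_left
    apply Ideal.sub_mem
    · exact Ideal.mem_sup_left (Ideal.mul_mem_mul (Ideal.subset_span ⟨i, rfl⟩)
        (Ideal.subset_span ⟨i, rfl⟩))
    · exact Ideal.mem_sup_right (Ideal.subset_span ⟨i, rfl⟩)
  have h6 : ∀ k, M ≤ M ^ (k + 1) ⊔ I := by
    intro k
    induction k with
    | zero => simp
    | succ k ih =>
      refine h2.trans (sup_le ?_ le_sup_right)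
      calc M * M ≤ M * (M ^ (k + 1) ⊔ I) := Ideal.mul_mono_right ih
        _ = M * M ^ (k + 1) ⊔ M * I := Ideal.mul_sup _ _ _
        _ ≤ M ^ (k + 1 + 1) ⊔ I := by
          refine sup_le_sup ?_ Ideal.mul_le_right
          rw [← pow_succ']
  have h7 : M ≤ I := (h6 N).trans (sup_le ((Ideal.pow_le_pow_right (Nat.le_succ N)).trans hN) le_rfl)
  exact X_not_mem c (Classical.arbitrary ι)
    (ideal_le_UU c (h7 (Ideal.subset_span ⟨_, rfl⟩)))

end Alg

end Pool.Agent.H66.Evo
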