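import Mathlib

open Polynomial Complex

namespace Pool.Agent.H66.FD

variable {d : ℕ}

lemma det_aeval_prod (M : Matrix (Fin d) (Fin d) ℂ) (s : Finset ℂ) :
    (aeval M (∏ ζ ∈ s, (X - C ζ))).det = ∏ ζ ∈ s, (M - Matrix.scalar (Fin d) ζ).det := by
  classical
  induction s using Finset.induction_on with
  | empty => simp
  | insert a s ha ih =>
    rw [Finset.prod_insert ha, Finset.prod_insert ha, map_mul, Matrix.det_mul, ih]
    congr 2
    rw [map_sub, aeval_X, aeval_C]
    rfl

lemma pow_sub_one (n : ℕ) (hn : 0 < n) :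
    (X ^ n - 1 : ℂ[X]) = ∏ ζ ∈ nthRootsFinset n (1 : ℂ), (X - C ζ) :=
  X_pow_sub_one_eq_prod hn (Complex.isPrimitiveRoot_exp n hn.ne')

lemma det_pow_sub_one (M : Matrix (Fin d) (Fin d) ℂ) (n : ℕ) (hn : 0 < n) :
    (M ^ n - 1).det = ∏ ζ ∈ nthRootsFinset n (1 : ℂ), (M - Matrix.scalar (Fin d) ζ).det := by
  rw [← det_aeval_prod, ← pow_sub_one n hn]
  simp

lemma det_sub_scalar (M : Matrix (Fin d) (Fin d) ℂ) (z : ℂ) :
    (M - Matrix.scalar (Fin d) z).det = (M.charpoly.roots.map (fun α => α - z)).prod := by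
  have h1 : M.charpoly.eval z = (Matrix.scalar (Fin d) z - M).det := Matrix.eval_charpoly M z
  have h2 : M.charpoly = (M.charpoly.roots.map (fun a => X - C a)).prod :=
    (IsAlgClosed.splits M.charpoly).eq_prod_roots_of_monic (Matrix.charpoly_monic M)
  have h3 : Multiset.card M.charpoly.roots = d := by
    have := (IsAlgClosed.splits M.charpoly).natDegree_eq_card_roots
    rw [← this, Matrix.charpoly_natDegree_eq_dim]; simp
  have h4 : M.charpoly.eval z = (M.charpoly.roots.map (fun a => z - a)).prod := by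
    conv_lhs => rw [h2]
    rw [eval_multiset_prod, Multiset.map_map]
    simp
  have h5 : (M - Matrix.scalar (Fin d) z).det = (-1) ^ d * (Matrix.scalar (Fin d) z - M).det := by
    rw [← neg_sub, Matrix.det_neg]; simp
  rw [h5, ← h1, h4]
  have h6 : (M.charpoly.roots.map (fun α => α - z)) =
      (M.charpoly.roots.map (fun a => (-1) * (z - a))) := by
    congr 1; funext a; ring
  rw [h6, Multiset.prod_map_mul]
  simp [h3]

lemma prod_swap (s : Finset ℂ) (m : Multiset ℂ) (f : ℂ → ℂ → ℂ) :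
    ∏ ζ ∈ s, (m.map (f ζ)).prod = (m.map (fun α => ∏ ζ ∈ s, f ζ α)).prod := by
  induction m using Multiset.induction_on with
  | empty => simp
  | cons a m ih =>
    simp only [Multiset.map_cons, Multiset.prod_cons]
    rw [Finset.prod_mul_distrib, ih]

lemma det_eq_prod (M : Matrix (Fin d) (Fin d) ℂ) (n : ℕ) (hn : 0 < n) :
    (M ^ n - 1).det = (M.charpoly.roots.map (fun α => α ^ n - 1)).prod := by
  rw [det_pow_sub_one M n hn]
  have h1 : ∀ ζ ∈ nthRootsFinset n (1 : ℂ), (M - Matrix.scalar (Fin d) ζ).det =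
      (M.charpoly.roots.map (fun α => α - ζ)).prod := fun ζ _ => det_sub_scalar M ζ
  rw [Finset.prod_congr rfl h1, prod_swap]
  congr 1
  apply Multiset.map_congr rfl
  intro α _
  have := congrArg (Polynomial.eval α) (pow_sub_one n hn)
  simpa [eval_prod] using this.symm

/-- the integers `det(Aⁿ - 1)` -/
def dn (A : Matrix (Fin d) (Fin d) ℤ) (n : ℕ) : ℤ := (A ^ n - 1).det

noncomputable def AC (A : Matrix (Fin d) (Fin d) ℤ) : Matrix (Fin d) (Fin d) ℂ :=
  A.map (Int.castRingHom ℂ)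

lemma dn_cast (A : Matrix (Fin d) (Fin d) ℤ) (n : ℕ) : ((dn A n : ℤ) : ℂ) = ((AC A) ^ n - 1).det := by
  have h : (AC A) ^ n - 1 = (A ^ n - 1).map (Int.castRingHom ℂ) := by
    unfold AC
    rw [← RingHom.mapMatrix_apply, ← RingHom.mapMatrix_apply, map_sub, map_pow, map_one]
  rw [h]
  unfold dn
  exact RingHom.map_det (Int.castRingHom ℂ) _

lemma conj_det (A : Matrix (Fin d) (Fin d) ℤ) (z : ℂ) :
    (starRingEnd ℂ) ((AC A - Matrix.scalar (Fin d) z).det) =
      (AC A - Matrix.scalar (Fin d) ((starRingEnd ℂ) z)).det := by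
  rw [RingHom.map_det]
  congr 1
  ext i j
  simp [AC, Matrix.scalar_apply, Matrix.diagonal_apply]
  split_ifs <;> simp

lemma det_factor (A : Matrix (Fin d) (Fin d) ℤ) : ∃ r2 : ℤ, ∀ n : ℕ, 0 < n →
    ∃ q : ℝ, 0 ≤ q ∧ ((dn A n : ℤ) : ℝ) =
      (if Even n then (dn A 1 : ℝ) * (r2 : ℝ) else (dn A 1 : ℝ)) * q := by
  classical
  obtain ⟨r2, hr2⟩ : ∃ r : ℤ, r = (A + 1).det := ⟨_, rfl⟩
  refine ⟨r2, ?_⟩
  intro n hn
  set R : ℂ → ℂ := fun z => (AC A - Matrix.scalar (Fin d) z).det with hR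
  set S := nthRootsFinset n (1 : ℂ) with hS
  have hmem : ∀ z : ℂ, z ∈ S ↔ z ^ n = 1 := fun z => by
    rw [hS, mem_nthRootsFinset hn]
  have hconjmem : ∀ z : ℂ, z ∈ S → (starRingEnd ℂ) z ∈ S := by
    intro z hz
    rw [hmem] at hz ⊢
    rw [← map_pow, hz, map_one]
  have hsplit : ∏ z ∈ S, R z = (∏ z ∈ S.filter (fun z => z.im = 0), R z) *
      ((∏ z ∈ S.filter (fun z => 0 < z.im), R z) * (∏ z ∈ S.filter (fun z => z.im < 0), R z)) := by
    rw [← Finset.prod_filter_mul_prod_filter_not S (fun z => z.im = 0)]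
    congr 1
    rw [← Finset.prod_filter_mul_prod_filter_not (S.filter (fun z => ¬ z.im = 0)) (fun z => 0 < z.im),
      Finset.filter_filter, Finset.filter_filter]
    congr 1
    · apply Finset.prod_congr _ (fun _ _ => rfl)
      ext z
      simp only [Finset.mem_filter]
      constructor
      · rintro ⟨h1, -, h2⟩; exact ⟨h1, h2⟩
      · rintro ⟨h1, h2⟩; exact ⟨h1, h2.ne', h2⟩
    · apply Finset.prod_congr _ (fun _ _ => rfl)
      ext z
      simp only [Finset.mem_filter]
      constructor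
      · rintro ⟨h1, h2, h3⟩; exact ⟨h1, lt_of_le_of_ne (not_lt.1 h3) h2⟩
      · rintro ⟨h1, h2⟩; exact ⟨h1, h2.ne, not_lt.2 h2.le⟩
  have hneg : ∏ z ∈ S.filter (fun z => z.im < 0), R z =
      (starRingEnd ℂ) (∏ z ∈ S.filter (fun z => 0 < z.im), R z) := by
    rw [map_prod]
    apply Finset.prod_bij (fun z _ => (starRingEnd ℂ) z)
    · intro z hz
      rw [Finset.mem_filter] at hz ⊢
      exact ⟨hconjmem z hz.1, by simpa using hz.2⟩
    · intro a _ b _ hab
      exact (starRingEnd ℂ).injective hab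
    · intro b hb
      rw [Finset.mem_filter] at hb
      exact ⟨(starRingEnd ℂ) b, by
        rw [Finset.mem_filter]; exact ⟨hconjmem b hb.1, by simpa using hb.2⟩, by simp⟩
    · intro z _
      rw [conj_det]; simp [hR]
  set Q := ∏ z ∈ S.filter (fun z => 0 < z.im), R z with hQ
  have hR1 : R 1 = ((dn A 1 : ℤ) : ℂ) := by
    rw [dn_cast, hR]; simp
  have hRm : R (-1) = ((r2 : ℤ) : ℂ) := by
    have h : AC A - Matrix.scalar (Fin d) (-1 : ℂ) = (A + 1).map (Int.castRingHom ℂ) := by
      unfold AC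
      rw [← RingHom.mapMatrix_apply, ← RingHom.mapMatrix_apply, map_add, map_one, map_neg, map_one,
        sub_neg_eq_add]
    rw [hR, hr2]
    simp only [h]
    exact (RingHom.map_det (Int.castRingHom ℂ) _).symm
  have hreal : ∀ z : ℂ, z ∈ S → z.im = 0 → z = 1 ∨ (z = -1 ∧ Even n) := by
    intro z hz him
    rw [hmem] at hz
    have hzr : z = ((z.re : ℝ) : ℂ) := by
      apply Complex.ext <;> simp [him]
    rw [hzr] at hz
    have hz' : z.re ^ n = 1 := by exact_mod_cast hz
    rcases Nat.even_or_odd n with he | ho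
    · have := (pow_eq_one_iff_of_ne_zero hn.ne').1 hz'
      rcases this with h | ⟨h, -⟩
      · left; rw [hzr, h]; simp
      · right; exact ⟨by rw [hzr, h]; simp, he⟩
    · left
      have := (pow_eq_one_iff_of_ne_zero hn.ne').1 hz'
      rcases this with h | ⟨h, he⟩
      · rw [hzr, h]; simp
      · exact absurd he (Nat.not_even_iff_odd.2 ho)
  have hzero : ∏ z ∈ S.filter (fun z => z.im = 0), R z =
      if Even n then ((dn A 1 : ℤ) : ℂ) * ((r2 : ℤ) : ℂ) else ((dn A 1 : ℤ) : ℂ) := by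
    by_cases he : Even n
    · rw [if_pos he]
      have : S.filter (fun z => z.im = 0) = {1, -1} := by
        ext z
        rw [Finset.mem_filter]
        simp only [Finset.mem_insert, Finset.mem_singleton]
        constructor
        · rintro ⟨h1, h2⟩
          rcases hreal z h1 h2 with h | h
          · exact Or.inl h
          · exact Or.inr h.1
        · rintro (h | h)
          · subst h; exact ⟨(hmem 1).2 (one_pow n), by simp⟩
          · subst h; exact ⟨(hmem _).2 (he.neg_one_pow), by simp⟩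
      rw [this, Finset.prod_pair (by norm_num), hR1, hRm]
    · rw [if_neg he]
      have : S.filter (fun z => z.im = 0) = {1} := by
        ext z
        rw [Finset.mem_filter, Finset.mem_singleton]
        constructor
        · rintro ⟨h1, h2⟩
          rcases hreal z h1 h2 with h | h
          · exact h
          · exact absurd h.2 he
        · rintro h
          subst h; exact ⟨(hmem 1).2 (one_pow n), by simp⟩
      rw [this, Finset.prod_singleton, hR1]
  refine ⟨‖Q‖ ^ 2, by positivity, ?_⟩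
  have hmain : ((dn A n : ℤ) : ℂ) = (if Even n then ((dn A 1 : ℤ) : ℂ) * ((r2 : ℤ) : ℂ)
      else ((dn A 1 : ℤ) : ℂ)) * ((‖Q‖ ^ 2 : ℝ) : ℂ) := by
    rw [dn_cast, det_pow_sub_one _ n hn]
    show ∏ z ∈ S, R z = _
    rw [hsplit, hzero, hneg, Complex.mul_conj']
    push_cast
    rfl
  split_ifs at hmain ⊢ with he
  · apply Complex.ofReal_injective
    push_cast at hmain ⊢
    exact hmain
  · apply Complex.ofReal_injective
    push_cast at hmain ⊢
    exact hmain

/-- signs: `|det(Aⁿ - 1)| = ε δⁿ det(Aⁿ - 1)` -/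
lemma sign_exists (A : Matrix (Fin d) (Fin d) ℤ) :
    ∃ ε δ : ℤ, (ε = 1 ∨ ε = -1) ∧ (δ = 1 ∨ δ = -1) ∧
      ∀ n : ℕ, 0 < n → |dn A n| = ε * δ ^ n * dn A n := by
  let sg : ℤ → ℤ := fun x => if 0 ≤ x then 1 else -1
  have hsg : ∀ x : ℤ, sg x = 1 ∨ sg x = -1 := by
    intro x; simp only [sg]; split_ifs <;> simp
  have hsg2 : ∀ x : ℤ, sg x * sg x = 1 := by
    intro x; rcases hsg x with h | h <;> rw [h] <;> norm_num
  have hsgabs : ∀ (x y : ℤ) (q : ℝ), 0 ≤ q → (y : ℝ) = (x : ℝ) * q → |y| = sg x * y := by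
    intro x y q hq hy
    by_cases hx : 0 ≤ x
    · have : (0 : ℝ) ≤ y := by rw [hy]; exact mul_nonneg (by exact_mod_cast hx) hq
      have hy0 : 0 ≤ y := by exact_mod_cast this
      simp only [sg, if_pos hx, abs_of_nonneg hy0, one_mul]
    · have hx' : (x : ℝ) ≤ 0 := by exact_mod_cast (not_le.1 hx).le
      have : (y : ℝ) ≤ 0 := by rw [hy]; exact mul_nonpos_of_nonpos_of_nonneg hx' hq
      have hy0 : y ≤ 0 := by exact_mod_cast this
      simp only [sg, if_neg hx, abs_of_nonpos hy0, neg_mul, one_mul]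
  obtain ⟨r2, hr2⟩ := det_factor A
  refine ⟨sg (dn A 1 * r2), sg (dn A 1 * r2) * sg (dn A 1), hsg _, ?_, ?_⟩
  · rcases hsg (dn A 1 * r2) with h | h <;> rcases hsg (dn A 1) with h' | h' <;>
      rw [h, h'] <;> norm_num
  · intro n hn
    obtain ⟨q, hq, hf⟩ := hr2 n hn
    by_cases he : Even n
    · rw [if_pos he] at hf
      have h1 := hsgabs (dn A 1 * r2) (dn A n) q hq (by push_cast; exact hf)
      rw [h1]
      have h2 : (sg (dn A 1 * r2) * sg (dn A 1)) ^ n = 1 := by
        obtain ⟨k, hk⟩ := he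
        rw [hk, ← two_mul, pow_mul]
        have : (sg (dn A 1 * r2) * sg (dn A 1)) ^ 2 = 1 := by
          rw [mul_pow, sq, sq, hsg2, hsg2]; norm_num
        rw [this, one_pow]
      rw [h2, mul_one]
    · rw [if_neg he] at hf
      have h1 := hsgabs (dn A 1) (dn A n) q hq hf
      rw [h1]
      have ho := Nat.not_even_iff_odd.1 he
      have h2 : (sg (dn A 1 * r2) * sg (dn A 1)) ^ n =
          sg (dn A 1 * r2) * sg (dn A 1) := by
        obtain ⟨k, hk⟩ := ho
        rw [hk, pow_add, pow_mul, pow_one]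
        have : (sg (dn A 1 * r2) * sg (dn A 1)) ^ 2 = 1 := by
          rw [mul_pow, sq, sq, hsg2, hsg2]; norm_num
        rw [this, one_pow, one_mul]
      rw [h2, ← mul_assoc, hsg2, one_mul]

lemma dn_congr (A : Matrix (Fin d) (Fin d) ℤ) (l : ℕ) (hl : l.Prime) :
    (dn A l : ZMod l) = (dn A 1 : ZMod l) := by
  have := Fact.mk hl
  rcases Nat.eq_zero_or_pos d with hd | hd
  · subst hd; simp [dn]
  have : Nonempty (Fin d) := ⟨⟨0, hd⟩⟩
  have key : ∀ n : ℕ, ((dn A n : ℤ) : ZMod l) = ((A.map (Int.castRingHom (ZMod l))) ^ n - 1).det := by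
    intro n
    have h : (A.map (Int.castRingHom (ZMod l))) ^ n - 1 = (A ^ n - 1).map (Int.castRingHom (ZMod l)) := by
      rw [← RingHom.mapMatrix_apply, ← RingHom.mapMatrix_apply, map_sub, map_pow, map_one]
    rw [h]
    exact RingHom.map_det (Int.castRingHom (ZMod l)) _
  rw [key, key, pow_one]
  set M := A.map (Int.castRingHom (ZMod l))
  have h1 : (M - 1) ^ l = M ^ l - 1 := by
    rw [sub_pow_char_of_commute _ (Commute.one_right M), one_pow]
  rw [← h1, Matrix.det_pow, ZMod.pow_card]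

end Pool.Agent.H66.FD
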