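import Mathlib

open Filter Topology

namespace Pool.Agent.H66.FD

/-- Abel means -/
noncomputable def abel (v : ℕ → ℂ) (x : ℝ) : ℂ := ((1 - x : ℝ) : ℂ) * ∑' n, v n * ((x : ℂ)) ^ n

def Bdd (v : ℕ → ℂ) : Prop := ∃ C : ℝ, ∀ n, ‖v n‖ ≤ C

def Mn (v : ℕ → ℂ) (L : ℂ) : Prop := Tendsto (abel v) (𝓝[<] 1) (𝓝 L)

lemma ev_x : ∀ᶠ x : ℝ in 𝓝[<] 1, 0 < x ∧ x < 1 := by
  have h1 : ∀ᶠ r : ℝ in 𝓝[<] 1, 0 < r :=
    nhdsWithin_le_nhds (lt_mem_nhds (by norm_num : (0 : ℝ) < 1))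
  filter_upwards [h1, self_mem_nhdsWithin] with r h2 h3 using ⟨h2, h3⟩

lemma summ {v : ℕ → ℂ} (hv : Bdd v) {x : ℝ} (h0 : 0 < x) (h1 : x < 1) :
    Summable (fun n => v n * ((x : ℂ)) ^ n) := by
  obtain ⟨C, hC⟩ := hv
  have hg : Summable (fun n : ℕ => C * x ^ n) := (summable_geometric_of_lt_one h0.le h1).mul_left C
  refine Summable.of_norm_bounded hg ?_
  intro n
  rw [norm_mul, norm_pow, Complex.norm_real, Real.norm_of_nonneg h0.le]
  exact mul_le_mul_of_nonneg_right (hC n) (by positivity)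

lemma norm_summ {v : ℕ → ℂ} (hv : Bdd v) {x : ℝ} (h0 : 0 < x) (h1 : x < 1) :
    Summable (fun n => ‖v n‖ * x ^ n) := by
  obtain ⟨C, hC⟩ := hv
  have hg : Summable (fun n : ℕ => C * x ^ n) := (summable_geometric_of_lt_one h0.le h1).mul_left C
  refine Summable.of_nonneg_of_le (fun n => by positivity) (fun n => ?_) hg
  exact mul_le_mul_of_nonneg_right (hC n) (by positivity)

lemma abel_norm_le {v : ℕ → ℂ} (hv : Bdd v) {x : ℝ} (h0 : 0 < x) (h1 : x < 1) :
    ‖abel v x‖ ≤ (1 - x) * ∑' n, ‖v n‖ * x ^ n := by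
  unfold abel
  rw [norm_mul, Complex.norm_real, Real.norm_of_nonneg (by linarith)]
  apply mul_le_mul_of_nonneg_left _ (by linarith)
  have h : ∀ n, ‖v n * ((x : ℂ)) ^ n‖ = ‖v n‖ * x ^ n := by
    intro n
    rw [norm_mul, norm_pow, Complex.norm_real, Real.norm_of_nonneg h0.le]
  have hs : Summable (fun n => ‖v n * ((x : ℂ)) ^ n‖) := by
    simp only [h]; exact norm_summ hv h0 h1
  refine (norm_tsum_le_tsum_norm hs).trans ?_
  simp only [h]
  exact le_rfl

lemma geom_sum_x {x : ℝ} (h0 : 0 < x) (h1 : x < 1) (C : ℝ) :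
    (1 - x) * ∑' n : ℕ, C * x ^ n = C := by
  rw [tsum_mul_left, tsum_geometric_of_lt_one h0.le h1]
  have : 1 - x ≠ 0 := by linarith
  field_simp

lemma Bdd.add {v w : ℕ → ℂ} (hv : Bdd v) (hw : Bdd w) : Bdd (fun n => v n + w n) := by
  obtain ⟨C, hC⟩ := hv
  obtain ⟨D, hD⟩ := hw
  exact ⟨C + D, fun n => (norm_add_le _ _).trans (add_le_add (hC n) (hD n))⟩

lemma Bdd.mul {v w : ℕ → ℂ} (hv : Bdd v) (hw : Bdd w) : Bdd (fun n => v n * w n) := by
  obtain ⟨C, hC⟩ := hv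
  obtain ⟨D, hD⟩ := hw
  refine ⟨C * D, fun n => ?_⟩
  rw [norm_mul]
  exact mul_le_mul (hC n) (hD n) (norm_nonneg _) ((norm_nonneg _).trans (hC n))

lemma Bdd.const (c : ℂ) : Bdd (fun _ => c) := ⟨‖c‖, fun _ => le_rfl⟩

lemma Bdd.sub {v w : ℕ → ℂ} (hv : Bdd v) (hw : Bdd w) : Bdd (fun n => v n - w n) := by
  obtain ⟨C, hC⟩ := hv
  obtain ⟨D, hD⟩ := hw
  exact ⟨C + D, fun n => (norm_sub_le _ _).trans (add_le_add (hC n) (hD n))⟩

lemma Bdd.pow_unit {ξ : ℂ} (h : ‖ξ‖ = 1) : Bdd (fun n => ξ ^ n) :=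
  ⟨1, fun n => by rw [norm_pow, h, one_pow]⟩

lemma Mn.add {v w : ℕ → ℂ} (hv : Bdd v) (hw : Bdd w) {L K : ℂ} (h1 : Mn v L) (h2 : Mn w K) :
    Mn (fun n => v n + w n) (L + K) := by
  refine (Tendsto.add h1 h2).congr' ?_
  filter_upwards [ev_x] with x hx
  unfold abel
  rw [← mul_add, ← (summ hv hx.1 hx.2).tsum_add (summ hw hx.1 hx.2)]
  congr 1
  exact tsum_congr fun n => by ring

lemma Mn.smul {v : ℕ → ℂ} {L : ℂ} (c : ℂ) (h1 : Mn v L) : Mn (fun n => c * v n) (c * L) := by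
  refine (Tendsto.const_mul c h1).congr ?_
  intro x
  unfold abel
  have : ∑' n, c * v n * (x : ℂ) ^ n = c * ∑' n, v n * (x : ℂ) ^ n := by
    rw [← tsum_mul_left]
    exact tsum_congr fun n => by ring
  rw [this]; ring

lemma Mn.sum {ι : Type*} (s : Finset ι) (v : ι → ℕ → ℂ) (L : ι → ℂ) (hv : ∀ i ∈ s, Bdd (v i))
    (h : ∀ i ∈ s, Mn (v i) (L i)) : Mn (fun n => ∑ i ∈ s, v i n) (∑ i ∈ s, L i) ∧
      Bdd (fun n => ∑ i ∈ s, v i n) := by
  classical
  induction s using Finset.induction_on with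
  | empty =>
    refine ⟨?_, ⟨0, by simp⟩⟩
    simp only [Finset.sum_empty]
    unfold Mn
    refine tendsto_const_nhds.congr ?_
    intro x; simp [abel]
  | insert a s ha ih =>
    obtain ⟨i1, i2⟩ := ih (fun i hi => hv i (Finset.mem_insert_of_mem hi))
      (fun i hi => h i (Finset.mem_insert_of_mem hi))
    simp only [Finset.sum_insert ha]
    exact ⟨Mn.add (hv a (Finset.mem_insert_self a s)) i2 (h a (Finset.mem_insert_self a s)) i1,
      (hv a (Finset.mem_insert_self a s)).add i2⟩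

lemma Mn_pow {ξ : ℂ} (h : ‖ξ‖ = 1) : Mn (fun n => ξ ^ n) (if ξ = 1 then 1 else 0) := by
  have habel : ∀ x : ℝ, 0 < x → x < 1 → abel (fun n => ξ ^ n) x = ((1 - x : ℝ) : ℂ) / (1 - ξ * x) := by
    intro x h0 h1
    unfold abel
    have : ∀ n : ℕ, ξ ^ n * (x : ℂ) ^ n = (ξ * x) ^ n := fun n => (mul_pow _ _ _).symm
    simp only [this]
    rw [tsum_geometric_of_norm_lt_one (by
      rw [norm_mul, h, one_mul, Complex.norm_real, Real.norm_of_nonneg h0.le]; exact h1)]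
    rfl
  split_ifs with hξ
  · refine (tendsto_const_nhds (x := (1 : ℂ))).congr' ?_
    filter_upwards [ev_x] with x hx
    rw [habel x hx.1 hx.2, hξ, one_mul]
    have : (1 : ℂ) - (x : ℂ) ≠ 0 := by
      intro h
      have h2 : (x : ℂ) = 1 := (sub_eq_zero.1 h).symm
      have : x = 1 := by exact_mod_cast h2
      linarith [hx.2]
    push_cast
    rw [div_self this]
  · have hlim : Tendsto (fun x : ℝ => ((1 - x : ℝ) : ℂ) / (1 - ξ * x)) (𝓝 1)
        (𝓝 (((1 - 1 : ℝ) : ℂ) / (1 - ξ * (1 : ℝ)))) := by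
      apply Tendsto.div
      · apply Continuous.tendsto; fun_prop
      · apply Continuous.tendsto; fun_prop
      · simp only [Complex.ofReal_one, mul_one]
        exact sub_ne_zero.2 (Ne.symm hξ)
    simp only [sub_self, Complex.ofReal_zero, zero_div] at hlim
    refine (hlim.mono_left nhdsWithin_le_nhds).congr' ?_
    filter_upwards [ev_x] with x hx
    rw [habel x hx.1 hx.2]

/-- approximation principle -/
lemma Mz_approx {v : ℕ → ℂ} (hv : Bdd v)
    (h : ∀ ε : ℝ, 0 < ε → ∃ w : ℕ → ℂ, Bdd w ∧ Mn w 0 ∧ ∀ n, ‖v n - w n‖ ≤ ε) : Mn v 0 := by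
  unfold Mn
  rw [tendsto_zero_iff_norm_tendsto_zero, Metric.tendsto_nhds]
  intro ε hε
  obtain ⟨w, hw, hw0, hvw⟩ := h (ε / 2) (by positivity)
  have h2 := (tendsto_zero_iff_norm_tendsto_zero.1 hw0).eventually (gt_mem_nhds (half_pos hε))
  filter_upwards [ev_x, h2] with x hx hx2
  rw [dist_zero_right, norm_norm]
  have e : abel v x = abel (fun n => v n - w n) x + abel w x := by
    unfold abel
    rw [← mul_add, ← (summ (hv.sub hw) hx.1 hx.2).tsum_add (summ hw hx.1 hx.2)]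
    congr 1
    exact tsum_congr fun n => by ring
  rw [e]
  refine (norm_add_le _ _).trans_lt ?_
  have h3 : ‖abel (fun n => v n - w n) x‖ ≤ ε / 2 := by
    refine (abel_norm_le (hv.sub hw) hx.1 hx.2).trans ?_
    rw [← geom_sum_x hx.1 hx.2 (ε / 2)]
    apply mul_le_mul_of_nonneg_left _ (by linarith [hx.2])
    apply Summable.tsum_le_tsum _ (norm_summ (hv.sub hw) hx.1 hx.2)
      ((summable_geometric_of_lt_one hx.1.le hx.2).mul_left _)
    intro n
    exact mul_le_mul_of_nonneg_right (hvw n) (pow_nonneg hx.1.le n)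
  linarith

/-- domination principle -/
lemma Mz_dom {v w : ℕ → ℂ} (hv : Bdd v) (hreal : ∀ n, v n = (‖v n‖ : ℂ)) (h0 : Mn v 0) {C : ℝ}
    (hw : ∀ n, ‖w n‖ ≤ C * ‖v n‖) (hC : 0 ≤ C) : Mn w 0 := by
  have hwb : Bdd w := by
    obtain ⟨D, hD⟩ := hv
    exact ⟨C * D, fun n => (hw n).trans (mul_le_mul_of_nonneg_left (hD n) hC)⟩
  unfold Mn
  rw [tendsto_zero_iff_norm_tendsto_zero]
  have h1 := (tendsto_zero_iff_norm_tendsto_zero.1 h0).const_mul C
  rw [mul_zero] at h1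
  refine squeeze_zero' (Eventually.of_forall fun _ => norm_nonneg _) ?_ h1
  filter_upwards [ev_x] with x hx
  refine (abel_norm_le hwb hx.1 hx.2).trans ?_
  have e : ‖abel v x‖ = (1 - x) * ∑' n, ‖v n‖ * x ^ n := by
    unfold abel
    rw [norm_mul, Complex.norm_real, Real.norm_of_nonneg (by linarith [hx.2])]
    congr 1
    have : ∑' n, v n * (x : ℂ) ^ n = ((∑' n, ‖v n‖ * x ^ n : ℝ) : ℂ) := by
      rw [Complex.ofReal_tsum]
      apply tsum_congr
      intro n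
      push_cast
      rw [← hreal n]
    rw [this, Complex.norm_real, Real.norm_of_nonneg]
    exact tsum_nonneg fun n => mul_nonneg (norm_nonneg _) (pow_nonneg hx.1.le n)
  rw [e]
  have e2 : C * ((1 - x) * ∑' n, ‖v n‖ * x ^ n) = (1 - x) * ∑' n, C * ‖v n‖ * x ^ n := by
    have : ∑' n, C * ‖v n‖ * x ^ n = C * ∑' n, ‖v n‖ * x ^ n := by
      rw [← tsum_mul_left]; exact tsum_congr fun n => by ring
    rw [this]; ring
  rw [e2]
  apply mul_le_mul_of_nonneg_left _ (by linarith [hx.2])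
  apply Summable.tsum_le_tsum _ (norm_summ hwb hx.1 hx.2)
  · have := (norm_summ hv hx.1 hx.2).mul_left C
    refine this.congr ?_
    intro n; ring
  · intro n
    exact mul_le_mul_of_nonneg_right (hw n) (pow_nonneg hx.1.le n)

lemma Mz_finite {v : ℕ → ℂ} (N : ℕ) (h : ∀ n, N ≤ n → v n = 0) : Mn v 0 := by
  have hab : ∀ x : ℝ, abel v x = ((1 - x : ℝ) : ℂ) * ∑ n ∈ Finset.range N, v n * (x : ℂ) ^ n := by
    intro x
    unfold abel
    rw [tsum_eq_sum (s := Finset.range N)]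
    intro n hn
    rw [h n (by simpa using hn), zero_mul]
  have hlim : Tendsto (fun x : ℝ => ((1 - x : ℝ) : ℂ) * ∑ n ∈ Finset.range N, v n * (x : ℂ) ^ n) (𝓝 1)
      (𝓝 (((1 - 1 : ℝ) : ℂ) * ∑ n ∈ Finset.range N, v n * ((1 : ℝ) : ℂ) ^ n)) := by
    apply Continuous.tendsto
    fun_prop
  simp only [sub_self, Complex.ofReal_zero, zero_mul] at hlim
  exact (hlim.mono_left nhdsWithin_le_nhds).congr fun x => (hab x).symm

/-- null sequences have mean zero -/
lemma Mz_null {v : ℕ → ℂ} (h : Tendsto v atTop (𝓝 0)) : Mn v 0 ∧ Bdd v := by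
  have hb : Bdd v := by
    obtain ⟨C, hC⟩ := (h.norm.bddAbove_range)
    exact ⟨C, fun n => hC ⟨n, rfl⟩⟩
  refine ⟨Mz_approx hb ?_, hb⟩
  intro ε hε
  obtain ⟨N, hN⟩ := Filter.eventually_atTop.1
    ((tendsto_zero_iff_norm_tendsto_zero.1 h).eventually (gt_mem_nhds hε))
  refine ⟨fun n => if n < N then v n else 0, ?_, ?_, ?_⟩
  · obtain ⟨C, hC⟩ := hb
    refine ⟨C, fun n => ?_⟩
    beta_reduce
    split_ifs
    · exact hC n
    · rw [norm_zero]; exact (norm_nonneg _).trans (hC n)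
  · apply Mz_finite N
    intro n hn
    rw [if_neg (not_lt.2 hn)]
  · intro n
    beta_reduce
    split_ifs with hn
    · rw [sub_self, norm_zero]; exact hε.le
    · rw [sub_zero]; exact (hN n (not_lt.1 hn)).le

/-- exponential sums with frequencies in `S` -/
def ES (S : Set ℂ) : Submodule ℂ (ℕ → ℂ) := Submodule.span ℂ ((fun ξ : ℂ => fun n : ℕ => ξ ^ n) '' S)

lemma ES_mono {S T : Set ℂ} (h : S ⊆ T) : ES S ≤ ES T := Submodule.span_mono (Set.image_mono h)

lemma ES_pow {S : Set ℂ} {ξ : ℂ} (h : ξ ∈ S) : (fun n : ℕ => ξ ^ n) ∈ ES S :=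
  Submodule.subset_span ⟨ξ, h, rfl⟩

lemma ES_mul {S T : Set ℂ} {v w : ℕ → ℂ} (hv : v ∈ ES S) (hw : w ∈ ES T) :
    (fun n => v n * w n) ∈ ES {z | ∃ s ∈ S, ∃ t ∈ T, z = s * t} := by
  unfold ES at hv
  induction hv using Submodule.span_induction with
  | mem x hx =>
    obtain ⟨ξ, hξ, rfl⟩ := hx
    unfold ES at hw
    induction hw using Submodule.span_induction with
    | mem y hy =>
      obtain ⟨η, hη, rfl⟩ := hy
      have : (fun n : ℕ => ξ ^ n * η ^ n) = fun n : ℕ => (ξ * η) ^ n := by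
        funext n; rw [mul_pow]
      beta_reduce
      rw [this]
      exact ES_pow ⟨ξ, hξ, η, hη, rfl⟩
    | zero =>
      have : (fun n : ℕ => ξ ^ n * (0 : ℕ → ℂ) n) = 0 := by funext n; simp
      beta_reduce
      rw [this]; exact Submodule.zero_mem _
    | add x y _ _ h1 h2 =>
      have : (fun n : ℕ => ξ ^ n * (x + y) n) = (fun n : ℕ => ξ ^ n * x n) + (fun n : ℕ => ξ ^ n * y n) := by
        funext n; simp [mul_add]
      beta_reduce at h1 h2 ⊢
      rw [this]; exact Submodule.add_mem _ h1 h2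
    | smul c x _ h1 =>
      have : (fun n : ℕ => ξ ^ n * (c • x) n) = c • (fun n : ℕ => ξ ^ n * x n) := by
        funext n; simp; ring
      beta_reduce at h1 ⊢
      rw [this]; exact Submodule.smul_mem _ _ h1
  | zero =>
    have : (fun n : ℕ => (0 : ℕ → ℂ) n * w n) = 0 := by funext n; simp
    rw [this]; exact Submodule.zero_mem _
  | add x y _ _ h1 h2 =>
    have : (fun n : ℕ => (x + y) n * w n) = (fun n : ℕ => x n * w n) + (fun n : ℕ => y n * w n) := by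
      funext n; simp [add_mul]
    rw [this]; exact Submodule.add_mem _ h1 h2
  | smul c x _ h1 =>
    have : (fun n : ℕ => (c • x) n * w n) = c • (fun n : ℕ => x n * w n) := by
      funext n; simp; ring
    rw [this]; exact Submodule.smul_mem _ _ h1

lemma ES_bdd {S : Set ℂ} (hS : ∀ ξ ∈ S, ‖ξ‖ = 1) {v : ℕ → ℂ} (hv : v ∈ ES S) : Bdd v := by
  unfold ES at hv
  induction hv using Submodule.span_induction with
  | mem x hx => obtain ⟨ξ, hξ, rfl⟩ := hx; exact Bdd.pow_unit (hS ξ hξ)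
  | zero => exact ⟨0, by simp⟩
  | add x y _ _ h1 h2 => exact h1.add h2
  | smul c x _ h1 => exact (Bdd.const c).mul h1

lemma ES_mean_zero {S : Set ℂ} (hS : ∀ ξ ∈ S, ‖ξ‖ = 1 ∧ ξ ≠ 1) {v : ℕ → ℂ} (hv : v ∈ ES S) :
    Mn v 0 := by
  have hS1 : ∀ ξ ∈ S, ‖ξ‖ = 1 := fun ξ h => (hS ξ h).1
  have key : Mn v 0 ∧ Bdd v := by
    unfold ES at hv
    induction hv using Submodule.span_induction with
    | mem x hx =>
      obtain ⟨ξ, hξ, rfl⟩ := hx
      refine ⟨?_, Bdd.pow_unit (hS ξ hξ).1⟩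
      have := Mn_pow (hS ξ hξ).1
      rwa [if_neg (hS ξ hξ).2] at this
    | zero => exact ⟨Mz_finite 0 (by simp), ⟨0, by simp⟩⟩
    | add x y _ _ h1 h2 =>
      refine ⟨?_, h1.2.add h2.2⟩
      have := Mn.add h1.2 h2.2 h1.1 h2.1
      rwa [add_zero] at this
    | smul c x _ h1 =>
      refine ⟨?_, (Bdd.const c).mul h1.2⟩
      have := Mn.smul c h1.1
      rwa [mul_zero] at this
  exact key.1

/-- an exponential sum with unimodular frequencies whose absolute values have mean zero is zero -/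
lemma ES_zero {S : Set ℂ} (hS : ∀ ξ ∈ S, ‖ξ‖ = 1) {v : ℕ → ℂ} (hv : v ∈ ES S)
    (h0 : Mn (fun n => (‖v n‖ : ℂ)) 0) : v = 0 := by
  classical
  have hb := ES_bdd hS hv
  have hv' : v ∈ Submodule.span ℂ (Set.range (fun ξ : S => fun n : ℕ => (ξ : ℂ) ^ n)) := by
    have : Set.range (fun ξ : S => fun n : ℕ => (ξ : ℂ) ^ n) =
        ((fun ξ : ℂ => fun n : ℕ => ξ ^ n) '' S) := by
      ext w; simp
    rw [this]; exact hv
  obtain ⟨c, hc⟩ := (Finsupp.mem_span_range_iff_exists_finsupp).1 hv'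
  have hvn : ∀ n, v n = ∑ ξ ∈ c.support, c ξ * (ξ : ℂ) ^ n := by
    intro n
    rw [← hc, Finsupp.sum, Finset.sum_apply]
    simp
  have hcz : ∀ η ∈ c.support, c η = 0 := by
    intro η hη
    have hη1 : ‖(η : ℂ)‖ = 1 := hS η η.2
    have hη0 : (η : ℂ) ≠ 0 := by
      intro h; rw [h, norm_zero] at hη1; exact zero_ne_one hη1
    have m1 : Mn (fun n => v n * ((η : ℂ)⁻¹) ^ n) 0 := by
      apply Mz_dom (v := fun n => (‖v n‖ : ℂ)) (C := 1) _ _ h0 _ (by norm_num)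
      · obtain ⟨C, hC⟩ := hb
        exact ⟨C, fun n => by simpa using hC n⟩
      · intro n; simp
      · intro n
        rw [norm_mul, norm_pow, norm_inv, hη1]; simp
    have m2 := (Mn.sum c.support (fun ξ n => c ξ * (((ξ : ℂ) * (η : ℂ)⁻¹) ^ n))
      (fun ξ => c ξ * (if (ξ : ℂ) * (η : ℂ)⁻¹ = 1 then 1 else 0))
      (fun ξ _ => (Bdd.const _).mul (Bdd.pow_unit (by rw [norm_mul, norm_inv, hη1, hS ξ ξ.2]; norm_num)))
      (fun ξ _ => Mn.smul _ (Mn_pow (by rw [norm_mul, norm_inv, hη1, hS ξ ξ.2]; norm_num)))).1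
    have e1 : (fun n => ∑ ξ ∈ c.support, c ξ * (((ξ : ℂ) * (η : ℂ)⁻¹) ^ n)) =
        fun n => v n * ((η : ℂ)⁻¹) ^ n := by
      funext n
      rw [hvn n, Finset.sum_mul]
      apply Finset.sum_congr rfl
      intro ξ _
      rw [mul_pow]; ring
    rw [e1] at m2
    have e2 : ∑ ξ ∈ c.support, c ξ * (if (ξ : ℂ) * (η : ℂ)⁻¹ = 1 then (1 : ℂ) else 0) = c η := by
      rw [Finset.sum_eq_single_of_mem η hη]
      · rw [mul_inv_cancel₀ hη0, if_pos rfl, mul_one]
      · intro ξ _ hne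
        rw [if_neg, mul_zero]
        intro h
        apply hne
        apply Subtype.ext
        rw [← div_eq_mul_inv, div_eq_one_iff_eq hη0] at h
        exact h
    rw [e2] at m2
    exact tendsto_nhds_unique m2 m1
  funext n
  rw [hvn n]
  apply Finset.sum_eq_zero
  intro ξ hξ
  rw [hcz ξ hξ, zero_mul]

end Pool.Agent.H66.FD
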