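import Mathlib
import Pool.Agent.H66.FD1
import Pool.Agent.H66.FD2

open Filter Topology

namespace Pool.Agent.H66.FD

/-- periodic functions are exponential sums over roots of unity -/
lemma periodic_ES {M : ℕ} (hM : 0 < M) {P : ℕ → ℂ} (hP : ∀ n, P (n + M) = P n) :
    P ∈ ES {z : ℂ | z ^ M = 1} := by
  set ω : ℂ := Complex.exp (2 * Real.pi * Complex.I / M) with hω
  have hprim : IsPrimitiveRoot ω M := Complex.isPrimitiveRoot_exp M hM.ne'
  have hPmod : ∀ n, P n = P (n % M) := by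
    intro n
    conv_lhs => rw [← Nat.mod_add_div n M]
    induction n / M with
    | zero => simp
    | succ k ih => rw [Nat.mul_succ, ← add_assoc, hP]; exact ih
  have hgeom : ∀ m : ℕ, ∑ j ∈ Finset.range M, (ω ^ j) ^ m = if M ∣ m then (M : ℂ) else 0 := by
    intro m
    have e1 : ∀ j, (ω ^ j) ^ m = (ω ^ m) ^ j := fun j => by rw [← pow_mul, ← pow_mul, mul_comm]
    simp only [e1]
    split_ifs with h
    · rw [(hprim.pow_eq_one_iff_dvd m).2 h]; simp
    · have hne : ω ^ m ≠ 1 := fun h' => h ((hprim.pow_eq_one_iff_dvd m).1 h')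
      rw [geom_sum_eq hne, ← pow_mul, mul_comm, pow_mul, hprim.pow_eq_one, one_pow, sub_self,
        zero_div]
  have hM0 : (M : ℂ) ≠ 0 := by exact_mod_cast hM.ne'
  have hrep : P = ∑ a ∈ Finset.range M, ∑ j ∈ Finset.range M,
      (P a / M * (ω ^ j) ^ (M - a)) • (fun n : ℕ => (ω ^ j) ^ n) := by
    funext n
    simp only [Finset.sum_apply, Pi.smul_apply, smul_eq_mul]
    have e1 : ∀ a ∈ Finset.range M, ∑ j ∈ Finset.range M, P a / M * (ω ^ j) ^ (M - a) * (ω ^ j) ^ n =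
        if a = n % M then P a else 0 := by
      intro a ha
      have ha' : a < M := Finset.mem_range.1 ha
      have e2 : ∑ j ∈ Finset.range M, P a / M * (ω ^ j) ^ (M - a) * (ω ^ j) ^ n =
          P a / M * ∑ j ∈ Finset.range M, (ω ^ j) ^ (M - a + n) := by
        rw [Finset.mul_sum]
        apply Finset.sum_congr rfl
        intro j _
        rw [pow_add, mul_assoc]
      rw [e2, hgeom]
      have hiff : M ∣ (M - a + n) ↔ a = n % M := by
        constructor
        · intro h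
          have h1 : (M - a + n) % M = 0 := Nat.mod_eq_zero_of_dvd h
          have h2 : (M - a + n) % M = (M - a + n % M) % M := by
            rw [Nat.add_mod, Nat.add_mod (M - a) (n % M), Nat.mod_mod]
          rw [h2] at h1
          have h3 : n % M < M := Nat.mod_lt _ hM
          obtain ⟨q, hq⟩ := Nat.dvd_of_mod_eq_zero h1
          have hq1 : q = 1 := by
            rcases q with _ | _ | q
            · simp at hq; omega
            · rfl
            · exfalso
              have : M * (q + 1 + 1) ≥ 2 * M := by nlinarith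
              omega
          subst hq1
          omega
        · intro h
          rw [Nat.dvd_iff_mod_eq_zero, Nat.add_mod]
          subst h
          have h3 : n % M < M := Nat.mod_lt _ hM
          rcases Nat.eq_zero_or_pos (n % M) with h0 | h0
          · rw [h0]; simp
          · rw [Nat.mod_eq_of_lt (show M - n % M < M by omega)]
            rw [show M - n % M + n % M = M by omega, Nat.mod_self]
      by_cases h : a = n % M
      · rw [if_pos (hiff.2 h), if_pos h]; field_simp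
      · rw [if_neg (fun h' => h (hiff.1 h')), if_neg h, mul_zero]
    rw [Finset.sum_congr rfl e1, Finset.sum_ite_eq' , if_pos (Finset.mem_range.2 (Nat.mod_lt _ hM))]
    exact hPmod n
  rw [hrep]
  apply Submodule.sum_mem
  intro a _
  apply Submodule.sum_mem
  intro j _
  apply Submodule.smul_mem
  apply ES_pow
  show (ω ^ j) ^ M = 1
  rw [← pow_mul, mul_comm, pow_mul, hprim.pow_eq_one, one_pow]

/-- the unit circle -/
def UC : Set ℂ := {z | ‖z‖ = 1}

lemma ES_mul_UC {v w : ℕ → ℂ} (hv : v ∈ ES UC) (hw : w ∈ ES UC) : (fun n => v n * w n) ∈ ES UC := by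
  apply ES_mono _ (ES_mul hv hw)
  rintro z ⟨s, hs, t, ht, rfl⟩
  have h1 : ‖s‖ = 1 := hs
  have h2 : ‖t‖ = 1 := ht
  show ‖s * t‖ = 1
  rw [norm_mul, h1, h2, one_mul]

lemma one_mem_ES : (fun _ : ℕ => (1 : ℂ)) ∈ ES UC := by
  have : (fun _ : ℕ => (1 : ℂ)) = fun n : ℕ => (1 : ℂ) ^ n := by funext n; simp
  rw [this]
  exact ES_pow (by show ‖(1 : ℂ)‖ = 1; simp)

noncomputable def rho (α : ℂ) : ℝ := max 1 ‖α‖

lemma rho_pos (α : ℂ) : 0 < rho α := lt_of_lt_of_le one_pos (le_max_left _ _)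

lemma factor_struct (α : ℂ) : ∃ e : ℕ → ℂ, e ∈ ES UC ∧
    Tendsto (fun n => (α ^ n - 1) / (rho α : ℂ) ^ n - e n) atTop (𝓝 0) ∧
    (∀ n, 0 < n → α ^ n - 1 ≠ 0 → e n ≠ 0) := by
  rcases lt_trichotomy ‖α‖ 1 with h | h | h
  · have hr : rho α = 1 := max_eq_left h.le
    refine ⟨fun _ => -1, ?_, ?_, fun n _ _ => by simp⟩
    · have : (fun _ : ℕ => (-1 : ℂ)) = (-1 : ℂ) • (fun _ : ℕ => (1 : ℂ)) := by funext n; simp
      rw [this]; exact Submodule.smul_mem _ _ one_mem_ES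
    · rw [hr]
      have : (fun n : ℕ => (α ^ n - 1) / ((1 : ℝ) : ℂ) ^ n - (-1)) = fun n => α ^ n := by
        funext n; simp
      rw [this]
      exact tendsto_pow_atTop_nhds_zero_of_norm_lt_one h
  · have hr : rho α = 1 := by unfold rho; rw [h, max_self]
    refine ⟨fun n => α ^ n - 1, ?_, ?_, fun n _ hn => hn⟩
    · exact Submodule.sub_mem _ (ES_pow h) one_mem_ES
    · rw [hr]
      have : (fun n : ℕ => (α ^ n - 1) / ((1 : ℝ) : ℂ) ^ n - (α ^ n - 1)) = fun n => 0 := by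
        funext n; simp
      rw [this]
      exact tendsto_const_nhds
  · have hr : rho α = ‖α‖ := max_eq_right h.le
    have hα : (‖α‖ : ℂ) ≠ 0 := by
      have : ‖α‖ ≠ 0 := by linarith
      exact_mod_cast this
    refine ⟨fun n => (α / ‖α‖) ^ n, ES_pow ?_, ?_, ?_⟩
    · show ‖α / (‖α‖ : ℂ)‖ = 1
      rw [norm_div, Complex.norm_real, norm_norm, div_self]
      linarith
    · rw [hr]
      have : (fun n : ℕ => (α ^ n - 1) / (‖α‖ : ℂ) ^ n - (α / ‖α‖) ^ n) = fun n => -((‖α‖ : ℂ)⁻¹) ^ n := by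
        funext n
        rw [div_pow, inv_pow]; field_simp; ring
      rw [this, ← neg_zero]
      apply Tendsto.neg
      apply tendsto_pow_atTop_nhds_zero_of_norm_lt_one
      rw [norm_inv, Complex.norm_real, norm_norm]
      exact inv_lt_one_of_one_lt₀ h
    · intro n _ _
      apply pow_ne_zero
      apply div_ne_zero _ hα
      intro h0
      rw [h0, norm_zero] at h
      linarith

lemma null_mul {v w : ℕ → ℂ} (hv : Tendsto v atTop (𝓝 0)) (hw : Bdd w) :
    Tendsto (fun n => v n * w n) atTop (𝓝 0) := by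
  obtain ⟨C, hC⟩ := hw
  rw [tendsto_zero_iff_norm_tendsto_zero] at hv ⊢
  have h1 := hv.mul_const C
  rw [zero_mul] at h1
  refine squeeze_zero (fun _ => norm_nonneg _) (fun n => ?_) h1
  rw [norm_mul]
  exact mul_le_mul_of_nonneg_left (hC n) (norm_nonneg _)

lemma prod_struct (m : Multiset ℂ) : ∃ E : ℕ → ℂ, E ∈ ES UC ∧
    Tendsto (fun n => (m.map (fun α => α ^ n - 1)).prod / (((m.map rho).prod : ℝ) : ℂ) ^ n - E n)
      atTop (𝓝 0) ∧
    (∀ n, 0 < n → (m.map (fun α => α ^ n - 1)).prod ≠ 0 → E n ≠ 0) := by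
  induction m using Multiset.induction_on with
  | empty =>
    refine ⟨fun _ => 1, one_mem_ES, ?_, fun n _ _ => one_ne_zero⟩
    simp
  | cons a m ih =>
    obtain ⟨E, hE, hlim, hne⟩ := ih
    obtain ⟨e, he, helim, hene⟩ := factor_struct a
    refine ⟨fun n => e n * E n, ES_mul_UC he hE, ?_, ?_⟩
    · have hEb := ES_bdd (fun ξ h => h) hE
      have heb := ES_bdd (fun ξ h => h) he
      obtain ⟨_, hdb⟩ := Mz_null hlim
      have hPb : Bdd (fun n => (m.map (fun α => α ^ n - 1)).prod / (((m.map rho).prod : ℝ) : ℂ) ^ n) := by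
        have := hdb.add hEb
        simpa using this
      have h1 := null_mul helim hPb
      have h2 := null_mul hlim heb
      have h3 := h1.add h2
      rw [add_zero] at h3
      refine h3.congr ?_
      intro n
      rw [Multiset.map_cons, Multiset.prod_cons, Multiset.map_cons, Multiset.prod_cons,
        Complex.ofReal_mul, mul_pow, mul_div_mul_comm]
      ring
    · intro n hn h
      rw [Multiset.map_cons, Multiset.prod_cons] at h
      exact mul_ne_zero (hene n hn (left_ne_zero_of_mul h)) (hne n hn (right_ne_zero_of_mul h))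

lemma bn_struct {d : ℕ} (A : Matrix (Fin d) (Fin d) ℤ) : ∃ (ρ0 : ℝ) (E : ℕ → ℂ), 0 < ρ0 ∧
    E ∈ ES UC ∧ Tendsto (fun n => ((|(dn A n : ℝ)| / ρ0 ^ n : ℝ) : ℂ) - E n) atTop (𝓝 0) ∧
    (∀ n, 0 < n → dn A n ≠ 0 → E n ≠ 0) := by
  obtain ⟨ε, δ, hε, hδ, hsign⟩ := sign_exists A
  obtain ⟨E, hE, hlim, hne⟩ := prod_struct (AC A).charpoly.roots
  set ρ0 : ℝ := ((AC A).charpoly.roots.map rho).prod with hρ0
  have hρ0pos : 0 < ρ0 := by
    apply Multiset.prod_pos
    intro x hx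
    obtain ⟨α, -, rfl⟩ := Multiset.mem_map.1 hx
    exact rho_pos α
  have hδ1 : ‖(δ : ℂ)‖ = 1 := by
    rcases hδ with h | h <;> rw [h] <;> simp
  have hε0 : (ε : ℂ) ≠ 0 := by
    rcases hε with h | h <;> rw [h] <;> simp
  have hδ0 : (δ : ℂ) ≠ 0 := by
    rcases hδ with h | h <;> rw [h] <;> simp
  have hdES : (fun n : ℕ => (ε : ℂ) * (δ : ℂ) ^ n) ∈ ES UC := by
    have : (fun n : ℕ => (ε : ℂ) * (δ : ℂ) ^ n) = (ε : ℂ) • (fun n : ℕ => (δ : ℂ) ^ n) := by
      funext n; simp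
    rw [this]
    exact Submodule.smul_mem _ _ (ES_pow hδ1)
  refine ⟨ρ0, fun n => ((ε : ℂ) * (δ : ℂ) ^ n) * E n, hρ0pos, ES_mul_UC hdES hE, ?_, ?_⟩
  · have h1 := null_mul hlim (ES_bdd (fun ξ h => h) hdES)
    refine h1.congr' ?_
    filter_upwards [eventually_gt_atTop 0] with n hn
    have h2 : ((dn A n : ℤ) : ℂ) = ((AC A).charpoly.roots.map (fun α => α ^ n - 1)).prod := by
      rw [dn_cast, det_eq_prod _ n hn]
    have h3 : ((|(dn A n : ℝ)| : ℝ) : ℂ) = (ε : ℂ) * (δ : ℂ) ^ n * ((dn A n : ℤ) : ℂ) := by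
      have := hsign n hn
      have h4 : ((|dn A n| : ℤ) : ℂ) = ((ε * δ ^ n * dn A n : ℤ) : ℂ) := by rw [this]
      push_cast at h4
      rw [← h4]
      have h5 : (|(dn A n : ℝ)| : ℝ) = ((|dn A n| : ℤ) : ℝ) := by push_cast; rfl
      rw [h5]
      simp only [Complex.ofReal_intCast]
    rw [Complex.ofReal_div, h3, Complex.ofReal_pow, ← h2]
    ring
  · intro n hn h
    apply mul_ne_zero (mul_ne_zero hε0 (pow_ne_zero n hδ0))
    apply hne n hn
    rw [← det_eq_prod _ n hn, ← dn_cast]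
    exact_mod_cast h

/-- approximable by periodic sequences whose period has bounded `p`-part -/
def LP (p e : ℕ) (w : ℕ → ℂ) : Prop := Bdd w ∧ ∀ ε : ℝ, 0 < ε → ∃ M : ℕ, 0 < M ∧
  M.factorization p ≤ e ∧ ∃ w' : ℕ → ℂ, (∀ n, w' (n + M) = w' n) ∧ ∀ n, 1 ≤ n → ‖w n - w' n‖ ≤ ε

lemma periodic_mul_period {M : ℕ} {w : ℕ → ℂ} (h : ∀ n, w (n + M) = w n) (k : ℕ) :
    ∀ n, w (n + M * k) = w n := by
  induction k with
  | zero => intro n; simp
  | succ k ih => intro n; rw [Nat.mul_succ, ← add_assoc, h, ih]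

lemma LP.mul {p e1 e2 : ℕ} {w1 w2 : ℕ → ℂ} (h1 : LP p e1 w1) (h2 : LP p e2 w2) :
    LP p (e1 + e2) (fun n => w1 n * w2 n) := by
  refine ⟨h1.1.mul h2.1, ?_⟩
  intro ε hε
  obtain ⟨C1, hC1⟩ := h1.1
  obtain ⟨C2, hC2⟩ := h2.1
  have hC1' : 0 ≤ C1 := (norm_nonneg _).trans (hC1 0)
  have hC2' : 0 ≤ C2 := (norm_nonneg _).trans (hC2 0)
  set δ := min 1 (ε / (C1 + C2 + 2)) with hδ
  have hδpos : 0 < δ := lt_min one_pos (by positivity)
  have hδ1 : δ ≤ 1 := min_le_left _ _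
  have hδ2 : δ * (C1 + C2 + 2) ≤ ε := by
    have : δ ≤ ε / (C1 + C2 + 2) := min_le_right _ _
    rwa [le_div_iff₀ (by positivity)] at this
  obtain ⟨M1, hM1, hf1, v1, hp1, hv1⟩ := h1.2 δ hδpos
  obtain ⟨M2, hM2, hf2, v2, hp2, hv2⟩ := h2.2 δ hδpos
  refine ⟨M1 * M2, Nat.mul_pos hM1 hM2, ?_, fun n => v1 n * v2 n, ?_, ?_⟩
  · rw [Nat.factorization_mul hM1.ne' hM2.ne']
    exact add_le_add hf1 hf2
  · intro n
    beta_reduce
    rw [periodic_mul_period hp1 M2 n, mul_comm M1 M2, periodic_mul_period hp2 M1 n]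
  · intro n hn
    beta_reduce
    have e1 : w1 n * w2 n - v1 n * v2 n = w1 n * (w2 n - v2 n) + (w1 n - v1 n) * v2 n := by ring
    rw [e1]
    refine (norm_add_le _ _).trans ?_
    rw [norm_mul, norm_mul]
    have e2 : ‖v2 n‖ ≤ C2 + δ := by
      have : v2 n = w2 n - (w2 n - v2 n) := by ring
      rw [this]
      exact (norm_sub_le _ _).trans (add_le_add (hC2 n) (hv2 n hn))
    have e3 : ‖w1 n‖ * ‖w2 n - v2 n‖ ≤ C1 * δ :=
      mul_le_mul (hC1 n) (hv2 n hn) (norm_nonneg _) hC1'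
    have e4 : ‖w1 n - v1 n‖ * ‖v2 n‖ ≤ δ * (C2 + δ) :=
      mul_le_mul (hv1 n hn) e2 (norm_nonneg _) hδpos.le
    nlinarith

lemma LP.mono {p e e' : ℕ} {w : ℕ → ℂ} (h : LP p e w) (he : e ≤ e') : LP p e' w :=
  ⟨h.1, fun ε hε => by
    obtain ⟨M, a, b, c⟩ := h.2 ε hε
    exact ⟨M, a, b.trans he, c⟩⟩

end Pool.Agent.H66.FD
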