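import Mathlib
import Pool.Agent.H66.FD3

open Filter Topology

namespace Pool.Agent.H66.FD

/-- `a` is a gcd sequence with period `N` -/
def IsGcdSeq (a : ℕ → ℝ) (N : ℕ) : Prop := 0 < N ∧ ∀ n, 1 ≤ n → a n = a (Nat.gcd n N)

/-- the `p`-adic absolute value of the positive integer `n` -/
noncomputable def absP (p n : ℕ) : ℝ := ((p : ℝ) ^ padicValNat p n)⁻¹

/-- the factor `|n|_p^{s_n} p^{-t_n |n|_p^{-1}}` -/
noncomputable def phi (p : ℕ) (s t : ℕ → ℝ) (n : ℕ) : ℝ :=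
  absP p n ^ s n * (p : ℝ) ^ (-(t n * (absP p n)⁻¹))

/-- truncated factor, periodic of period `N * p ^ V` -/
noncomputable def phiV (p N : ℕ) (s t : ℕ → ℝ) (V n : ℕ) : ℝ :=
  (p : ℝ) ^ (-(s (Nat.gcd n N) * (padicValNat p (Nat.gcd n (p ^ V)) : ℝ) +
    t (Nat.gcd n N) * (Nat.gcd n (p ^ V) : ℝ)))

lemma phi_eq {p : ℕ} (hp : p.Prime) (s t : ℕ → ℝ) (n : ℕ) :
    phi p s t n = (p : ℝ) ^ (-(s n * (padicValNat p n : ℝ) + t n * (p : ℝ) ^ padicValNat p n)) := by
  have hp0 : (0 : ℝ) < p := by exact_mod_cast hp.pos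
  unfold phi absP
  rw [inv_inv, ← Real.rpow_natCast, ← Real.rpow_neg hp0.le, ← Real.rpow_mul hp0.le,
    ← Real.rpow_add hp0]
  congr 1
  ring

lemma phi_pos {p : ℕ} (hp : p.Prime) (s t : ℕ → ℝ) (n : ℕ) : 0 < phi p s t n := by
  rw [phi_eq hp]
  exact Real.rpow_pos_of_pos (by exact_mod_cast hp.pos) _

lemma phiV_pos {p : ℕ} (hp : p.Prime) (N : ℕ) (s t : ℕ → ℝ) (V n : ℕ) : 0 < phiV p N s t V n :=
  Real.rpow_pos_of_pos (by exact_mod_cast hp.pos) _

lemma rpow_neg_le_one {p : ℕ} (hp : p.Prime) {x : ℝ} (hx : 0 ≤ x) : (p : ℝ) ^ (-x) ≤ 1 :=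
  Real.rpow_le_one_of_one_le_of_nonpos (by exact_mod_cast hp.one_lt.le) (by linarith)

lemma gcd_pow_of_le {p : ℕ} (hp : p.Prime) {n V : ℕ} (hn : n ≠ 0) (h : padicValNat p n ≤ V) :
    Nat.gcd n (p ^ V) = p ^ padicValNat p n := by
  have := Fact.mk hp
  apply Nat.dvd_antisymm
  · obtain ⟨k, hk, hk2⟩ := (Nat.dvd_prime_pow hp).1 (Nat.gcd_dvd_right n (p ^ V))
    rw [hk2]
    apply pow_dvd_pow
    apply (padicValNat_dvd_iff_le hn).1
    rw [← hk2]; exact Nat.gcd_dvd_left _ _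
  · exact Nat.dvd_gcd pow_padicValNat_dvd (pow_dvd_pow p h)

lemma gcd_pow_of_dvd {p : ℕ} {n V : ℕ} (h : p ^ V ∣ n) : Nat.gcd n (p ^ V) = p ^ V :=
  Nat.gcd_eq_right h

lemma phiV_eq_of_not_dvd {p : ℕ} (hp : p.Prime) {N : ℕ} {s t : ℕ → ℝ}
    (hs : IsGcdSeq s N) (ht : IsGcdSeq t N) {V n : ℕ} (hn : 1 ≤ n) (h : ¬ p ^ (V + 1) ∣ n) :
    phiV p N s t V n = phi p s t n := by
  have := Fact.mk hp
  have hn0 : n ≠ 0 := by omega
  have hv : padicValNat p n ≤ V := by
    by_contra hcon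
    exact h ((padicValNat_dvd_iff_le hn0).2 (by omega))
  rw [phi_eq hp]
  unfold phiV
  rw [gcd_pow_of_le hp hn0 hv, padicValNat.prime_pow, ← hs.2 n hn, ← ht.2 n hn]
  push_cast
  rfl

/-- on multiples of `p ^ V` -/
lemma phiV_of_dvd {p : ℕ} (hp : p.Prime) {N : ℕ} {s t : ℕ → ℝ}
    (hs : IsGcdSeq s N) (ht : IsGcdSeq t N) {V n : ℕ} (hn : 1 ≤ n) (h : p ^ V ∣ n) :
    phiV p N s t V n = (p : ℝ) ^ (-(s n * (V : ℝ) + t n * (p : ℝ) ^ V)) := by
  have := Fact.mk hp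
  unfold phiV
  rw [gcd_pow_of_dvd h, padicValNat.prime_pow, ← hs.2 n hn, ← ht.2 n hn]
  push_cast
  rfl

lemma phi_le_phiV {p : ℕ} (hp : p.Prime) {N : ℕ} {s t : ℕ → ℝ}
    (hs : IsGcdSeq s N) (ht : IsGcdSeq t N) (hs0 : ∀ n, 1 ≤ n → 0 ≤ s n) (ht0 : ∀ n, 1 ≤ n → 0 ≤ t n)
    {V n : ℕ} (hn : 1 ≤ n) (h : p ^ V ∣ n) :
    phi p s t n ≤ phiV p N s t V n ∧ (p ^ (V + 1) ∣ n → (s n ≠ 0 ∨ t n ≠ 0) →
      phi p s t n < phiV p N s t V n) := by
  have := Fact.mk hp
  have hn0 : n ≠ 0 := by omega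
  have hp1 : (1 : ℝ) < p := by exact_mod_cast hp.one_lt
  have hv : V ≤ padicValNat p n := (padicValNat_dvd_iff_le hn0).1 h
  rw [phiV_of_dvd hp hs ht hn h, phi_eq hp]
  have h1 : s n * (V : ℝ) ≤ s n * (padicValNat p n : ℝ) :=
    mul_le_mul_of_nonneg_left (by exact_mod_cast hv) (hs0 n hn)
  have h2 : t n * (p : ℝ) ^ V ≤ t n * (p : ℝ) ^ padicValNat p n :=
    mul_le_mul_of_nonneg_left (pow_le_pow_right₀ hp1.le hv) (ht0 n hn)
  refine ⟨Real.rpow_le_rpow_of_exponent_le hp1.le (by linarith), ?_⟩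
  intro hd hne
  have hv' : V + 1 ≤ padicValNat p n := (padicValNat_dvd_iff_le hn0).1 hd
  apply Real.rpow_lt_rpow_of_exponent_lt hp1
  have hvlt : (V : ℝ) < (padicValNat p n : ℝ) := by exact_mod_cast (by omega : V < padicValNat p n)
  have hplt : (p : ℝ) ^ V < (p : ℝ) ^ padicValNat p n := pow_lt_pow_right₀ hp1 (by omega)
  rcases hne with hne | hne
  · have hspos : 0 < s n := lt_of_le_of_ne (hs0 n hn) (Ne.symm hne)
    have := mul_lt_mul_of_pos_left hvlt hspos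
    linarith
  · have htpos : 0 < t n := lt_of_le_of_ne (ht0 n hn) (Ne.symm hne)
    have := mul_lt_mul_of_pos_left hplt htpos
    linarith

lemma gcd_add_mul (n N k : ℕ) : Nat.gcd (n + N * k) N = Nat.gcd n N := by
  rw [Nat.gcd_add_mul_left_left]

lemma phiV_periodic {p : ℕ} (N : ℕ) (s t : ℕ → ℝ) (V n : ℕ) :
    phiV p N s t V (n + N * p ^ V) = phiV p N s t V n := by
  unfold phiV
  have h1 : Nat.gcd (n + N * p ^ V) N = Nat.gcd n N := gcd_add_mul n N _
  have h2 : Nat.gcd (n + N * p ^ V) (p ^ V) = Nat.gcd n (p ^ V) := by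
    rw [mul_comm]; exact gcd_add_mul n (p ^ V) _
  rw [h1, h2]

lemma exists_kappa (N : ℕ) (hN : 0 < N) (g : ℕ → ℝ) (hg : ∀ n, 1 ≤ n → 0 ≤ g n)
    (hgN : ∀ n, 1 ≤ n → g n = g (Nat.gcd n N)) :
    ∃ κ : ℝ, 0 < κ ∧ ∀ n, 1 ≤ n → g n = 0 ∨ κ ≤ g n := by
  classical
  have key : ∀ S : Finset ℕ, (∀ n ∈ S, 1 ≤ n) → ∃ κ : ℝ, 0 < κ ∧ ∀ n ∈ S, g n = 0 ∨ κ ≤ g n := by
    intro S
    induction S using Finset.induction_on with
    | empty => intro _; exact ⟨1, one_pos, by simp⟩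
    | insert a S ha ih =>
      intro h
      obtain ⟨κ, hκ, hκ2⟩ := ih (fun n hn => h n (Finset.mem_insert_of_mem hn))
      by_cases h0 : g a = 0
      · refine ⟨κ, hκ, ?_⟩
        intro n hn
        rcases Finset.mem_insert.1 hn with rfl | hn
        · exact Or.inl h0
        · exact hκ2 n hn
      · have hpos : 0 < g a := lt_of_le_of_ne (hg a (h a (Finset.mem_insert_self a S))) (Ne.symm h0)
        refine ⟨min κ (g a), lt_min hκ hpos, ?_⟩
        intro n hn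
        rcases Finset.mem_insert.1 hn with rfl | hn
        · exact Or.inr (min_le_right _ _)
        · rcases hκ2 n hn with h1 | h1
          · exact Or.inl h1
          · exact Or.inr ((min_le_left _ _).trans h1)
  obtain ⟨κ, hκ, hκ2⟩ := key (Nat.divisors N) (fun n hn => Nat.pos_of_mem_divisors hn)
  refine ⟨κ, hκ, fun n hn => ?_⟩
  rw [hgN n hn]
  exact hκ2 _ (Nat.mem_divisors.2 ⟨Nat.gcd_dvd_right _ _, hN.ne'⟩)

lemma gcdseq_LP {r : ℕ → ℝ} {N : ℕ} (h : IsGcdSeq r N) (p : ℕ) :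
    LP p (N.factorization p) (fun n => (r n : ℂ)) := by
  refine ⟨?_, ?_⟩
  · obtain ⟨C, hC⟩ : ∃ C : ℝ, ∀ n ∈ Nat.divisors N, |r n| ≤ C := by
      have := (Finset.finite_toSet ((Nat.divisors N).image (fun n => |r n|))).bddAbove
      obtain ⟨C, hC⟩ := this
      exact ⟨C, fun n hn => hC (by simpa using ⟨n, Nat.mem_divisors.1 hn, rfl⟩)⟩
    refine ⟨max C |r 0|, fun n => ?_⟩
    rw [Complex.norm_real, Real.norm_eq_abs]
    rcases Nat.eq_zero_or_pos n with h0 | h0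
    · rw [h0]; exact le_max_right _ _
    · rw [h.2 n h0]
      exact (hC _ (Nat.mem_divisors.2 ⟨Nat.gcd_dvd_right _ _, h.1.ne'⟩)).trans (le_max_left _ _)
  · intro ε hε
    refine ⟨N, h.1, le_rfl, fun n => (r (Nat.gcd n N) : ℂ), ?_, ?_⟩
    · intro n
      beta_reduce
      have := gcd_add_mul n N 1
      rw [mul_one] at this
      rw [this]
    · intro n hn
      beta_reduce
      rw [h.2 n hn, sub_self, norm_zero]; exact hε.le

lemma phi_LP {q : ℕ} (hq : q.Prime) {N : ℕ} {s t : ℕ → ℝ} (hs : IsGcdSeq s N) (ht : IsGcdSeq t N)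
    (hs0 : ∀ n, 1 ≤ n → 0 ≤ s n) (ht0 : ∀ n, 1 ≤ n → 0 ≤ t n) {p : ℕ} (hp : p.Prime) (hpq : p ≠ q) :
    LP p (N.factorization p) (fun n => (phi q s t n : ℂ)) := by
  have hq1 : (1 : ℝ) < q := by exact_mod_cast hq.one_lt
  refine ⟨?_, ?_⟩
  · refine ⟨max 1 (phi q s t 0), fun n => ?_⟩
    rw [Complex.norm_real, Real.norm_of_nonneg (phi_pos hq s t n).le]
    rcases Nat.eq_zero_or_pos n with h0 | h0
    · rw [h0]; exact le_max_right _ _
    · refine le_trans ?_ (le_max_left _ _)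
      rw [phi_eq hq]
      apply rpow_neg_le_one hq
      have h1 := hs0 n h0
      have h2 := ht0 n h0
      positivity
  · intro ε hε
    obtain ⟨κ, hκ, hκ2⟩ := exists_kappa N hs.1 (fun n => s n + t n)
      (fun n hn => add_nonneg (hs0 n hn) (ht0 n hn))
      (fun n hn => by
        beta_reduce
        rw [hs.2 n hn, ht.2 n hn])
    -- choose V
    have hlim : Tendsto (fun V : ℕ => (q : ℝ) ^ (-(κ * V))) atTop (𝓝 0) := by
      have h1 : (fun V : ℕ => (q : ℝ) ^ (-(κ * V))) = fun V : ℕ => ((q : ℝ) ^ (-κ)) ^ V := by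
        funext V
        rw [← Real.rpow_natCast, ← Real.rpow_mul (by positivity)]
        congr 1; ring
      rw [h1]
      apply tendsto_pow_atTop_nhds_zero_of_lt_one (by positivity)
      exact Real.rpow_lt_one_of_one_lt_of_neg hq1 (by linarith)
    obtain ⟨V, hV⟩ := (hlim.eventually (gt_mem_nhds hε)).exists
    refine ⟨N * q ^ V, Nat.mul_pos hs.1 (pow_pos hq.pos V), ?_, fun n => (phiV q N s t V n : ℂ), ?_, ?_⟩
    · rw [Nat.factorization_mul hs.1.ne' (pow_pos hq.pos V).ne', Nat.factorization_pow]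
      simp only [Finsupp.add_apply, Finsupp.smul_apply, smul_eq_mul]
      rw [Nat.Prime.factorization hq]
      simp [Ne.symm hpq, hpq]
    · intro n
      beta_reduce
      rw [phiV_periodic]
    · intro n hn
      beta_reduce
      by_cases hd : q ^ (V + 1) ∣ n
      · have hdV : q ^ V ∣ n := (pow_dvd_pow q (Nat.le_succ V)).trans hd
        have h1 := (phi_le_phiV hq hs ht hs0 ht0 hn hdV).1
        have h2 := phi_pos hq s t n
        rw [← Complex.ofReal_sub, Complex.norm_real, Real.norm_eq_abs, abs_sub_comm,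
          abs_of_nonneg (by linarith)]
        rcases hκ2 n hn with h3 | h3
        · have h4 : s n = 0 ∧ t n = 0 := by
            have a1 := hs0 n hn
            have a2 := ht0 n hn
            beta_reduce at h3
            constructor <;> linarith
          rw [phiV_of_dvd hq hs ht hn hdV, phi_eq hq, h4.1, h4.2]
          simp; exact hε.le
        · have h5 : phiV q N s t V n ≤ (q : ℝ) ^ (-(κ * V)) := by
            rw [phiV_of_dvd hq hs ht hn hdV]
            apply Real.rpow_le_rpow_of_exponent_le hq1.le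
            have a1 := hs0 n hn
            have a2 := ht0 n hn
            beta_reduce at h3
            have a3 : (V : ℝ) ≤ (q : ℝ) ^ V := by
              have : V < q ^ V := Nat.lt_pow_self hq.one_lt
              exact_mod_cast this.le
            have a4 : t n * (V : ℝ) ≤ t n * (q : ℝ) ^ V := mul_le_mul_of_nonneg_left a3 a2
            have a5 : κ * V ≤ (s n + t n) * V := mul_le_mul_of_nonneg_right h3 (by positivity)
            nlinarith
          linarith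
      · rw [phiV_eq_of_not_dvd hq hs ht hn hd, sub_self, norm_zero]; exact hε.le

end Pool.Agent.H66.FD
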