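import Mathlib
import Pool.Agent.H66.FD4

open Filter Topology

namespace Pool.Agent.H66.FD

lemma Mz_congr {v w : ℕ → ℂ} (hv : Bdd v) (hw : Bdd w) (h : ∀ n, 1 ≤ n → v n = w n) {L : ℂ}
    (h0 : Mn v L) : Mn w L := by
  have h1 : Mn (fun n => w n - v n) 0 := by
    apply Mz_finite 1
    intro n hn
    rw [h n hn, sub_self]
  have h2 := Mn.add hv (hw.sub hv) h0 h1
  rw [add_zero] at h2
  have : (fun n => v n + (w n - v n)) = w := by funext n; ring
  rwa [this] at h2

lemma Mz_approx1 {v : ℕ → ℂ} (hv : Bdd v)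
    (h : ∀ ε : ℝ, 0 < ε → ∃ w : ℕ → ℂ, Bdd w ∧ Mn w 0 ∧ ∀ n, 1 ≤ n → ‖v n - w n‖ ≤ ε) : Mn v 0 := by
  apply Mz_approx hv
  intro ε hε
  obtain ⟨w, hw, hw0, hvw⟩ := h ε hε
  have hb : Bdd (fun n => if n = 0 then v 0 else w n) := by
    obtain ⟨C, hC⟩ := hw
    refine ⟨max C ‖v 0‖, fun n => ?_⟩
    beta_reduce
    split_ifs
    · exact le_max_right _ _
    · exact (hC n).trans (le_max_left _ _)
  refine ⟨fun n => if n = 0 then v 0 else w n, hb, ?_, ?_⟩
  · apply Mz_congr hw hb _ hw0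
    intro n hn
    rw [if_neg (by omega)]
  · intro n
    beta_reduce
    split_ifs with h0
    · rw [h0, sub_self, norm_zero]; exact hε.le
    · exact hvw n (by omega)

lemma unit_of_pow {z : ℂ} {M : ℕ} (hM : 0 < M) (h : z ^ M = 1) : ‖z‖ = 1 := by
  have h1 : ‖z‖ ^ M = 1 := by rw [← norm_pow, h, norm_one]
  exact (pow_eq_one_iff_of_nonneg (norm_nonneg z) hM.ne').1 h1

lemma periodic_bdd {M : ℕ} (hM : 0 < M) {P : ℕ → ℂ} (hP : ∀ n, P (n + M) = P n) : Bdd P :=
  ES_bdd (fun _ hξ => unit_of_pow hM hξ) (periodic_ES hM hP)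

lemma exists_coprime_part {p : ℕ} (hp : p.Prime) {m K : ℕ} (hm : 0 < m)
    (h : m.factorization p ≤ K) : ∃ m' : ℕ, ¬ p ∣ m' ∧ m ∣ m' * p ^ K := by
  refine ⟨m / p ^ m.factorization p, Nat.not_dvd_ordCompl hp hm.ne', ?_⟩
  conv_lhs => rw [← Nat.ordProj_mul_ordCompl_eq_self m p]
  rw [mul_comm]
  exact Nat.mul_dvd_mul_left _ (pow_dvd_pow p h)

lemma Z1 {p : ℕ} (hp : p.Prime) {b E : ℕ → ℂ} {S : Set ℂ} (hS : ∀ ξ ∈ S, ‖ξ‖ = 1) (hE : E ∈ ES S)
    (hbE : Tendsto (fun n => b n - E n) atTop (𝓝 0)) {K : ℕ}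
    (hSK : ∀ ξ ∈ S, (∃ m, 0 < m ∧ ξ ^ m = 1) → ∃ m, 0 < m ∧ m.factorization p ≤ K ∧ ξ ^ m = 1)
    {w : ℕ → ℂ} (hw : LP p K w) {N : ℕ} (hN : 0 < N) (hpN : ¬ p ∣ N)
    {P : ℕ → ℂ} (hP : ∀ n, P (n + N * p ^ K) = P n) {ω : ℂ} (hω : IsPrimitiveRoot ω (p ^ (K + 1))) :
    Mn (fun n => b n * w n * P n * ω ^ n) 0 ∧ Bdd (fun n => b n * w n * P n * ω ^ n) := by
  have hpK : 0 < p ^ (K + 1) := pow_pos hp.pos _
  have hNK : 0 < N * p ^ K := Nat.mul_pos hN (pow_pos hp.pos _)
  have hω1 : ‖ω‖ = 1 := unit_of_pow hpK hω.pow_eq_one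
  have hEb := ES_bdd hS hE
  have hbb : Bdd b := by
    have h1 := (Mz_null hbE).2.add hEb
    have : (fun n => b n - E n + E n) = b := by funext n; ring
    rwa [this] at h1
  have hPb := periodic_bdd hNK hP
  have hωb := Bdd.pow_unit hω1
  have hwb := hw.1
  have hbdd : Bdd (fun n => b n * w n * P n * ω ^ n) := ((hbb.mul hwb).mul hPb).mul hωb
  refine ⟨?_, hbdd⟩
  apply Mz_approx1 hbdd
  intro ε hε
  obtain ⟨C, hC⟩ := (hbb.mul (hPb.mul hωb))
  have hC0 : 0 ≤ C := (norm_nonneg _).trans (hC 0)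
  obtain ⟨M, hM, hMf, w', hw'p, hw'⟩ := hw.2 (ε / (C + 1)) (by positivity)
  have hw'b := periodic_bdd hM hw'p
  refine ⟨fun n => b n * w' n * P n * ω ^ n, ((hbb.mul hw'b).mul hPb).mul hωb, ?_, ?_⟩
  · -- mean zero
    have h1 : Tendsto (fun n => (b n - E n) * (w' n * P n * ω ^ n)) atTop (𝓝 0) :=
      null_mul hbE ((hw'b.mul hPb).mul hωb)
    have h2 : (fun n => (E n * w' n) * (P n * ω ^ n)) ∈ ES {z | ∃ s ∈ {z | ∃ s ∈ S, ∃ t ∈ {z : ℂ | z ^ M = 1}, z = s * t},
        ∃ t ∈ {z | ∃ s ∈ {z : ℂ | z ^ (N * p ^ K) = 1}, ∃ t ∈ ({ω} : Set ℂ), z = s * t}, z = s * t} :=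
      ES_mul (ES_mul hE (periodic_ES hM hw'p)) (ES_mul (periodic_ES hNK hP) (ES_pow rfl))
    have h3 : Mn (fun n => (E n * w' n) * (P n * ω ^ n)) 0 := by
      apply ES_mean_zero _ h2
      rintro z ⟨z1, ⟨ξ, hξ, ζ1, hζ1, rfl⟩, z2, ⟨ζ2, hζ2, ω', hω', rfl⟩, rfl⟩
      have hω'' : ω' = ω := hω'
      subst hω''
      have hζ1' : ζ1 ^ M = 1 := hζ1
      have hζ2' : ζ2 ^ (N * p ^ K) = 1 := hζ2
      refine ⟨?_, ?_⟩
      · rw [norm_mul, norm_mul, norm_mul, hS ξ hξ, unit_of_pow hM hζ1', unit_of_pow hNK hζ2', hω1]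
        norm_num
      · intro hone
        -- `ξ` is a root of unity
        have hroot : ∃ m, 0 < m ∧ ξ ^ m = 1 := by
          refine ⟨M * (N * p ^ K) * p ^ (K + 1), by positivity, ?_⟩
          have e1 : (ξ * ζ1 * (ζ2 * ω')) ^ (M * (N * p ^ K) * p ^ (K + 1)) = 1 := by
            rw [hone, one_pow]
          rw [mul_pow, mul_pow, mul_pow] at e1
          have e2 : ζ1 ^ (M * (N * p ^ K) * p ^ (K + 1)) = 1 := by
            rw [mul_assoc, pow_mul, hζ1', one_pow]
          have e3 : ζ2 ^ (M * (N * p ^ K) * p ^ (K + 1)) = 1 := by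
            rw [mul_comm M, mul_assoc, pow_mul, hζ2', one_pow]
          have e4 : ω' ^ (M * (N * p ^ K) * p ^ (K + 1)) = 1 := by
            rw [mul_comm, pow_mul, hω.pow_eq_one, one_pow]
          rw [e2, e3, e4] at e1
          simpa using e1
        obtain ⟨m, hm, hmf, hξm⟩ := hSK ξ hξ hroot
        obtain ⟨m', hm', hm'd⟩ := exists_coprime_part hp hm hmf
        obtain ⟨M', hM', hM'd⟩ := exists_coprime_part hp hM hMf
        have f1 : ξ ^ (m' * M' * N * p ^ K) = 1 := by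
          obtain ⟨q, hq⟩ := hm'd
          have : m' * M' * N * p ^ K = m * (q * (M' * N)) := by
            calc m' * M' * N * p ^ K = (m' * p ^ K) * (M' * N) := by ring
              _ = m * q * (M' * N) := by rw [hq]
              _ = m * (q * (M' * N)) := by ring
          rw [this, pow_mul, hξm, one_pow]
        have f2 : ζ1 ^ (m' * M' * N * p ^ K) = 1 := by
          obtain ⟨q, hq⟩ := hM'd
          have : m' * M' * N * p ^ K = M * (q * (m' * N)) := by
            calc m' * M' * N * p ^ K = (M' * p ^ K) * (m' * N) := by ring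
              _ = M * q * (m' * N) := by rw [hq]
              _ = M * (q * (m' * N)) := by ring
          rw [this, pow_mul, hζ1', one_pow]
        have f3 : ζ2 ^ (m' * M' * N * p ^ K) = 1 := by
          have : m' * M' * N * p ^ K = (N * p ^ K) * (m' * M') := by ring
          rw [this, pow_mul, hζ2', one_pow]
        have f4 : ω' ^ (m' * M' * N * p ^ K) = 1 := by
          have e1 : (ξ * ζ1 * (ζ2 * ω')) ^ (m' * M' * N * p ^ K) = 1 := by
            rw [hone, one_pow]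
          rw [mul_pow, mul_pow, mul_pow, f1, f2, f3] at e1
          simpa using e1
        have f5 : p ^ (K + 1) ∣ m' * M' * N * p ^ K := (hω.pow_eq_one_iff_dvd _).1 f4
        rw [pow_succ, mul_comm (p ^ K) p] at f5
        have f6 : p ∣ m' * M' * N := Nat.dvd_of_mul_dvd_mul_right (pow_pos hp.pos K) f5
        rcases (Nat.Prime.dvd_mul hp).1 f6 with h | h
        · rcases (Nat.Prime.dvd_mul hp).1 h with h | h
          · exact hm' h
          · exact hM' h
        · exact hpN h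
    have h4 := Mn.add (Mz_null h1).2 ((hEb.mul hw'b).mul (hPb.mul hωb)) (Mz_null h1).1 h3
    rw [add_zero] at h4
    have : (fun n => (b n - E n) * (w' n * P n * ω ^ n) + (E n * w' n) * (P n * ω ^ n)) =
        fun n => b n * w' n * P n * ω ^ n := by
      funext n; ring
    rwa [this] at h4
  · intro n hn
    beta_reduce
    have e1 : b n * w n * P n * ω ^ n - b n * w' n * P n * ω ^ n =
        (b n * (P n * ω ^ n)) * (w n - w' n) := by ring
    rw [e1, norm_mul]
    have e2 := mul_le_mul (hC n) (hw' n hn) (norm_nonneg _) hC0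
    have e3 : C * (ε / (C + 1)) ≤ ε := by
      rw [mul_div_assoc', div_le_iff₀ (by positivity)]
      nlinarith
    exact e2.trans e3

/-- positivity -/
lemma Z2 {b : ℕ → ℝ} (hb0 : ∀ n, 0 ≤ b n) {E : ℕ → ℂ} (hE : E ∈ ES UC)
    (hbE : Tendsto (fun n => (b n : ℂ) - E n) atTop (𝓝 0)) {G : ℕ → ℝ} (hG0 : ∀ n, 0 ≤ G n)
    (hGb : Bdd (fun n => (G n : ℂ))) (hGm : Mn (fun n => (G n : ℂ)) 0) {M n2 : ℕ} (hM : 0 < M)
    {κ : ℝ} (hκ : 0 < κ) (h : ∀ n, 1 ≤ n → n ≡ n2 [MOD M] → κ * b n ≤ G n) : E n2 = 0 := by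
  classical
  set v : ℕ → ℂ := fun n => if (n ≡ n2 [MOD M] ∧ 1 ≤ n) then (b n : ℂ) else 0 with hv
  have hvm : Mn v 0 := by
    apply Mz_dom hGb _ hGm (C := κ⁻¹) _ (by positivity)
    · intro n
      rw [Complex.norm_real, Real.norm_of_nonneg (hG0 n)]
    · intro n
      rw [hv]
      beta_reduce
      rw [Complex.norm_real, Real.norm_of_nonneg (hG0 n)]
      split_ifs with hc
      · rw [Complex.norm_real, Real.norm_of_nonneg (hb0 n)]
        have := h n hc.2 hc.1
        rw [inv_mul_eq_div, le_div_iff₀ hκ, mul_comm]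
        exact this
      · rw [norm_zero]
        have := hG0 n
        positivity
  have hEb := ES_bdd (fun ξ h => h) hE
  have hbb : Bdd (fun n => (b n : ℂ)) := by
    have h1 := (Mz_null hbE).2.add hEb
    have : (fun n => (b n : ℂ) - E n + E n) = fun n => (b n : ℂ) := by funext n; ring
    rwa [this] at h1
  have hvb : Bdd v := by
    obtain ⟨C, hC⟩ := hbb
    refine ⟨C, fun n => ?_⟩
    rw [hv]
    beta_reduce
    split_ifs
    · exact hC n
    · rw [norm_zero]; exact (norm_nonneg _).trans (hC n)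
  set I : ℕ → ℂ := fun n => if n ≡ n2 [MOD M] then 1 else 0 with hI
  have hIper : ∀ n, I (n + M) = I n := by
    intro n
    have : (n + M ≡ n2 [MOD M]) ↔ (n ≡ n2 [MOD M]) := by
      unfold Nat.ModEq
      rw [Nat.add_mod_right]
    simp only [hI, this]
  have hIES : I ∈ ES UC := ES_mono (fun z hz => unit_of_pow hM hz) (periodic_ES hM hIper)
  have hEI : (fun n => E n * I n) ∈ ES UC := ES_mul_UC hE hIES
  have hEIb := ES_bdd (fun ξ h => h) hEI
  -- dominating sequence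
  set q : ℕ → ℂ := fun n => v n + ((‖(b n : ℂ) - E n‖ : ℝ) : ℂ) with hq
  have hnull : Tendsto (fun n => ((‖(b n : ℂ) - E n‖ : ℝ) : ℂ)) atTop (𝓝 0) := by
    have := (tendsto_zero_iff_norm_tendsto_zero.1 hbE)
    have h2 := (Complex.continuous_ofReal.tendsto 0).comp this
    rw [Complex.ofReal_zero] at h2
    exact h2
  have hqm : Mn q 0 := by
    have := Mn.add hvb (Mz_null hnull).2 hvm (Mz_null hnull).1
    rwa [add_zero] at this
  have hqb : Bdd q := hvb.add (Mz_null hnull).2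
  have hqreal : ∀ n, q n = (‖q n‖ : ℂ) := by
    intro n
    have : q n = (((if (n ≡ n2 [MOD M] ∧ 1 ≤ n) then b n else 0) + ‖(b n : ℂ) - E n‖ : ℝ) : ℂ) := by
      rw [hq, hv]
      beta_reduce
      push_cast
      split_ifs <;> simp
    rw [this, Complex.norm_real, Real.norm_of_nonneg]
    have := hb0 n
    split_ifs <;> positivity
  have hEIm : Mn (fun n => ((‖E n * I n‖ : ℝ) : ℂ)) 0 := by
    -- compare for n ≥ 1
    set w : ℕ → ℂ := fun n => if n = 0 then 0 else ((‖E n * I n‖ : ℝ) : ℂ) with hw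
    have hwb : Bdd w := by
      obtain ⟨C, hC⟩ := hEIb
      refine ⟨C, fun n => ?_⟩
      rw [hw]
      beta_reduce
      split_ifs
      · rw [norm_zero]; exact (norm_nonneg _).trans (hC n)
      · rw [Complex.norm_real, norm_norm]; exact hC n
    have hwm : Mn w 0 := by
      apply Mz_dom hqb hqreal hqm (C := 1) _ (by norm_num)
      intro n
      rw [one_mul, hw]
      beta_reduce
      split_ifs with h0
      · rw [norm_zero]; exact norm_nonneg _
      · rw [Complex.norm_real, norm_norm]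
        by_cases hc : n ≡ n2 [MOD M]
        · have e1 : q n = ((b n + ‖(b n : ℂ) - E n‖ : ℝ) : ℂ) := by
            rw [hq, hv]
            beta_reduce
            rw [if_pos ⟨hc, by omega⟩]
            push_cast; rfl
          rw [e1, Complex.norm_real, Real.norm_of_nonneg (add_nonneg (hb0 n) (norm_nonneg _))]
          have e2 : E n * I n = (b n : ℂ) - ((b n : ℂ) - E n) := by
            rw [hI]; beta_reduce; rw [if_pos hc]; ring
          rw [e2]
          refine (norm_sub_le _ _).trans ?_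
          rw [Complex.norm_real, Real.norm_of_nonneg (hb0 n)]
        · have : E n * I n = 0 := by
            rw [hI]; beta_reduce; rw [if_neg hc, mul_zero]
          rw [this, norm_zero]; exact norm_nonneg _
    apply Mz_congr hwb _ _ hwm
    · obtain ⟨C, hC⟩ := hEIb
      refine ⟨C, fun n => ?_⟩
      rw [Complex.norm_real, norm_norm]; exact hC n
    · intro n hn
      rw [hw]; beta_reduce
      rw [if_neg (by omega)]
  have hzero := ES_zero (S := UC) (fun ξ h => h) hEI hEIm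
  have h2 := congrFun hzero n2
  have h3 : I n2 = 1 := by
    rw [hI]; beta_reduce; rw [if_pos (Nat.ModEq.refl n2)]
  simp only [h3, mul_one, Pi.zero_apply] at h2
  exact h2

lemma ES_finite {E : ℕ → ℂ} (hE : E ∈ ES UC) : ∃ S : Finset ℂ, (∀ ξ ∈ S, ‖ξ‖ = 1) ∧
    E ∈ ES (S : Set ℂ) := by
  classical
  unfold ES at hE
  induction hE using Submodule.span_induction with
  | mem x hx =>
    obtain ⟨ξ, hξ, rfl⟩ := hx
    exact ⟨{ξ}, by intro z hz; rw [Finset.mem_singleton.1 hz]; exact hξ, ES_pow (by simp)⟩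
  | zero => exact ⟨∅, by simp, Submodule.zero_mem _⟩
  | add x y _ _ h1 h2 =>
    obtain ⟨S1, a1, b1⟩ := h1
    obtain ⟨S2, a2, b2⟩ := h2
    refine ⟨S1 ∪ S2, ?_, ?_⟩
    · intro ξ hξ
      rcases Finset.mem_union.1 hξ with h | h
      · exact a1 ξ h
      · exact a2 ξ h
    · apply Submodule.add_mem
      · exact ES_mono (by intro z hz; simp at hz ⊢; exact Or.inl hz) b1
      · exact ES_mono (by intro z hz; simp at hz ⊢; exact Or.inr hz) b2
  | smul c x _ h1 =>
    obtain ⟨S1, a1, b1⟩ := h1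
    exact ⟨S1, a1, Submodule.smul_mem _ _ b1⟩

lemma exists_eE (S : Finset ℂ) (p : ℕ) : ∃ e : ℕ, ∀ ξ ∈ S, (∃ m, 0 < m ∧ ξ ^ m = 1) →
    ∃ m, 0 < m ∧ m.factorization p ≤ e ∧ ξ ^ m = 1 := by
  classical
  induction S using Finset.induction_on with
  | empty => exact ⟨0, by simp⟩
  | insert a S ha ih =>
    obtain ⟨e, he⟩ := ih
    by_cases h : ∃ m, 0 < m ∧ a ^ m = 1
    · obtain ⟨m, hm, hm2⟩ := h
      refine ⟨max e (m.factorization p), ?_⟩
      intro ξ hξ hx
      rcases Finset.mem_insert.1 hξ with rfl | hξ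
      · exact ⟨m, hm, le_max_right _ _, hm2⟩
      · obtain ⟨m', h1, h2, h3⟩ := he ξ hξ hx
        exact ⟨m', h1, h2.trans (le_max_left _ _), h3⟩
    · refine ⟨e, ?_⟩
      intro ξ hξ hx
      rcases Finset.mem_insert.1 hξ with rfl | hξ
      · exact absurd hx h
      · exact he ξ hξ hx

end Pool.Agent.H66.FD
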