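import Mathlib
import Pool.Agent.H66.FD5

open Filter Topology

namespace Pool.Agent.H66.FD

/-- the data of a FAD-system (with common periods) -/
structure D (f : ℕ → ℕ) where
  d : ℕ
  A : Matrix (Fin d) (Fin d) ℤ
  S : Finset ℕ
  c : ℝ
  N : ℕ
  r : ℕ → ℝ
  Np : ℕ → ℕ
  s : ℕ → ℕ → ℝ
  t : ℕ → ℕ → ℝ
  hp : ∀ p ∈ S, p.Prime
  hc : 0 < c
  hr : IsGcdSeq r N
  hr0 : ∀ n, 1 ≤ n → 0 < r n
  hs : ∀ p ∈ S, IsGcdSeq (s p) (Np p)
  ht : ∀ p ∈ S, IsGcdSeq (t p) (Np p)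
  hNp : ∀ p ∈ S, ¬ p ∣ Np p
  hs0 : ∀ p ∈ S, ∀ n, 1 ≤ n → 0 ≤ s p n
  ht0 : ∀ p ∈ S, ∀ n, 1 ≤ n → 0 ≤ t p n
  hf : ∀ n, 1 ≤ n → (f n : ℝ) = |(dn A n : ℝ)| * c ^ n * r n * ∏ p ∈ S, phi p (s p) (t p) n

variable {f : ℕ → ℕ}

/-- the weight, restricted to the primes in `T` -/
noncomputable def D.W (X : D f) (T : Finset ℕ) (n : ℕ) : ℝ := X.r n * ∏ p ∈ T, phi p (X.s p) (X.t p) n

lemma D.W_pos (X : D f) {T : Finset ℕ} (hT : T ⊆ X.S) {n : ℕ} (hn : 1 ≤ n) : 0 < X.W T n :=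
  mul_pos (X.hr0 n hn) (Finset.prod_pos fun p hp => phi_pos (X.hp p (hT hp)) _ _ _)

lemma D.W_LP (X : D f) {T : Finset ℕ} (hT : T ⊆ X.S) {p : ℕ} (hp : p.Prime) (hpT : p ∉ T) :
    ∃ e, LP p e (fun n => (X.W T n : ℂ)) := by
  classical
  induction T using Finset.induction_on with
  | empty =>
    refine ⟨X.N.factorization p, ?_⟩
    have := gcdseq_LP X.hr p
    have e1 : (fun n => (X.W ∅ n : ℂ)) = fun n => (X.r n : ℂ) := by
      funext n; simp [D.W]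
    rw [e1]; exact this
  | insert q T hq ih =>
    obtain ⟨e, he⟩ := ih (fun x hx => hT (Finset.mem_insert_of_mem hx))
      (fun h => hpT (Finset.mem_insert_of_mem h))
    have hqS : q ∈ X.S := hT (Finset.mem_insert_self q T)
    have hpq : p ≠ q := fun h => hpT (h ▸ Finset.mem_insert_self p T)
    have h2 := he.mul (phi_LP (X.hp q hqS) (X.hs q hqS) (X.ht q hqS) (X.hs0 q hqS) (X.ht0 q hqS) hp hpq)
    refine ⟨e + (X.Np q).factorization p, ?_⟩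
    have e1 : (fun n => (X.W (insert q T) n : ℂ)) =
        fun n => (X.W T n : ℂ) * (phi q (X.s q) (X.t q) n : ℂ) := by
      funext n
      unfold D.W
      rw [Finset.prod_insert hq]
      push_cast; ring
    rw [e1]; exact h2

lemma phi_congr {q : ℕ} (hq : q.Prime) {N : ℕ} {s t : ℕ → ℝ} (hs : IsGcdSeq s N) (ht : IsGcdSeq t N)
    {n n2 : ℕ} (hn : 1 ≤ n) (hn2 : 1 ≤ n2)
    (h : n ≡ n2 [MOD N * q ^ (padicValNat q n2 + 1)]) :
    phi q s t n = phi q s t n2 ∧ padicValNat q n = padicValNat q n2 ∧ s n = s n2 ∧ t n = t n2 := by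
  have := Fact.mk hq
  have h1 : n ≡ n2 [MOD N] := h.of_dvd (Dvd.intro _ rfl)
  have h2 : n ≡ n2 [MOD q ^ (padicValNat q n2 + 1)] := h.of_dvd (Dvd.intro_left _ rfl)
  have hg : Nat.gcd n N = Nat.gcd n2 N := h1.gcd_eq
  have hs' : s n = s n2 := by rw [hs.2 n hn, hs.2 n2 hn2, hg]
  have ht' : t n = t n2 := by rw [ht.2 n hn, ht.2 n2 hn2, hg]
  have hv : padicValNat q n = padicValNat q n2 := by
    have hn0 : n ≠ 0 := by omega
    have hn20 : n2 ≠ 0 := by omega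
    apply le_antisymm
    · by_contra hcon
      have h3 : q ^ (padicValNat q n2 + 1) ∣ n := (padicValNat_dvd_iff_le hn0).2 (by omega)
      have h4 : q ^ (padicValNat q n2 + 1) ∣ n2 := (h2.dvd_iff dvd_rfl).1 h3
      have := (padicValNat_dvd_iff_le hn20).1 h4
      omega
    · have h3 : n ≡ n2 [MOD q ^ (padicValNat q n2)] := h2.of_dvd (pow_dvd_pow q (Nat.le_succ _))
      have h4 : q ^ (padicValNat q n2) ∣ n := (h3.dvd_iff dvd_rfl).2 pow_padicValNat_dvd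
      exact (padicValNat_dvd_iff_le hn0).1 h4
  refine ⟨?_, hv, hs', ht'⟩
  rw [phi_eq hq, phi_eq hq, hv, hs', ht']

/-- a modulus controlling all local factors at `n2` -/
noncomputable def D.Md (X : D f) (n2 : ℕ) : ℕ := X.N * ∏ q ∈ X.S, (X.Np q * q ^ (padicValNat q n2 + 1))

lemma D.Md_pos (X : D f) (n2 : ℕ) : 0 < X.Md n2 := by
  apply Nat.mul_pos X.hr.1
  apply Finset.prod_pos
  intro q hq
  exact Nat.mul_pos (X.hs q hq).1 (pow_pos (X.hp q hq).pos _)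

lemma D.W_congr (X : D f) {T : Finset ℕ} (hT : T ⊆ X.S) {n n2 : ℕ} (hn : 1 ≤ n) (hn2 : 1 ≤ n2)
    (h : n ≡ n2 [MOD X.Md n2]) : X.W T n = X.W T n2 := by
  unfold D.W
  have h1 : n ≡ n2 [MOD X.N] := h.of_dvd (Dvd.intro _ rfl)
  congr 1
  · rw [X.hr.2 n hn, X.hr.2 n2 hn2, h1.gcd_eq]
  · apply Finset.prod_congr rfl
    intro q hq
    have h2 : n ≡ n2 [MOD X.Np q * q ^ (padicValNat q n2 + 1)] := by
      apply h.of_dvd
      unfold D.Md
      exact Dvd.dvd.mul_left (Finset.dvd_prod_of_mem (fun q => X.Np q * q ^ (padicValNat q n2 + 1))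
        (hT hq)) _
    exact (phi_congr (X.hp q (hT hq)) (X.hs q (hT hq)) (X.ht q (hT hq)) hn hn2 h2).1

/-- growth rate data -/
structure Gr (X : D f) where
  ρ0 : ℝ
  E : ℕ → ℂ
  hρ : 0 < ρ0
  hE : E ∈ ES UC
  hlim : Tendsto (fun n => ((|(dn X.A n : ℝ)| / ρ0 ^ n : ℝ) : ℂ) - E n) atTop (𝓝 0)
  hne : ∀ n, 0 < n → dn X.A n ≠ 0 → E n ≠ 0

lemma exists_Gr (X : D f) : Nonempty (Gr X) := by
  obtain ⟨ρ0, E, h1, h2, h3, h4⟩ := bn_struct X.A
  exact ⟨⟨ρ0, E, h1, h2, h3, h4⟩⟩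

noncomputable def Gr.b {X : D f} (g : Gr X) (n : ℕ) : ℝ := |(dn X.A n : ℝ)| / g.ρ0 ^ n

lemma Gr.b_nonneg {X : D f} (g : Gr X) (n : ℕ) : 0 ≤ g.b n :=
  div_nonneg (abs_nonneg _) (pow_nonneg g.hρ.le n)

lemma Gr.b_bdd {X : D f} (g : Gr X) : Bdd (fun n => (g.b n : ℂ)) := by
  have hEb := ES_bdd (fun ξ h => h) g.hE
  have h1 := (Mz_null g.hlim).2.add hEb
  have : (fun n => (((|(dn X.A n : ℝ)| / g.ρ0 ^ n : ℝ) : ℂ) - g.E n) + g.E n) =
      fun n => (g.b n : ℂ) := by funext n; unfold Gr.b; ring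
  rwa [this] at h1

/-- normalised numbers of fixed points -/
noncomputable def Gr.u {X : D f} (g : Gr X) (n : ℕ) : ℝ := (f n : ℝ) / (X.c * g.ρ0) ^ n

lemma Gr.u_eq {X : D f} (g : Gr X) {n : ℕ} (hn : 1 ≤ n) : g.u n = g.b n * X.W X.S n := by
  unfold Gr.u Gr.b D.W
  rw [X.hf n hn, mul_pow]
  have h1 : X.c ^ n ≠ 0 := pow_ne_zero _ X.hc.ne'
  have h2 : g.ρ0 ^ n ≠ 0 := pow_ne_zero _ g.hρ.ne'
  field_simp

lemma D.W_bdd (X : D f) {T : Finset ℕ} (hT : T ⊆ X.S) : Bdd (fun n => (X.W T n : ℂ)) := by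
  obtain ⟨p, hp1, hp2⟩ := Nat.exists_infinite_primes (T.sup id + 1)
  have hpT : p ∉ T := by
    intro h
    have := Finset.le_sup (f := id) h
    simp at this
    omega
  obtain ⟨e, he⟩ := X.W_LP hT hp2 hpT
  exact he.1

lemma Gr.u_bdd {X : D f} (g : Gr X) : Bdd (fun n => (g.u n : ℂ)) := by
  obtain ⟨C, hC⟩ := g.b_bdd.mul (X.W_bdd (Finset.Subset.refl X.S))
  refine ⟨max C ‖(g.u 0 : ℂ)‖, fun n => ?_⟩
  rcases Nat.eq_zero_or_pos n with h0 | h0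
  · rw [h0]; exact le_max_right _ _
  · refine le_trans ?_ (le_max_left _ _)
    beta_reduce
    rw [g.u_eq h0]
    have := hC n
    push_cast at this ⊢
    exact this

/-- if the Abel means of `u` vanish then all `f n` vanish -/
lemma Gr.all_zero {X : D f} (g : Gr X) (h : Mn (fun n => (g.u n : ℂ)) 0) : ∀ n, 1 ≤ n → f n = 0 := by
  intro n2 hn2
  by_contra hne
  have hdn : dn X.A n2 ≠ 0 := by
    intro h0
    apply hne
    have := X.hf n2 hn2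
    rw [h0] at this
    simp at this
    exact_mod_cast this
  apply g.hne n2 hn2 hdn
  have hu0 : ∀ n, 0 ≤ g.u n := fun n => by
    unfold Gr.u
    have := X.hc
    have := g.hρ
    positivity
  apply Z2 g.b_nonneg g.hE g.hlim hu0 g.u_bdd h (X.Md_pos n2)
    (X.W_pos (Finset.Subset.refl _) hn2)
  intro n hn hmod
  rw [g.u_eq hn, X.W_congr (Finset.Subset.refl _) hn hn2 hmod]
  exact le_of_eq (mul_comm _ _)

/-- the key lemma: vanishing of the Abel mean at a primitive `p ^ (K+1)`-th root of unity -/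
lemma Gr.active {X : D f} (g : Gr X) {p : ℕ} (hpS : p ∈ X.S) : ∃ K0 : ℕ, ∀ K, K0 ≤ K → ∀ ω : ℂ,
    IsPrimitiveRoot ω (p ^ (K + 1)) → Mn (fun n => (g.u n : ℂ) * ω ^ n) 0 →
    ∀ n, 1 ≤ n → p ^ (K + 1) ∣ n → f n ≠ 0 → X.s p n = 0 ∧ X.t p n = 0 := by
  classical
  have hp := X.hp p hpS
  have hfact := Fact.mk hp
  obtain ⟨S, hS1, hES⟩ := ES_finite g.hE
  obtain ⟨e1, he1⟩ := exists_eE S p
  have hTsub : X.S.erase p ⊆ X.S := Finset.erase_subset p X.S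
  obtain ⟨e2, he2⟩ := X.W_LP hTsub hp (Finset.notMem_erase p X.S)
  refine ⟨max e1 e2, ?_⟩
  intro K hK ω hω hMn n2 hn2 hdvd hfn
  by_contra hcon
  have hcon' : X.s p n2 ≠ 0 ∨ X.t p n2 ≠ 0 := by
    by_contra h; push Not at h; exact hcon h
  have hNppos := (X.hs p hpS).1
  have hZ1 := Z1 hp (b := fun n => (g.b n : ℂ)) (fun ξ hξ => hS1 ξ (by simpa using hξ)) hES g.hlim
    (K := K) (fun ξ hξ hx => by
      obtain ⟨m, h1, h2, h3⟩ := he1 ξ (by simpa using hξ) hx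
      exact ⟨m, h1, h2.trans ((le_max_left _ _).trans hK), h3⟩)
    (he2.mono ((le_max_right _ _).trans hK)) hNppos (X.hNp p hpS)
    (P := fun n => (phiV p (X.Np p) (X.s p) (X.t p) K n : ℂ))
    (by intro n; beta_reduce; rw [phiV_periodic]) hω
  set G : ℕ → ℝ := fun n => if p ^ (K + 1) ∣ n ∧ 1 ≤ n then
    g.b n * X.W (X.S.erase p) n * (phiV p (X.Np p) (X.s p) (X.t p) K n - phi p (X.s p) (X.t p) n)
    else 0 with hG
  have hWsplit : ∀ n, X.W X.S n = X.W (X.S.erase p) n * phi p (X.s p) (X.t p) n := by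
    intro n
    unfold D.W
    rw [← Finset.mul_prod_erase X.S _ hpS]
    ring
  have hω1 : ‖ω‖ = 1 := unit_of_pow (pow_pos hp.pos _) hω.pow_eq_one
  have hGn : ∀ n, 1 ≤ n → (G n : ℂ) = (g.b n : ℂ) * (X.W (X.S.erase p) n : ℂ) *
      (phiV p (X.Np p) (X.s p) (X.t p) K n : ℂ) * ω ^ n - (g.u n : ℂ) * ω ^ n := by
    intro n hn
    rw [g.u_eq hn, hWsplit n, hG]
    beta_reduce
    by_cases hd : p ^ (K + 1) ∣ n
    · rw [if_pos ⟨hd, hn⟩]
      have : ω ^ n = 1 := (hω.pow_eq_one_iff_dvd n).2 hd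
      rw [this]
      push_cast; ring
    · rw [if_neg (fun h => hd h.1)]
      rw [phiV_eq_of_not_dvd hp (X.hs p hpS) (X.ht p hpS) hn hd]
      push_cast; ring
  have hub : Bdd (fun n => (g.u n : ℂ) * ω ^ n) := g.u_bdd.mul (Bdd.pow_unit hω1)
  have hdiff : Mn (fun n => (g.b n : ℂ) * (X.W (X.S.erase p) n : ℂ) *
      (phiV p (X.Np p) (X.s p) (X.t p) K n : ℂ) * ω ^ n - (g.u n : ℂ) * ω ^ n) 0 := by
    have h1 := Mn.smul (-1) hMn
    have h2 := Mn.add hZ1.2 ((Bdd.const (-1)).mul hub) hZ1.1 h1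
    rw [mul_zero, add_zero] at h2
    refine h2.congr ?_
    intro x
    congr 1
    funext n
    ring
  have hGb : Bdd (fun n => (G n : ℂ)) := by
    obtain ⟨C, hC⟩ := hZ1.2.sub hub
    refine ⟨max C ‖(G 0 : ℂ)‖, fun n => ?_⟩
    rcases Nat.eq_zero_or_pos n with h0 | h0
    · rw [h0]; exact le_max_right _ _
    · beta_reduce
      rw [hGn n h0]; exact (hC n).trans (le_max_left _ _)
  have hGm : Mn (fun n => (G n : ℂ)) 0 :=
    Mz_congr (hZ1.2.sub hub) hGb (fun n hn => (hGn n hn).symm) hdiff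
  have hG0 : ∀ n, 0 ≤ G n := by
    intro n
    rw [hG]
    beta_reduce
    split_ifs with hc
    · have h1 := (phi_le_phiV hp (X.hs p hpS) (X.ht p hpS) (X.hs0 p hpS) (X.ht0 p hpS) hc.2
        ((pow_dvd_pow p (Nat.le_succ K)).trans hc.1)).1
      apply mul_nonneg (mul_nonneg (g.b_nonneg n) (X.W_pos hTsub hc.2).le)
      linarith
    · exact le_rfl
  have hdn : dn X.A n2 ≠ 0 := by
    intro h0
    apply hfn
    have := X.hf n2 hn2
    rw [h0] at this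
    simp at this
    exact_mod_cast this
  apply g.hne n2 hn2 hdn
  have hdK : p ^ K ∣ n2 := (pow_dvd_pow p (Nat.le_succ K)).trans hdvd
  have hlt := (phi_le_phiV hp (X.hs p hpS) (X.ht p hpS) (X.hs0 p hpS) (X.ht0 p hpS) hn2 hdK).2 hdvd hcon'
  apply Z2 g.b_nonneg g.hE g.hlim hG0 hGb hGm (X.Md_pos n2)
    (κ := X.W (X.S.erase p) n2 * (phiV p (X.Np p) (X.s p) (X.t p) K n2 - phi p (X.s p) (X.t p) n2))
    (mul_pos (X.W_pos hTsub hn2) (by linarith))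
  intro n hn hmod
  have hmodp : n ≡ n2 [MOD X.Np p * p ^ (padicValNat p n2 + 1)] := by
    apply hmod.of_dvd
    unfold D.Md
    exact Dvd.dvd.mul_left (Finset.dvd_prod_of_mem (fun q => X.Np q * q ^ (padicValNat q n2 + 1)) hpS) _
  obtain ⟨c1, c2, c3, c4⟩ := phi_congr hp (X.hs p hpS) (X.ht p hpS) hn hn2 hmodp
  have hdn' : p ^ (K + 1) ∣ n := by
    rw [padicValNat_dvd_iff_le (by omega), c2]
    exact (padicValNat_dvd_iff_le (by omega)).1 hdvd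
  have hdn'' : p ^ K ∣ n := (pow_dvd_pow p (Nat.le_succ K)).trans hdn'
  rw [hG]
  beta_reduce
  rw [if_pos ⟨hdn', hn⟩, X.W_congr hTsub hn hn2 hmod, c1,
    phiV_of_dvd hp (X.hs p hpS) (X.ht p hpS) hn hdn'',
    phiV_of_dvd hp (X.hs p hpS) (X.ht p hpS) hn2 hdK, c3, c4]
  apply le_of_eq
  ring

end Pool.Agent.H66.FD
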