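import Mathlib
import Pool.Agent.H66.FD6

open Filter Topology Metric

namespace Pool.Agent.H66.FD

/-- the zeta function -/
noncomputable def zt (f : ℕ → ℕ) (z : ℂ) : ℂ := Complex.exp (∑' n : ℕ, (f n : ℂ) / n * z ^ n)

lemma term_bound {f : ℕ → ℕ} {l : ℝ} (hl : 0 < l) {C : ℝ} (hC : ∀ n, (f n : ℝ) ≤ C * l ^ n)
    {R : ℝ} {w : ℂ} (hw : ‖w‖ ≤ R) (n : ℕ) : ‖(f n : ℂ) / n * w ^ n‖ ≤ C * (l * R) ^ n := by
  have hC0 : 0 ≤ C * l ^ n := le_trans (Nat.cast_nonneg _) (hC n)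
  have h1 : ‖(f n : ℂ) / n‖ ≤ C * l ^ n := by
    rcases Nat.eq_zero_or_pos n with h0 | h0
    · rw [h0] at hC0 ⊢; simpa using hC0
    · rw [norm_div, Complex.norm_natCast, Complex.norm_natCast]
      refine le_trans ?_ (hC n)
      apply div_le_self (Nat.cast_nonneg _)
      exact_mod_cast h0
  rw [norm_mul, norm_pow, mul_pow, ← mul_assoc]
  exact mul_le_mul h1 (pow_le_pow_left₀ (norm_nonneg _) hw n) (by positivity) hC0

lemma L_deriv {f : ℕ → ℕ} {l : ℝ} (hl : 0 < l) {C : ℝ} (hC : ∀ n, (f n : ℝ) ≤ C * l ^ n)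
    {z : ℂ} (hz : ‖z‖ < 1 / l) : ∃ Ld : ℂ,
    HasDerivAt (fun w => ∑' n : ℕ, (f n : ℂ) / n * w ^ n) Ld z ∧
    HasSum (fun n : ℕ => (f n : ℂ) * z ^ n) (f 0 + z * Ld) := by
  obtain ⟨R, hR1, hR2⟩ := exists_between hz
  have hR0 : 0 < R := lt_of_le_of_lt (norm_nonneg _) hR1
  have hlR : l * R < 1 := by
    rw [lt_div_iff₀ hl] at hR2; linarith
  have hsum : Summable (fun n : ℕ => C * (l * R) ^ n) :=
    (summable_geometric_of_lt_one (by positivity) hlR).mul_left C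
  have hdiff : ∀ i : ℕ, DifferentiableOn ℂ (fun w : ℂ => (f i : ℂ) / i * w ^ i) (ball 0 R) := by
    intro i
    fun_prop
  have hle : ∀ (i : ℕ) (w : ℂ), w ∈ ball (0 : ℂ) R → ‖(f i : ℂ) / i * w ^ i‖ ≤ C * (l * R) ^ i := by
    intro i w hw
    exact term_bound hl hC (by simpa using (mem_ball_zero_iff.1 hw).le) i
  have hzb : z ∈ ball (0 : ℂ) R := mem_ball_zero_iff.2 hR1
  have h1 := Complex.hasSum_deriv_of_summable_norm hsum hdiff isOpen_ball hle hzb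
  have h2 := Complex.differentiableOn_tsum_of_summable_norm hsum hdiff isOpen_ball hle
  refine ⟨_, (h2.differentiableAt (isOpen_ball.mem_nhds hzb)).hasDerivAt, ?_⟩
  have h3 := (hasSum_ite_eq 0 (f 0 : ℂ)).add (h1.mul_left z)
  refine h3.congr_fun ?_
  intro n
  rcases Nat.eq_zero_or_pos n with h0 | h0
  · subst h0; simp
  · rw [if_neg (by omega)]
    have hd : deriv (fun w : ℂ => (f n : ℂ) / n * w ^ n) z = (f n : ℂ) / n * (n * z ^ (n - 1)) := by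
      simp
    rw [hd]
    obtain ⟨m, rfl⟩ : ∃ m, n = m + 1 := ⟨n - 1, by omega⟩
    have : ((m + 1 : ℕ) : ℂ) ≠ 0 := Nat.cast_ne_zero.2 (by omega)
    rw [Nat.add_sub_cancel, pow_succ]
    field_simp
    ring

lemma tendsto_ray (z : ℂ) : Tendsto (fun x : ℝ => (x : ℂ) * z) (𝓝[<] 1) (𝓝 z) := by
  have h1 : Tendsto (fun x : ℝ => (x : ℂ) * z) (𝓝 1) (𝓝 (((1 : ℝ) : ℂ) * z)) := by
    apply Continuous.tendsto
    fun_prop
  rw [Complex.ofReal_one, one_mul] at h1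
  exact h1.mono_left nhdsWithin_le_nhds

lemma arc_of_cont {f : ℕ → ℕ} {l : ℝ} (hl : 0 < l) {C : ℝ} (hC : ∀ n, (f n : ℝ) ≤ C * l ^ n)
    {w : ℂ} (hw : ‖w‖ = 1 / l) {ε : ℝ} (hε : 0 < ε) {g : ℂ → ℂ}
    (hg : DifferentiableOn ℂ g (ball w ε))
    (hgz : ∀ z ∈ ball w ε, ‖z‖ < 1 / l → g z = zt f z) :
    ∃ (w' : ℂ) (δ : ℝ), ‖w'‖ = 1 / l ∧ 0 < δ ∧ ∀ z0 : ℂ, ‖z0‖ = 1 / l → ‖z0 - w'‖ < δ →
      Mn (fun n => (((f n : ℝ) / l ^ n : ℝ) : ℂ) * (l * z0) ^ n) 0 := by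
  have hinv : 0 < 1 / l := by positivity
  have hnorm_ray : ∀ z0 : ℂ, ‖z0‖ = 1 / l → ∀ᶠ x : ℝ in 𝓝[<] 1, ‖(x : ℂ) * z0‖ < 1 / l := by
    intro z0 hz0
    filter_upwards [ev_x] with x hx
    rw [norm_mul, Complex.norm_real, Real.norm_of_nonneg hx.1.le, hz0]
    nlinarith [hx.1, hx.2]
  have hne : ∀ᶠ z in 𝓝[≠] w, g z ≠ 0 := by
    rcases ((hg.analyticAt (ball_mem_nhds w hε))).eventually_eq_zero_or_eventually_ne_zero with h | h
    · exfalso
      have h1 := (tendsto_ray w).eventually h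
      have h2 := (tendsto_ray w).eventually (ball_mem_nhds w hε)
      obtain ⟨x, hx1, hx2, hx3⟩ := (h1.and (h2.and (hnorm_ray w hw))).exists
      rw [hgz _ hx2 hx3] at hx1
      exact Complex.exp_ne_zero _ hx1
    · exact h
  have hw0 : w ≠ 0 := by
    intro h; rw [h, norm_zero] at hw; linarith
  have htend : Tendsto (fun θ : ℝ => w * Complex.exp (θ * Complex.I)) (𝓝[>] 0) (𝓝[≠] w) := by
    rw [tendsto_nhdsWithin_iff]
    constructor
    · have h1 : Tendsto (fun θ : ℝ => w * Complex.exp (θ * Complex.I)) (𝓝 0)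
          (𝓝 (w * Complex.exp (((0 : ℝ) : ℂ) * Complex.I))) := by
        apply Continuous.tendsto
        fun_prop
      simp only [Complex.ofReal_zero, zero_mul, Complex.exp_zero, mul_one] at h1
      exact h1.mono_left nhdsWithin_le_nhds
    · have h1 : ∀ᶠ θ : ℝ in 𝓝[>] 0, θ < 1 := nhdsWithin_le_nhds (gt_mem_nhds one_pos)
      filter_upwards [h1, self_mem_nhdsWithin] with θ h2 h3
      intro h4
      have h5 : Complex.exp (θ * Complex.I) = 1 := by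
        have : w * Complex.exp (θ * Complex.I) = w * 1 := by rw [mul_one]; exact h4
        exact mul_left_cancel₀ hw0 this
      have h6 := congrArg Complex.im h5
      rw [Complex.exp_ofReal_mul_I_im, Complex.one_im] at h6
      have := Real.sin_pos_of_pos_of_lt_pi (x := θ) h3 (by linarith [Real.pi_gt_three])
      linarith
  have hball : ∀ᶠ z in 𝓝[≠] w, z ∈ ball w ε := nhdsWithin_le_nhds (ball_mem_nhds w hε)
  obtain ⟨θ, hθ1, hθ2⟩ := (htend.eventually (hne.and hball)).exists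
  set w' : ℂ := w * Complex.exp (θ * Complex.I) with hw'
  have hw'n : ‖w'‖ = 1 / l := by
    rw [hw', norm_mul, Complex.norm_exp_ofReal_mul_I, mul_one, hw]
  have hnh : ∀ᶠ z in 𝓝 w', g z ≠ 0 ∧ z ∈ ball w ε := by
    have hc : ContinuousAt g w' := (hg.differentiableAt (isOpen_ball.mem_nhds hθ2)).continuousAt
    exact (hc.eventually_ne hθ1).and (isOpen_ball.mem_nhds hθ2)
  obtain ⟨δ, hδ, hδ2⟩ := Metric.eventually_nhds_iff_ball.1 hnh
  refine ⟨w', δ, hw'n, hδ, ?_⟩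
  intro z0 hz0 hz0d
  have hz0b : z0 ∈ ball w' δ := by rw [mem_ball, dist_eq_norm]; exact hz0d
  obtain ⟨hgz0, hz0w⟩ := hδ2 z0 hz0b
  have hcont : ContinuousAt (fun z => z * (deriv g z / g z)) z0 := by
    have hc : ContinuousAt g z0 := (hg.differentiableAt (isOpen_ball.mem_nhds hz0w)).continuousAt
    have hd : ContinuousAt (deriv g) z0 :=
      ((hg.deriv isOpen_ball).differentiableAt (isOpen_ball.mem_nhds hz0w)).continuousAt
    exact continuousAt_id.mul (hd.div hc hgz0)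
  have ht := (hcont.tendsto.comp (tendsto_ray z0))
  have h1x : Tendsto (fun x : ℝ => ((1 - x : ℝ) : ℂ)) (𝓝[<] 1) (𝓝 0) := by
    have h1 : Tendsto (fun x : ℝ => ((1 - x : ℝ) : ℂ)) (𝓝 1) (𝓝 ((1 - 1 : ℝ) : ℂ)) := by
      apply Continuous.tendsto
      fun_prop
    rw [sub_self, Complex.ofReal_zero] at h1
    exact h1.mono_left nhdsWithin_le_nhds
  have hfin := h1x.mul (ht.const_add (f 0 : ℂ))
  rw [zero_mul] at hfin
  unfold Mn
  refine hfin.congr' ?_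
  have hb0 := (tendsto_ray z0).eventually (isOpen_ball.mem_nhds hz0b)
  filter_upwards [hb0, hnorm_ray z0 hz0] with x hx1 hx2
  obtain ⟨hgx, hxw⟩ := hδ2 _ hx1
  obtain ⟨Ld, hL1, hL2⟩ := L_deriv hl hC hx2
  have hzt : HasDerivAt (zt f) (zt f ((x : ℂ) * z0) * Ld) ((x : ℂ) * z0) := hL1.cexp
  have hev : g =ᶠ[𝓝 ((x : ℂ) * z0)] zt f := by
    have h1 : ball w ε ∈ 𝓝 ((x : ℂ) * z0) := isOpen_ball.mem_nhds hxw
    have h2 : {z : ℂ | ‖z‖ < 1 / l} ∈ 𝓝 ((x : ℂ) * z0) :=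
      (isOpen_lt continuous_norm continuous_const).mem_nhds hx2
    filter_upwards [h1, h2] with z hz1 hz2 using hgz z hz1 hz2
  have hdg : deriv g ((x : ℂ) * z0) = g ((x : ℂ) * z0) * Ld := by
    rw [hev.deriv_eq, hzt.deriv, hgz _ hxw hx2]
  unfold abel
  congr 1
  have e1 : (∑' n, (((f n : ℝ) / l ^ n : ℝ) : ℂ) * (l * z0) ^ n * (x : ℂ) ^ n) =
      ∑' n, (f n : ℂ) * ((x : ℂ) * z0) ^ n := by
    apply tsum_congr
    intro n
    have : (l : ℂ) ≠ 0 := by exact_mod_cast hl.ne'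
    rw [mul_pow, mul_pow]
    push_cast
    field_simp
  rw [e1, hL2.tsum_eq]
  simp only [Function.comp]
  rw [hdg]
  field_simp

end Pool.Agent.H66.FD
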