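import Mathlib
import Pool.Agent.H66.FD7

open Filter Topology Metric

namespace Pool.Agent.H66.FD

/-- limsup of the n-th roots -/
noncomputable def Lam (f : ℕ → ℕ) : ℝ := limsup (fun n : ℕ => (f n : ℝ) ^ ((n : ℝ)⁻¹)) atTop

lemma tendsto_root {K l : ℝ} (hK : 0 < K) :
    Tendsto (fun n : ℕ => K ^ ((n : ℝ)⁻¹) * l) atTop (𝓝 l) := by
  have h1 : Tendsto (fun n : ℕ => ((n : ℝ)⁻¹)) atTop (𝓝 0) :=
    tendsto_inv_atTop_zero.comp tendsto_natCast_atTop_atTop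
  have h2 : Tendsto (fun x : ℝ => K ^ x) (𝓝 0) (𝓝 (K ^ (0 : ℝ))) :=
    (Real.continuousAt_const_rpow hK.ne').tendsto
  have h3 := (h2.comp h1).mul_const l
  rw [Real.rpow_zero, one_mul] at h3
  exact h3

lemma Lam_eq {f : ℕ → ℕ} {l C κ : ℝ} (hl : 0 < l) (hC0 : 0 < C)
    (hC : ∀ n, (f n : ℝ) ≤ C * l ^ n) (hκ : 0 < κ) (hfr : ∃ᶠ n in atTop, κ * l ^ n ≤ (f n : ℝ)) :
    Lam f = l := by
  have hroot : ∀ (K : ℝ), 0 < K → ∀ n : ℕ, 0 < n →
      (K * l ^ n) ^ ((n : ℝ)⁻¹) = K ^ ((n : ℝ)⁻¹) * l := by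
    intro K hK n hn
    rw [Real.mul_rpow hK.le (by positivity), Real.pow_rpow_inv_natCast hl.le (by omega)]
  have hle : (fun n : ℕ => (f n : ℝ) ^ ((n : ℝ)⁻¹)) ≤ᶠ[atTop]
      (fun n : ℕ => C ^ ((n : ℝ)⁻¹) * l) := by
    filter_upwards [eventually_gt_atTop 0] with n hn
    rw [← hroot C hC0 n hn]
    exact Real.rpow_le_rpow (Nat.cast_nonneg _) (hC n) (by positivity)
  have hbd : IsBoundedUnder (· ≤ ·) atTop (fun n : ℕ => C ^ ((n : ℝ)⁻¹) * l) :=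
    (tendsto_root hC0).isBoundedUnder_le
  have hbd2 : IsBoundedUnder (· ≤ ·) atTop (fun n : ℕ => (f n : ℝ) ^ ((n : ℝ)⁻¹)) :=
    hbd.mono_le hle
  apply le_antisymm
  · have h1 := limsup_le_limsup hle
      (isCoboundedUnder_le_of_le atTop (x := 0) (fun i => by positivity)) hbd
    rw [(tendsto_root hC0).limsup_eq] at h1
    exact h1
  · by_contra hcon
    push Not at hcon
    obtain ⟨b, hb1, hb2⟩ := exists_between hcon
    have h1 : ∀ᶠ n : ℕ in atTop, b < κ ^ ((n : ℝ)⁻¹) * l :=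
      (tendsto_root hκ).eventually (lt_mem_nhds hb2)
    have h2 : ∃ᶠ n : ℕ in atTop, b ≤ (f n : ℝ) ^ ((n : ℝ)⁻¹) := by
      refine (hfr.and_eventually (h1.and (eventually_gt_atTop 0))).mono ?_
      rintro n ⟨h3, h4, h5⟩
      refine h4.le.trans ?_
      rw [← hroot κ hκ n h5]
      exact Real.rpow_le_rpow (by positivity) h3 (by positivity)
    have h3 := le_limsup_of_frequently_le h2 hbd2
    exact absurd h3 (not_le.2 hb1)

variable {f : ℕ → ℕ}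

lemma Gr.l_pos {X : D f} (g : Gr X) : 0 < X.c * g.ρ0 := mul_pos X.hc g.hρ

lemma Gr.f_le {X : D f} (g : Gr X) : ∃ C : ℝ, 0 < C ∧ ∀ n, (f n : ℝ) ≤ C * (X.c * g.ρ0) ^ n := by
  obtain ⟨C, hC⟩ := g.u_bdd
  refine ⟨max C 1, lt_of_lt_of_le one_pos (le_max_right _ _), fun n => ?_⟩
  have h := hC n
  have hl := g.l_pos
  rw [Complex.norm_real] at h
  have h2 : g.u n ≤ max C 1 := (le_abs_self _).trans (h.trans (le_max_left _ _))
  unfold Gr.u at h2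
  rwa [div_le_iff₀ (by positivity)] at h2

lemma Gr.freq {X : D f} (g : Gr X) (hne : ∃ n, 1 ≤ n ∧ f n ≠ 0) :
    ∃ κ : ℝ, 0 < κ ∧ ∃ᶠ n in atTop, κ * (X.c * g.ρ0) ^ n ≤ (f n : ℝ) := by
  by_contra hcon
  push Not at hcon
  have hl := g.l_pos
  have ht : Tendsto (fun n => (g.u n : ℂ)) atTop (𝓝 0) := by
    rw [tendsto_zero_iff_norm_tendsto_zero, Metric.tendsto_nhds]
    intro ε hε
    have h1 := hcon ε hε
    filter_upwards [h1] with n hn
    rw [dist_zero_right, Complex.norm_real, norm_norm, Real.norm_eq_abs]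
    unfold Gr.u
    rw [abs_of_nonneg (by positivity), div_lt_iff₀ (by positivity)]
    exact hn
  obtain ⟨n, hn, hfn⟩ := hne
  exact hfn (g.all_zero (Mz_null ht).1 n hn)

lemma Gr.Lam_eq {X : D f} (g : Gr X) (hne : ∃ n, 1 ≤ n ∧ f n ≠ 0) : Lam f = X.c * g.ρ0 := by
  obtain ⟨C, hC0, hC⟩ := g.f_le
  obtain ⟨κ, hκ, hfr⟩ := g.freq hne
  exact FD.Lam_eq g.l_pos hC0 hC hκ hfr

lemma exp_dist (a b : ℝ) : ‖Complex.exp (a * Complex.I) - Complex.exp (b * Complex.I)‖ ≤ |a - b| := by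
  have h : Complex.exp (a * Complex.I) - Complex.exp (b * Complex.I) =
      Complex.exp (b * Complex.I) * (Complex.exp (Complex.I * ((a - b : ℝ) : ℂ)) - 1) := by
    rw [mul_sub, ← Complex.exp_add, mul_one]
    congr 2
    push_cast; ring
  rw [h, norm_mul, Complex.norm_exp_ofReal_mul_I, one_mul]
  exact Real.norm_exp_I_mul_ofReal_sub_one_le

lemma exists_prim {p : ℕ} (hp : p.Prime) {ω0 : ℂ} (h : ‖ω0‖ = 1) {δ : ℝ} (hδ : 0 < δ) (K0 : ℕ) :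
    ∃ K, K0 ≤ K ∧ ∃ ω : ℂ, IsPrimitiveRoot ω (p ^ (K + 1)) ∧ ‖ω - ω0‖ < δ := by
  have hpi := Real.pi_pos
  obtain ⟨K1, hK1⟩ : ∃ K : ℕ, 2 * Real.pi / δ < (2 : ℝ) ^ K := pow_unbounded_of_one_lt _ one_lt_two
  set K := max K0 K1 with hK
  refine ⟨K, le_max_left _ _, ?_⟩
  have hM : 2 * Real.pi / δ < ((p ^ (K + 1) : ℕ) : ℝ) := by
    refine hK1.trans_le ?_
    push_cast
    calc (2 : ℝ) ^ K1 ≤ 2 ^ (K + 1) := pow_le_pow_right₀ (by norm_num) (by omega)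
      _ ≤ (p : ℝ) ^ (K + 1) := pow_le_pow_left₀ (by norm_num) (by exact_mod_cast hp.two_le) _
  set M : ℕ := p ^ (K + 1) with hMdef
  have hM0 : 0 < M := pow_pos hp.pos _
  have hMR : (0 : ℝ) < M := by exact_mod_cast hM0
  set θ : ℝ := Complex.arg ω0 + 2 * Real.pi with hθ
  have hθ0 : 0 ≤ θ := by
    have := Complex.neg_pi_lt_arg ω0
    linarith
  have hω0 : ω0 = Complex.exp (θ * Complex.I) := by
    have h1 := Complex.norm_mul_exp_arg_mul_I ω0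
    rw [h, Complex.ofReal_one, one_mul] at h1
    rw [hθ]
    push_cast
    rw [add_mul, Complex.exp_add, h1]
    rw [show (2 * (Real.pi : ℂ) * Complex.I) = 2 * Real.pi * Complex.I from rfl,
      Complex.exp_two_pi_mul_I, mul_one]
  set b0 : ℕ := ⌊θ * M / (2 * Real.pi)⌋₊ with hb0
  have hb1 : (b0 : ℝ) ≤ θ * M / (2 * Real.pi) := Nat.floor_le (by positivity)
  have hb2 : θ * M / (2 * Real.pi) < b0 + 1 := Nat.lt_floor_add_one _
  obtain ⟨b, hbp, hb3, hb4⟩ : ∃ b : ℕ, ¬ p ∣ b ∧ θ * M / (2 * Real.pi) - 1 ≤ b ∧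
      (b : ℝ) ≤ θ * M / (2 * Real.pi) + 1 := by
    by_cases hd : p ∣ b0
    · refine ⟨b0 + 1, ?_, ?_, ?_⟩
      · intro h2
        exact hp.one_lt.ne' (Nat.dvd_one.1 ((Nat.dvd_add_right hd).1 h2))
      · push_cast; linarith
      · push_cast; linarith
    · exact ⟨b0, hd, by linarith, by linarith⟩
  have hcop : b.Coprime M := by
    apply Nat.Coprime.pow_right
    exact ((Nat.Prime.coprime_iff_not_dvd hp).2 hbp).symm
  refine ⟨_, Complex.isPrimitiveRoot_exp_of_coprime b M hM0.ne' hcop, ?_⟩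
  have e1 : (2 * (Real.pi : ℂ) * Complex.I * ((b : ℂ) / (M : ℂ))) =
      ((2 * Real.pi * b / M : ℝ) : ℂ) * Complex.I := by
    push_cast; ring
  rw [e1, hω0]
  refine (exp_dist _ _).trans_lt ?_
  have h5 : |2 * Real.pi * b / M - θ| ≤ 2 * Real.pi / M := by
    have e2 : 2 * Real.pi * b / M - θ = (2 * Real.pi / M) * (b - θ * M / (2 * Real.pi)) := by
      field_simp
    rw [e2, abs_mul, abs_of_pos (by positivity : (0 : ℝ) < 2 * Real.pi / M)]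
    have : |(b : ℝ) - θ * M / (2 * Real.pi)| ≤ 1 := abs_le.2 ⟨by linarith, by linarith⟩
    calc 2 * Real.pi / M * |(b : ℝ) - θ * M / (2 * Real.pi)| ≤ 2 * Real.pi / M * 1 :=
          mul_le_mul_of_nonneg_left this (by positivity)
      _ = _ := mul_one _
  refine h5.trans_lt ?_
  rw [div_lt_iff₀ hδ] at hM
  rw [div_lt_iff₀ hMR]
  linarith

lemma Gr.exists_k {X : D f} (g : Gr X) {w' : ℂ} {δ : ℝ} (hw' : ‖w'‖ = 1 / (X.c * g.ρ0)) (hδ : 0 < δ)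
    (h : ∀ z0 : ℂ, ‖z0‖ = 1 / (X.c * g.ρ0) → ‖z0 - w'‖ < δ →
      Mn (fun n => (((f n : ℝ) / (X.c * g.ρ0) ^ n : ℝ) : ℂ) * (((X.c * g.ρ0 : ℝ) : ℂ) * z0) ^ n) 0) :
    ∃ k : ℕ → ℕ, ∀ p ∈ X.S, ∀ n, 1 ≤ n → p ^ k p ∣ n → f n ≠ 0 → X.s p n = 0 ∧ X.t p n = 0 := by
  classical
  have hl := g.l_pos
  set l := X.c * g.ρ0 with hldef
  have key : ∀ p ∈ X.S, ∃ k : ℕ, ∀ n, 1 ≤ n → p ^ k ∣ n → f n ≠ 0 → X.s p n = 0 ∧ X.t p n = 0 := by
    intro p hpS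
    obtain ⟨K0, hK0⟩ := g.active hpS
    have hn1 : ‖(l : ℂ) * w'‖ = 1 := by
      rw [norm_mul, Complex.norm_real, Real.norm_of_nonneg hl.le, hw']
      field_simp
    obtain ⟨K, hK, ω, hω, hωd⟩ := exists_prim (X.hp p hpS) hn1 (mul_pos hl hδ) K0
    refine ⟨K + 1, ?_⟩
    apply hK0 K hK ω hω
    have hω1 : ‖ω‖ = 1 := unit_of_pow (pow_pos (X.hp p hpS).pos _) hω.pow_eq_one
    have hlC : (l : ℂ) ≠ 0 := by exact_mod_cast hl.ne'
    have h1 : ‖ω / l‖ = 1 / l := by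
      rw [norm_div, hω1, Complex.norm_real, Real.norm_of_nonneg hl.le]
    have h2 : ‖ω / l - w'‖ < δ := by
      have : ω / l - w' = (ω - l * w') / l := by field_simp
      rw [this, norm_div, Complex.norm_real, Real.norm_of_nonneg hl.le, div_lt_iff₀ hl]
      linarith
    have h3 := h _ h1 h2
    rw [mul_div_cancel₀ _ hlC] at h3
    exact h3
  choose! k hk using key
  exact ⟨k, hk⟩

end Pool.Agent.H66.FD
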