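import Mathlib
import Pool.Agent.H66.FD8

open Filter Topology Metric

namespace Pool.Agent.H66.FD

lemma IsGcdSeq.mul {a b : ℕ → ℝ} {N M : ℕ} (ha : IsGcdSeq a N) (hb : IsGcdSeq b M) :
    IsGcdSeq (fun n => a n * b n) (N * M) := by
  refine ⟨Nat.mul_pos ha.1 hb.1, fun n hn => ?_⟩
  have hg : 1 ≤ Nat.gcd n (N * M) := Nat.gcd_pos_of_pos_left _ hn
  have h1 : Nat.gcd (Nat.gcd n (N * M)) N = Nat.gcd n N := by
    rw [Nat.gcd_assoc, Nat.gcd_eq_right (Dvd.intro _ rfl : N ∣ N * M)]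
  have h2 : Nat.gcd (Nat.gcd n (N * M)) M = Nat.gcd n M := by
    rw [Nat.gcd_assoc, Nat.gcd_eq_right (Dvd.intro_left _ rfl : M ∣ N * M)]
  beta_reduce
  rw [ha.2 n hn, hb.2 n hn, ha.2 _ hg, hb.2 _ hg, h1, h2]

lemma IsGcdSeq.one : IsGcdSeq (fun _ => 1) 1 := ⟨one_pos, fun _ _ => rfl⟩

noncomputable def phiK (p k : ℕ) (s t : ℕ → ℝ) (n : ℕ) : ℝ := if p ^ k ∣ n then 1 else phi p s t n

lemma phiK_gcd {p : ℕ} (hp : p.Prime) (k : ℕ) {s t : ℕ → ℝ} {N : ℕ} (hs : IsGcdSeq s N)
    (ht : IsGcdSeq t N) : IsGcdSeq (phiK p k s t) (N * p ^ k) := by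
  have := Fact.mk hp
  refine ⟨Nat.mul_pos hs.1 (pow_pos hp.pos _), fun n hn => ?_⟩
  set g := Nat.gcd n (N * p ^ k) with hg
  have hg1 : 1 ≤ g := Nat.gcd_pos_of_pos_left _ hn
  have h0 : p ^ k ∣ n ↔ p ^ k ∣ g := by
    rw [hg, Nat.dvd_gcd_iff]
    exact ⟨fun h => ⟨h, Dvd.intro_left _ rfl⟩, fun h => h.1⟩
  unfold phiK
  by_cases hd : p ^ k ∣ n
  · rw [if_pos hd, if_pos (h0.1 hd)]
  · rw [if_neg hd, if_neg (fun h => hd (h0.2 h)), phi_eq hp, phi_eq hp]
    have h1 : Nat.gcd g N = Nat.gcd n N := by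
      rw [hg, Nat.gcd_assoc, Nat.gcd_eq_right (Dvd.intro _ rfl : N ∣ N * p ^ k)]
    have h2 : s n = s g := by rw [hs.2 n hn, hs.2 g hg1, h1]
    have h3 : t n = t g := by rw [ht.2 n hn, ht.2 g hg1, h1]
    have hn0 : n ≠ 0 := by omega
    have hg0 : g ≠ 0 := by omega
    have h4 : padicValNat p n = padicValNat p g := by
      apply le_antisymm
      · have hlt : padicValNat p n < k := by
          by_contra hcon
          exact hd ((padicValNat_dvd_iff_le hn0).2 (by omega))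
        apply (padicValNat_dvd_iff_le hg0).1
        rw [hg]
        exact Nat.dvd_gcd pow_padicValNat_dvd
          ((pow_dvd_pow p hlt.le).trans (Dvd.intro_left _ rfl))
      · apply (padicValNat_dvd_iff_le hn0).1
        exact pow_padicValNat_dvd.trans (Nat.gcd_dvd_left _ _)
    rw [h2, h3, h4]

lemma phiK_pos {p : ℕ} (hp : p.Prime) (k : ℕ) (s t : ℕ → ℝ) (n : ℕ) : 0 < phiK p k s t n := by
  unfold phiK
  split_ifs
  · exact one_pos
  · exact phi_pos hp s t n

variable {f : ℕ → ℕ}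

lemma prod_gcd (X : D f) (k : ℕ → ℕ) (T : Finset ℕ) (hT : T ⊆ X.S) :
    ∃ N, IsGcdSeq (fun n => ∏ p ∈ T, phiK p (k p) (X.s p) (X.t p) n) N := by
  classical
  induction T using Finset.induction_on with
  | empty => exact ⟨1, by simpa using IsGcdSeq.one⟩
  | insert q T hq ih =>
    obtain ⟨N, hN⟩ := ih (fun x hx => hT (Finset.mem_insert_of_mem hx))
    have hqS : q ∈ X.S := hT (Finset.mem_insert_self q T)
    have h2 := (phiK_gcd (X.hp q hqS) (k q) (X.hs q hqS) (X.ht q hqS)).mul hN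
    refine ⟨(X.Np q * q ^ k q) * N, ?_⟩
    · have : (fun n => ∏ p ∈ insert q T, phiK p (k p) (X.s p) (X.t p) n) =
          fun n => phiK q (k q) (X.s q) (X.t q) n * ∏ p ∈ T, phiK p (k p) (X.s p) (X.t p) n := by
        funext n; rw [Finset.prod_insert hq]
      rw [this]; exact h2

lemma exists_r' (X : D f) (k : ℕ → ℕ)
    (hk : ∀ p ∈ X.S, ∀ n, 1 ≤ n → p ^ k p ∣ n → f n ≠ 0 → X.s p n = 0 ∧ X.t p n = 0) :
    ∃ (r' : ℕ → ℝ) (N : ℕ), IsGcdSeq r' N ∧ (∀ n, 0 < n → 0 < r' n) ∧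
      ∀ n, 1 ≤ n → (f n : ℝ) = |(dn X.A n : ℝ)| * X.c ^ n * r' n := by
  obtain ⟨N, hN⟩ := prod_gcd X k X.S (Finset.Subset.refl _)
  refine ⟨_, _, X.hr.mul hN, ?_, ?_⟩
  · intro n hn
    exact mul_pos (X.hr0 n hn) (Finset.prod_pos fun p hp => phiK_pos (X.hp p hp) _ _ _ _)
  · intro n hn
    have hf := X.hf n hn
    by_cases hfn : f n = 0
    · have h0 : |(dn X.A n : ℝ)| = 0 := by
        rw [hfn, Nat.cast_zero] at hf
        have h1 : 0 < X.c ^ n := pow_pos X.hc n
        have h2 := X.hr0 n hn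
        have h3 : 0 < ∏ p ∈ X.S, phi p (X.s p) (X.t p) n :=
          Finset.prod_pos fun p hp => phi_pos (X.hp p hp) _ _ _
        rcases mul_eq_zero.1 hf.symm with h | h
        · rcases mul_eq_zero.1 h with h | h
          · rcases mul_eq_zero.1 h with h | h
            · exact h
            · linarith
          · linarith
        · linarith
      rw [hfn, h0]; simp
    · rw [hf]
      have : ∏ p ∈ X.S, phi p (X.s p) (X.t p) n =
          ∏ p ∈ X.S, phiK p (k p) (X.s p) (X.t p) n := by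
        apply Finset.prod_congr rfl
        intro p hp
        unfold phiK
        split_ifs with hd
        · obtain ⟨h1, h2⟩ := hk p hp n hn hd hfn
          rw [phi_eq (X.hp p hp), h1, h2]
          simp
        · rfl
      rw [this]
      ring

/-- Gauss congruence -/
lemma gauss {X : Type*} (T : X → X) {l : ℕ} (hl : l.Prime) (hfin : {x | T^[l] x = x}.Finite) :
    Nat.card {x // T^[l] x = x} ≡ Nat.card {x // T x = x} [MOD l] := by
  classical
  have := Fact.mk hl
  have hF : Finite {x // T^[l] x = x} := hfin.to_subtype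
  let α := {x // T^[l] x = x}
  have : Fintype {x // T^[l] x = x} := Fintype.ofFinite _
  let T' : Function.End α := fun x => ⟨T x.1, by
    have h := x.2
    rw [← Function.iterate_succ_apply, Function.iterate_succ_apply', h]⟩
  have hpow : ∀ (n : ℕ) (x : α), ((T' ^ n) x).1 = T^[n] x.1 := by
    intro n
    induction n with
    | zero => intro x; rfl
    | succ n ih =>
      intro x
      rw [pow_succ]
      show ((T' ^ n) (T' x)).1 = _
      rw [ih, Function.iterate_succ_apply]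
  have h1 : T' ^ l ^ 1 = 1 := by
    rw [pow_one]
    funext x
    apply Subtype.ext
    rw [hpow]
    exact x.2
  have h2 := Equiv.Perm.card_fixedPoints_modEq (n := 1) (p := l) h1
  rw [← Nat.card_eq_fintype_card, ← Nat.card_eq_fintype_card] at h2
  refine h2.trans ?_
  have e : (Function.fixedPoints T') ≃ {x // T x = x} :=
    { toFun := fun x => ⟨x.1.1, congrArg Subtype.val x.2⟩
      invFun := fun x => ⟨⟨x.1, Function.iterate_fixed x.2 l⟩, Subtype.ext x.2⟩
      left_inv := fun x => rfl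
      right_inv := fun x => rfl }
  rw [Nat.card_congr e]

end Pool.Agent.H66.FD
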