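import Mathlib
import Pool.Agent.H66.FD9

open Filter Topology Metric

namespace Pool.Agent.H66.FD

open NumberTheorySymbols

lemma exists_l_odd {a : ℕ} (ha : Squarefree a) (hodd : Odd a) (h1 : a ≠ 1) (B : ℕ) :
    ∃ l, B < l ∧ l.Prime ∧ J((a : ℤ) | l) = -1 := by
  obtain ⟨q, hq, hqa⟩ := Nat.exists_prime_and_dvd h1
  obtain ⟨a', rfl⟩ := hqa
  have hqf := Fact.mk hq
  have hcop : Nat.Coprime q a' := Nat.coprime_of_squarefree_mul ha
  have hqodd : Odd q := (Nat.odd_mul.1 hodd).1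
  have ha'odd : Odd a' := (Nat.odd_mul.1 hodd).2
  have hq2 : q ≠ 2 := by
    rintro rfl
    exact absurd hqodd (by decide)
  obtain ⟨x, hx⟩ := FiniteField.exists_nonsquare (F := ZMod q) (by rw [ZMod.ringChar_zmod_n]; exact hq2)
  have hxJ : J((x.val : ℤ) | q) = -1 := by
    rw [← jacobiSym.legendreSym.to_jacobiSym, legendreSym.eq_neg_one_iff]
    push_cast
    rwa [ZMod.natCast_zmod_val]
  have hx0 : ¬ q ∣ x.val := by
    intro h
    have h2 : ((x.val : ℕ) : ZMod q) = 0 := (ZMod.natCast_eq_zero_iff _ _).2 h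
    rw [ZMod.natCast_zmod_val] at h2
    apply hx
    rw [h2]
    exact ⟨0, by simp⟩
  have hcop4 : Nat.Coprime q (4 * a') := by
    apply Nat.Coprime.mul_right _ hcop
    have : Nat.Coprime q (2 ^ 2) := Nat.Coprime.pow_right 2
      ((Nat.coprime_primes hq Nat.prime_two).2 hq2)
    simpa using this
  obtain ⟨y, hy1, hy2⟩ := Nat.chineseRemainder hcop4 x.val 1
  have ha'0 : a' ≠ 0 := by
    rintro rfl; exact absurd ha'odd (by decide)
  have hycop : y.Coprime (q * (4 * a')) := by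
    apply Nat.Coprime.mul_right
    · rw [Nat.coprime_comm, Nat.Prime.coprime_iff_not_dvd hq]
      intro h
      exact hx0 ((hy1.dvd_iff dvd_rfl).1 h)
    · have := hy2.gcd_eq
      rw [Nat.coprime_iff_gcd_eq_one, this]; simp
  obtain ⟨l, hl1, hl2, hl3⟩ := Nat.forall_exists_prime_gt_and_modEq B
    (q := q * (4 * a')) (a := y) (Nat.mul_ne_zero hq.ne_zero (by omega)) hycop
  refine ⟨l, hl1, hl2, ?_⟩
  have h4 : l % 4 = 1 := by
    have : l ≡ 1 [MOD 4] :=
      (hl3.of_dvd (⟨q * a', by ring⟩)).trans (hy2.of_dvd (Dvd.intro _ rfl))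
    exact this
  have hlq : l ≡ x.val [MOD q] := (hl3.of_dvd (Dvd.intro _ rfl)).trans hy1
  have hla : l ≡ 1 [MOD a'] := (hl3.of_dvd ⟨q * 4, by ring⟩).trans (hy2.of_dvd (Dvd.intro_left _ rfl))
  have hrec := jacobiSym.quadratic_reciprocity_one_mod_four (a := l) (b := q * a') h4 hodd
  rw [← hrec]
  have hq0 := hq.ne_zero
  rw [jacobiSym.mul_right' _ hq0 ha'0]
  have e1 : J((l : ℤ) | q) = J((x.val : ℤ) | q) := by
    apply jacobiSym.mod_left'
    exact (Int.natCast_modEq_iff.2 hlq)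
  have e2 : J((l : ℤ) | a') = J((1 : ℤ) | a') := by
    apply jacobiSym.mod_left'
    have := Int.natCast_modEq_iff.2 hla
    exact_mod_cast this
  rw [e1, e2, hxJ, jacobiSym.one_left]
  norm_num

lemma exists_l_even {a' : ℕ} (ha'odd : Odd a') (B : ℕ) :
    ∃ l, B < l ∧ l.Prime ∧ J(((2 * a' : ℕ) : ℤ) | l) = -1 := by
  have ha'0 : a' ≠ 0 := by
    rintro rfl; exact absurd ha'odd (by decide)
  have hcop : Nat.Coprime 8 a' := by
    have : Nat.Coprime (2 ^ 3) a' := Nat.Coprime.pow_left 3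
      ((Nat.Prime.coprime_iff_not_dvd Nat.prime_two).2 (fun h => by
        rw [Nat.odd_iff] at ha'odd; omega))
    simpa using this
  obtain ⟨y, hy1, hy2⟩ := Nat.chineseRemainder hcop 5 1
  have hycop : y.Coprime (8 * a') := by
    apply Nat.Coprime.mul_right
    · have := hy1.gcd_eq
      rw [Nat.coprime_iff_gcd_eq_one, this]; norm_num
    · have := hy2.gcd_eq
      rw [Nat.coprime_iff_gcd_eq_one, this]; simp
  obtain ⟨l, hl1, hl2, hl3⟩ := Nat.forall_exists_prime_gt_and_modEq B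
    (q := 8 * a') (a := y) (by omega) hycop
  refine ⟨l, hl1, hl2, ?_⟩
  have h8 : l % 8 = 5 := by
    have : l ≡ 5 [MOD 8] := (hl3.of_dvd (Dvd.intro _ rfl)).trans hy1
    exact this
  have hla : l ≡ 1 [MOD a'] := (hl3.of_dvd (Dvd.intro_left _ rfl)).trans hy2
  have hlodd : Odd l := by rw [Nat.odd_iff]; omega
  have hrec := jacobiSym.quadratic_reciprocity_one_mod_four (a := l) (b := a') (by omega) ha'odd
  have e2 : J((l : ℤ) | a') = J((1 : ℤ) | a') := by
    apply jacobiSym.mod_left'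
    have := Int.natCast_modEq_iff.2 hla
    exact_mod_cast this
  push_cast
  rw [jacobiSym.mul_left, ← hrec, e2, jacobiSym.one_left, jacobiSym.at_two hlodd, mul_one,
    ZMod.χ₈_nat_mod_eight, h8]
  decide

/-- a positive integer that is a quadratic residue modulo all large primes is a square -/
lemma isSquare_of_residue {m : ℕ} (hm : 0 < m) (B : ℕ)
    (h : ∀ l, l.Prime → B < l → (m : ZMod l) ^ (l / 2) = 1) : IsSquare m := by
  obtain ⟨a, b, ha0, hb0, hab, hsq⟩ := Nat.sq_mul_squarefree_of_pos hm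
  by_cases ha1 : a = 1
  · rw [ha1, mul_one] at hab
    exact ⟨b, by rw [← hab]; ring⟩
  exfalso
  have key : ∃ l, max B m < l ∧ l.Prime ∧ J((a : ℤ) | l) = -1 := by
    rcases Nat.even_or_odd a with he | ho
    · obtain ⟨a', rfl⟩ := he
      rw [← two_mul] at hsq ⊢
      have hcop := Nat.coprime_of_squarefree_mul hsq
      exact exists_l_even ((Nat.coprime_two_left).1 hcop) _
    · exact exists_l_odd hsq ho ha1 _
  obtain ⟨l, hl1, hl2, hl3⟩ := key
  have hfact := Fact.mk hl2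
  have hml : m < l := (le_max_right _ _).trans_lt hl1
  have hBl : B < l := (le_max_left _ _).trans_lt hl1
  have hm0 : (m : ZMod l) ≠ 0 := by
    intro h0
    have := Nat.le_of_dvd hm ((ZMod.natCast_eq_zero_iff _ _).1 h0)
    omega
  have hsqm : IsSquare (m : ZMod l) := (ZMod.euler_criterion l hm0).2 (h l hl2 hBl)
  have hcast : (m : ZMod l) = (b : ZMod l) ^ 2 * (a : ZMod l) := by
    rw [← hab]; push_cast; ring
  have hb0' : (b : ZMod l) ≠ 0 := by
    intro h0; rw [h0] at hcast; apply hm0; rw [hcast]; ring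
  have hsqa : IsSquare (a : ZMod l) := by
    obtain ⟨y, hy⟩ := hsqm
    refine ⟨y / b, ?_⟩
    rw [hcast] at hy
    field_simp
    rw [← pow_two] at hy
    linear_combination hy
  rw [← jacobiSym.legendreSym.to_jacobiSym, legendreSym.eq_neg_one_iff] at hl3
  apply hl3
  exact_mod_cast hsqa

/-- the constant is rational -/
lemma c_rational {d : ℕ} (A : Matrix (Fin d) (Fin d) ℤ) {f : ℕ → ℕ} {c : ℝ} (hc : 0 < c)
    {r' : ℕ → ℝ} {N : ℕ} (hr : IsGcdSeq r' N) (hr0 : ∀ n, 0 < n → 0 < r' n)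
    (hf : ∀ n, 1 ≤ n → (f n : ℝ) = |(dn A n : ℝ)| * c ^ n * r' n)
    (hG : ∀ l, l.Prime → f l ≡ f 1 [MOD l]) (hne : ∃ n, 1 ≤ n ∧ f n ≠ 0) :
    ∃ q : ℚ, 0 < q ∧ c = q := by
  have hd1 : dn A 1 ≠ 0 := by
    intro h0
    obtain ⟨n, hn, hfn⟩ := hne
    have h1 : dn A n = 0 := by
      unfold dn at h0 ⊢
      rw [pow_one] at h0
      rw [← mul_geom_sum, Matrix.det_mul, h0, zero_mul]
    apply hfn
    have := hf n hn
    rw [h1] at this
    simp at this
    exact_mod_cast this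
  set Dn : ℕ := (dn A 1).natAbs with hDn
  have hDn0 : 0 < Dn := Int.natAbs_pos.2 hd1
  have hDR : |(dn A 1 : ℝ)| = (Dn : ℝ) := by
    rw [hDn, Nat.cast_natAbs]; push_cast; rfl
  have hf1 : 0 < f 1 := by
    have h1 := hf 1 le_rfl
    rw [hDR] at h1
    have h2 : (0 : ℝ) < f 1 := by
      rw [h1]
      have := hr0 1 one_pos
      have : (0 : ℝ) < Dn := by exact_mod_cast hDn0
      positivity
    exact_mod_cast h2
  set B : ℕ := max N (max Dn (max (f 1) 2)) with hB
  -- the basic relation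
  have hrel : ∀ l, l.Prime → B < l → (f l : ℝ) * Dn = ((dn A l).natAbs : ℝ) * f 1 * c ^ (l - 1) ∧
      (((dn A l).natAbs : ℕ) : ZMod l) = (Dn : ZMod l) ∧ (dn A l).natAbs ≠ 0 := by
    intro l hl hBl
    have hfact := Fact.mk hl
    have hNl : N < l := (le_max_left _ _).trans_lt hBl
    have hDl : Dn < l := ((le_max_left _ _).trans (le_max_right _ _)).trans_lt hBl
    have h2l : 2 < l := ((le_max_right _ _).trans ((le_max_right _ _).trans (le_max_right _ _))).trans_lt hBl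
    have hgcd : Nat.gcd l N = 1 := by
      rw [← Nat.coprime_iff_gcd_eq_one, Nat.Prime.coprime_iff_not_dvd hl]
      intro h
      have := Nat.le_of_dvd hr.1 h
      omega
    have hrl : r' l = r' 1 := by
      rw [hr.2 l hl.one_lt.le, hgcd]
    have h1 := hf l hl.one_lt.le
    have h2 := hf 1 le_rfl
    have hlR : |(dn A l : ℝ)| = ((dn A l).natAbs : ℝ) := by
      rw [Nat.cast_natAbs]; push_cast; rfl
    rw [hrl, hlR] at h1
    rw [hDR, pow_one] at h2
    have hcast : (((dn A l).natAbs : ℕ) : ZMod l) = (Dn : ZMod l) := by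
      obtain ⟨ε, δ, hε, hδ, hs⟩ := sign_exists A
      have e1 := hs l hl.pos
      have e2 := hs 1 one_pos
      have hodd : Odd l := hl.odd_of_ne_two (by omega)
      have hδl : δ ^ l = δ := by
        rcases hδ with h | h <;> rw [h]
        · simp
        · exact hodd.neg_one_pow
      rw [hδl] at e1
      rw [pow_one] at e2
      have e3 : (((dn A l).natAbs : ℤ) : ZMod l) = ((Dn : ℤ) : ZMod l) := by
        rw [Int.natCast_natAbs, hDn, Int.natCast_natAbs, e1, e2]
        push_cast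
        rw [dn_congr A l hl]
      rw [Int.cast_natCast, Int.cast_natCast] at e3
      exact e3
    refine ⟨?_, hcast, ?_⟩
    · rw [h1, h2]
      have : c ^ l = c ^ (l - 1) * c := by
        rw [← pow_succ]; congr 1; omega
      rw [this]; ring
    · intro h0
      rw [h0, Nat.cast_zero] at hcast
      have := Nat.le_of_dvd hDn0 ((ZMod.natCast_eq_zero_iff _ _).1 hcast.symm)
      omega
  have hDnR : (0 : ℝ) < Dn := by exact_mod_cast hDn0
  have hf1R : (0 : ℝ) < f 1 := by exact_mod_cast hf1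
  have hpow : ∀ l, l.Prime → B < l → ∃ q : ℚ, c ^ (l - 1) = (q : ℝ) := by
    intro l hl hBl
    obtain ⟨h1, h2, h3⟩ := hrel l hl hBl
    refine ⟨(f l : ℚ) * Dn / ((dn A l).natAbs * f 1), ?_⟩
    have h4 : (0 : ℝ) < (dn A l).natAbs := by exact_mod_cast Nat.pos_of_ne_zero h3
    push_cast
    rw [h1]
    field_simp
  -- c ^ 2 is rational
  obtain ⟨Q, hQ⟩ : ∃ Q : ℚ, c ^ 2 = (Q : ℝ) := by
    obtain ⟨l1, hl1B, hl1⟩ := Nat.exists_infinite_primes (B + 1)
    have hB2 : 2 ≤ B := (le_max_right _ _).trans ((le_max_right _ _).trans (le_max_right _ _))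
    obtain ⟨q1, hq1⟩ := hpow l1 hl1 (by omega)
    have hcop : (l1 - 2).Coprime (l1 - 1) := by
      have : l1 - 1 = (l1 - 2) + 1 := by omega
      rw [this]
      simp
    obtain ⟨l2, hl2a, hl2, hl2c⟩ := Nat.forall_exists_prime_gt_and_modEq B
      (q := l1 - 1) (a := l1 - 2) (by omega) hcop
    obtain ⟨q2, hq2⟩ := hpow l2 hl2 hl2a
    have hdvd : (l1 - 1) ∣ l2 + 1 := by
      have h1 : l2 + 1 ≡ (l1 - 2) + 1 [MOD (l1 - 1)] := hl2c.add_right 1
      have h2 : (l1 - 2) + 1 = l1 - 1 := by omega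
      rw [h2] at h1
      exact (h1.dvd_iff dvd_rfl).2 dvd_rfl
    obtain ⟨j, hj⟩ := hdvd
    refine ⟨q1 ^ j / q2, ?_⟩
    have h3 : c ^ (l2 + 1) = (q1 : ℝ) ^ j := by rw [hj, pow_mul, hq1]
    have h4 : c ^ (l2 + 1) = c ^ 2 * c ^ (l2 - 1) := by
      rw [← pow_add]; congr 1; omega
    have h5 : (q2 : ℝ) ≠ 0 := by rw [← hq2]; positivity
    push_cast
    rw [eq_div_iff h5, ← hq2, ← h4, h3]
  have hQpos : 0 < Q := by
    have : (0 : ℝ) < Q := by rw [← hQ]; positivity
    exact_mod_cast this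
  set a : ℕ := Q.num.natAbs with ha
  set b : ℕ := Q.den with hb
  have hnum : 0 < Q.num := Rat.num_pos.2 hQpos
  have ha0 : 0 < a := Int.natAbs_pos.2 hnum.ne'
  have hb0 : 0 < b := Q.den_pos
  have hQab : (Q : ℝ) = (a : ℝ) / b := by
    rw [Rat.cast_def Q]
    congr 1
    rw [ha, Nat.cast_natAbs, abs_of_pos hnum]
  have hsquare : IsSquare (a * b) := by
    apply isSquare_of_residue (Nat.mul_pos ha0 hb0) (max B a)
    intro l hl hBl
    have hfact := Fact.mk hl
    have hBl' : B < l := (le_max_left _ _).trans_lt hBl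
    have hal : a < l := (le_max_right _ _).trans_lt hBl
    have hDl : Dn < l := ((le_max_left _ _).trans (le_max_right _ _)).trans_lt hBl'
    have hfl : f 1 < l := ((le_max_left _ _).trans ((le_max_right _ _).trans (le_max_right _ _))).trans_lt hBl'
    have h2l : 2 < l := ((le_max_right _ _).trans ((le_max_right _ _).trans (le_max_right _ _))).trans_lt hBl'
    obtain ⟨h1, h2, h3⟩ := hrel l hl hBl'
    have hodd : Odd l := hl.odd_of_ne_two (by omega)
    have hlm : l - 1 = 2 * (l / 2) := by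
      obtain ⟨k, hk⟩ := hodd
      omega
    have hbR : (b : ℝ) ≠ 0 := by exact_mod_cast hb0.ne'
    rw [hlm, pow_mul, hQ, hQab, div_pow] at h1
    have h4 : (f l : ℝ) * Dn * (b : ℝ) ^ (l / 2) = ((dn A l).natAbs : ℝ) * f 1 * (a : ℝ) ^ (l / 2) := by
      rw [h1]; field_simp
    have h5 : f l * Dn * b ^ (l / 2) = (dn A l).natAbs * f 1 * a ^ (l / 2) := by exact_mod_cast h4
    have h6 : (f l : ZMod l) * Dn * (b : ZMod l) ^ (l / 2) =
        (((dn A l).natAbs : ℕ) : ZMod l) * f 1 * (a : ZMod l) ^ (l / 2) := by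
      exact_mod_cast congrArg (Nat.cast : ℕ → ZMod l) h5
    have h7 : (f l : ZMod l) = (f 1 : ZMod l) := (ZMod.natCast_eq_natCast_iff _ _ _).2 (hG l hl)
    rw [h7, h2] at h6
    have hD0 : (Dn : ZMod l) ≠ 0 := by
      intro h0
      have := Nat.le_of_dvd hDn0 ((ZMod.natCast_eq_zero_iff _ _).1 h0)
      omega
    have hf0 : (f 1 : ZMod l) ≠ 0 := by
      intro h0
      have := Nat.le_of_dvd hf1 ((ZMod.natCast_eq_zero_iff _ _).1 h0)
      omega
    have ha0' : (a : ZMod l) ≠ 0 := by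
      intro h0
      have := Nat.le_of_dvd ha0 ((ZMod.natCast_eq_zero_iff _ _).1 h0)
      omega
    have h8 : (b : ZMod l) ^ (l / 2) = (a : ZMod l) ^ (l / 2) := by
      have h9 : ((f 1 : ZMod l) * Dn) * (b : ZMod l) ^ (l / 2) =
          ((f 1 : ZMod l) * Dn) * (a : ZMod l) ^ (l / 2) := by
        rw [h6]; ring
      exact mul_left_cancel₀ (mul_ne_zero hf0 hD0) h9
    push_cast
    rw [mul_pow, h8, ← pow_add, ← two_mul, ← hlm]
    exact ZMod.pow_card_sub_one_eq_one ha0'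
  obtain ⟨y, hy⟩ := hsquare
  have hbR : (0 : ℝ) < b := by exact_mod_cast hb0
  have hy0 : 0 < y := by
    rcases Nat.eq_zero_or_pos y with h | h
    · rw [h] at hy
      have := Nat.mul_pos ha0 hb0
      omega
    · exact h
  refine ⟨(y : ℚ) / b, by positivity, ?_⟩
  have hyR : ((a : ℝ) * b) = (y : ℝ) ^ 2 := by
    have : ((a * b : ℕ) : ℝ) = ((y * y : ℕ) : ℝ) := by rw [hy]
    push_cast at this
    rw [this]; ring
  have h1 : c ^ 2 = ((y : ℝ) / b) ^ 2 := by
    rw [hQ, hQab, div_pow, ← hyR]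
    field_simp
  have h2 : 0 ≤ (y : ℝ) / b := by positivity
  push_cast
  exact (pow_left_inj₀ hc.le h2 two_ne_zero).1 h1

end Pool.Agent.H66.FD
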