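import Mathlib
import Pool.Agent.H66.FD10

open Filter Topology Metric Polynomial

namespace Pool.Agent.H66.FD

/-- `exp (Σ F n / n z ^ n)` has a rational power near `0` -/
def RR (F : ℕ → ℂ) : Prop := ∃ k : ℕ, 0 < k ∧ ∃ P Q : ℂ[X], P.eval 0 ≠ 0 ∧ Q.eval 0 ≠ 0 ∧
  ∃ R : ℝ, 0 < R ∧ ∀ z : ℂ, ‖z‖ < R → ∃ L, HasSum (fun n : ℕ => F n / n * z ^ n) L ∧
    Complex.exp L ^ k * Q.eval z = P.eval z

lemma RR.congr {F G : ℕ → ℂ} (hF : RR F) (h : ∀ n, 1 ≤ n → F n = G n) : RR G := by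
  obtain ⟨k, hk, P, Q, hP, hQ, R, hR, hz⟩ := hF
  refine ⟨k, hk, P, Q, hP, hQ, R, hR, fun z hzR => ?_⟩
  obtain ⟨L, hL, hL2⟩ := hz z hzR
  refine ⟨L, ?_, hL2⟩
  have : (fun n : ℕ => G n / n * z ^ n) = fun n : ℕ => F n / n * z ^ n := by
    funext n
    rcases Nat.eq_zero_or_pos n with h0 | h0
    · subst h0; simp
    · rw [h n h0]
  rw [this]; exact hL

lemma RR.zero : RR (fun _ => 0) := by
  refine ⟨1, one_pos, 1, 1, by simp, by simp, 1, one_pos, fun z _ => ⟨0, ?_, by simp⟩⟩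
  simpa using hasSum_zero

lemma RR.add {F G : ℕ → ℂ} (hF : RR F) (hG : RR G) : RR (fun n => F n + G n) := by
  obtain ⟨k, hk, P, Q, hP, hQ, R, hR, hz⟩ := hF
  obtain ⟨k', hk', P', Q', hP', hQ', R', hR', hz'⟩ := hG
  refine ⟨k * k', Nat.mul_pos hk hk', P ^ k' * P' ^ k, Q ^ k' * Q' ^ k, ?_, ?_, min R R',
    lt_min hR hR', fun z hzR => ?_⟩
  · rw [eval_mul, eval_pow, eval_pow]
    exact mul_ne_zero (pow_ne_zero _ hP) (pow_ne_zero _ hP')
  · rw [eval_mul, eval_pow, eval_pow]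
    exact mul_ne_zero (pow_ne_zero _ hQ) (pow_ne_zero _ hQ')
  · obtain ⟨L, hL, hL2⟩ := hz z (hzR.trans_le (min_le_left _ _))
    obtain ⟨L', hL', hL2'⟩ := hz' z (hzR.trans_le (min_le_right _ _))
    refine ⟨L + L', ?_, ?_⟩
    · refine (hL.add hL').congr_fun ?_
      intro n; ring
    · rw [eval_mul, eval_pow, eval_pow, eval_mul, eval_pow, eval_pow, ← hL2, ← hL2', Complex.exp_add]
      ring

lemma RR.neg {F : ℕ → ℂ} (hF : RR F) : RR (fun n => - F n) := by
  obtain ⟨k, hk, P, Q, hP, hQ, R, hR, hz⟩ := hF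
  refine ⟨k, hk, Q, P, hQ, hP, R, hR, fun z hzR => ?_⟩
  obtain ⟨L, hL, hL2⟩ := hz z hzR
  refine ⟨-L, ?_, ?_⟩
  · refine hL.neg.congr_fun ?_
    intro n; ring
  · rw [← hL2, ← mul_assoc, ← mul_pow, ← Complex.exp_add]
    simp

lemma RR.nsmul {F : ℕ → ℂ} (hF : RR F) (m : ℕ) : RR (fun n => m * F n) := by
  induction m with
  | zero => exact RR.zero.congr (fun n _ => by simp)
  | succ m ih => exact (ih.add hF).congr (fun n _ => by push_cast; ring)

lemma RR.div {F : ℕ → ℂ} (hF : RR F) {q : ℕ} (hq : 0 < q) : RR (fun n => F n / q) := by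
  obtain ⟨k, hk, P, Q, hP, hQ, R, hR, hz⟩ := hF
  refine ⟨q * k, Nat.mul_pos hq hk, P, Q, hP, hQ, R, hR, fun z hzR => ?_⟩
  obtain ⟨L, hL, hL2⟩ := hz z hzR
  have hq0 : (q : ℂ) ≠ 0 := Nat.cast_ne_zero.2 hq.ne'
  refine ⟨L / q, ?_, ?_⟩
  · refine (hL.div_const (q : ℂ)).congr_fun ?_
    intro n; ring
  · rw [pow_mul, ← Complex.exp_nat_mul, mul_div_cancel₀ _ hq0]
    exact hL2

lemma RR.rsmul {F : ℕ → ℂ} (hF : RR F) (q : ℚ) : RR (fun n => (q : ℂ) * F n) := by
  have key : ∀ q : ℚ, 0 ≤ q → RR (fun n => (q : ℂ) * F n) := by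
    intro q hq
    have h1 := (hF.nsmul q.num.natAbs).div q.den_pos
    refine h1.congr (fun n _ => ?_)
    have h2 : (q : ℂ) = (q.num.natAbs : ℂ) / q.den := by
      rw [Rat.cast_def q]
      congr 1
      rw [Nat.cast_natAbs, abs_of_nonneg (Rat.num_nonneg.2 hq)]
    rw [h2]; ring
  rcases le_total 0 q with h | h
  · exact key q h
  · have h1 := (key (-q) (by linarith)).neg
    refine h1.congr (fun n _ => ?_)
    push_cast; ring

lemma RR.sum {ι : Type*} (s : Finset ι) (F : ι → ℕ → ℂ) (h : ∀ i ∈ s, RR (F i)) :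
    RR (fun n => ∑ i ∈ s, F i n) := by
  classical
  induction s using Finset.induction_on with
  | empty => exact RR.zero.congr (fun n _ => by simp)
  | insert a s ha ih =>
    have h1 := (h a (Finset.mem_insert_self a s)).add (ih (fun i hi => h i (Finset.mem_insert_of_mem hi)))
    refine h1.congr (fun n _ => ?_)
    rw [Finset.sum_insert ha]

lemma RR.base {d : ℕ} (hd : 0 < d) (μ : ℂ) : RR (fun n => if d ∣ n then μ ^ n else 0) := by
  refine ⟨d, hd, 1, 1 - C (μ ^ d) * X ^ d, by simp, by simp [hd.ne'], 1 / (‖μ‖ + 1), by positivity,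
    fun z hz => ?_⟩
  have hw : ‖μ * z‖ < 1 := by
    rw [lt_div_iff₀ (by positivity)] at hz
    rw [norm_mul]
    nlinarith [norm_nonneg μ, norm_nonneg z]
  have hwd : ‖(μ * z) ^ d‖ < 1 := by
    rw [norm_pow]
    exact pow_lt_one₀ (norm_nonneg _) hw hd.ne'
  have hd0 : (d : ℂ) ≠ 0 := Nat.cast_ne_zero.2 hd.ne'
  have h1 := (Complex.hasSum_taylorSeries_neg_log hwd).div_const (d : ℂ)
  have hinj : Function.Injective (fun j : ℕ => d * j) := fun a b h => Nat.eq_of_mul_eq_mul_left hd h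
  refine ⟨-Complex.log (1 - (μ * z) ^ d) / d, ?_, ?_⟩
  · rw [← hinj.hasSum_iff]
    · refine h1.congr_fun ?_
      intro j
      simp only [Function.comp]
      rw [if_pos (Dvd.intro _ rfl)]
      rcases Nat.eq_zero_or_pos j with h0 | h0
      · subst h0; simp
      · have : (j : ℂ) ≠ 0 := Nat.cast_ne_zero.2 h0.ne'
        push_cast
        rw [← pow_mul, mul_pow]
        field_simp
    · intro n hn
      beta_reduce
      rw [if_neg]
      · simp
      · rintro ⟨j, rfl⟩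
        exact hn ⟨j, rfl⟩
  · have hne : 1 - (μ * z) ^ d ≠ 0 := by
      intro h0
      have : (μ * z) ^ d = 1 := by linear_combination -h0
      rw [this] at hwd
      simp at hwd
    rw [← Complex.exp_nat_mul, mul_div_cancel₀ _ hd0, Complex.exp_neg, Complex.exp_log hne]
    simp only [eval_sub, eval_one, eval_mul, eval_C, eval_pow, eval_X]
    rw [← mul_pow]
    exact inv_mul_cancel₀ hne

lemma RR.ind {N : ℕ} (hN : 0 < N) (μ : ℂ) : ∀ m g : ℕ, g ∣ N → N - g = m →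
    RR (fun n => if Nat.gcd n N = g then μ ^ n else 0) := by
  intro m
  induction m using Nat.strong_induction_on with
  | _ m ih =>
    intro g hg hm
    have hg0 : 0 < g := Nat.pos_of_dvd_of_pos hg hN
    set T := (N.divisors).filter (fun g' => g ∣ g' ∧ g' ≠ g) with hT
    have h1 : RR (fun n => ∑ g' ∈ T, (if Nat.gcd n N = g' then μ ^ n else 0)) := by
      apply RR.sum T (fun g' n => if Nat.gcd n N = g' then μ ^ n else 0)
      intro g' hg'
      rw [hT, Finset.mem_filter, Nat.mem_divisors] at hg'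
      obtain ⟨⟨h1, h2⟩, h3, h4⟩ := hg'
      have h5 : g' ≤ N := Nat.le_of_dvd hN h1
      have h6 : g ≤ g' := Nat.le_of_dvd (Nat.pos_of_dvd_of_pos h1 hN) h3
      exact ih (N - g') (by omega) g' h1 rfl
    have h2 := (RR.base hg0 μ).add h1.neg
    refine h2.congr (fun n hn => ?_)
    rw [Finset.sum_ite_eq]
    have h3 : g ∣ n ↔ g ∣ Nat.gcd n N := ⟨fun h => Nat.dvd_gcd h hg, fun h => h.trans (Nat.gcd_dvd_left _ _)⟩
    have h4 : Nat.gcd n N ∈ T ↔ g ∣ n ∧ Nat.gcd n N ≠ g := by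
      rw [hT, Finset.mem_filter, Nat.mem_divisors, h3]
      exact ⟨fun h => h.2, fun h => ⟨⟨Nat.gcd_dvd_right _ _, hN.ne'⟩, h⟩⟩
    by_cases ha : Nat.gcd n N = g
    · have hgn : g ∣ n := h3.2 (by rw [ha])
      have hnT : Nat.gcd n N ∉ T := fun h => (h4.1 h).2 ha
      rw [if_pos hgn, if_neg hnT, if_pos ha]; ring
    · by_cases hb : g ∣ n
      · rw [if_pos hb, if_pos (h4.2 ⟨hb, ha⟩), if_neg ha]; ring
      · rw [if_neg hb, if_neg (fun h => hb (h4.1 h).1), if_neg ha]; ring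

lemma RR.gcd {N : ℕ} (hN : 0 < N) (μ : ℂ) (q : ℕ → ℚ) : RR (fun n => μ ^ n * (q (Nat.gcd n N) : ℂ)) := by
  have h1 := RR.sum N.divisors (fun g n => (q g : ℂ) * (if Nat.gcd n N = g then μ ^ n else 0))
    (fun g hg => (RR.ind hN μ (N - g) g (Nat.mem_divisors.1 hg).1 rfl).rsmul (q g))
  refine h1.congr (fun n hn => ?_)
  have h2 : ∀ g ∈ N.divisors, (q g : ℂ) * (if Nat.gcd n N = g then μ ^ n else 0) =
      if Nat.gcd n N = g then (q g : ℂ) * μ ^ n else 0 := by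
    intro g _
    split_ifs <;> simp
  rw [Finset.sum_congr rfl h2, Finset.sum_ite_eq, if_pos
    (Nat.mem_divisors.2 ⟨Nat.gcd_dvd_right _ _, hN.ne'⟩)]
  ring

/-- integral combinations of geometric sequences -/
def GS : AddSubgroup (ℕ → ℂ) := AddSubgroup.closure {x | ∃ μ : ℂ, x = fun n : ℕ => μ ^ n}

lemma GS_mul {x : ℕ → ℂ} (hx : x ∈ GS) (α : ℂ) : (fun n => x n * α ^ n) ∈ GS := by
  unfold GS at hx
  induction hx using AddSubgroup.closure_induction with
  | mem x hx =>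
    obtain ⟨μ, rfl⟩ := hx
    apply AddSubgroup.subset_closure
    exact ⟨μ * α, by funext n; rw [mul_pow]⟩
  | zero =>
    have : (fun n => (0 : ℕ → ℂ) n * α ^ n) = 0 := by funext n; simp
    rw [this]; exact GS.zero_mem
  | add x y _ _ h1 h2 =>
    have : (fun n => (x + y) n * α ^ n) = (fun n => x n * α ^ n) + (fun n => y n * α ^ n) := by
      funext n; simp [add_mul]
    rw [this]; exact GS.add_mem h1 h2
  | neg x _ h1 =>
    have : (fun n => (-x) n * α ^ n) = -(fun n => x n * α ^ n) := by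
      funext n; simp
    rw [this]; exact GS.neg_mem h1

lemma GS_prod (m : Multiset ℂ) : (fun n => (m.map (fun α => α ^ n - 1)).prod) ∈ GS := by
  induction m using Multiset.induction_on with
  | empty =>
    apply AddSubgroup.subset_closure
    exact ⟨1, by funext n; simp⟩
  | cons a m ih =>
    have h1 := GS.sub_mem (GS_mul ih a) ih
    convert h1 using 1
    funext n
    simp only [Multiset.map_cons, Multiset.prod_cons, Pi.sub_apply]
    ring

lemma RR.GS {N : ℕ} (hN : 0 < N) (a : ℂ) (q : ℕ → ℚ) {x : ℕ → ℂ} (hx : x ∈ GS) :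
    RR (fun n => x n * (a ^ n * (q (Nat.gcd n N) : ℂ))) := by
  unfold FD.GS at hx
  induction hx using AddSubgroup.closure_induction with
  | mem x hx =>
    obtain ⟨μ, rfl⟩ := hx
    refine (RR.gcd hN (μ * a) q).congr (fun n _ => ?_)
    rw [mul_pow]; ring
  | zero => exact RR.zero.congr (fun n _ => by simp)
  | add x y _ _ h1 h2 => exact (h1.add h2).congr (fun n _ => by simp only [Pi.add_apply]; ring)
  | neg x _ h1 => exact h1.neg.congr (fun n _ => by simp only [Pi.neg_apply]; ring)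

lemma RR_main {d : ℕ} (A : Matrix (Fin d) (Fin d) ℤ) {f : ℕ → ℕ} {c : ℝ} (hc : 0 < c)
    {r' : ℕ → ℝ} {N : ℕ} (hr : IsGcdSeq r' N) (hr0 : ∀ n, 0 < n → 0 < r' n)
    (hf : ∀ n, 1 ≤ n → (f n : ℝ) = |(dn A n : ℝ)| * c ^ n * r' n)
    (hG : ∀ l, l.Prime → f l ≡ f 1 [MOD l]) (hne : ∃ n, 1 ≤ n ∧ f n ≠ 0) :
    RR (fun n => (f n : ℂ)) := by
  obtain ⟨cq, hcq0, hcq⟩ := c_rational A hc hr hr0 hf hG hne
  have habs : ∀ n, |(dn A n : ℝ)| = ((|dn A n| : ℤ) : ℝ) := by intro n; push_cast; rfl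
  have key : ∀ g : ℕ, ∃ q : ℚ, ∀ n, 1 ≤ n → Nat.gcd n N = g →
      (f n : ℝ) = |(dn A n : ℝ)| * c ^ n * (q : ℝ) := by
    intro g
    by_cases hex : ∃ n0, 1 ≤ n0 ∧ Nat.gcd n0 N = g ∧ f n0 ≠ 0
    · obtain ⟨n0, hn0, hg0, hfn0⟩ := hex
      refine ⟨(f n0 : ℚ) / (((|dn A n0| : ℤ) : ℚ) * cq ^ n0), ?_⟩
      intro n hn hgn
      have h1 : r' n = r' n0 := by rw [hr.2 n hn, hr.2 n0 hn0, hgn, hg0]
      have h2 := hf n0 hn0
      have h3 : |(dn A n0 : ℝ)| ≠ 0 := by
        intro h0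
        rw [h0] at h2
        simp at h2
        exact hfn0 h2
      have h4 : c ^ n0 ≠ 0 := pow_ne_zero _ hc.ne'
      have h5 : r' n0 = (f n0 : ℝ) / (|(dn A n0 : ℝ)| * c ^ n0) := by
        rw [h2]; field_simp
      rw [hf n hn, h1, h5, hcq]
      push_cast
      rfl
    · push Not at hex
      refine ⟨1, fun n hn hgn => ?_⟩
      have h1 := hf n hn
      have h2 : (f n : ℝ) = 0 := by exact_mod_cast hex n hn hgn
      rw [h2] at h1
      have h3 : |(dn A n : ℝ)| = 0 := by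
        have h4 : c ^ n ≠ 0 := pow_ne_zero _ hc.ne'
        have h5 : r' n ≠ 0 := (hr0 n hn).ne'
        rcases mul_eq_zero.1 h1.symm with h | h
        · rcases mul_eq_zero.1 h with h | h
          · exact h
          · exact absurd h h4
        · exact absurd h h5
      rw [h2, h3]; simp
  choose q hq using key
  obtain ⟨ε, δ, hε, hδ, hs⟩ := sign_exists A
  have h1 := RR.GS hr.1 ((δ : ℂ) * (c : ℂ)) (fun g => (ε : ℚ) * q g)
    (GS_prod (AC A).charpoly.roots)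
  refine h1.congr (fun n hn => ?_)
  have h2 := hq _ n hn rfl
  have h3 : (dn A n : ℂ) = ((AC A).charpoly.roots.map (fun α => α ^ n - 1)).prod := by
    rw [← det_eq_prod _ n hn, dn_cast]
  have h4 : (f n : ℂ) = ((|dn A n| : ℤ) : ℂ) * (c : ℂ) ^ n * (q (Nat.gcd n N) : ℂ) := by
    rw [habs] at h2
    have h5 := congrArg (fun x : ℝ => (x : ℂ)) h2
    simp only [Complex.ofReal_mul, Complex.ofReal_pow, Complex.ofReal_intCast,
      Complex.ofReal_natCast, Complex.ofReal_ratCast] at h5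
    exact h5
  rw [h4, hs n hn, ← h3]
  push_cast
  rw [mul_pow]
  ring

end Pool.Agent.H66.FD
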