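import Mathlib

/-!
Periodic solutions and boundedness for `x_{n+1} = 1/(B_n x_n + x_{n-l})`.
Index convention: `x n` stands for `x_{n-l}`.
-/

namespace Pool.Agent.H66.PB

open Filter Topology

/-- positive solutions (`x n` stands for `x_{n-l}`) -/
def Sol (B : ℕ → ℝ) (l : ℕ) (x : ℕ → ℝ) : Prop :=
  (∀ i ≤ l, 0 < x i) ∧ ∀ n, x (n + l + 1) = 1 / (B n * x (n + l) + x n)

/-- bounded above -/
def Bdd (x : ℕ → ℝ) : Prop := ∃ M, ∀ n, x n ≤ M

/-- positive `k`-periodic solutions -/
def PerSol (k : ℕ) (B : ℕ → ℝ) (l : ℕ) (p : ℕ → ℝ) : Prop :=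
  (∀ n, 0 < p n) ∧ (∀ n, p (n + k) = p n) ∧ ∀ n, p (n + l + 1) * (B n * p (n + l) + p n) = 1

lemma Sol.pos {B : ℕ → ℝ} (hB : ∀ n, 0 ≤ B n) {l : ℕ} {x : ℕ → ℝ} (h : Sol B l x) :
    ∀ n, 0 < x n := by
  intro n
  induction n using Nat.strong_induction_on with
  | _ n ih =>
    by_cases hn : n ≤ l
    · exact h.1 n hn
    · obtain ⟨m, rfl⟩ : ∃ m, n = m + l + 1 := ⟨n - l - 1, by omega⟩
      rw [h.2 m]
      have h1 := ih (m + l) (by omega)
      have h2 := ih m (by omega)
      have := hB m
      positivity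

noncomputable def mk (B : ℕ → ℝ) (l : ℕ) (n : ℕ) : ℝ :=
  if h : n ≤ l then 1 else 1 / (B (n - l - 1) * mk B l (n - 1) + mk B l (n - l - 1))
termination_by n
decreasing_by all_goals omega

lemma mk_sol (B : ℕ → ℝ) (l : ℕ) : Sol B l (mk B l) := by
  constructor
  · intro i hi
    rw [mk, dif_pos hi]; norm_num
  · intro n
    rw [mk, dif_neg (by omega)]
    have e1 : n + l + 1 - l - 1 = n := by omega
    have e2 : n + l + 1 - 1 = n + l := by omega
    rw [e1, e2]

lemma per_mod {k : ℕ} {p : ℕ → ℝ} (hp : ∀ n, p (n + k) = p n) (n : ℕ) : p (n % k) = p n := by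
  have key : ∀ t m, p (m + k * t) = p m := by
    intro t
    induction t with
    | zero => intro m; simp
    | succ t ih => intro m; rw [show m + k * (t + 1) = (m + k * t) + k by ring, hp, ih]
  conv_rhs => rw [← Nat.mod_add_div n k]
  rw [key]

lemma per_congr {k : ℕ} {p : ℕ → ℝ} (hp : ∀ n, p (n + k) = p n) {a b : ℕ}
    (h : a ≡ b [MOD k]) : p a = p b := by
  rw [← per_mod hp a, ← per_mod hp b, h]

/-- a periodic solution bounds all solutions -/
theorem bdd_of_per {k : ℕ} (hk : 0 < k) {B : ℕ → ℝ} (hB : ∀ n, 0 ≤ B n) {l : ℕ} {p x : ℕ → ℝ}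
    (hp : PerSol k B l p) (hx : Sol B l x) : Bdd x := by
  obtain ⟨hp0, hpk, hpe⟩ := hp
  have hxp := hx.pos hB
  -- choose C
  set C : ℝ := 1 + ∑ i ∈ Finset.range (l + 1), (x i / p i + p i / x i) with hC
  have hnn : ∀ i, 0 ≤ x i / p i + p i / x i := fun i => by
    have := hp0 i; have := hxp i; positivity
  have hle : ∀ i ≤ l, x i / p i + p i / x i ≤ C := by
    intro i hi
    have := Finset.single_le_sum (f := fun i => x i / p i + p i / x i) (fun j _ => hnn j)
      (Finset.mem_range.mpr (Nat.lt_succ_of_le hi))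
    linarith
  have hC1 : 0 < C := by
    have : 0 ≤ ∑ i ∈ Finset.range (l + 1), (x i / p i + p i / x i) :=
      Finset.sum_nonneg (fun j _ => hnn j)
    linarith
  have key : ∀ n, x n ≤ C * p n ∧ p n ≤ C * x n := by
    intro n
    induction n using Nat.strong_induction_on with
    | _ n ih =>
      by_cases hn : n ≤ l
      · have h1 := hle n hn
        have hpn := hp0 n
        have hxn := hxp n
        have h2 : 0 ≤ p n / x n := by positivity
        have h3 : 0 ≤ x n / p n := by positivity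
        constructor
        · have : x n / p n ≤ C := by linarith
          rwa [div_le_iff₀ hpn] at this
        · have : p n / x n ≤ C := by linarith
          rwa [div_le_iff₀ hxn] at this
      · obtain ⟨m, rfl⟩ : ∃ m, n = m + l + 1 := ⟨n - l - 1, by omega⟩
        have h1 := ih (m + l) (by omega)
        have h2 := ih m (by omega)
        have hBm := hB m
        have e1 : x (m + l + 1) = 1 / (B m * x (m + l) + x m) := hx.2 m
        have a1 := hxp m
        have a2 := hxp (m + l)
        have a3 := hp0 m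
        have a4 := hp0 (m + l)
        have D1 : 0 < B m * x (m + l) + x m := by positivity
        have D2 : 0 < B m * p (m + l) + p m := by positivity
        have e2 : p (m + l + 1) = 1 / (B m * p (m + l) + p m) := by
          rw [eq_div_iff D2.ne']; exact hpe m
        rw [e1, e2]
        constructor
        · rw [mul_one_div, div_le_div_iff₀ D1 D2]
          nlinarith [mul_le_mul_of_nonneg_left h1.2 hBm, h2.2]
        · rw [mul_one_div, div_le_div_iff₀ D2 D1]
          nlinarith [mul_le_mul_of_nonneg_left h1.1 hBm, h2.1]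
  refine ⟨C * ∑ i ∈ Finset.range k, p i, fun n => ?_⟩
  refine (key n).1.trans (mul_le_mul_of_nonneg_left ?_ hC1.le)
  rw [← per_mod hpk n]
  exact Finset.single_le_sum (f := fun i => p i) (fun j _ => (hp0 j).le)
    (Finset.mem_range.mpr (Nat.mod_lt n hk))

lemma log_lip {b s t s' t' c : ℝ} (hb : 0 ≤ b) (h1 : |s - s'| ≤ c) (h2 : |t - t'| ≤ c) :
    |(-Real.log (b * Real.exp s + Real.exp t)) - (-Real.log (b * Real.exp s' + Real.exp t'))|
      ≤ c := by
  have key : ∀ s t s' t' : ℝ, |s - s'| ≤ c → |t - t'| ≤ c →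
      Real.log (b * Real.exp s + Real.exp t) ≤ c + Real.log (b * Real.exp s' + Real.exp t') := by
    intro s t s' t' h1 h2
    have p1 : 0 < b * Real.exp s + Real.exp t := by positivity
    have p2 : 0 < b * Real.exp s' + Real.exp t' := by positivity
    have q1 : Real.exp s ≤ Real.exp c * Real.exp s' := by
      rw [← Real.exp_add]; apply Real.exp_le_exp.mpr
      have := (abs_le.mp h1).2; linarith
    have q2 : Real.exp t ≤ Real.exp c * Real.exp t' := by
      rw [← Real.exp_add]; apply Real.exp_le_exp.mpr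
      have := (abs_le.mp h2).2; linarith
    have : b * Real.exp s + Real.exp t ≤ Real.exp c * (b * Real.exp s' + Real.exp t') := by
      nlinarith [mul_le_mul_of_nonneg_left q1 hb]
    have h3 := Real.log_le_log p1 this
    rwa [Real.log_mul (Real.exp_pos _).ne' p2.ne', Real.log_exp] at h3
  have a := key s t s' t' h1 h2
  have b' := key s' t' s t (by rwa [abs_sub_comm]) (by rwa [abs_sub_comm])
  rw [abs_le]
  constructor <;> linarith

/-- periodic extension -/
def ext {k : ℕ} (hk : 0 < k) (z : Fin k → ℝ) (n : ℕ) : ℝ := z ⟨n % k, Nat.mod_lt n hk⟩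

lemma ext_congr {k : ℕ} (hk : 0 < k) (z : Fin k → ℝ) {a b : ℕ} (h : a % k = b % k) :
    ext hk z a = ext hk z b := by
  unfold ext
  simp only [h]

noncomputable def S {k : ℕ} (hk : 0 < k) (B : ℕ → ℝ) (l : ℕ) (z : Fin k → ℝ) : Fin k → ℝ :=
  fun j => -Real.log (B (j + (l + 1) * (k - 1)) * Real.exp (ext hk z (j + (l + 1) * (k - 1) + l))
    + Real.exp (ext hk z (j + (l + 1) * (k - 1))))

lemma ext_S {k : ℕ} (hk : 0 < k) {B : ℕ → ℝ} (hper : ∀ n, B (n + k) = B n) (l : ℕ)
    (z : Fin k → ℝ) (n : ℕ) :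
    ext hk (S hk B l z) (n + l + 1)
      = -Real.log (B n * Real.exp (ext hk z (n + l)) + Real.exp (ext hk z n)) := by
  have hc : (n + l + 1) % k + (l + 1) * (k - 1) ≡ n [MOD k] := by
    have h1 : (n + l + 1) % k + (l + 1) * (k - 1) ≡ (n + l + 1) + (l + 1) * (k - 1) [MOD k] :=
      (Nat.mod_modEq _ _).add_right _
    have h2 : (n + l + 1) + (l + 1) * (k - 1) = n + k * (l + 1) := by
      obtain ⟨j, rfl⟩ : ∃ j, k = j + 1 := ⟨k - 1, by omega⟩
      simp only [Nat.add_sub_cancel]
      ring
    rw [h2] at h1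
    have h3 : n + k * (l + 1) ≡ n [MOD k] := by
      unfold Nat.ModEq; rw [Nat.add_mul_mod_self_left]
    exact h1.trans h3
  have e0 : ext hk (S hk B l z) (n + l + 1)
      = -Real.log (B ((n + l + 1) % k + (l + 1) * (k - 1)) *
          Real.exp (ext hk z ((n + l + 1) % k + (l + 1) * (k - 1) + l))
        + Real.exp (ext hk z ((n + l + 1) % k + (l + 1) * (k - 1)))) := rfl
  rw [e0, per_congr hper hc, ext_congr hk z (hc.add_right l), ext_congr hk z hc]

lemma ext_le_norm {k : ℕ} (hk : 0 < k) (z w : Fin k → ℝ) (n : ℕ) :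
    |ext hk z n - ext hk w n| ≤ ‖z - w‖ := by
  have := norm_le_pi_norm (z - w) ⟨n % k, Nat.mod_lt n hk⟩
  simpa [ext, Real.norm_eq_abs] using this

lemma S_lip {k : ℕ} (hk : 0 < k) {B : ℕ → ℝ} (hB : ∀ n, 0 ≤ B n) (l : ℕ) (z w : Fin k → ℝ) :
    ‖S hk B l z - S hk B l w‖ ≤ ‖z - w‖ := by
  rw [pi_norm_le_iff_of_nonneg (norm_nonneg _)]
  intro j
  rw [Pi.sub_apply, Real.norm_eq_abs]
  exact log_lip (hB _) (ext_le_norm hk z w _) (ext_le_norm hk z w _)

/-- asymptotic distance to `y` at most `c` -/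
def P {k : ℕ} (hk : 0 < k) (y : ℕ → ℝ) (z : Fin k → ℝ) (c : ℝ) : Prop :=
  ∀ ε > 0, ∃ N, ∀ n ≥ N, |ext hk z n - y n| ≤ c + ε

theorem fixed {k : ℕ} (hk : 0 < k) {B : ℕ → ℝ} (hB : ∀ n, 0 ≤ B n)
    (hper : ∀ n, B (n + k) = B n) (l : ℕ) {y : ℕ → ℝ} {R : ℝ} (hR : ∀ n, |y n| ≤ R)
    (hy : ∀ n, y (n + l + 1) = -Real.log (B n * Real.exp (y (n + l)) + Real.exp (y n))) :
    ∃ z : Fin k → ℝ, S hk B l z = z := by
  have hR0 : 0 ≤ R := (abs_nonneg _).trans (hR 0)
  have hPS : ∀ z c, P hk y z c → P hk y (S hk B l z) c := by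
    intro z c h ε hε
    obtain ⟨N, hN⟩ := h ε hε
    refine ⟨N + l + 1, fun n hn => ?_⟩
    obtain ⟨m, rfl⟩ : ∃ m, n = m + l + 1 := ⟨n - l - 1, by omega⟩
    rw [ext_S hk hper, hy]
    exact log_lip (hB _) (hN _ (by omega)) (hN _ (by omega))
  -- contraction
  have hcon : ∀ lam : ℝ, 0 ≤ lam → lam < 1 → ∃ z : Fin k → ℝ, z = lam • S hk B l z ∧
      ‖z‖ ≤ 2 * R + 1 := by
    intro lam h0 h1
    have hC : ContractingWith ⟨lam, h0⟩ (fun z : Fin k → ℝ => lam • S hk B l z) := by
      refine ⟨by exact_mod_cast h1, LipschitzWith.of_dist_le_mul fun z w => ?_⟩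
      rw [dist_eq_norm, dist_eq_norm, ← smul_sub, norm_smul, Real.norm_eq_abs, abs_of_nonneg h0]
      exact mul_le_mul_of_nonneg_left (S_lip hk hB l z w) h0
    set z := ContractingWith.fixedPoint _ hC with hz
    have hfix : lam • S hk B l z = z := ContractingWith.fixedPoint_isFixedPt hC
    refine ⟨z, hfix.symm, ?_⟩
    have hstep : ∀ c, P hk y z c → P hk y z (lam * c + (1 - lam) * R) := by
      intro c hc ε hε
      obtain ⟨N, hN⟩ := hPS z c hc ε hε
      refine ⟨N, fun n hn => ?_⟩
      have e1 : ext hk z n = lam * ext hk (S hk B l z) n := by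
        conv_lhs => rw [← hfix]
        simp [ext]
      have h2 := hN n hn
      have h3 := hR n
      have e2 : ext hk z n - y n = lam * (ext hk (S hk B l z) n - y n) + (1 - lam) * (- y n) := by
        rw [e1]; ring
      rw [e2]
      calc |lam * (ext hk (S hk B l z) n - y n) + (1 - lam) * (- y n)|
          ≤ |lam * (ext hk (S hk B l z) n - y n)| + |(1 - lam) * (- y n)| := abs_add_le _ _
        _ = lam * |ext hk (S hk B l z) n - y n| + (1 - lam) * |y n| := by
            rw [abs_mul, abs_mul, abs_of_nonneg h0, abs_of_nonneg (by linarith : 0 ≤ 1 - lam),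
              abs_neg]
        _ ≤ lam * (c + ε) + (1 - lam) * R := by
            apply add_le_add
            · exact mul_le_mul_of_nonneg_left h2 h0
            · exact mul_le_mul_of_nonneg_left h3 (by linarith)
        _ ≤ lam * c + (1 - lam) * R + ε := by nlinarith
    have hiter : ∀ j : ℕ, P hk y z (R + lam ^ j * ‖z‖) := by
      intro j
      induction j with
      | zero =>
        intro ε hε
        refine ⟨0, fun n _ => ?_⟩
        have h1 : |ext hk z n| ≤ ‖z‖ := by
          have := norm_le_pi_norm z ⟨n % k, Nat.mod_lt n hk⟩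
          simpa [ext, Real.norm_eq_abs] using this
        have := abs_sub (ext hk z n) (y n)
        have := hR n
        simp only [pow_zero, one_mul]
        linarith
      | succ j ih =>
        have := hstep _ ih
        have e : lam * (R + lam ^ j * ‖z‖) + (1 - lam) * R = R + lam ^ (j + 1) * ‖z‖ := by ring
        rwa [e] at this
    -- conclude
    have hlim : Tendsto (fun j : ℕ => lam ^ j * ‖z‖) atTop (𝓝 (0 * ‖z‖)) :=
      (tendsto_pow_atTop_nhds_zero_of_lt_one h0 h1).mul_const _
    rw [zero_mul] at hlim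
    obtain ⟨j, hj⟩ := (hlim.eventually (gt_mem_nhds (show (0:ℝ) < 1 / 2 by norm_num))).exists
    obtain ⟨N, hN⟩ := hiter j (1 / 2) (by norm_num)
    rw [pi_norm_le_iff_of_nonneg (by linarith)]
    intro i
    have h2 := hN (i + k * N) (by nlinarith [Nat.zero_le (i : ℕ)])
    have e : ext hk z (i + k * N) = z i := by
      unfold ext
      congr 1
      apply Fin.ext
      simp [Nat.add_mul_mod_self_left, Nat.mod_eq_of_lt i.isLt]
    rw [e] at h2
    have h3 := hR (i + k * N)
    rw [Real.norm_eq_abs]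
    have : |z i| ≤ |z i - y (i + k * N)| + |y (i + k * N)| := by
      have := abs_add_le (z i - y (i + k * N)) (y (i + k * N))
      simpa using this
    linarith
  -- sequence
  have hlam : ∀ j : ℕ, (0 : ℝ) ≤ 1 - 1 / ((j : ℝ) + 1) ∧ 1 - 1 / ((j : ℝ) + 1) < 1 := by
    intro j
    have hj : (0 : ℝ) < (j : ℝ) + 1 := by positivity
    constructor
    · have : 1 / ((j : ℝ) + 1) ≤ 1 := by
        rw [div_le_one hj]; have : (0 : ℝ) ≤ j := Nat.cast_nonneg j; linarith
      linarith
    · have : 0 < 1 / ((j : ℝ) + 1) := by positivity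
      linarith
  choose z hz using fun j : ℕ => hcon (1 - 1 / ((j : ℝ) + 1)) (hlam j).1 (hlam j).2
  have hcomp : IsCompact (Metric.closedBall (0 : Fin k → ℝ) (2 * R + 1)) := isCompact_closedBall _ _
  have hmem : ∀ j, z j ∈ Metric.closedBall (0 : Fin k → ℝ) (2 * R + 1) := by
    intro j
    rw [mem_closedBall_zero_iff]
    exact (hz j).2
  obtain ⟨w, _, φ, hφ, hlim⟩ := hcomp.tendsto_subseq hmem
  refine ⟨w, ?_⟩
  have hScont : Continuous (S hk B l) := by
    have : LipschitzWith 1 (S hk B l) := LipschitzWith.of_dist_le_mul fun a b => by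
      rw [dist_eq_norm, dist_eq_norm]
      simpa using S_lip hk hB l a b
    exact this.continuous
  have hl1 : Tendsto (fun j : ℕ => (1 : ℝ) - 1 / ((j : ℝ) + 1)) atTop (𝓝 (1 - 0)) :=
    tendsto_const_nhds.sub tendsto_one_div_add_atTop_nhds_zero_nat
  have h2 : Tendsto (fun j => ((1 : ℝ) - 1 / ((φ j : ℝ) + 1)) • S hk B l (z (φ j))) atTop
      (𝓝 ((1 - 0 : ℝ) • S hk B l w)) := by
    apply Tendsto.smul
    · exact hl1.comp hφ.tendsto_atTop
    · exact (hScont.tendsto w).comp hlim
  have h3 : (fun j => ((1 : ℝ) - 1 / ((φ j : ℝ) + 1)) • S hk B l (z (φ j))) = z ∘ φ := by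
    funext j
    exact ((hz (φ j)).1).symm
  rw [h3] at h2
  have := tendsto_nhds_unique h2 hlim
  simpa using this

/-- a bounded solution yields a periodic solution -/
theorem per_of_bdd {k : ℕ} (hk : 0 < k) {B : ℕ → ℝ} (hB : ∀ n, 0 ≤ B n)
    (hper : ∀ n, B (n + k) = B n) {l : ℕ} {x : ℕ → ℝ} (hx : Sol B l x) (hb : Bdd x) :
    ∃ p, PerSol k B l p := by
  obtain ⟨M, hM⟩ := hb
  have hxp := hx.pos hB
  have hM0 : 0 < M := (hxp 0).trans_le (hM 0)
  -- bound on B
  set D := ∑ i ∈ Finset.range k, B i with hD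
  have hD0 : 0 ≤ D := Finset.sum_nonneg (fun i _ => hB i)
  have hBD : ∀ n, B n ≤ D := by
    intro n
    rw [← per_mod hper n]
    exact Finset.single_le_sum (f := fun i => B i) (fun j _ => hB j)
      (Finset.mem_range.mpr (Nat.mod_lt n hk))
  -- lower bound
  set C : ℝ := ∑ i ∈ Finset.range (l + 1), 1 / x i with hC
  have hC0 : 0 ≤ C := Finset.sum_nonneg (fun i _ => by have := hxp i; positivity)
  set L : ℝ := C + (D * M + M) with hL
  have hinv : ∀ n, 1 / x n ≤ L := by
    intro n
    by_cases hn : n ≤ l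
    · have := Finset.single_le_sum (f := fun i => 1 / x i)
        (fun j _ => by have := hxp j; positivity) (Finset.mem_range.mpr (Nat.lt_succ_of_le hn))
      have h2 : 0 ≤ D * M + M := by positivity
      linarith
    · obtain ⟨m, rfl⟩ : ∃ m, n = m + l + 1 := ⟨n - l - 1, by omega⟩
      rw [hx.2 m, one_div_one_div]
      have h1 : B m * x (m + l) ≤ D * M :=
        mul_le_mul (hBD m) (hM _) (hxp _).le hD0
      have h2 := hM m
      linarith
  have hL0 : 0 < L := lt_of_lt_of_le (by have := hxp 0; positivity) (hinv 0)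
  set R := max |Real.log M| |Real.log L| with hR
  have hy : ∀ n, |Real.log (x n)| ≤ R := by
    intro n
    rw [abs_le]
    constructor
    · have h1 : Real.log (1 / x n) ≤ Real.log L :=
        Real.log_le_log (by have := hxp n; positivity) (hinv n)
      rw [one_div, Real.log_inv] at h1
      have h2 := le_abs_self (Real.log L)
      have h3 := le_max_right |Real.log M| |Real.log L|
      linarith
    · have h1 : Real.log (x n) ≤ Real.log M := Real.log_le_log (hxp n) (hM n)
      have h2 := le_abs_self (Real.log M)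
      have h3 := le_max_left |Real.log M| |Real.log L|
      linarith
  obtain ⟨z, hz⟩ := fixed hk hB hper l (y := fun n => Real.log (x n)) hy (by
    intro n
    rw [hx.2 n, Real.exp_log (hxp _), Real.exp_log (hxp _), one_div, Real.log_inv])
  refine ⟨fun n => Real.exp (ext hk z n), fun n => Real.exp_pos _, fun n => ?_, fun n => ?_⟩
  · simp only
    rw [ext_congr hk z (Nat.add_mod_right n k)]
  · simp only
    have h1 : ext hk z (n + l + 1)
        = -Real.log (B n * Real.exp (ext hk z (n + l)) + Real.exp (ext hk z n)) := by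
      conv_lhs => rw [← hz]
      exact ext_S hk hper l z n
    have hp : 0 < B n * Real.exp (ext hk z (n + l)) + Real.exp (ext hk z n) := by
      have := hB n
      positivity
    rw [h1, Real.exp_neg, Real.exp_log hp, inv_mul_cancel₀ hp.ne']

end Pool.Agent.H66.PB
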