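import Pool.Agent.H66.PB1

/-!
Existence of positive periodic solutions in the cases `l = -1, 0, -2` modulo `k`.
-/

namespace Pool.Agent.H66.PB

open Filter Topology

/-- all positive solutions are bounded -/
def AllBdd (B : ℕ → ℝ) (l : ℕ) : Prop := ∀ x, Sol B l x → Bdd x

theorem allBdd_iff {k : ℕ} (hk : 0 < k) {B : ℕ → ℝ} (hB : ∀ n, 0 ≤ B n)
    (hper : ∀ n, B (n + k) = B n) (l : ℕ) : AllBdd B l ↔ ∃ p, PerSol k B l p := by
  constructor
  · intro h
    exact per_of_bdd hk hB hper (mk_sol B l) (h _ (mk_sol B l))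
  · rintro ⟨p, hp⟩ x hx
    exact bdd_of_per hk hB hp hx

theorem exBdd_iff {k : ℕ} (hk : 0 < k) {B : ℕ → ℝ} (hB : ∀ n, 0 ≤ B n)
    (hper : ∀ n, B (n + k) = B n) (l : ℕ) : (∃ x, Sol B l x ∧ Bdd x) ↔ ∃ p, PerSol k B l p := by
  constructor
  · rintro ⟨x, hx, hb⟩
    exact per_of_bdd hk hB hper hx hb
  · rintro ⟨p, hp⟩
    exact ⟨_, mk_sol B l, bdd_of_per hk hB hp (mk_sol B l)⟩

lemma perSol_congr {k : ℕ} {B : ℕ → ℝ} {l l' : ℕ} (h : l ≡ l' [MOD k]) {p : ℕ → ℝ}
    (hp : PerSol k B l p) : PerSol k B l' p := by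
  obtain ⟨h0, h1, h2⟩ := hp
  refine ⟨h0, h1, fun n => ?_⟩
  have e1 : p (n + l' + 1) = p (n + l + 1) :=
    per_congr h1 (((Nat.ModEq.refl n).add h.symm).add_right 1)
  have e2 : p (n + l') = p (n + l) := per_congr h1 ((Nat.ModEq.refl n).add h.symm)
  rw [e1, e2]
  exact h2 n

theorem allBdd_congr {k : ℕ} (hk : 0 < k) {B : ℕ → ℝ} (hB : ∀ n, 0 ≤ B n)
    (hper : ∀ n, B (n + k) = B n) {l l' : ℕ} (h : l ≡ l' [MOD k]) : AllBdd B l ↔ AllBdd B l' := by
  rw [allBdd_iff hk hB hper, allBdd_iff hk hB hper]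
  exact ⟨fun ⟨p, hp⟩ => ⟨p, perSol_congr h hp⟩, fun ⟨p, hp⟩ => ⟨p, perSol_congr h.symm hp⟩⟩

/-! ### adjacent products -/

noncomputable def v (a : ℕ → ℝ) (u : ℝ) : ℕ → ℝ
  | 0 => u
  | n + 1 => a n / v a u n

lemma v_pos {a : ℕ → ℝ} (ha : ∀ n, 0 < a n) {u : ℝ} (hu : 0 < u) : ∀ n, 0 < v a u n := by
  intro n
  induction n with
  | zero => exact hu
  | succ n ih => exact div_pos (ha n) ih

lemma v_mul {a : ℕ → ℝ} (ha : ∀ n, 0 < a n) {u : ℝ} (hu : 0 < u) (n : ℕ) :
    v a u n * v a u (n + 1) = a n := by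
  have := v_pos ha hu n
  change v a u n * (a n / v a u n) = a n
  field_simp

lemma prod_even {a p : ℕ → ℝ} (h : ∀ n, p n * p (n + 1) = a n) (j : ℕ) :
    p (2 * j) * ∏ i ∈ Finset.range j, a (2 * i) = p 0 * ∏ i ∈ Finset.range j, a (2 * i + 1) := by
  induction j with
  | zero => simp
  | succ j ih =>
    rw [Finset.prod_range_succ, Finset.prod_range_succ]
    have e1 := h (2 * j)
    have e2 := h (2 * j + 1)
    rw [show 2 * (j + 1) = 2 * j + 1 + 1 by ring]
    calc p (2 * j + 1 + 1) * ((∏ i ∈ Finset.range j, a (2 * i)) * a (2 * j))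
        = (p (2 * j) * ∏ i ∈ Finset.range j, a (2 * i)) * (p (2 * j + 1) * p (2 * j + 1 + 1)) := by
          rw [← e1]; ring
      _ = p 0 * ((∏ i ∈ Finset.range j, a (2 * i + 1)) * a (2 * j + 1)) := by
          rw [ih, e2]; ring

theorem adj {k : ℕ} {a : ℕ → ℝ} (ha : ∀ n, 0 < a n) (hper : ∀ n, a (n + k) = a n) :
    (∃ p : ℕ → ℝ, (∀ n, 0 < p n) ∧ (∀ n, p (n + k) = p n) ∧ ∀ n, p n * p (n + 1) = a n) ↔
    (Odd k ∨ ∏ i ∈ Finset.range (k / 2), a (2 * i) = ∏ i ∈ Finset.range (k / 2), a (2 * i + 1)) := by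
  have hperiodic : ∀ u, 0 < u → v a u k = u → ∀ n, v a u (n + k) = v a u n := by
    intro u hu h n
    induction n with
    | zero => rw [zero_add]; exact h
    | succ n ih =>
      rw [show n + 1 + k = (n + k) + 1 by ring]
      change a (n + k) / v a u (n + k) = a n / v a u n
      rw [ih, hper]
  constructor
  · rintro ⟨p, hp0, hp1, hp2⟩
    rcases Nat.even_or_odd k with he | ho
    · right
      obtain ⟨m, hm⟩ := he
      have hm2 : k / 2 = m := by omega
      have h := prod_even hp2 m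
      rw [hm2]
      have e : p (2 * m) = p 0 := by
        have := hp1 0
        rw [zero_add, hm, ← two_mul] at this
        exact this
      rw [e] at h
      exact mul_left_cancel₀ (hp0 0).ne' h
    · exact Or.inl ho
  · intro h
    rcases Nat.even_or_odd k with he | ho
    · have hne : ¬ Odd k := Nat.not_odd_iff_even.mpr he
      have heq := h.resolve_left hne
      obtain ⟨m, hm⟩ := he
      have hm2 : k / 2 = m := by omega
      rw [hm2] at heq
      have h1 := prod_even (v_mul ha one_pos) m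
      rw [heq] at h1
      have hpp : 0 < ∏ i ∈ Finset.range m, a (2 * i + 1) := Finset.prod_pos (fun i _ => ha _)
      have h2 := mul_right_cancel₀ hpp.ne' h1
      have h3 : v a 1 k = 1 := by rw [hm, ← two_mul]; exact h2
      exact ⟨v a 1, v_pos ha one_pos, hperiodic 1 one_pos h3, v_mul ha one_pos⟩
    · obtain ⟨m, hm⟩ := ho
      set P := ∏ i ∈ Finset.range m, a (2 * i) with hP
      set Q := ∏ i ∈ Finset.range m, a (2 * i + 1) with hQ
      have hP0 : 0 < P := Finset.prod_pos (fun i _ => ha _)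
      have hQ0 : 0 < Q := Finset.prod_pos (fun i _ => ha _)
      set u := Real.sqrt (a (2 * m) * P / Q) with hu
      have ham := ha (2 * m)
      have hu0 : 0 < u := Real.sqrt_pos.mpr (by positivity)
      have husq : u * u = a (2 * m) * P / Q := Real.mul_self_sqrt (by positivity)
      have h1 := prod_even (v_mul ha hu0) m
      have h0 : v a u 0 = u := rfl
      rw [h0] at h1
      have hv : 0 < v a u (2 * m) := v_pos ha hu0 _
      have h3 : v a u k = u := by
        rw [hm]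
        change a (2 * m) / v a u (2 * m) = u
        rw [div_eq_iff hv.ne']
        have h4 : u * v a u (2 * m) * P = a (2 * m) * P := by
          calc u * v a u (2 * m) * P = u * (v a u (2 * m) * P) := by ring
            _ = u * (u * Q) := by rw [h1]
            _ = (u * u) * Q := by ring
            _ = a (2 * m) * P := by rw [husq]; field_simp
        exact (mul_right_cancel₀ hP0.ne' h4).symm
      exact ⟨v a u, v_pos ha hu0, hperiodic u hu0 h3, v_mul ha hu0⟩

/-! ### `k ∣ l` -/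

theorem per_zero {k : ℕ} (hk : 0 < k) {B : ℕ → ℝ} (hB : ∀ n, 0 ≤ B n)
    (hper : ∀ n, B (n + k) = B n) {l : ℕ} (hl : k ∣ l) :
    (∃ p, PerSol k B l p) ↔ (Odd k ∨ ∏ i ∈ Finset.range (k / 2), (1 + B (2 * i))
      = ∏ i ∈ Finset.range (k / 2), (1 + B (2 * i + 1))) := by
  have hpos : ∀ n, 0 < 1 + B n := fun n => by have := hB n; linarith
  have h := adj (k := k) (a := fun n => (1 + B n)⁻¹) (fun n => inv_pos.mpr (hpos n))
    (fun n => by simp only [hper])
  have e1 : (∏ i ∈ Finset.range (k / 2), (1 + B (2 * i))⁻¹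
      = ∏ i ∈ Finset.range (k / 2), (1 + B (2 * i + 1))⁻¹) ↔
      (∏ i ∈ Finset.range (k / 2), (1 + B (2 * i))
      = ∏ i ∈ Finset.range (k / 2), (1 + B (2 * i + 1))) := by
    rw [Finset.prod_inv_distrib, Finset.prod_inv_distrib, inv_inj]
  rw [e1] at h
  rw [← h]
  have hmod : l ≡ 0 [MOD k] := (Nat.modEq_zero_iff_dvd).mpr hl
  constructor
  · rintro ⟨p, hp⟩
    obtain ⟨h0, h1, h2⟩ := perSol_congr hmod hp
    refine ⟨p, h0, h1, fun n => ?_⟩
    have := h2 n
    simp only [Nat.add_zero] at this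
    apply eq_inv_of_mul_eq_one_left
    linarith
  · rintro ⟨p, h0, h1, h2⟩
    refine ⟨p, perSol_congr hmod.symm ⟨h0, h1, fun n => ?_⟩⟩
    simp only [Nat.add_zero]
    have := h2 n
    have e : p (n + 1) * (B n * p n + p n) = (p n * p (n + 1)) * (1 + B n) := by ring
    rw [e, this, inv_mul_cancel₀ (hpos n).ne']

/-! ### `k ∣ l + 1` -/

noncomputable def f (b u : ℝ) : ℝ := (-(b * u) + Real.sqrt ((b * u) ^ 2 + 4)) / 2

lemma f_eq (b u : ℝ) : f b u * (b * u + f b u) = 1 := by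
  have h := Real.sq_sqrt (show (0:ℝ) ≤ (b * u) ^ 2 + 4 by positivity)
  unfold f
  nlinarith

lemma f_pos (b u : ℝ) : 0 < f b u := by
  have h : |b * u| < Real.sqrt ((b * u) ^ 2 + 4) := by
    rw [← Real.sqrt_sq_eq_abs]
    exact Real.sqrt_lt_sqrt (by positivity) (by linarith)
  have h2 := le_abs_self (b * u)
  unfold f
  linarith

lemma f_le (b u : ℝ) (h : 0 ≤ b * u) : f b u ≤ 1 := by
  have h1 : Real.sqrt ((b * u) ^ 2 + 4) ≤ b * u + 2 := by
    rw [Real.sqrt_le_left (by linarith)]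
    nlinarith
  unfold f
  linarith

lemma f_cont (b : ℝ) : Continuous (f b) := by
  unfold f
  fun_prop

noncomputable def g (B : ℕ → ℝ) (u : ℝ) : ℕ → ℝ
  | 0 => u
  | n + 1 => f (B (n + 1)) (g B u n)

lemma g_cont (B : ℕ → ℝ) (n : ℕ) : Continuous (fun u => g B u n) := by
  induction n with
  | zero => exact continuous_id
  | succ n ih => exact (f_cont _).comp ih

lemma g_mem {B : ℕ → ℝ} (hB : ∀ n, 0 ≤ B n) {u : ℝ} (hu : u ∈ Set.Icc (0:ℝ) 1) (n : ℕ) :
    g B u n ∈ Set.Icc (0:ℝ) 1 := by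
  induction n with
  | zero => exact hu
  | succ n ih => exact ⟨(f_pos _ _).le, f_le _ _ (mul_nonneg (hB _) ih.1)⟩

theorem per_neg_one {k : ℕ} (hk : 0 < k) {B : ℕ → ℝ} (hB : ∀ n, 0 ≤ B n)
    (hper : ∀ n, B (n + k) = B n) {l : ℕ} (hl : k ∣ l + 1) : ∃ p, PerSol k B l p := by
  obtain ⟨u, hu, hfix⟩ := exists_mem_Icc_isFixedPt_of_mapsTo (f := fun u => g B u k)
    (a := (0:ℝ)) (b := 1) (g_cont B k).continuousOn (by norm_num) (fun u hu => g_mem hB hu k)
  have hfix' : g B u k = u := hfix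
  have hp : ∀ n, g B u (n + k) = g B u n := by
    intro n
    induction n with
    | zero => rw [zero_add]; exact hfix'
    | succ n ih =>
      rw [show n + 1 + k = (n + k) + 1 by ring]
      change f (B (n + k + 1)) (g B u (n + k)) = f (B (n + 1)) (g B u n)
      rw [ih, show n + k + 1 = n + 1 + k by ring, hper]
  have hpos : ∀ n, 0 < g B u n := by
    intro n
    rw [← hp n]
    obtain ⟨m, hm⟩ : ∃ m, n + k = m + 1 := ⟨n + k - 1, by omega⟩
    rw [hm]
    exact f_pos _ _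
  refine ⟨g B u, hpos, hp, fun n => ?_⟩
  obtain ⟨m, hm⟩ : ∃ m, n + k = m + 1 := ⟨n + k - 1, by omega⟩
  obtain ⟨t, ht⟩ := hl
  have c1 : n + l + 1 ≡ n + k [MOD k] := by
    rw [show n + l + 1 = n + k * t by omega]
    unfold Nat.ModEq
    rw [Nat.add_mul_mod_self_left, Nat.add_mod_right]
  have c2 : n + l ≡ m [MOD k] := by
    apply Nat.ModEq.add_right_cancel' 1
    rw [← hm]
    exact c1
  rw [per_congr hp c1, per_congr hp c2, ← hp n, ← hper n, hm]
  have := f_eq (B (m + 1)) (g B u m)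
  exact this

/-! ### `k ∣ l + 2` -/

theorem per_neg_two {k : ℕ} (hk : 0 < k) {B : ℕ → ℝ}
    (hper : ∀ n, B (n + k) = B n) {l : ℕ} (hl : k ∣ l + 2) :
    (∃ p, PerSol k B l p) ↔ ∃ q : ℕ → ℝ, (∀ n, 0 < q n) ∧ (∀ n, q (n + k) = q n) ∧
      (∀ n, q (n + 1) + B (n + 2) * q n = 1) ∧ (Odd k ∨ ∏ i ∈ Finset.range (k / 2), q (2 * i)
      = ∏ i ∈ Finset.range (k / 2), q (2 * i + 1)) := by
  obtain ⟨t, ht⟩ := hl
  constructor
  · rintro ⟨p, h0, h1, h2⟩
    have hq : ∀ n, 0 < p n * p (n + 1) := fun n => mul_pos (h0 _) (h0 _)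
    have hqk : ∀ n, p (n + k) * p (n + k + 1) = p n * p (n + 1) := by
      intro n
      rw [h1, show n + k + 1 = n + 1 + k by ring, h1]
    refine ⟨fun n => p n * p (n + 1), hq, hqk, fun n => ?_, ?_⟩
    · have h := h2 (n + 2)
      have c1 : n + 2 + l + 1 ≡ n + 1 [MOD k] := by
        rw [show n + 2 + l + 1 = n + 1 + k * t by omega]
        unfold Nat.ModEq; rw [Nat.add_mul_mod_self_left]
      have c2 : n + 2 + l ≡ n [MOD k] := by
        rw [show n + 2 + l = n + k * t by omega]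
        unfold Nat.ModEq; rw [Nat.add_mul_mod_self_left]
      rw [per_congr h1 c1, per_congr h1 c2] at h
      simp only
      rw [← h]; ring
    · exact (adj hq hqk).mp ⟨p, h0, h1, fun n => rfl⟩
  · rintro ⟨q, h0, h1, h2, h3⟩
    obtain ⟨p, p0, p1, p2⟩ := (adj h0 h1).mpr h3
    refine ⟨p, p0, p1, fun n => ?_⟩
    obtain ⟨m, hm⟩ : ∃ m, n + k * 2 = m + 2 := ⟨n + k * 2 - 2, by omega⟩
    have c0 : n ≡ m + 2 [MOD k] := by
      rw [← hm]
      unfold Nat.ModEq; rw [Nat.add_mul_mod_self_left]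
    have c2 : n + l ≡ m [MOD k] := by
      apply Nat.ModEq.add_right_cancel' 2
      refine Nat.ModEq.trans ?_ c0
      rw [show n + l + 2 = n + k * t by omega]
      unfold Nat.ModEq; rw [Nat.add_mul_mod_self_left]
    have c1 : n + l + 1 ≡ m + 1 [MOD k] := c2.add_right 1
    rw [per_congr p1 c1, per_congr p1 c2, per_congr p1 c0, per_congr hper c0]
    have e1 := p2 m
    have e2 := p2 (m + 1)
    have e3 := h2 m
    rw [← e1, ← e2] at e3
    rw [← e3]; ring

end Pool.Agent.H66.PB
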