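import Pool.Agent.H66.PB2

/-!
The case `k ∣ l + 2`, `k` odd: explicit formula.
-/

namespace Pool.Agent.H66.PB

/-- partial alternating sums -/
def W (B : ℕ → ℝ) (s m : ℕ) : ℝ :=
  ∑ j ∈ Finset.range s, (-1 : ℝ) ^ j * ∏ i ∈ Finset.range j, B (m + 1 - i)

lemma W_succ (B : ℕ → ℝ) (s m : ℕ) : W B (s + 1) (m + 1) = 1 - B (m + 2) * W B s m := by
  unfold W
  rw [Finset.sum_range_succ', Finset.mul_sum]
  have : ∀ j ∈ Finset.range s, (-1 : ℝ) ^ (j + 1) * ∏ i ∈ Finset.range (j + 1), B (m + 1 + 1 - i)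
      = - (B (m + 2) * ((-1 : ℝ) ^ j * ∏ i ∈ Finset.range j, B (m + 1 - i))) := by
    intro j _
    rw [Finset.prod_range_succ']
    have e : ∀ i ∈ Finset.range j, B (m + 1 + 1 - (i + 1)) = B (m + 1 - i) := by
      intro i _
      congr 1
      omega
    rw [Finset.prod_congr rfl e, Nat.sub_zero, pow_succ]
    ring
  rw [Finset.sum_congr rfl this, Finset.sum_neg_distrib]
  simp
  ring

/-- `∏_{i<s} B(m+1-i)` -/
def Pi' (B : ℕ → ℝ) (s m : ℕ) : ℝ := ∏ i ∈ Finset.range s, B (m + 1 - i)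

lemma Pi_succ (B : ℕ → ℝ) (s m : ℕ) : Pi' B (s + 1) (m + 1) = B (m + 2) * Pi' B s m := by
  unfold Pi'
  rw [Finset.prod_range_succ']
  have e : ∀ i ∈ Finset.range s, B (m + 1 + 1 - (i + 1)) = B (m + 1 - i) := by
    intro i _
    congr 1
    omega
  rw [Finset.prod_congr rfl e, Nat.sub_zero]
  ring

lemma lin_iter {B q : ℕ → ℝ} (h : ∀ n, q (n + 1) + B (n + 2) * q n = 1) (m s : ℕ) :
    q (m + s) = W B s (m + s) + (-1) ^ s * Pi' B s (m + s) * q m := by
  induction s with
  | zero => simp [W, Pi']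
  | succ s ih =>
    have h1 := h (m + s)
    rw [show m + (s + 1) = (m + s) + 1 by ring, W_succ, Pi_succ]
    have : q (m + s + 1) = 1 - B (m + s + 2) * q (m + s) := by linarith
    rw [this, ih]
    ring

lemma Pi_const {k : ℕ} {B : ℕ → ℝ} (hper : ∀ n, B (n + k) = B n) (m : ℕ) :
    Pi' B k (m + k + 1) = Pi' B k (m + k) := by
  rcases Nat.eq_zero_or_pos k with rfl | hk
  · simp [Pi']
  · obtain ⟨j, rfl⟩ : ∃ j, k = j + 1 := ⟨k - 1, by omega⟩
    rw [Pi_succ]
    unfold Pi'
    rw [Finset.prod_range_succ]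
    have : B (m + (j + 1) + 1 - j) = B (m + (j + 1) + 2) := by
      rw [show m + (j + 1) + 1 - j = m + 2 by omega, show m + (j + 1) + 2 = m + 2 + (j + 1) by ring,
        hper]
    rw [this]
    ring

theorem lin_odd {k : ℕ} (hk : 0 < k) (ho : Odd k) {B : ℕ → ℝ} (hB : ∀ n, 0 ≤ B n)
    (hper : ∀ n, B (n + k) = B n) :
    (∃ q : ℕ → ℝ, (∀ n, 0 < q n) ∧ (∀ n, q (n + k) = q n) ∧
      (∀ n, q (n + 1) + B (n + 2) * q n = 1)) ↔ ∀ n < k, 0 < W B k (n + k) := by
  have hPi : ∀ m, 0 ≤ Pi' B k m := fun m => Finset.prod_nonneg (fun i _ => hB _)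
  have hWper : ∀ m, W B k (m + k + k) = W B k (m + k) := by
    intro m
    unfold W
    refine Finset.sum_congr rfl fun j hj => ?_
    congr 1
    refine Finset.prod_congr rfl fun i hi => ?_
    have h1 := Finset.mem_range.mp hj
    have h2 := Finset.mem_range.mp hi
    rw [show m + k + k + 1 - i = (m + k + 1 - i) + k by omega, hper]
  constructor
  · rintro ⟨q, h0, h1, h2⟩ n _
    have h := lin_iter h2 n k
    rw [h1, ho.neg_one_pow] at h
    have h3 : W B k (n + k) = q n * (1 + Pi' B k (n + k)) := by linarith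
    rw [h3]
    have := h0 n
    have := hPi (n + k)
    positivity
  · intro h
    have hall : ∀ n, 0 < W B k (n + k) := by
      intro n
      have e := per_mod (p := fun n => W B k (n + k)) hWper n
      rw [← e]
      exact h _ (Nat.mod_lt n hk)
    have hPconst : ∀ n, Pi' B k (n + k) = Pi' B k k := by
      intro n
      induction n with
      | zero => rw [zero_add]
      | succ n ih => rw [show n + 1 + k = n + k + 1 by ring, Pi_const hper, ih]
    set Q := 1 + Pi' B k k with hQ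
    have hQ0 : 0 < Q := by have := hPi k; linarith
    refine ⟨fun n => W B k (n + k) / Q, fun n => div_pos (hall n) hQ0, fun n => ?_, fun n => ?_⟩
    · simp only
      rw [hWper]
    · simp only
      rw [← mul_div_assoc, ← add_div, div_eq_one_iff_eq hQ0.ne']
      have e1 : B (n + 2) = B (n + k + 2) := by
        rw [show n + k + 2 = n + 2 + k by ring, hper]
      have e2 := W_succ B k (n + k)
      have e3 : W B (k + 1) (n + k + 1) = W B k (n + k + 1) + (-1) ^ k * Pi' B k (n + k + 1) := by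
        unfold W Pi'
        rw [Finset.sum_range_succ]
      rw [ho.neg_one_pow, Pi_const hper, hPconst] at e3
      rw [show n + 1 + k = n + k + 1 by ring, e1]
      linarith

end Pool.Agent.H66.PB
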