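import Pool.Agent.H66.PB3

/-!
Positive coefficients: if `k` and `l + 2` are coprime, all solutions are bounded.
-/

namespace Pool.Agent.H66.PB

open Filter Topology

lemma contr {k : ℕ} (hk : 0 < k) {B : ℕ → ℝ} (hB : ∀ n, 0 ≤ B n) (l : ℕ) {lam : ℝ}
    (h0 : 0 ≤ lam) (h1 : lam < 1) : ∃ z : Fin k → ℝ, z = lam • S hk B l z := by
  have hC : ContractingWith ⟨lam, h0⟩ (fun z : Fin k → ℝ => lam • S hk B l z) := by
    refine ⟨by exact_mod_cast h1, LipschitzWith.of_dist_le_mul fun z w => ?_⟩
    rw [dist_eq_norm, dist_eq_norm, ← smul_sub, norm_smul, Real.norm_eq_abs, abs_of_nonneg h0]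
    exact mul_le_mul_of_nonneg_left (S_lip hk hB l z w) h0
  exact ⟨ContractingWith.fixedPoint _ hC, (ContractingWith.fixedPoint_isFixedPt hC).symm⟩

lemma log_max {b s t : ℝ} (hb : 0 < b) :
    |Real.log (b * Real.exp s + Real.exp t) - max s t|
      ≤ Real.log (b + 1) + |Real.log (min b 1)| := by
  have hm : 0 < min b 1 := lt_min hb one_pos
  have p1 : 0 < b * Real.exp s + Real.exp t := by positivity
  have hlog : 0 ≤ Real.log (b + 1) := Real.log_nonneg (by linarith)
  have hab := abs_nonneg (Real.log (min b 1))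
  have e1 : Real.exp s ≤ Real.exp (max s t) := Real.exp_le_exp.mpr (le_max_left _ _)
  have e2 : Real.exp t ≤ Real.exp (max s t) := Real.exp_le_exp.mpr (le_max_right _ _)
  have up : Real.log (b * Real.exp s + Real.exp t) ≤ Real.log (b + 1) + max s t := by
    have : b * Real.exp s + Real.exp t ≤ (b + 1) * Real.exp (max s t) := by
      nlinarith [mul_le_mul_of_nonneg_left e1 hb.le]
    have h := Real.log_le_log p1 this
    rwa [Real.log_mul (by linarith) (Real.exp_pos _).ne', Real.log_exp] at h
  have lo : Real.log (min b 1) + max s t ≤ Real.log (b * Real.exp s + Real.exp t) := by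
    have : min b 1 * Real.exp (max s t) ≤ b * Real.exp s + Real.exp t := by
      have a1 : min b 1 ≤ b := min_le_left _ _
      have a2 : min b 1 ≤ 1 := min_le_right _ _
      rcases le_total s t with h | h
      · rw [max_eq_right h]
        nlinarith [Real.exp_pos s, Real.exp_pos t, mul_pos hb (Real.exp_pos s)]
      · rw [max_eq_left h]
        nlinarith [Real.exp_pos s, Real.exp_pos t]
    have h := Real.log_le_log (by positivity) this
    rwa [Real.log_mul hm.ne' (Real.exp_pos _).ne', Real.log_exp] at h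
  have := neg_abs_le (Real.log (min b 1))
  rw [abs_le]
  constructor <;> linarith

lemma ext_tendsto {k : ℕ} (hk : 0 < k) {w : ℕ → Fin k → ℝ} {v : Fin k → ℝ}
    (h : Tendsto w atTop (𝓝 v)) (n : ℕ) : Tendsto (fun m => ext hk (w m) n) atTop (𝓝 (ext hk v n)) :=
  (tendsto_pi_nhds.mp h) _

theorem fixed_of_trivial {k : ℕ} (hk : 0 < k) {B : ℕ → ℝ} (hB : ∀ n, 0 < B n)
    (hper : ∀ n, B (n + k) = B n) (l : ℕ)
    (htriv : ∀ w : Fin k → ℝ, (∀ n, ext hk w (n + l + 1) = - max (ext hk w (n + l)) (ext hk w n)) →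
      w = 0) : ∃ z : Fin k → ℝ, S hk B l z = z := by
  have hB' : ∀ n, 0 ≤ B n := fun n => (hB n).le
  have hlam : ∀ j : ℕ, (0 : ℝ) ≤ 1 - 1 / ((j : ℝ) + 1) ∧ 1 - 1 / ((j : ℝ) + 1) < 1 := by
    intro j
    have hj : (0 : ℝ) < (j : ℝ) + 1 := by positivity
    constructor
    · have : 1 / ((j : ℝ) + 1) ≤ 1 := by
        rw [div_le_one hj]; have : (0 : ℝ) ≤ j := Nat.cast_nonneg j; linarith
      linarith
    · have : 0 < 1 / ((j : ℝ) + 1) := by positivity
      linarith
  choose z hz using fun j : ℕ => contr hk hB' l (hlam j).1 (hlam j).2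
  have hl1 : Tendsto (fun j : ℕ => (1 : ℝ) - 1 / ((j : ℝ) + 1)) atTop (𝓝 (1 - 0)) :=
    tendsto_const_nhds.sub tendsto_one_div_add_atTop_nhds_zero_nat
  by_cases hbd : ∃ R, ∀ j, ‖z j‖ ≤ R
  · obtain ⟨R, hR⟩ := hbd
    have hcomp : IsCompact (Metric.closedBall (0 : Fin k → ℝ) R) := isCompact_closedBall _ _
    have hmem : ∀ j, z j ∈ Metric.closedBall (0 : Fin k → ℝ) R := by
      intro j
      rw [mem_closedBall_zero_iff]
      exact hR j
    obtain ⟨w, _, φ, hφ, hlim⟩ := hcomp.tendsto_subseq hmem
    refine ⟨w, ?_⟩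
    have hScont : Continuous (S hk B l) := by
      have : LipschitzWith 1 (S hk B l) := LipschitzWith.of_dist_le_mul fun a b => by
        rw [dist_eq_norm, dist_eq_norm]
        simpa using S_lip hk hB' l a b
      exact this.continuous
    have h2 : Tendsto (fun j => ((1 : ℝ) - 1 / ((φ j : ℝ) + 1)) • S hk B l (z (φ j))) atTop
        (𝓝 ((1 - 0 : ℝ) • S hk B l w)) := by
      apply Tendsto.smul
      · exact hl1.comp hφ.tendsto_atTop
      · exact (hScont.tendsto w).comp hlim
    have h3 : (fun j => ((1 : ℝ) - 1 / ((φ j : ℝ) + 1)) • S hk B l (z (φ j))) = z ∘ φ := by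
      funext j
      exact (hz (φ j)).symm
    rw [h3] at h2
    have := tendsto_nhds_unique h2 hlim
    simpa using this
  · exfalso
    push Not at hbd
    have hbig : ∀ m : ℕ, ∃ j, m ≤ j ∧ (m : ℝ) < ‖z j‖ := by
      intro m
      obtain ⟨j, hj⟩ := hbd (m + ∑ i ∈ Finset.range m, ‖z i‖)
      have hs : 0 ≤ ∑ i ∈ Finset.range m, ‖z i‖ := Finset.sum_nonneg (fun i _ => norm_nonneg _)
      refine ⟨j, ?_, by linarith⟩
      by_contra hlt
      have := Finset.single_le_sum (f := fun i => ‖z i‖) (fun i _ => norm_nonneg _)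
        (Finset.mem_range.mpr (not_le.mp hlt))
      have hm : (0 : ℝ) ≤ m := Nat.cast_nonneg m
      linarith
    choose J hJ1 hJ2 using hbig
    have hJpos : ∀ m, 0 < ‖z (J m)‖ := fun m => (Nat.cast_nonneg m).trans_lt (hJ2 m)
    set w : ℕ → Fin k → ℝ := fun m => ‖z (J m)‖⁻¹ • z (J m) with hw
    have hwn : ∀ m, ‖w m‖ = 1 := by
      intro m
      rw [hw]
      simp only
      rw [norm_smul, norm_inv, norm_norm, inv_mul_cancel₀ (hJpos m).ne']
    have hcomp : IsCompact (Metric.sphere (0 : Fin k → ℝ) 1) := isCompact_sphere _ _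
    obtain ⟨v, hv, φ, hφ, hlim⟩ := hcomp.tendsto_subseq (x := w) (fun m => by
      rw [mem_sphere_zero_iff_norm]; exact hwn m)
    have hv1 : ‖v‖ = 1 := by rwa [mem_sphere_zero_iff_norm] at hv
    have hv0 : v = 0 := by
      apply htriv
      intro n
      have hJt : Tendsto (fun m => J (φ m)) atTop atTop :=
        tendsto_atTop_mono (fun m => (hφ.id_le m).trans (hJ1 (φ m))) tendsto_id
      have hlJ := hl1.comp hJt
      have t1 := ext_tendsto hk hlim (n + l + 1)
      have t2 := ext_tendsto hk hlim (n + l)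
      have t3 := ext_tendsto hk hlim n
      have t4 := t1.add (hlJ.mul (t2.max t3))
      set C := Real.log (B n + 1) + |Real.log (min (B n) 1)| with hC
      have hzero : Tendsto (fun m => ext hk ((w ∘ φ) m) (n + l + 1)
          + ((fun j : ℕ => (1 : ℝ) - 1 / ((j : ℝ) + 1)) ∘ fun m => J (φ m)) m *
            max (ext hk ((w ∘ φ) m) (n + l)) (ext hk ((w ∘ φ) m) n)) atTop (𝓝 0) := by
        have hC0 : 0 ≤ C := by
          have : 0 ≤ Real.log (B n + 1) := Real.log_nonneg (by have := hB n; linarith)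
          have := abs_nonneg (Real.log (min (B n) 1))
          linarith
        have hg : Tendsto (fun m : ℕ => C / (m : ℝ)) atTop (𝓝 0) :=
          tendsto_const_div_atTop_nhds_zero_nat C
        refine squeeze_zero_norm' ?_ hg
        filter_upwards [eventually_gt_atTop 0] with m hm
        set j := J (φ m) with hj
        set t := ‖z j‖ with ht
        have htpos : 0 < t := hJpos (φ m)
        have htm : (m : ℝ) ≤ t := by
          have h1 : (m : ℝ) ≤ (φ m : ℝ) := by exact_mod_cast hφ.id_le m
          have h2 := hJ2 (φ m)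
          linarith
        have hm' : (0 : ℝ) < m := by exact_mod_cast hm
        have ew : ∀ a, ext hk ((w ∘ φ) m) a = t⁻¹ * ext hk (z j) a := by
          intro a
          simp [hw, ext, ht, hj]
        simp only [Function.comp_apply] at ew ⊢
        rw [ew, ew, ew, ← mul_max_of_nonneg _ _ (inv_nonneg.mpr htpos.le)]
        set lam := (1 : ℝ) - 1 / ((j : ℝ) + 1) with hlamdef
        have e1 : ext hk (z j) (n + l + 1)
            = lam * (-Real.log (B n * Real.exp (ext hk (z j) (n + l)) + Real.exp (ext hk (z j) n))) := by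
          rw [← ext_S hk hper l (z j) n]
          conv_lhs => rw [hz j]
          simp [ext, hlamdef]
        rw [e1]
        have hlm := log_max (s := ext hk (z j) (n + l)) (t := ext hk (z j) n) (hB n)
        have e2 : t⁻¹ * (lam * (-Real.log (B n * Real.exp (ext hk (z j) (n + l))
              + Real.exp (ext hk (z j) n)))) + lam * (t⁻¹ * max (ext hk (z j) (n + l)) (ext hk (z j) n))
            = -(lam * t⁻¹ * (Real.log (B n * Real.exp (ext hk (z j) (n + l))
              + Real.exp (ext hk (z j) n)) - max (ext hk (z j) (n + l)) (ext hk (z j) n))) := by ring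
        rw [e2, norm_neg, norm_mul, Real.norm_eq_abs, Real.norm_eq_abs,
          abs_of_nonneg (mul_nonneg (hlam j).1 (inv_nonneg.mpr htpos.le))]
        calc lam * t⁻¹ * |Real.log (B n * Real.exp (ext hk (z j) (n + l))
              + Real.exp (ext hk (z j) n)) - max (ext hk (z j) (n + l)) (ext hk (z j) n)|
            ≤ (1 * (m : ℝ)⁻¹) * C := by
              apply mul_le_mul _ hlm (abs_nonneg _) (by positivity)
              apply mul_le_mul (hlam j).2.le _ (inv_nonneg.mpr htpos.le) (by norm_num)
              exact inv_anti₀ hm' htm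
          _ = C / m := by rw [one_mul, div_eq_mul_inv]; ring
      have := tendsto_nhds_unique t4 hzero
      rw [sub_zero, one_mul] at this
      linarith
    rw [hv0, norm_zero] at hv1
    exact absurd hv1 (by norm_num)

theorem trivial_of_coprime {k : ℕ} (hk : 1 < k) {l : ℕ} (hc : Nat.Coprime (l + 2) k)
    (w : Fin k → ℝ)
    (h : ∀ n, ext (by omega) w (n + l + 1) = - max (ext (by omega) w (n + l)) (ext (by omega) w n)) :
    w = 0 := by
  have hk0 : 0 < k := by omega
  set e := ext hk0 w with he
  have hper : ∀ n, e (n + k) = e n := fun n => ext_congr hk0 w (Nat.add_mod_right n k)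
  by_contra hne
  have hM : 0 < ‖w‖ := norm_pos_iff.mpr hne
  set M := ‖w‖ with hMdef
  have hle : ∀ n, |e n| ≤ M := by
    intro n
    have := norm_le_pi_norm w ⟨n % k, Nat.mod_lt n hk0⟩
    simpa [he, ext, Real.norm_eq_abs] using this
  have : Nonempty (Fin k) := ⟨⟨0, hk0⟩⟩
  obtain ⟨i, hi⟩ := Finite.exists_max (fun i => ‖w i‖)
  have hiM : |w i| = M := by
    apply le_antisymm
    · have := norm_le_pi_norm w i
      simpa [Real.norm_eq_abs] using this
    · rw [hMdef, pi_norm_le_iff_of_nonneg (abs_nonneg _)]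
      intro j
      simpa [Real.norm_eq_abs] using hi j
  have hei : e i = w i := by
    rw [he]
    unfold ext
    congr 1
    apply Fin.ext
    simp [Nat.mod_eq_of_lt i.isLt]
  have hex : ∃ n, e n = M := by
    rcases abs_eq hM.le |>.mp hiM with h1 | h1
    · exact ⟨i, by rw [hei, h1]⟩
    · have e0 : e (i + k * (l + 1)) = e i := ext_congr hk0 w (by rw [Nat.add_mul_mod_self_left])
      obtain ⟨n, hn⟩ : ∃ n, (i : ℕ) + k * (l + 1) = n + l + 1 := by
        refine ⟨i + k * (l + 1) - (l + 1), ?_⟩
        have : l + 1 ≤ k * (l + 1) := Nat.le_mul_of_pos_left _ hk0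
        omega
      rw [hn] at e0
      have h2 := h n
      rw [e0, hei, h1] at h2
      have h3 : max (e (n + l)) (e n) = M := by linarith
      rcases max_choice (e (n + l)) (e n) with h4 | h4
      · exact ⟨n + l, by rw [← h4, h3]⟩
      · exact ⟨n, by rw [← h4, h3]⟩
  have hstep1 : ∀ n, e n = M → e (n + 1) = -M := by
    intro n hn
    have h1 := h (n + l * (k - 1))
    have c1 : e (n + l * (k - 1) + l) = e n := by
      apply ext_congr hk0 w
      have : n + l * (k - 1) + l = n + k * l := by
        obtain ⟨j, rfl⟩ : ∃ j, k = j + 1 := ⟨k - 1, by omega⟩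
        simp only [Nat.add_sub_cancel]
        ring
      rw [this, Nat.add_mul_mod_self_left]
    have c2 : e (n + l * (k - 1) + l + 1) = e (n + 1) := by
      apply ext_congr hk0 w
      have : n + l * (k - 1) + l + 1 = n + 1 + k * l := by
        obtain ⟨j, rfl⟩ : ∃ j, k = j + 1 := ⟨k - 1, by omega⟩
        simp only [Nat.add_sub_cancel]
        ring
      rw [this, Nat.add_mul_mod_self_left]
    rw [c1, c2, hn] at h1
    have h2 := le_max_left M (e (n + l * (k - 1)))
    have h3 := (abs_le.mp (hle (n + 1))).1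
    linarith
  have hstep2 : ∀ n, e n = M → e (n + (l + 2)) = M := by
    intro n hn
    have h1 := hstep1 n hn
    have h2 := h n
    have h3 := le_max_right (e (n + l)) (e n)
    have h4 := (abs_le.mp (hle (n + l + 1))).1
    have h5 : e (n + l + 1) = -M := by
      rw [hn] at h2 h3
      linarith
    have h6 := h (n + 1)
    rw [show n + 1 + l = n + l + 1 by ring, h5, h1, max_self] at h6
    rw [show n + (l + 2) = n + l + 1 + 1 by ring, h6]
    ring
  obtain ⟨n, hn⟩ := hex
  have hstep3 : ∀ j, e (n + (l + 2) * j) = M := by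
    intro j
    induction j with
    | zero => simpa using hn
    | succ j ih =>
      rw [show n + (l + 2) * (j + 1) = n + (l + 2) * j + (l + 2) by ring]
      exact hstep2 _ ih
  obtain ⟨m, _, hm⟩ := Nat.exists_mul_mod_eq_one_of_coprime hc hk
  have h7 := hstep3 m
  have h8 : e (n + (l + 2) * m) = e (n + 1) := by
    apply ext_congr hk0 w
    rw [Nat.add_mod, hm, Nat.add_mod n 1 k, Nat.mod_eq_of_lt hk]
  rw [h8, hstep1 n hn] at h7
  linarith

theorem per_of_coprime {k : ℕ} (hk : 1 < k) {B : ℕ → ℝ} (hB : ∀ n, 0 < B n)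
    (hper : ∀ n, B (n + k) = B n) {l : ℕ} (hc : Nat.Coprime (l + 2) k) :
    ∃ p, PerSol k B l p := by
  have hk0 : 0 < k := by omega
  obtain ⟨z, hz⟩ := fixed_of_trivial hk0 hB hper l (fun w hw => trivial_of_coprime hk hc w hw)
  refine ⟨fun n => Real.exp (ext hk0 z n), fun n => Real.exp_pos _, fun n => ?_, fun n => ?_⟩
  · simp only
    rw [ext_congr hk0 z (Nat.add_mod_right n k)]
  · simp only
    have h1 : ext hk0 z (n + l + 1)
        = -Real.log (B n * Real.exp (ext hk0 z (n + l)) + Real.exp (ext hk0 z n)) := by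
      conv_lhs => rw [← hz]
      exact ext_S hk0 hper l z n
    have hp : 0 < B n * Real.exp (ext hk0 z (n + l)) + Real.exp (ext hk0 z n) := by
      have := hB n
      positivity
    rw [h1, Real.exp_neg, Real.exp_log hp, inv_mul_cancel₀ hp.ne']

end Pool.Agent.H66.PB
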