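import Pool.Agent.H66.PB4

/-!
Necessary condition for a positive periodic solution.
-/

namespace Pool.Agent.H66.PB

/-- growth ratio over `l + 2` steps -/
noncomputable def rho (B : ℕ → ℝ) (l n : ℕ) : ℝ := B n / (1 + B n * B (n + l + 1))

lemma hop {k : ℕ} {B : ℕ → ℝ} (hB : ∀ n, 0 ≤ B n) {l : ℕ} {p : ℕ → ℝ}
    (hp : PerSol k B l p) (n : ℕ) (hn : 0 < B n) :
    rho B l n * p (n + l) < p (n + (l + 2) + l) := by
  obtain ⟨h0, -, h2⟩ := hp
  have e1 := h2 n
  have e2 := h2 (n + l)
  have e3 := h2 (n + l + 1)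
  have q0 := h0 n
  have q1 := h0 (n + l)
  have q2 := h0 (n + l + 1)
  have q3 := h0 (n + l + l)
  have q4 := h0 (n + l + l + 1)
  have q5 := h0 (n + (l + 2) + l)
  have b1 := hB (n + l)
  have b2 := hB (n + l + 1)
  rw [show n + l + 1 + l + 1 = n + (l + 2) + l by ring, show n + l + 1 + l = n + l + l + 1 by ring]
    at e3
  set u := p (n + l) with hu
  set v := p (n + l + 1) with hv
  set w := p (n + l + l + 1) with hw
  set X := p (n + (l + 2) + l) with hX
  set b := B n with hb
  set c := B (n + l + 1) with hc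
  have hbu : 0 < b * u := mul_pos hn q1
  -- v * b * u < 1
  have f1 : v * (b * u) < 1 := by
    have : 0 < v * p n := mul_pos q2 q0
    nlinarith
  have f2 : w * u ≤ 1 := by
    have : 0 ≤ w * (B (n + l) * p (n + l + l)) := by positivity
    nlinarith
  have hD : 0 < 1 + b * c := by positivity
  unfold rho
  rw [← hb, ← hc, div_mul_eq_mul_div, div_lt_iff₀ hD]
  -- b u < X (1 + b c); 1 = X (c w + v)
  have f3 : X * (c * w * (b * u)) ≤ X * (c * b) := by
    apply mul_le_mul_of_nonneg_left _ q5.le
    have : c * b * (w * u) ≤ c * b * 1 := mul_le_mul_of_nonneg_left f2 (by positivity)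
    nlinarith
  have f4 : X * (v * (b * u)) < X * 1 := mul_lt_mul_of_pos_left f1 q5
  calc b * u = (X * (c * w + v)) * (b * u) := by rw [e3, one_mul]
    _ = X * (c * w * (b * u)) + X * (v * (b * u)) := by ring
    _ < X * (c * b) + X * 1 := by linarith
    _ = X * (1 + b * c) := by ring

theorem prod_lt_of_per {k : ℕ} (hk : 0 < k) {B : ℕ → ℝ} (hB : ∀ n, 0 ≤ B n)
    {l : ℕ} {p : ℕ → ℝ} (hp : PerSol k B l p) (i : ℕ) :
    ∏ j ∈ Finset.range k, rho B l (i + (l + 2) * j) < 1 := by
  by_cases hz : ∃ j ∈ Finset.range k, B (i + (l + 2) * j) = 0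
  · obtain ⟨j, hj, hj0⟩ := hz
    rw [Finset.prod_eq_zero hj (by unfold rho; rw [hj0, zero_div])]
    norm_num
  · push Not at hz
    have hpos : ∀ j ∈ Finset.range k, 0 < B (i + (l + 2) * j) := fun j hj =>
      lt_of_le_of_ne (hB _) (hz j hj).symm
    set f : ℕ → ℝ := fun j => p (i + (l + 2) * j + l) with hf
    have hf0 : ∀ j, 0 < f j := fun j => hp.1 _
    have hfk : f k = f 0 := by
      rw [hf]
      simp only
      apply per_congr hp.2.1
      rw [show i + (l + 2) * k + l = i + (l + 2) * 0 + l + k * (l + 2) by ring]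
      unfold Nat.ModEq
      rw [Nat.add_mul_mod_self_left]
    have hlt : ∏ j ∈ Finset.range k, (rho B l (i + (l + 2) * j) * f j)
        < ∏ j ∈ Finset.range k, f (j + 1) := by
      apply Finset.prod_lt_prod_of_nonempty
      · intro j hj
        have h1 := hpos j hj
        have h2 := hB (i + (l + 2) * j + l + 1)
        have h3 := hf0 j
        unfold rho
        positivity
      · intro j hj
        have := hop hB hp (i + (l + 2) * j) (hpos j hj)
        rw [hf]
        simp only
        rw [show i + (l + 2) * (j + 1) + l = i + (l + 2) * j + (l + 2) + l by ring]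
        exact this
      · exact Finset.nonempty_range_iff.mpr hk.ne'
    have hshift : ∏ j ∈ Finset.range k, f (j + 1) = ∏ j ∈ Finset.range k, f j := by
      have h1 := Finset.prod_range_succ' f k
      have h2 := Finset.prod_range_succ f k
      rw [h1, hfk] at h2
      exact mul_right_cancel₀ (hf0 0).ne' h2
    rw [Finset.prod_mul_distrib, hshift] at hlt
    have hpp : 0 < ∏ j ∈ Finset.range k, f j := Finset.prod_pos (fun j _ => hf0 j)
    by_contra hge
    have := mul_le_mul_of_nonneg_right (not_lt.mp hge) hpp.le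
    linarith

end Pool.Agent.H66.PB
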