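import Pool.Agent.H66.PB5

/-!
Blow-up of the approximate fixed points.
-/

namespace Pool.Agent.H66.PB

open Filter Topology

theorem fixed_or_blowup {k : ℕ} (hk : 0 < k) {B : ℕ → ℝ} (hB : ∀ n, 0 < B n)
    (hper : ∀ n, B (n + k) = B n) (l : ℕ) : (∃ z : Fin k → ℝ, S hk B l z = z) ∨
    ∃ (Z : ℕ → Fin k → ℝ) (L : ℕ → ℝ) (v : Fin k → ℝ), (∀ m, 0 ≤ L m ∧ L m < 1) ∧
      Tendsto L atTop (𝓝 1) ∧ (∀ m, Z m = L m • S hk B l (Z m)) ∧
      Tendsto (fun m => ‖Z m‖) atTop atTop ∧ Tendsto (fun m => ‖Z m‖⁻¹ • Z m) atTop (𝓝 v) ∧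
      ‖v‖ = 1 ∧ (∀ n, ext hk v (n + l + 1) = - max (ext hk v (n + l)) (ext hk v n)) := by
  have hB' : ∀ n, 0 ≤ B n := fun n => (hB n).le
  have hlam : ∀ j : ℕ, (0 : ℝ) ≤ 1 - 1 / ((j : ℝ) + 1) ∧ 1 - 1 / ((j : ℝ) + 1) < 1 := by
    intro j
    have hj : (0 : ℝ) < (j : ℝ) + 1 := by positivity
    constructor
    · have : 1 / ((j : ℝ) + 1) ≤ 1 := by
        rw [div_le_one hj]; have : (0 : ℝ) ≤ j := Nat.cast_nonneg j; linarith
      linarith
    · have : 0 < 1 / ((j : ℝ) + 1) := by positivity
      linarith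
  choose z hz using fun j : ℕ => contr hk hB' l (hlam j).1 (hlam j).2
  have hl1 : Tendsto (fun j : ℕ => (1 : ℝ) - 1 / ((j : ℝ) + 1)) atTop (𝓝 (1 - 0)) :=
    tendsto_const_nhds.sub tendsto_one_div_add_atTop_nhds_zero_nat
  by_cases hbd : ∃ R, ∀ j, ‖z j‖ ≤ R
  · left
    obtain ⟨R, hR⟩ := hbd
    have hcomp : IsCompact (Metric.closedBall (0 : Fin k → ℝ) R) := isCompact_closedBall _ _
    have hmem : ∀ j, z j ∈ Metric.closedBall (0 : Fin k → ℝ) R := by
      intro j
      rw [mem_closedBall_zero_iff]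
      exact hR j
    obtain ⟨w, _, φ, hφ, hlim⟩ := hcomp.tendsto_subseq hmem
    refine ⟨w, ?_⟩
    have hScont : Continuous (S hk B l) := by
      have : LipschitzWith 1 (S hk B l) := LipschitzWith.of_dist_le_mul fun a b => by
        rw [dist_eq_norm, dist_eq_norm]
        simpa using S_lip hk hB' l a b
      exact this.continuous
    have h2 : Tendsto (fun j => ((1 : ℝ) - 1 / ((φ j : ℝ) + 1)) • S hk B l (z (φ j))) atTop
        (𝓝 ((1 - 0 : ℝ) • S hk B l w)) := by
      apply Tendsto.smul
      · exact hl1.comp hφ.tendsto_atTop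
      · exact (hScont.tendsto w).comp hlim
    have h3 : (fun j => ((1 : ℝ) - 1 / ((φ j : ℝ) + 1)) • S hk B l (z (φ j))) = z ∘ φ := by
      funext j
      exact (hz (φ j)).symm
    rw [h3] at h2
    have := tendsto_nhds_unique h2 hlim
    simpa using this
  · right
    push Not at hbd
    have hbig : ∀ m : ℕ, ∃ j, m ≤ j ∧ (m : ℝ) < ‖z j‖ := by
      intro m
      obtain ⟨j, hj⟩ := hbd (m + ∑ i ∈ Finset.range m, ‖z i‖)
      have hs : 0 ≤ ∑ i ∈ Finset.range m, ‖z i‖ := Finset.sum_nonneg (fun i _ => norm_nonneg _)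
      refine ⟨j, ?_, by linarith⟩
      by_contra hlt
      have := Finset.single_le_sum (f := fun i => ‖z i‖) (fun i _ => norm_nonneg _)
        (Finset.mem_range.mpr (not_le.mp hlt))
      have hm : (0 : ℝ) ≤ m := Nat.cast_nonneg m
      linarith
    choose J hJ1 hJ2 using hbig
    have hJpos : ∀ m, 0 < ‖z (J m)‖ := fun m => (Nat.cast_nonneg m).trans_lt (hJ2 m)
    set w : ℕ → Fin k → ℝ := fun m => ‖z (J m)‖⁻¹ • z (J m) with hw
    have hwn : ∀ m, ‖w m‖ = 1 := by
      intro m
      rw [hw]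
      simp only
      rw [norm_smul, norm_inv, norm_norm, inv_mul_cancel₀ (hJpos m).ne']
    have hcomp : IsCompact (Metric.sphere (0 : Fin k → ℝ) 1) := isCompact_sphere _ _
    obtain ⟨v, hv, φ, hφ, hlim⟩ := hcomp.tendsto_subseq (x := w) (fun m => by
      rw [mem_sphere_zero_iff_norm]; exact hwn m)
    have hv1 : ‖v‖ = 1 := by rwa [mem_sphere_zero_iff_norm] at hv
    have hJt : Tendsto (fun m => J (φ m)) atTop atTop :=
      tendsto_atTop_mono (fun m => (hφ.id_le m).trans (hJ1 (φ m))) tendsto_id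
    have hlJ := hl1.comp hJt
    have hveq : ∀ n, ext hk v (n + l + 1) = - max (ext hk v (n + l)) (ext hk v n) := by
      intro n
      have t1 := ext_tendsto hk hlim (n + l + 1)
      have t2 := ext_tendsto hk hlim (n + l)
      have t3 := ext_tendsto hk hlim n
      have t4 := t1.add (hlJ.mul (t2.max t3))
      set C := Real.log (B n + 1) + |Real.log (min (B n) 1)| with hC
      have hzero : Tendsto (fun m => ext hk ((w ∘ φ) m) (n + l + 1)
          + ((fun j : ℕ => (1 : ℝ) - 1 / ((j : ℝ) + 1)) ∘ fun m => J (φ m)) m *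
            max (ext hk ((w ∘ φ) m) (n + l)) (ext hk ((w ∘ φ) m) n)) atTop (𝓝 0) := by
        have hC0 : 0 ≤ C := by
          have : 0 ≤ Real.log (B n + 1) := Real.log_nonneg (by have := hB n; linarith)
          have := abs_nonneg (Real.log (min (B n) 1))
          linarith
        have hg : Tendsto (fun m : ℕ => C / (m : ℝ)) atTop (𝓝 0) :=
          tendsto_const_div_atTop_nhds_zero_nat C
        refine squeeze_zero_norm' ?_ hg
        filter_upwards [eventually_gt_atTop 0] with m hm
        set j := J (φ m) with hj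
        set t := ‖z j‖ with ht
        have htpos : 0 < t := hJpos (φ m)
        have htm : (m : ℝ) ≤ t := by
          have h1 : (m : ℝ) ≤ (φ m : ℝ) := by exact_mod_cast hφ.id_le m
          have h2 := hJ2 (φ m)
          linarith
        have hm' : (0 : ℝ) < m := by exact_mod_cast hm
        have ew : ∀ a, ext hk ((w ∘ φ) m) a = t⁻¹ * ext hk (z j) a := by
          intro a
          simp [hw, ext, ht, hj]
        simp only [Function.comp_apply] at ew ⊢
        rw [ew, ew, ew, ← mul_max_of_nonneg _ _ (inv_nonneg.mpr htpos.le)]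
        set lam := (1 : ℝ) - 1 / ((j : ℝ) + 1) with hlamdef
        have e1 : ext hk (z j) (n + l + 1)
            = lam * (-Real.log (B n * Real.exp (ext hk (z j) (n + l)) + Real.exp (ext hk (z j) n))) := by
          rw [← ext_S hk hper l (z j) n]
          conv_lhs => rw [hz j]
          simp [ext, hlamdef]
        rw [e1]
        have hlm := log_max (s := ext hk (z j) (n + l)) (t := ext hk (z j) n) (hB n)
        have e2 : t⁻¹ * (lam * (-Real.log (B n * Real.exp (ext hk (z j) (n + l))
              + Real.exp (ext hk (z j) n)))) + lam * (t⁻¹ * max (ext hk (z j) (n + l)) (ext hk (z j) n))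
            = -(lam * t⁻¹ * (Real.log (B n * Real.exp (ext hk (z j) (n + l))
              + Real.exp (ext hk (z j) n)) - max (ext hk (z j) (n + l)) (ext hk (z j) n))) := by ring
        rw [e2, norm_neg, norm_mul, Real.norm_eq_abs, Real.norm_eq_abs,
          abs_of_nonneg (mul_nonneg (hlam j).1 (inv_nonneg.mpr htpos.le))]
        calc lam * t⁻¹ * |Real.log (B n * Real.exp (ext hk (z j) (n + l))
              + Real.exp (ext hk (z j) n)) - max (ext hk (z j) (n + l)) (ext hk (z j) n)|
            ≤ (1 * (m : ℝ)⁻¹) * C := by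
              apply mul_le_mul _ hlm (abs_nonneg _) (by positivity)
              apply mul_le_mul (hlam j).2.le _ (inv_nonneg.mpr htpos.le) (by norm_num)
              exact inv_anti₀ hm' htm
          _ = C / m := by rw [one_mul, div_eq_mul_inv]; ring
      have := tendsto_nhds_unique t4 hzero
      rw [sub_zero, one_mul] at this
      linarith
    refine ⟨fun m => z (J (φ m)), fun m => 1 - 1 / (((J (φ m) : ℕ) : ℝ) + 1), v,
      fun m => hlam _, ?_, fun m => hz _, ?_, hlim, hv1, hveq⟩
    · have h := hlJ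
      rw [sub_zero] at h
      exact h
    · refine tendsto_atTop_mono (fun m => ?_) tendsto_natCast_atTop_atTop
      have h1 : (m : ℝ) ≤ (φ m : ℝ) := by exact_mod_cast hφ.id_le m
      have h2 := hJ2 (φ m)
      linarith


end Pool.Agent.H66.PB
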