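import Pool.Agent.H66.PB6

/-!
Positive coefficients, `gcd(k, l+2) = 3`.
-/

namespace Pool.Agent.H66.PB

open Filter Topology

lemma rel_bound {Λ U a b b0 b1 b2 ε y1 y2 : ℝ} (hΛ0 : 0 ≤ Λ) (hΛ1 : Λ < 1) (hb0 : 0 < b0)
    (hb1 : 0 < b1) (hb2 : 0 < b2) (hε : 0 < ε) (hU : 0 ≤ U)
    (hy1 : y1 = Λ * (-Real.log (b0 * Real.exp U + Real.exp a)))
    (hy2 : y2 = Λ * (-Real.log (b1 * Real.exp b + Real.exp U)))
    (ha : Real.exp a ≤ (Real.exp ε - 1) * (b0 * Real.exp U))
    (hb : b1 * Real.exp b ≤ (Real.exp ε - 1) * Real.exp U) :
    Λ * (-Real.log (b2 * Real.exp y2 + Real.exp y1))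
      ≤ ε + U - Λ * Real.log (b2 + Real.exp (-(Λ * Real.log b0))) := by
  have h1 : -(Λ * (ε + Real.log b0 + U)) ≤ y1 := by
    have : b0 * Real.exp U + Real.exp a ≤ Real.exp ε * (b0 * Real.exp U) := by linarith
    have h := Real.log_le_log (by positivity) this
    rw [Real.log_mul (Real.exp_pos _).ne' (by positivity), Real.log_mul hb0.ne'
      (Real.exp_pos _).ne', Real.log_exp, Real.log_exp] at h
    rw [hy1]
    have := mul_le_mul_of_nonneg_left h hΛ0
    linarith
  have h2 : -(Λ * (ε + U)) ≤ y2 := by
    have : b1 * Real.exp b + Real.exp U ≤ Real.exp ε * Real.exp U := by linarith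
    have h := Real.log_le_log (by positivity) this
    rw [Real.log_mul (Real.exp_pos _).ne' (Real.exp_pos _).ne', Real.log_exp, Real.log_exp] at h
    rw [hy2]
    have := mul_le_mul_of_nonneg_left h hΛ0
    linarith
  have h3 : Real.exp (-(Λ * (ε + U))) * (b2 + Real.exp (-(Λ * Real.log b0)))
      ≤ b2 * Real.exp y2 + Real.exp y1 := by
    have e1 := Real.exp_le_exp.mpr h2
    have e2 : Real.exp (-(Λ * (ε + U))) * Real.exp (-(Λ * Real.log b0)) ≤ Real.exp y1 := by
      rw [← Real.exp_add]
      apply Real.exp_le_exp.mpr
      linarith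
    nlinarith [mul_le_mul_of_nonneg_left e1 hb2.le]
  have h4 := Real.log_le_log (by positivity) h3
  rw [Real.log_mul (Real.exp_pos _).ne' (by positivity), Real.log_exp] at h4
  have h5 := mul_le_mul_of_nonneg_left h4 hΛ0
  have h6 : Λ * (Λ * (ε + U)) ≤ ε + U := by
    have : Λ * Λ ≤ 1 := by nlinarith
    have h7 : 0 ≤ ε + U := by linarith
    nlinarith [mul_le_mul_of_nonneg_right this h7]
  linarith

lemma grow {t c : ℕ → ℝ} {C : ℝ} (ht : Tendsto t atTop atTop) (hc : Tendsto c atTop (𝓝 C))
    (hC : 0 < C) : Tendsto (fun m => t m * c m) atTop atTop := ht.atTop_mul_pos hC hc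

theorem per_of_gcd_three {k : ℕ} (hk : 0 < k) {B : ℕ → ℝ} (hB : ∀ n, 0 < B n)
    (hper : ∀ n, B (n + k) = B n) {l : ℕ} (hg : Nat.gcd (l + 2) k = 3)
    (hprod : ∀ i, ∏ j ∈ Finset.range k, rho B l (i + (l + 2) * j) < 1) :
    ∃ p, PerSol k B l p := by
  rcases fixed_or_blowup hk hB hper l with ⟨z, hz⟩ | ⟨Z, L, v, hL, hL1, hZ, hZn, hZv, hv1, hveq⟩
  · refine ⟨fun n => Real.exp (ext hk z n), fun n => Real.exp_pos _, fun n => ?_, fun n => ?_⟩
    · simp only
      rw [ext_congr hk z (Nat.add_mod_right n k)]
    · simp only
      have h1 : ext hk z (n + l + 1)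
          = -Real.log (B n * Real.exp (ext hk z (n + l)) + Real.exp (ext hk z n)) := by
        conv_lhs => rw [← hz]
        exact ext_S hk hper l z n
      have hp : 0 < B n * Real.exp (ext hk z (n + l)) + Real.exp (ext hk z n) := by
        have := hB n
        positivity
      rw [h1, Real.exp_neg, Real.exp_log hp, inv_mul_cancel₀ hp.ne']
  · exfalso
    have h3l : 3 ∣ l + 2 := hg ▸ Nat.gcd_dvd_left _ _
    have h3k : 3 ∣ k := hg ▸ Nat.gcd_dvd_right _ _
    set e := ext hk v with he
    have hcong : ∀ a b, a % k = b % k → e a = e b := fun a b h => ext_congr hk v h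
    have hle : ∀ n, |e n| ≤ 1 := by
      intro n
      have := norm_le_pi_norm v ⟨n % k, Nat.mod_lt n hk⟩
      rw [hv1] at this
      simpa [he, ext, Real.norm_eq_abs] using this
    have : Nonempty (Fin k) := ⟨⟨0, hk⟩⟩
    obtain ⟨i0, hi0⟩ := Finite.exists_max (fun i => ‖v i‖)
    have hiM : |v i0| = 1 := by
      apply le_antisymm
      · have := norm_le_pi_norm v i0
        rw [hv1] at this
        simpa [Real.norm_eq_abs] using this
      · rw [← hv1, pi_norm_le_iff_of_nonneg (abs_nonneg _)]
        intro j
        simpa [Real.norm_eq_abs] using hi0 j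
    have hei : e i0 = v i0 := by
      rw [he]
      unfold ext
      congr 1
      apply Fin.ext
      simp [Nat.mod_eq_of_lt i0.isLt]
    have hex : ∃ n, e n = 1 := by
      rcases abs_eq (zero_le_one) |>.mp hiM with h1 | h1
      · exact ⟨i0, by rw [hei, h1]⟩
      · have e0 : e (i0 + k * (l + 1)) = e i0 := hcong _ _ (by rw [Nat.add_mul_mod_self_left])
        obtain ⟨n, hn⟩ : ∃ n, (i0 : ℕ) + k * (l + 1) = n + l + 1 := by
          refine ⟨i0 + k * (l + 1) - (l + 1), ?_⟩
          have : l + 1 ≤ k * (l + 1) := Nat.le_mul_of_pos_left _ hk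
          omega
        rw [hn] at e0
        have h2 := hveq n
        rw [e0, hei, h1] at h2
        have h3 : max (e (n + l)) (e n) = 1 := by linarith
        rcases max_choice (e (n + l)) (e n) with h4 | h4
        · exact ⟨n + l, by rw [← h4, h3]⟩
        · exact ⟨n, by rw [← h4, h3]⟩
    have hstep1 : ∀ n, e n = 1 → e (n + 1) = -1 := by
      intro n hn
      have h1 := hveq (n + l * (k - 1))
      have c1 : e (n + l * (k - 1) + l) = e n := by
        apply hcong
        have : n + l * (k - 1) + l = n + k * l := by
          obtain ⟨j, rfl⟩ : ∃ j, k = j + 1 := ⟨k - 1, by omega⟩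
          simp only [Nat.add_sub_cancel]
          ring
        rw [this, Nat.add_mul_mod_self_left]
      have c2 : e (n + l * (k - 1) + l + 1) = e (n + 1) := by
        apply hcong
        have : n + l * (k - 1) + l + 1 = n + 1 + k * l := by
          obtain ⟨j, rfl⟩ : ∃ j, k = j + 1 := ⟨k - 1, by omega⟩
          simp only [Nat.add_sub_cancel]
          ring
        rw [this, Nat.add_mul_mod_self_left]
      rw [c1, c2, hn] at h1
      have h2 := le_max_left (1:ℝ) (e (n + l * (k - 1)))
      have h3 := (abs_le.mp (hle (n + 1))).1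
      linarith
    have hstep2 : ∀ n, e n = 1 → e (n + (l + 2)) = 1 := by
      intro n hn
      have h1 := hstep1 n hn
      have h2 := hveq n
      have h3 := le_max_right (e (n + l)) (e n)
      have h4 := (abs_le.mp (hle (n + l + 1))).1
      have h5 : e (n + l + 1) = -1 := by
        rw [hn] at h2 h3
        linarith
      have h6 := hveq (n + 1)
      rw [show n + 1 + l = n + l + 1 by ring, h5, h1, max_self] at h6
      rw [show n + (l + 2) = n + l + 1 + 1 by ring, h6]
      ring
    have hstep3 : ∀ n, e n = 1 → ∀ j, e (n + (l + 2) * j) = 1 := by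
      intro n hn j
      induction j with
      | zero => simpa using hn
      | succ j ih =>
        rw [show n + (l + 2) * (j + 1) = n + (l + 2) * j + (l + 2) by ring]
        exact hstep2 _ ih
    have hthree : ∀ n, e n = 1 → e (n + 3) = 1 := by
      intro n hn
      rcases eq_or_ne k 3 with h3 | h3
      · rw [← hn]
        apply hcong
        rw [h3, Nat.add_mod_right]
      · have hlt : Nat.gcd (l + 2) k < k := by
          rw [hg]
          have := Nat.le_of_dvd hk h3k
          omega
        obtain ⟨m, _, hm⟩ := Nat.exists_mul_mod_eq_gcd hlt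
        have h7 := hstep3 n hn m
        rw [← h7]
        apply hcong
        rw [Nat.add_mod n ((l + 2) * m), hm, hg, Nat.add_mod n 3]
        have h3k' : 3 < k := by rw [hg] at hlt; exact hlt
        rw [Nat.mod_eq_of_lt h3k']
    have hthrees : ∀ n, e n = 1 → ∀ a, e (n + 3 * a) = 1 := by
      intro n hn a
      induction a with
      | zero => simpa using hn
      | succ a ih =>
        rw [show n + 3 * (a + 1) = n + 3 * a + 3 by ring]
        exact hthree _ ih
    have hneq : ∀ n, e n = 1 → e (n + l) ≠ 1 := by
      intro n hn h1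
      obtain ⟨a, ha⟩ : ∃ a, l = 3 * a + 1 := ⟨(l - 1) / 3, by omega⟩
      have h2 := hthrees _ h1 (a * (k - 1))
      have h3 : e (n + l + 3 * (a * (k - 1))) = e (n + 1) := by
        apply hcong
        have : n + l + 3 * (a * (k - 1)) = n + 1 + k * (3 * a) := by
          obtain ⟨j, hj⟩ : ∃ j, k = j + 1 := ⟨k - 1, by omega⟩
          rw [ha, hj]
          simp only [Nat.add_sub_cancel]
          ring
        rw [this, Nat.add_mul_mod_self_left]
      rw [h3, hstep1 n hn] at h2
      norm_num at h2
    -- the cycle
    obtain ⟨n0, hn0⟩ := hex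
    obtain ⟨i, hi⟩ : ∃ i, n0 + k * l = i + l := by
      refine ⟨n0 + k * l - l, ?_⟩
      have : l ≤ k * l := Nat.le_mul_of_pos_left _ hk
      omega
    have hcyc : ∀ j, e (i + (l + 2) * j + l) = 1 := by
      intro j
      have h1 : e (i + l) = 1 := by
        rw [← hi, ← hn0]
        apply hcong
        rw [Nat.add_mul_mod_self_left]
      have := hstep3 _ h1 j
      rwa [show i + l + (l + 2) * j = i + (l + 2) * j + l by ring] at this
    have hlow : ∀ j, e (i + (l + 2) * j) < 1 := by
      intro j
      refine lt_of_le_of_ne (le_of_abs_le (hle _)) fun h => ?_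
      exact hneq _ h (hcyc j)
    have hhigh : ∀ j, e (i + (l + 2) * j + l + l) < 1 := by
      intro j
      refine lt_of_le_of_ne (le_of_abs_le (hle _)) fun h => ?_
      exact hneq _ (hcyc j) h
    -- asymptotics
    have hext : ∀ a, ∀ᶠ m in atTop, ext hk (Z m) a = ‖Z m‖ * ext hk (‖Z m‖⁻¹ • Z m) a := by
      intro a
      filter_upwards [hZn.eventually_gt_atTop 0] with m hm
      simp only [ext, Pi.smul_apply, smul_eq_mul]
      rw [← mul_assoc, mul_inv_cancel₀ hm.ne', one_mul]
    have hval : ∀ a, 0 < e a → Tendsto (fun m => ext hk (Z m) a) atTop atTop := by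
      intro a ha
      refine (grow hZn (ext_tendsto hk hZv a) ha).congr' ?_
      filter_upwards [hext a] with m hm using hm.symm
    have hdiff : ∀ a b, e b < e a →
        Tendsto (fun m => ext hk (Z m) a - ext hk (Z m) b) atTop atTop := by
      intro a b hab
      have := grow hZn ((ext_tendsto hk hZv a).sub (ext_tendsto hk hZv b))
        (show 0 < ext hk v a - ext hk v b by linarith)
      refine this.congr' ?_
      filter_upwards [hext a, hext b] with m hm hm'
      rw [hm, hm']
      ring
    set σ := ∑ j ∈ Finset.range k, Real.log (B (i + (l + 2) * j + l + 1)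
      + Real.exp (-(1 * Real.log (B (i + (l + 2) * j))))) with hσ
    have hσpos : 0 < σ := by
      have h1 : ∀ j, Real.log (B (i + (l + 2) * j + l + 1)
          + Real.exp (-(1 * Real.log (B (i + (l + 2) * j))))) = - Real.log (rho B l (i + (l + 2) * j)) := by
        intro j
        have b0 := hB (i + (l + 2) * j)
        have b1 := hB (i + (l + 2) * j + l + 1)
        rw [one_mul, Real.exp_neg, Real.exp_log b0]
        unfold rho
        rw [← Real.log_inv]
        congr 1
        field_simp
        ring
      rw [hσ, Finset.sum_congr rfl (fun j _ => h1 j), Finset.sum_neg_distrib,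
        ← Real.log_prod (fun j _ => by
          have b0 := hB (i + (l + 2) * j)
          have b1 := hB (i + (l + 2) * j + l + 1)
          unfold rho
          positivity)]
      have hp : 0 < ∏ j ∈ Finset.range k, rho B l (i + (l + 2) * j) :=
        Finset.prod_pos (fun j _ => by
          have b0 := hB (i + (l + 2) * j)
          have b1 := hB (i + (l + 2) * j + l + 1)
          unfold rho
          positivity)
      have := Real.log_neg hp (hprod i)
      linarith
    have hk' : (0:ℝ) < k := by exact_mod_cast hk
    set ε := σ / (2 * k) with hε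
    have hε0 : 0 < ε := by positivity
    have hδ : 0 < Real.exp ε - 1 := by
      have := Real.add_one_lt_exp hε0.ne'
      linarith
    -- eventual inequality
    have hev : ∀ᶠ m in atTop, ∀ j ∈ Finset.range k,
        ext hk (Z m) (i + (l + 2) * (j + 1) + l) ≤ ε + ext hk (Z m) (i + (l + 2) * j + l)
          - L m * Real.log (B (i + (l + 2) * j + l + 1)
            + Real.exp (-(L m * Real.log (B (i + (l + 2) * j))))) := by
      rw [Filter.eventually_all_finset]
      intro j _
      set n := i + (l + 2) * j with hn
      have b0 := hB n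
      have b1 := hB (n + l)
      have b2 := hB (n + l + 1)
      have q1 := hval (n + l) (by rw [hn, hcyc j]; norm_num)
      have q2 := hdiff (n + l) n (by rw [hn, hcyc j]; exact hlow j)
      have q3 := hdiff (n + l) (n + l + l) (by rw [hn, hcyc j]; exact hhigh j)
      filter_upwards [q1.eventually_ge_atTop 0,
        q2.eventually_ge_atTop (-Real.log ((Real.exp ε - 1) * B n)),
        q3.eventually_ge_atTop (-Real.log ((Real.exp ε - 1) / B (n + l)))] with m m1 m2 m3
      have r : ∀ a, ext hk (Z m) (a + l + 1) = L m * (-Real.log (B a * Real.exp (ext hk (Z m) (a + l))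
          + Real.exp (ext hk (Z m) a))) := by
        intro a
        rw [← ext_S hk hper l (Z m) a]
        conv_lhs => rw [hZ m]
        simp [ext]
      have hA : Real.exp (ext hk (Z m) n) ≤ (Real.exp ε - 1) * (B n * Real.exp (ext hk (Z m) (n + l))) := by
        have hpos : 0 < (Real.exp ε - 1) * B n := mul_pos hδ b0
        rw [← mul_assoc]
        calc Real.exp (ext hk (Z m) n)
            ≤ Real.exp (Real.log ((Real.exp ε - 1) * B n) + ext hk (Z m) (n + l)) := by
              apply Real.exp_le_exp.mpr; linarith
          _ = (Real.exp ε - 1) * B n * Real.exp (ext hk (Z m) (n + l)) := by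
              rw [Real.exp_add, Real.exp_log hpos]
      have hBd : B (n + l) * Real.exp (ext hk (Z m) (n + l + l))
          ≤ (Real.exp ε - 1) * Real.exp (ext hk (Z m) (n + l)) := by
        have hpos : 0 < (Real.exp ε - 1) / B (n + l) := div_pos hδ b1
        have : Real.exp (ext hk (Z m) (n + l + l))
            ≤ (Real.exp ε - 1) / B (n + l) * Real.exp (ext hk (Z m) (n + l)) := by
          calc Real.exp (ext hk (Z m) (n + l + l))
              ≤ Real.exp (Real.log ((Real.exp ε - 1) / B (n + l)) + ext hk (Z m) (n + l)) := by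
                apply Real.exp_le_exp.mpr; linarith
            _ = _ := by rw [Real.exp_add, Real.exp_log hpos]
        calc B (n + l) * Real.exp (ext hk (Z m) (n + l + l))
            ≤ B (n + l) * ((Real.exp ε - 1) / B (n + l) * Real.exp (ext hk (Z m) (n + l))) :=
              mul_le_mul_of_nonneg_left this b1.le
          _ = (Real.exp ε - 1) * Real.exp (ext hk (Z m) (n + l)) := by field_simp
      have key := rel_bound (hL m).1 (hL m).2 b0 b1 b2 hε0 m1 (r n) (r (n + l)) hA hBd
      have e1 : i + (l + 2) * (j + 1) + l = n + l + 1 + l + 1 := by rw [hn]; ring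
      rw [e1, r (n + l + 1), show n + l + 1 + l = n + l + l + 1 by ring]
      exact key
    have hcontF : Tendsto (fun m => ∑ j ∈ Finset.range k, L m * Real.log (B (i + (l + 2) * j + l + 1)
            + Real.exp (-(L m * Real.log (B (i + (l + 2) * j)))))) atTop (𝓝 (∑ j ∈ Finset.range k,
            1 * Real.log (B (i + (l + 2) * j + l + 1)
            + Real.exp (-(1 * Real.log (B (i + (l + 2) * j))))))) := by
      apply tendsto_finsetSum
      intro j _
      apply hL1.mul
      apply Tendsto.log
      · apply tendsto_const_nhds.add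
        apply (Real.continuous_exp.tendsto _).comp
        exact (hL1.mul_const _).neg
      · have b1 := hB (i + (l + 2) * j + l + 1)
        positivity
    simp only [one_mul] at hcontF hσ
    rw [← hσ] at hcontF
    obtain ⟨m, hm1, hm2⟩ := (hev.and (hcontF.eventually (lt_mem_nhds
      (show σ / 2 < σ by linarith)))).exists
    have hsum := Finset.sum_le_sum hm1
    rw [Finset.sum_sub_distrib, Finset.sum_add_distrib, Finset.sum_const, Finset.card_range,
      nsmul_eq_mul] at hsum
    have hshift : ∑ j ∈ Finset.range k, ext hk (Z m) (i + (l + 2) * (j + 1) + l)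
        = ∑ j ∈ Finset.range k, ext hk (Z m) (i + (l + 2) * j + l) := by
      have h1 := Finset.sum_range_succ' (fun j => ext hk (Z m) (i + (l + 2) * j + l)) k
      have h2 := Finset.sum_range_succ (fun j => ext hk (Z m) (i + (l + 2) * j + l)) k
      have h3 : ext hk (Z m) (i + (l + 2) * k + l) = ext hk (Z m) (i + (l + 2) * 0 + l) := by
        apply ext_congr
        rw [show i + (l + 2) * k + l = i + (l + 2) * 0 + l + k * (l + 2) by ring,
          Nat.add_mul_mod_self_left]
      rw [h1, h3] at h2
      linarith
    rw [hshift] at hsum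
    have hkε : (k:ℝ) * ε = σ / 2 := by rw [hε]; field_simp
    linarith

end Pool.Agent.H66.PB
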