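import Mathlib

open Finset

namespace Pool.Agent.H66.SR

set_option linter.unusedSectionVars false

variable {V : Type} [Fintype V] [LinearOrder V]

/-- The link of `F` in `Δ`. -/
def link (Δ : Set (Finset V)) (F : Finset V) : Set (Finset V) := {G | Disjoint G F ∧ G ∪ F ∈ Δ}

variable (k : Type) [Field k]

/-- The sign with which `G` occurs in the boundary of `insert v G`, for `v ∉ G`. -/
def sgn (v : V) (G : Finset V) : k := (-1) ^ (G.filter (· < v)).card

variable {k}

/-- The simplicial boundary of a chain `c` (a function on finite sets of vertices):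
the coefficient of `∂ c` at `G`. -/
def bdry (c : Finset V → k) (G : Finset V) : k := ∑ v ∈ Gᶜ, sgn k v G * c (insert v G)

/-- `c` is a chain of `Δ` supported on the faces with `n` vertices (dimension `n - 1`). -/
def IsChain (Δ : Set (Finset V)) (n : ℕ) (c : Finset V → k) : Prop :=
  ∀ F, c F ≠ 0 → F ∈ Δ ∧ F.card = n

variable (k)

/-- The reduced simplicial homology of `Δ` with coefficients in `k` vanishes in dimension
`n - 1`: every reduced cycle supported on the faces with `n` vertices is a boundary. -/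
def HVanish (Δ : Set (Finset V)) (n : ℕ) : Prop :=
  ∀ c : Finset V → k, IsChain Δ n c → (∀ G, bdry c G = 0) →
    ∃ d : Finset V → k, IsChain Δ (n + 1) d ∧ ∀ G, bdry d G = c G

variable {k}

lemma sgn_sq (v : V) (G : Finset V) : sgn k v G * sgn k v G = 1 := by
  unfold sgn
  rw [← mul_pow]; simp

lemma sgn_union (v : V) {τ σ : Finset V} (h : Disjoint τ σ) :
    sgn k v (τ ∪ σ) = sgn k v τ * sgn k v σ := by
  unfold sgn
  rw [filter_union, card_union_of_disjoint (disjoint_filter_filter h), pow_add]

lemma sgn_insert (v w : V) {G : Finset V} (h : w ∉ G) :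
    sgn k v (insert w G) = (if w < v then -1 else 1) * sgn k v G := by
  unfold sgn
  rw [filter_insert]
  split_ifs with hw
  · rw [card_insert_of_notMem (by simp [h]), pow_succ]; ring
  · ring

noncomputable def eps (k : Type) [Field k] (σ τ : Finset V) : k := ∏ v ∈ τ, sgn k v σ

lemma eps_sq (σ τ : Finset V) : eps k σ τ * eps k σ τ = 1 := by
  unfold eps
  rw [← prod_mul_distrib]
  exact prod_eq_one fun v _ => sgn_sq v σ

lemma eps_insert (σ : Finset V) {v : V} {τ : Finset V} (h : v ∉ τ) :
    eps k σ (insert v τ) = sgn k v σ * eps k σ τ := by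
  unfold eps
  rw [prod_insert h]

lemma bdry_shift (f : Finset V → k) {σ τ : Finset V} (h : Disjoint τ σ) :
    bdry (fun ρ => if Disjoint ρ σ then eps k σ ρ * f (ρ ∪ σ) else 0) τ =
      eps k σ τ * bdry f (τ ∪ σ) := by
  unfold bdry
  rw [mul_sum]
  have hsub : (τ ∪ σ)ᶜ ⊆ τᶜ := by
    intro v hv
    simp only [mem_compl, mem_union, not_or] at *
    exact hv.1
  rw [← sum_subset hsub]
  · apply sum_congr rfl
    intro v hv
    simp only [mem_compl, mem_union, not_or] at hv
    have hd : Disjoint (insert v τ) σ := by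
      rw [disjoint_insert_left]; exact ⟨hv.2, h⟩
    beta_reduce
    rw [if_pos hd, eps_insert σ hv.1, sgn_union v h, insert_union]
    ring
  · intro v hv hv2
    simp only [mem_compl, mem_union, not_or, not_and, not_not] at *
    have hvσ := hv2 hv
    have hd : ¬ Disjoint (insert v τ) σ := by
      rw [disjoint_insert_left]; intro hh; exact hh.1 hvσ
    beta_reduce
    rw [if_neg hd, mul_zero]

lemma bdry_bdry (c : Finset V → k) (G : Finset V) : bdry (bdry c) G = 0 := by
  unfold bdry
  simp only [mul_sum]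
  rw [sum_sigma']
  apply sum_involution (fun (p : Σ _ : V, V) _ => (⟨p.2, p.1⟩ : Σ _ : V, V))
  · rintro ⟨v, w⟩ hp
    simp only [mem_sigma, mem_compl, mem_insert, not_or] at hp
    obtain ⟨hv, hwv, hw⟩ := hp
    simp only
    rw [sgn_insert w v hv, sgn_insert v w hw, Finset.insert_comm]
    rcases lt_or_gt_of_ne hwv with h | h
    · rw [if_neg (not_lt.2 h.le), if_pos h]; ring
    · rw [if_pos h, if_neg (not_lt.2 h.le)]; ring
  · rintro ⟨v, w⟩ hp _ heq
    simp only [mem_sigma, mem_compl, mem_insert, not_or] at hp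
    simp only [Sigma.mk.injEq, heq_eq_eq] at heq
    exact hp.2.1 heq.1
  · rintro ⟨v, w⟩ hp
    simp only [mem_sigma, mem_compl, mem_insert, not_or] at hp ⊢
    exact ⟨hp.2.2, fun h => hp.2.1 h.symm, hp.1⟩
  · rintro ⟨v, w⟩ _
    rfl

lemma bdry_sub (c d : Finset V → k) (G : Finset V) :
    bdry (fun F => c F - d F) G = bdry c G - bdry d G := by
  unfold bdry
  rw [← sum_sub_distrib]
  exact sum_congr rfl fun v _ => by ring

lemma bdry_sum {ι : Type*} (s : Finset ι) (c : ι → Finset V → k) (G : Finset V) :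
    bdry (fun F => ∑ i ∈ s, c i F) G = ∑ i ∈ s, bdry (c i) G := by
  unfold bdry
  rw [sum_comm]
  exact sum_congr rfl fun v _ => by rw [mul_sum]

lemma bdry_ne_zero {c : Finset V → k} {G : Finset V} (h : bdry c G ≠ 0) :
    ∃ v, v ∉ G ∧ c (insert v G) ≠ 0 := by
  unfold bdry at h
  obtain ⟨v, hv, hv2⟩ := exists_ne_zero_of_sum_ne_zero h
  exact ⟨v, by simpa using hv, right_ne_zero_of_mul hv2⟩

/-- The subcomplex obtained by deleting all faces that contain a member of `A`. -/
def del (Δ : Set (Finset V)) (A : Set (Finset V)) : Set (Finset V) :=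
  {F | F ∈ Δ ∧ ∀ σ ∈ A, ¬ σ ⊆ F}

lemma step {L : Set (Finset V)} {A : Finset (Finset V)}
    (hL : ∀ s ∈ L, ∀ t, t ⊆ s → t ∈ L)
    (hind : ∀ σ ∈ A, ∀ τ ∈ A, σ ≠ τ → σ ∪ τ ∉ L) (n : ℕ)
    (h0 : HVanish k L n)
    (h1 : ∀ σ ∈ A, σ.card ≤ n + 1 → HVanish k (link L σ) (n + 1 - σ.card)) :
    HVanish k (del L (A : Set (Finset V))) n := by
  intro c hc hcy
  obtain ⟨b, hb, hbc⟩ := h0 c (fun F hF => ⟨(hc F hF).1.1, (hc F hF).2⟩) hcy
  have hc0 : ∀ σ ∈ A, ∀ G, σ ⊆ G → c G = 0 := by
    intro σ hσ G hG
    by_contra hne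
    exact (hc G hne).1.2 σ (by simpa using hσ) hG
  have key : ∀ σ ∈ A, ∃ e : Finset V → k, IsChain L (n + 2) e ∧ (∀ G, e G ≠ 0 → σ ⊆ G) ∧
      ∀ G, σ ⊆ G → bdry e G = b G := by
    intro σ hσ
    by_cases hcard : σ.card ≤ n + 1
    · obtain ⟨d, hd, hdc⟩ := h1 σ hσ hcard
        (fun ρ => if Disjoint ρ σ then eps k σ ρ * b (ρ ∪ σ) else 0) (by
          intro τ hτ
          beta_reduce at hτ
          by_cases hdis : Disjoint τ σ
          · rw [if_pos hdis] at hτ
            have h3 := hb _ (right_ne_zero_of_mul hτ)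
            refine ⟨⟨hdis, h3.1⟩, ?_⟩
            have := h3.2
            rw [card_union_of_disjoint hdis] at this
            omega
          · rw [if_neg hdis] at hτ; exact absurd rfl hτ) (by
          intro τ
          by_cases hdis : Disjoint τ σ
          · rw [bdry_shift b hdis, hbc, hc0 σ hσ _ subset_union_right, mul_zero]
          · unfold bdry
            apply sum_eq_zero
            intro v _
            have hd : ¬ Disjoint (insert v τ) σ := by
              rw [disjoint_insert_left]; intro hh; exact hdis hh.2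
            beta_reduce
            rw [if_neg hd, mul_zero])
      refine ⟨fun G => if σ ⊆ G then eps k σ (G \ σ) * d (G \ σ) else 0, ?_, ?_, ?_⟩
      · intro G hG
        beta_reduce at hG
        by_cases hs : σ ⊆ G
        · rw [if_pos hs] at hG
          have h3 := hd _ (right_ne_zero_of_mul hG)
          have h4 := h3.1.2
          rw [sdiff_union_of_subset hs] at h4
          refine ⟨h4, ?_⟩
          have h5 := h3.2
          rw [card_sdiff_of_subset hs] at h5
          have := card_le_card hs
          omega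
        · rw [if_neg hs] at hG; exact absurd rfl hG
      · intro G hG
        beta_reduce at hG
        by_contra hs
        rw [if_neg hs] at hG; exact hG rfl
      · intro G hs
        set e : Finset V → k := fun G => if σ ⊆ G then eps k σ (G \ σ) * d (G \ σ) else 0 with he
        have hdis : Disjoint (G \ σ) σ := sdiff_disjoint
        have h6 := bdry_shift e hdis
        have h7 : (fun ρ => if Disjoint ρ σ then eps k σ ρ * e (ρ ∪ σ) else 0) = d := by
          funext ρ
          by_cases hρ : Disjoint ρ σ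
          · rw [if_pos hρ, he]
            simp only [subset_union_right, if_true]
            rw [union_sdiff_cancel_right hρ, ← mul_assoc, eps_sq, one_mul]
          · rw [if_neg hρ]
            by_contra hne
            exact hρ (hd ρ (Ne.symm hne)).1.1
        rw [h7, hdc, if_pos hdis, sdiff_union_of_subset hs] at h6
        have h8 : eps k σ (G \ σ) * (eps k σ (G \ σ) * b G) =
            eps k σ (G \ σ) * (eps k σ (G \ σ) * bdry e G) := by rw [h6]
        rw [← mul_assoc, ← mul_assoc, eps_sq, one_mul, one_mul] at h8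
        exact h8.symm
    · refine ⟨fun _ => 0, ?_, ?_, ?_⟩
      · intro G hG; exact absurd rfl hG
      · intro G hG; exact absurd rfl hG
      · intro G hs
        have : b G = 0 := by
          by_contra hne
          have h3 := (hb G hne).2
          have := card_le_card hs
          omega
        rw [this]
        unfold bdry
        simp
  choose! e he1 he2 he3 using key
  have hsub : ∀ σ ∈ A, ∀ G, bdry (e σ) G ≠ 0 → G ∈ L ∧ G.card = n + 1 ∧
      ∃ v, v ∉ G ∧ insert v G ∈ L ∧ σ ⊆ insert v G := by
    intro σ hσ G hG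
    obtain ⟨v, hv, hv2⟩ := bdry_ne_zero hG
    have h3 := he1 σ hσ _ hv2
    refine ⟨hL _ h3.1 _ (subset_insert v G), ?_, v, hv, h3.1, he2 σ hσ _ hv2⟩
    have := h3.2
    rw [card_insert_of_notMem hv] at this
    omega
  refine ⟨fun G => b G - ∑ σ ∈ A, bdry (e σ) G, ?_, ?_⟩
  · intro G hG
    beta_reduce at hG
    have hGL : G ∈ L ∧ G.card = n + 1 := by
      by_cases hbG : b G = 0
      · rw [hbG, zero_sub, neg_ne_zero] at hG
        obtain ⟨σ, hσ, hσ2⟩ := exists_ne_zero_of_sum_ne_zero hG
        exact ⟨(hsub σ hσ G hσ2).1, (hsub σ hσ G hσ2).2.1⟩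
      · exact hb G hbG
    refine ⟨⟨hGL.1, ?_⟩, hGL.2⟩
    intro σ0 hσ0' hs
    have hσ0 : σ0 ∈ A := by simpa using hσ0'
    apply hG
    rw [sum_eq_single_of_mem σ0 hσ0, he3 σ0 hσ0 G hs, sub_self]
    intro σ hσ hne
    by_contra hne2
    obtain ⟨-, -, v, hv, hvL, hvs⟩ := hsub σ hσ G hne2
    apply hind σ hσ σ0 hσ0 hne
    exact hL _ hvL _ (union_subset hvs (hs.trans (subset_insert v G)))
  · intro G
    rw [bdry_sub, hbc, bdry_sum]
    rw [sum_eq_zero, sub_zero]
    intro σ _
    exact bdry_bdry _ _

end Pool.Agent.H66.SR
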