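import Mathlib
import Pool.Agent.H66.SR1

open Finset

namespace Pool.Agent.H66.SR

set_option linter.unusedSectionVars false

variable {V : Type} [Fintype V] [LinearOrder V]

/-- `Δ` is a simplicial complex on the vertex set `V`: a set of finite subsets of `V`, containing
the empty set and closed under taking subsets. -/
def IsComplex (Δ : Set (Finset V)) : Prop := ∅ ∈ Δ ∧ ∀ s ∈ Δ, ∀ t, t ⊆ s → t ∈ Δ

/-- Serre's condition `(S_ℓ)` over `k`, in its homological form (Terai's criterion): for every
face `F` (including `∅`) and every `i < min (ℓ - 1) (dim (link F))`, the reduced homology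
`H_i (link F; k)` vanishes.  Here `n = i + 1`, and `n < dim (link F) + 1` is expressed by saying
that `link F` has a face with more than `n` vertices. -/
def Serre (k : Type) [Field k] (Δ : Set (Finset V)) (ℓ : ℕ) : Prop :=
  ∀ F ∈ Δ, ∀ n < ℓ, (∃ G ∈ link Δ F, n < G.card) → HVanish k (link Δ F) n

/-- `F` is a facet (an inclusion-maximal face) of `Δ`. -/
def IsFacet (Δ : Set (Finset V)) (F : Finset V) : Prop := F ∈ Δ ∧ ∀ G ∈ Δ, F ⊆ G → G = F

/-- `A` is an independent set of faces of `Δ`. -/
def Independent (Δ A : Set (Finset V)) : Prop :=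
  A ⊆ Δ ∧ ∀ σ ∈ A, ∀ τ ∈ A, σ ≠ τ → σ ∪ τ ∉ Δ

/-- `A` is an excellent set of faces of `Δ`. -/
def Excellent (Δ A : Set (Finset V)) : Prop :=
  Independent Δ A ∧ ∀ F, IsFacet Δ F → ∃ σ ∈ A, σ ⊆ F

lemma exists_facet (Δ : Set (Finset V)) {F : Finset V} (hF : F ∈ Δ) :
    ∃ G, IsFacet Δ G ∧ F ⊆ G := by
  classical
  let S : Finset (Finset V) := (univ : Finset (Finset V)).filter (fun G => G ∈ Δ ∧ F ⊆ G)
  have hS : S.Nonempty := ⟨F, by simp [S, hF]⟩
  obtain ⟨G, hG, hmax⟩ := exists_max_image S card hS
  simp only [S, mem_filter, mem_univ, true_and] at hG hmax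
  refine ⟨G, ⟨hG.1, ?_⟩, hG.2⟩
  intro H hH hGH
  exact (eq_of_subset_of_card_le hGH (hmax H ⟨hH, hG.2.trans hGH⟩)).symm

lemma link_link {Δ : Set (Finset V)} {F σ : Finset V} (h : Disjoint σ F) :
    link (link Δ F) σ = link Δ (F ∪ σ) := by
  ext G
  simp only [link, Set.mem_ofPred_eq, disjoint_union_left, disjoint_union_right]
  constructor
  · rintro ⟨h1, ⟨h2, -⟩, h3⟩
    refine ⟨⟨h2, h1⟩, ?_⟩
    rw [union_comm F σ, ← union_assoc]; exact h3
  · rintro ⟨⟨h1, h2⟩, h3⟩
    refine ⟨h2, ⟨h1, h⟩, ?_⟩
    rw [union_comm F σ, ← union_assoc] at h3; exact h3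

lemma hvanish_zero {k : Type} [Field k] {L : Set (Finset V)} (hL : ∀ s ∈ L, ∀ t, t ⊆ s → t ∈ L)
    (h : ∃ G ∈ L, 0 < G.card) : HVanish k L 0 := by
  obtain ⟨G, hG, hpos⟩ := h
  obtain ⟨v, hv⟩ := card_pos.1 hpos
  have hvL : ({v} : Finset V) ∈ L := hL G hG _ (by simpa using hv)
  intro c hc _
  refine ⟨fun F => if F = {v} then c ∅ else 0, ?_, ?_⟩
  · intro F hF
    beta_reduce at hF
    by_cases h1 : F = {v}
    · subst h1; exact ⟨hvL, by simp⟩
    · rw [if_neg h1] at hF; exact absurd rfl hF
  · intro F
    by_cases hF : F = ∅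
    · subst hF
      unfold bdry
      rw [sum_eq_single_of_mem v (by simp)]
      · simp [sgn]
      · intro w _ hw
        have : ¬ (insert w (∅ : Finset V) = {v}) := by
          intro h; apply hw; simpa using h
        beta_reduce
        rw [if_neg this, mul_zero]
    · have h1 : c F = 0 := by
        by_contra hne
        exact hF (card_eq_zero.1 (hc F hne).2)
      rw [h1]
      unfold bdry
      apply sum_eq_zero
      intro w hw
      have : ¬ (insert w F = {v}) := by
        intro h
        have h2 := congrArg card h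
        rw [card_insert_of_notMem (by simpa using hw), card_singleton] at h2
        exact hF (card_eq_zero.1 (by omega))
      beta_reduce
      rw [if_neg this, mul_zero]

/-- complexes with `(S_2)` are pure -/
lemma pure {k : Type} [Field k] {Δ : Set (Finset V)} (hΔ : IsComplex Δ) {ℓ : ℕ} (hℓ : 2 ≤ ℓ)
    (hS : Serre k Δ ℓ) : ∀ m : ℕ, ∀ F ∈ Δ, Fintype.card V - F.card ≤ m → ∀ G1 G2,
      IsFacet Δ G1 → IsFacet Δ G2 → F ⊆ G1 → F ⊆ G2 → G1.card = G2.card := by
  classical
  intro m
  induction m with
  | zero =>
    intro F hF hm G1 G2 h1 h2 hs1 hs2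
    have hcard : F = univ := by
      apply (card_eq_iff_eq_univ F).1
      have := card_le_univ F
      omega
    subst hcard
    rw [(univ_subset_iff.1 hs1), (univ_subset_iff.1 hs2)]
  | succ m ih =>
    intro F hF hm G1 G2 h1 h2 hs1 hs2
    by_contra hne
    have hF1 : F ≠ G1 := by
      rintro rfl
      rw [h1.2 G2 h2.1 hs2] at hne
      exact hne rfl
    have hF2 : F ≠ G2 := by
      rintro rfl
      rw [h2.2 G1 h1.1 hs1] at hne
      exact hne rfl
    obtain ⟨v1, hv1, hv1'⟩ := exists_of_ssubset (Finset.ssubset_iff_subset_ne.2 ⟨hs1, hF1⟩)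
    obtain ⟨v2, hv2, hv2'⟩ := exists_of_ssubset (Finset.ssubset_iff_subset_ne.2 ⟨hs2, hF2⟩)
    have hins1 : insert v1 F ⊆ G1 := insert_subset hv1 hs1
    have hins2 : insert v2 F ⊆ G2 := insert_subset hv2 hs2
    -- induction hypothesis for `insert v F`
    have ih' : ∀ v, v ∉ F → insert v F ∈ Δ → ∀ H1 H2, IsFacet Δ H1 → IsFacet Δ H2 →
        insert v F ⊆ H1 → insert v F ⊆ H2 → H1.card = H2.card := by
      intro v hv hvF
      apply ih (insert v F) hvF
      rw [card_insert_of_notMem hv]
      omega
    have hv12 : v1 ≠ v2 := by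
      rintro rfl
      exact hne (ih' v1 hv1' (hΔ.2 _ h1.1 _ hins1) G1 G2 h1 h2 hins1 hins2)
    -- a face of the link with at least two vertices
    have hbig : ∃ G ∈ link Δ F, 1 < G.card := by
      have key : ∀ G, IsFacet Δ G → F ⊆ G → F.card + 1 < G.card → ∃ G ∈ link Δ F, 1 < G.card := by
        intro G hG hs hc
        refine ⟨G \ F, ⟨sdiff_disjoint, ?_⟩, ?_⟩
        · rw [sdiff_union_of_subset hs]; exact hG.1
        · rw [card_sdiff_of_subset hs]; omega
      by_contra hcon
      have k1 : ¬ F.card + 1 < G1.card := fun h => hcon (key G1 h1 hs1 h)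
      have k2 : ¬ F.card + 1 < G2.card := fun h => hcon (key G2 h2 hs2 h)
      have c1 := card_le_card hins1
      have c2 := card_le_card hins2
      rw [card_insert_of_notMem hv1'] at c1
      rw [card_insert_of_notMem hv2'] at c2
      exact hne (by omega)
    have hH := hS F hF 1 (by omega) hbig
    let U : Finset V := univ.filter (fun v => v ∉ F ∧ insert v F ∈ Δ ∧
      ∃ H, IsFacet Δ H ∧ insert v F ⊆ H ∧ H.card = G1.card)
    have hU1 : v1 ∈ U := by
      simp only [U, mem_filter, mem_univ, true_and]
      exact ⟨hv1', hΔ.2 _ h1.1 _ hins1, G1, h1, hins1, rfl⟩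
    have hU2 : v2 ∉ U := by
      simp only [U, mem_filter, mem_univ, true_and, not_and, not_exists]
      intro _ hvF H hH1 hH2 hH3
      exact hne (hH3.symm.trans (ih' v2 hv2' hvF H G2 hH1 h2 hH2 hins2))
    have hlinkv : ∀ v, v ∉ F → insert v F ∈ Δ → ({v} : Finset V) ∈ link Δ F := by
      intro v hv hvF
      refine ⟨by simpa using hv, ?_⟩
      rw [singleton_union]; exact hvF
    obtain ⟨d, hd, hdc⟩ := hH (fun G => if G = {v1} then 1 else if G = {v2} then -1 else 0) (by
      intro G hG
      beta_reduce at hG
      by_cases e1 : G = {v1}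
      · subst e1
        exact ⟨hlinkv v1 hv1' (hΔ.2 _ h1.1 _ hins1), by simp⟩
      · rw [if_neg e1] at hG
        by_cases e2 : G = {v2}
        · subst e2
          exact ⟨hlinkv v2 hv2' (hΔ.2 _ h2.1 _ hins2), by simp⟩
        · rw [if_neg e2] at hG; exact absurd rfl hG) (by
      intro G
      by_cases hG : G = ∅
      · subst hG
        unfold bdry
        have hsum : ∀ v ∈ (∅ : Finset V)ᶜ, sgn k v ∅ * (if insert v (∅ : Finset V) = {v1} then (1 : k)
            else if insert v (∅ : Finset V) = {v2} then -1 else 0) =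
            (if v = v1 then 1 else 0) - (if v = v2 then 1 else 0) := by
          intro v _
          have i1 : (insert v (∅ : Finset V) = {v1}) ↔ v = v1 := by simp
          have i2 : (insert v (∅ : Finset V) = {v2}) ↔ v = v2 := by simp
          simp only [i1, i2]
          by_cases a1 : v = v1
          · subst a1
            simp [sgn, hv12]
          · by_cases a2 : v = v2
            · subst a2
              simp [sgn, a1]
            · simp [a1, a2]
        rw [sum_congr rfl hsum, sum_sub_distrib]
        simp
      · unfold bdry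
        apply sum_eq_zero
        intro v hv
        have hc : (insert v G).card ≠ 1 := by
          rw [card_insert_of_notMem (by simpa using hv)]
          intro h
          exact hG (card_eq_zero.1 (by omega))
        have a1 : ¬ (insert v G = {v1}) := fun h => hc (by rw [h]; simp)
        have a2 : ¬ (insert v G = {v2}) := fun h => hc (by rw [h]; simp)
        beta_reduce
        rw [if_neg a1, if_neg a2, mul_zero])
    have hsum1 : ∑ v ∈ U, bdry d {v} = 1 := by
      have : ∀ v ∈ U, bdry d {v} = if v = v1 then 1 else 0 := by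
        intro v hv
        rw [hdc]
        have i1 : (({v} : Finset V) = {v1}) ↔ v = v1 := by simp
        have i2 : (({v} : Finset V) = {v2}) ↔ v = v2 := by simp
        simp only [i1, i2]
        have : v ≠ v2 := by rintro rfl; exact hU2 hv
        simp [this]
      rw [sum_congr rfl this, sum_ite_eq' U v1, if_pos hU1]
    -- pairs
    have hclosed : ∀ v w, v ≠ w → v ∈ U → d (insert w {v}) ≠ 0 → w ∈ U := by
      intro v w hvw hv hd0
      obtain ⟨⟨hdis, hmem⟩, -⟩ := hd _ hd0
      simp only [U, mem_filter, mem_univ, true_and] at hv ⊢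
      obtain ⟨hvF, hvΔ, H, hH1, hH2, hH3⟩ := hv
      have hwF : w ∉ F := by
        intro h
        exact (disjoint_left.1 hdis (mem_insert_self w _)) h
      obtain ⟨K, hK, hK2⟩ := exists_facet Δ hmem
      have s1 : insert v F ⊆ K := by
        apply insert_subset
        · exact hK2 (mem_union_left _ (by simp))
        · exact subset_union_right.trans hK2
      have s2 : insert w F ⊆ K := by
        apply insert_subset
        · exact hK2 (mem_union_left _ (by simp))
        · exact subset_union_right.trans hK2
      refine ⟨hwF, hΔ.2 _ hK.1 _ s2, K, hK, s2, ?_⟩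
      rw [← hH3]
      exact ih' v hvF hvΔ K H hK hH1 s1 hH2
    have hsum2 : ∑ v ∈ U, bdry d {v} = 0 := by
      unfold bdry
      rw [sum_sigma']
      apply sum_involution (fun (p : Σ _ : V, V) _ =>
        if d (insert p.2 {p.1}) = 0 then p else (⟨p.2, p.1⟩ : Σ _ : V, V))
      · rintro ⟨v, w⟩ hp
        simp only [mem_sigma, mem_compl, mem_singleton] at hp
        simp only
        by_cases h0 : d (insert w {v}) = 0
        · rw [if_pos h0]; simp [h0]
        · rw [if_neg h0]
          simp only
          have hcomm : insert v ({w} : Finset V) = insert w {v} := Finset.pair_comm v w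
          rw [hcomm, ← add_mul]
          have hs : sgn k w {v} + sgn k v {w} = 0 := by
            unfold sgn
            rcases lt_or_gt_of_ne hp.2 with h | h
            · simp [filter_singleton, h, not_lt.2 h.le]
            · simp [filter_singleton, h, not_lt.2 h.le]
          rw [hs, zero_mul]
      · rintro ⟨v, w⟩ hp hne0 heq
        simp only [mem_sigma, mem_compl, mem_singleton] at hp
        simp only at hne0 heq
        have h0 : d (insert w {v}) ≠ 0 := right_ne_zero_of_mul hne0
        rw [if_neg h0] at heq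
        simp only [Sigma.mk.injEq, heq_eq_eq] at heq
        exact hp.2 heq.1
      · rintro ⟨v, w⟩ hp
        simp only
        by_cases h0 : d (insert w {v}) = 0
        · rw [if_pos h0]; exact hp
        · rw [if_neg h0]
          simp only [mem_sigma, mem_compl, mem_singleton] at hp ⊢
          exact ⟨hclosed v w (fun h => hp.2 h.symm) hp.1 h0, fun h => hp.2 h.symm⟩
      · rintro ⟨v, w⟩ _
        simp only
        by_cases h0 : d (insert w {v}) = 0
        · rw [if_pos h0, if_pos h0]
        · rw [if_neg h0]
          simp only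
          have hcomm : insert v ({w} : Finset V) = insert w {v} := Finset.pair_comm v w
          rw [hcomm, if_neg h0]
    rw [hsum1] at hsum2
    exact one_ne_zero hsum2

end Pool.Agent.H66.SR
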